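import Mathlib

/-!
# G3 A Amp: the approximate maximum principle

* `amp`: holomorphic functions `g i` on finitely many discs which cover (with half the radii) the compact set `K` and which agree on the overlaps up to `ε`:
  `‖g i‖ ≤ M` on the boundary of `K` implies `‖g i‖ ≤ M + A ε` on `K`, `A` depends only on the discs and on `K`.
-/

set_option autoImplicit false

namespace Pool.Agent.G3.A

open Complex Filter Topology Metric Set

/-- no strict local maxima: `‖g‖ + ε (κ |z|^2 - b |z - c|^2)`, `b < κ`, has no local maximum -/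
theorem amp_noMax {g : ℂ → ℂ} {p c : ℂ} {ε κ b : ℝ} (hε : 0 < ε) (hb : b < κ) (hg : ∀ᶠ z in 𝓝 p, DifferentiableAt ℂ g z)
    (hmax : ∀ᶠ z in 𝓝 p, ‖g z‖ + ε * (κ * ‖z‖ ^ 2 - b * ‖z - c‖ ^ 2) ≤ ‖g p‖ + ε * (κ * ‖p‖ ^ 2 - b * ‖p - c‖ ^ 2)) : False := by
  -- a unimodular constant
  obtain ⟨u, hu, hup⟩ : ∃ u : ℂ, ‖u‖ = 1 ∧ u * g p = (‖g p‖ : ℂ) := by
    by_cases h : g p = 0
    · exact ⟨1, by simp, by simp [h]⟩
    · have hn : (‖g p‖ : ℂ) ≠ 0 := by exact_mod_cast norm_ne_zero_iff.2 h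
      refine ⟨(‖g p‖ : ℂ) / g p, ?_, ?_⟩
      · rw [norm_div, Complex.norm_real, norm_norm, div_self (norm_ne_zero_iff.2 h)]
      · rw [div_mul_cancel₀ _ h]
  set m : ℂ := 2 * (κ : ℂ) * (starRingEnd ℂ) p - 2 * (b : ℂ) * (starRingEnd ℂ) (p - c) with hm
  set P : ℂ → ℂ := fun z => u * g z + (ε : ℂ) * (m * (z - p)) with hP
  have hPp : (P p).re = ‖g p‖ := by
    simp only [hP, sub_self, mul_zero, add_zero, hup, ofReal_re]
  have hexp : ∀ z : ℂ, κ * ‖z‖ ^ 2 - b * ‖z - c‖ ^ 2 = κ * ‖p‖ ^ 2 - b * ‖p - c‖ ^ 2 + (m * (z - p)).re + (κ - b) * ‖z - p‖ ^ 2 := by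
    intro z
    rw [hm]
    simp only [← Complex.normSq_eq_norm_sq, Complex.normSq_apply, sub_re, sub_im, mul_re, mul_im, conj_re, conj_im, ofReal_re, ofReal_im, re_ofNat,
      im_ofNat, map_sub]
    ring
  have hle : ∀ᶠ z in 𝓝 p, (P z).re + ε * (κ - b) * ‖z - p‖ ^ 2 ≤ (P p).re := by
    filter_upwards [hmax] with z hz
    rw [hPp]
    have h1 : (u * g z).re ≤ ‖g z‖ := by
      calc (u * g z).re ≤ ‖u * g z‖ := re_le_norm _
        _ = ‖g z‖ := by rw [norm_mul, hu, one_mul]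
    have h2 : (P z).re = (u * g z).re + ε * (m * (z - p)).re := by
      simp only [hP, add_re, re_ofReal_mul]
    have h3 := hexp z
    rw [h3] at hz
    have h4 : ε * (κ * ‖p‖ ^ 2 - b * ‖p - c‖ ^ 2 + (m * (z - p)).re + (κ - b) * ‖z - p‖ ^ 2) =
        ε * (κ * ‖p‖ ^ 2 - b * ‖p - c‖ ^ 2) + ε * (m * (z - p)).re + ε * (κ - b) * ‖z - p‖ ^ 2 := by ring
    rw [h4] at hz
    rw [h2]
    linarith
  have hpos : 0 < ε * (κ - b) := mul_pos hε (by linarith)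
  have hd : ∀ᶠ z in 𝓝 p, DifferentiableAt ℂ (fun w => cexp (P w)) z := by
    filter_upwards [hg] with z hz
    have h1 : DifferentiableAt ℂ P z := by
      have h2 : DifferentiableAt ℂ (fun w => u * g w) z := hz.const_mul u
      have h3 : DifferentiableAt ℂ (fun w : ℂ => (ε : ℂ) * (m * (w - p))) z := by fun_prop
      exact h2.add h3
    exact h1.cexp
  have hloc : IsLocalMax (norm ∘ fun w => cexp (P w)) p := by
    filter_upwards [hle] with z hz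
    simp only [Function.comp_apply, Complex.norm_exp]
    apply Real.exp_le_exp.2
    have : 0 ≤ ε * (κ - b) * ‖z - p‖ ^ 2 := by positivity
    linarith
  have hconst := Complex.eventually_eq_of_isLocalMax_norm hd hloc
  have hall : ∀ᶠ z in 𝓝 p, z = p := by
    filter_upwards [hconst, hle] with z h1 h2
    have h3 : Real.exp (P z).re = Real.exp (P p).re := by
      rw [← Complex.norm_exp, ← Complex.norm_exp, h1]
    have h4 : (P z).re = (P p).re := Real.exp_injective h3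
    rw [h4] at h2
    have h5 : ε * (κ - b) * ‖z - p‖ ^ 2 ≤ 0 := by linarith
    have h6 : ‖z - p‖ ^ 2 ≤ 0 := by
      by_contra h
      rw [not_le] at h
      have := mul_pos hpos h
      linarith
    have h7 : ‖z - p‖ = 0 := by
      have := sq_nonneg ‖z - p‖
      have h8 : ‖z - p‖ ^ 2 = 0 := le_antisymm h6 this
      exact pow_eq_zero_iff (two_ne_zero) |>.1 h8
    exact sub_eq_zero.1 (norm_eq_zero.1 h7)
  have h1 : ∀ᶠ z in 𝓝[≠] p, z = p := hall.filter_mono nhdsWithin_le_nhds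
  have h2 : ∀ᶠ z in 𝓝[≠] p, z ≠ p := self_mem_nhdsWithin
  obtain ⟨z, hz1, hz2⟩ := (h1.and h2).exists
  exact hz2 hz1

/-- approximate maximum principle -/
theorem amp {ι : Type*} (s : Finset ι) (zc : ι → ℂ) (rr : ι → ℝ) (hr : ∀ i ∈ s, 0 < rr i) {K : Set ℂ} (hK : IsCompact K)
    (hcov : ∀ z ∈ K, ∃ i ∈ s, dist z (zc i) < rr i / 2) :
    ∃ A : ℝ, 0 ≤ A ∧ ∀ (g : ι → ℂ → ℂ) (ε M : ℝ), 0 ≤ ε → (∀ i ∈ s, DifferentiableOn ℂ (g i) (ball (zc i) (rr i))) →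
      (∀ i ∈ s, ∀ j ∈ s, ∀ z ∈ K, z ∈ ball (zc i) (rr i) → z ∈ ball (zc j) (rr j) → ‖g i z - g j z‖ ≤ ε) →
      (∀ i ∈ s, ∀ z ∈ frontier K, z ∈ ball (zc i) (rr i) → ‖g i z‖ ≤ M) →
      ∀ i ∈ s, ∀ z ∈ K, z ∈ ball (zc i) (rr i) → ‖g i z‖ ≤ M + A * ε := by
  classical
  set κ : ℝ := ∑ i ∈ s, 2 / rr i ^ 2 + 1 with hκ
  have hκi : ∀ i ∈ s, 2 / rr i ^ 2 < κ := by
    intro i hi
    have h1 : 2 / rr i ^ 2 ≤ ∑ i ∈ s, 2 / rr i ^ 2 := Finset.single_le_sum (f := fun i => 2 / rr i ^ 2) (fun j _ => by positivity) hi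
    linarith
  have hκ0 : 0 < κ := by
    have : 0 ≤ ∑ i ∈ s, 2 / rr i ^ 2 := Finset.sum_nonneg fun j _ => by positivity
    linarith
  obtain ⟨R, hR⟩ := hK.isBounded.exists_norm_le
  refine ⟨κ * R ^ 2 + 2, by positivity, ?_⟩
  -- the case `0 < ε`
  have key : ∀ (g : ι → ℂ → ℂ) (ε M : ℝ), 0 < ε → (∀ i ∈ s, DifferentiableOn ℂ (g i) (ball (zc i) (rr i))) →
      (∀ i ∈ s, ∀ j ∈ s, ∀ z ∈ K, z ∈ ball (zc i) (rr i) → z ∈ ball (zc j) (rr j) → ‖g i z - g j z‖ ≤ ε) →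
      (∀ i ∈ s, ∀ z ∈ frontier K, z ∈ ball (zc i) (rr i) → ‖g i z‖ ≤ M) →
      ∀ i ∈ s, ∀ z ∈ K, z ∈ ball (zc i) (rr i) → ‖g i z‖ ≤ M + (κ * R ^ 2 + 2) * ε := by
    intro g ε M hε hd hov hfr i hi z hz hzi
    set v : ι → ℂ → ℝ := fun j w => ‖g j w‖ + ε * (κ * ‖w‖ ^ 2 - 2 / rr j ^ 2 * ‖w - zc j‖ ^ 2) with hv
    set Kj : ι → Set ℂ := fun j => K ∩ closedBall (zc j) (9 / 10 * rr j) with hKj
    have hsub : ∀ j ∈ s, closedBall (zc j) (9 / 10 * rr j) ⊆ ball (zc j) (rr j) := fun j hj =>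
      closedBall_subset_ball (by have := hr j hj; linarith)
    have hKjc : ∀ j ∈ s, IsCompact (v j '' Kj j) := by
      intro j hj
      refine (hK.inter_right isClosed_closedBall).image_of_continuousOn ?_
      have h1 : ContinuousOn (g j) (Kj j) := (hd j hj).continuousOn.mono (inter_subset_right.trans (hsub j hj))
      have h2 : ContinuousOn (fun w : ℂ => ε * (κ * ‖w‖ ^ 2 - 2 / rr j ^ 2 * ‖w - zc j‖ ^ 2)) (Kj j) := by fun_prop
      exact h1.norm.add h2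
    set T : Set ℝ := ⋃ j ∈ s, v j '' Kj j with hT
    have hTc : IsCompact T := s.isCompact_biUnion hKjc
    have hmem : ∀ w ∈ K, ∀ j ∈ s, dist w (zc j) < rr j / 2 → v j w ∈ T := by
      intro w hw j hj hwj
      have h1 := hr j hj
      exact mem_iUnion₂.2 ⟨j, hj, w, ⟨hw, mem_closedBall.2 (by linarith)⟩, rfl⟩
    obtain ⟨j₀, hj₀, hzj₀⟩ := hcov z hz
    obtain ⟨t, htT, htmax⟩ := hTc.exists_isGreatest ⟨_, hmem z hz j₀ hj₀ hzj₀⟩
    obtain ⟨k, hk, p, ⟨hpK, hpk⟩, rfl⟩ := mem_iUnion₂.1 htT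
    have hrk := hr k hk
    -- `p` is not at the boundary of the disc `k`
    have hdist : dist p (zc k) < 9 / 10 * rr k := by
      by_contra hcon
      rw [not_lt] at hcon
      obtain ⟨j, hj, hpj⟩ := hcov p hpK
      have h1 := htmax (hmem p hpK j hj hpj)
      have hrj := hr j hj
      have h2 : ‖g k p - g j p‖ ≤ ε := hov k hk j hj p hpK (hsub k hk hpk) (mem_ball.2 (by linarith))
      have h3 : ‖g k p‖ ≤ ‖g j p‖ + ε := by
        have := norm_sub_norm_le (g k p) (g j p)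
        linarith
      have h4 : 2 / rr j ^ 2 * ‖p - zc j‖ ^ 2 ≤ 1 / 2 := by
        rw [← dist_eq_norm]
        have h5 : dist p (zc j) ^ 2 ≤ (rr j / 2) ^ 2 := by gcongr
        calc 2 / rr j ^ 2 * dist p (zc j) ^ 2 ≤ 2 / rr j ^ 2 * (rr j / 2) ^ 2 := by gcongr
          _ = 1 / 2 := by field_simp
      have h6 : 2 * (81 / 100) ≤ 2 / rr k ^ 2 * ‖p - zc k‖ ^ 2 := by
        rw [← dist_eq_norm]
        have h5 : (9 / 10 * rr k) ^ 2 ≤ dist p (zc k) ^ 2 := by gcongr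
        calc 2 * (81 / 100) = 2 / rr k ^ 2 * (9 / 10 * rr k) ^ 2 := by field_simp; norm_num
          _ ≤ 2 / rr k ^ 2 * dist p (zc k) ^ 2 := by gcongr
      simp only [hv] at h1
      have h7 : ε * (κ * ‖p‖ ^ 2 - 2 / rr j ^ 2 * ‖p - zc j‖ ^ 2) ≥ ε * (κ * ‖p‖ ^ 2 - 1 / 2) := by
        apply mul_le_mul_of_nonneg_left _ hε.le
        linarith
      have h8 : ε * (κ * ‖p‖ ^ 2 - 2 / rr k ^ 2 * ‖p - zc k‖ ^ 2) ≤ ε * (κ * ‖p‖ ^ 2 - 2 * (81 / 100)) := by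
        apply mul_le_mul_of_nonneg_left _ hε.le
        linarith
      nlinarith
    have hpb : p ∈ ball (zc k) (rr k) := hsub k hk hpk
    -- `p` is on the boundary of `K`
    have hpf : p ∈ frontier K := by
      rw [hK.isClosed.frontier_eq]
      refine ⟨hpK, fun hint => ?_⟩
      refine amp_noMax (g := g k) (p := p) (c := zc k) (κ := κ) (b := 2 / rr k ^ 2) hε (hκi k hk) ?_ ?_
      · filter_upwards [isOpen_ball.mem_nhds hpb] with w hw
        exact (hd k hk).differentiableAt (isOpen_ball.mem_nhds hw)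
      · have h1 : ∀ᶠ w in 𝓝 p, w ∈ K := mem_interior_iff_mem_nhds.1 hint
        have h2 : ∀ᶠ w in 𝓝 p, w ∈ ball (zc k) (9 / 10 * rr k) := isOpen_ball.mem_nhds hdist
        filter_upwards [h1, h2] with w hw1 hw2
        exact htmax (mem_iUnion₂.2 ⟨k, hk, w, ⟨hw1, ball_subset_closedBall hw2⟩, rfl⟩)
    have hMp : ‖g k p‖ ≤ M := hfr k hk p hpf hpb
    have hvp : v k p ≤ M + ε * (κ * R ^ 2) := by
      simp only [hv]
      have h1 : ε * (κ * ‖p‖ ^ 2 - 2 / rr k ^ 2 * ‖p - zc k‖ ^ 2) ≤ ε * (κ * R ^ 2) := by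
        apply mul_le_mul_of_nonneg_left _ hε.le
        have h2 : κ * ‖p‖ ^ 2 ≤ κ * R ^ 2 := by
          have := hR p hpK
          gcongr
        have h3 : 0 ≤ 2 / rr k ^ 2 * ‖p - zc k‖ ^ 2 := by positivity
        linarith
      linarith
    have hvz : v j₀ z ≤ v k p := htmax (hmem z hz j₀ hj₀ hzj₀)
    have hrj₀ := hr j₀ hj₀
    have h1 : ‖g i z - g j₀ z‖ ≤ ε := hov i hi j₀ hj₀ z hz hzi (mem_ball.2 (by linarith))
    have h2 : ‖g i z‖ ≤ ‖g j₀ z‖ + ε := by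
      have := norm_sub_norm_le (g i z) (g j₀ z)
      linarith
    have h4 : 2 / rr j₀ ^ 2 * ‖z - zc j₀‖ ^ 2 ≤ 1 / 2 := by
      rw [← dist_eq_norm]
      have h5 : dist z (zc j₀) ^ 2 ≤ (rr j₀ / 2) ^ 2 := by gcongr
      calc 2 / rr j₀ ^ 2 * dist z (zc j₀) ^ 2 ≤ 2 / rr j₀ ^ 2 * (rr j₀ / 2) ^ 2 := by gcongr
        _ = 1 / 2 := by field_simp
    have h5 : ‖g j₀ z‖ ≤ v j₀ z + ε * (1 / 2) := by
      simp only [hv]
      have h6 : 0 ≤ κ * ‖z‖ ^ 2 := by positivity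
      have h7 : -(ε * (1 / 2)) ≤ ε * (κ * ‖z‖ ^ 2 - 2 / rr j₀ ^ 2 * ‖z - zc j₀‖ ^ 2) := by
        have : ε * (-(1 / 2)) ≤ ε * (κ * ‖z‖ ^ 2 - 2 / rr j₀ ^ 2 * ‖z - zc j₀‖ ^ 2) := by
          apply mul_le_mul_of_nonneg_left _ hε.le
          linarith
        linarith
      linarith
    nlinarith
  intro g ε M hε hd hov hfr i hi z hz hzi
  rcases hε.eq_or_lt with h0 | h0
  · have hle : ∀ ε' : ℝ, 0 < ε' → ‖g i z‖ ≤ M + (κ * R ^ 2 + 2) * ε' := by
      intro ε' hε'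
      exact key g ε' M hε' hd (fun a ha b hb w hw hwa hwb => (hov a ha b hb w hw hwa hwb).trans (by rw [← h0]; exact hε'.le)) hfr i hi z hz hzi
    rw [← h0, mul_zero, add_zero]
    have hA : 0 < κ * R ^ 2 + 2 := by positivity
    refine le_of_forall_pos_le_add fun η hη => ?_
    have := hle (η / (κ * R ^ 2 + 2)) (by positivity)
    rwa [mul_div_cancel₀ _ hA.ne'] at this
  · exact key g ε M h0 hd hov hfr i hi z hz hzi

end Pool.Agent.G3.A
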