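import Pool.Agent.G3.A.Fin

/-!
# G3 A Cns: the number of curves is constant on `b + E`, and the curves move continuously

`ncard_eq`: the number is the same for `y`, `y + z a`, `y + l` (`hc_add`, `hc_per`), these are dense in `b + E` (`ToE.dns`), `ncard_usc` in both directions.
`hc_move`: as `y n → y₀` in `b + E` the limits of the different curves over `y n` are different (`lm_sep`), so they are all the curves over `y₀`.
`near_exists`: uniform version, by contradiction with `CE.cpt` (translations) and `hc_move`; uniqueness by `loc_rigid`.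
-/

set_option autoImplicit false

open Topology Filter Metric

namespace Pool.Agent.G3.A

open Pool.Agent.H36.BP (EN fs wd)
open Pool.Agent.H14.PP (IsCone CurveAt Tan)
open Pool.Agent.H62.EF (MN pr)
open Pool.Agent.AD (Vd Chart Charts IsGerm)
open Pool.Agent.TG
open Pool.Agent.G3.C (Gc HP)

variable {N k : ℕ} {X : Set (EN N)} {Λ : AddSubgroup (Vd (k + 1))} {u : EN N → Vd (k + 1)} {D B Bad : Set (Vd (k + 1))} {a : Vd (k + 1)}

variable {J : ℕ} {α : Fin J → VForm X Λ u} {c₀ C₀ ρ δ : ℝ} {E : Submodule ℝ (Vd (k + 1))} {b : Vd (k + 1)}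

private theorem cns_add (y : Vd (k + 1)) (z₁ : ℂ) : (Hc X Λ u a (y + z₁ • a)).ncard = (Hc X Λ u a y).ncard := by
  symm
  refine Set.ncard_congr (fun (f : ℂ → MN N) (_ : f ∈ Hc X Λ u a y) => fun z : ℂ => f (z₁ + z)) (fun f hf => hc_add hf z₁) ?_ ?_
  · intro f g _ _ h
    funext z
    have h1 := congrFun h (z - z₁)
    simp only [add_sub_cancel] at h1
    exact h1
  · intro g hg
    have h1 := hc_add hg (-z₁)
    have e : y + z₁ • a + (-z₁) • a = y := by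
      rw [neg_smul, add_assoc, add_neg_cancel, add_zero]
    rw [e] at h1
    refine ⟨_, h1, ?_⟩
    funext z
    simp only [neg_add_cancel_left]

private theorem cns_le (S : DA X Λ u D B Bad a α c₀ C₀ ρ δ) (hE : ToE Λ a E) {y y' : Vd (k + 1)} (hy : y' - y ∈ E) :
    (Hc X Λ u a y).ncard ≤ (Hc X Λ u a y').ncard := by
  obtain ⟨ε, hε, h⟩ := Metric.eventually_nhds_iff.1 (ncard_usc S y')
  obtain ⟨l, hl, -, z, hz⟩ := hE.dns _ hy (ε / 2) (by positivity)
  have h1 : dist (y + l + z • a) y' < ε := by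
    rw [dist_eq_norm, ← norm_neg]
    have e : -(y + l + z • a - y') = y' - y - (l + z • a) := by abel
    rw [e]
    linarith
  have h2 := h h1
  rwa [cns_add, hc_per hl] at h2

theorem ncard_eq (S : DA X Λ u D B Bad a α c₀ C₀ ρ δ) (hE : ToE Λ a E) {y : Vd (k + 1)} (hy : y ∈ Tb b E) : (Hc X Λ u a y).ncard = (Hc X Λ u a b).ncard := by
  have h1 : y - b ∈ E := hy
  have h2 : b - y ∈ E := by
    have h3 := E.neg_mem h1
    rwa [neg_sub] at h3
  exact le_antisymm (cns_le S hE h2) (cns_le S hE h1)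

theorem ToE.ce (S : DA X Λ u D B Bad a α c₀ C₀ ρ δ) (hE : ToE Λ a E) (b : Vd (k + 1)) : CE X Λ u a b E where
  mem := hE.mem
  cpt := hE.cpt
  card := fun _ hy => ncard_eq S hE hy

theorem hc_move (S : DA X Λ u D B Bad a α c₀ C₀ ρ δ) (hE : CE X Λ u a b E) {ι : Type*} {𝒰 : Ultrafilter ι} {y : ι → Vd (k + 1)} {y₀ : Vd (k + 1)} (hy : Tendsto y 𝒰 (𝓝 y₀))
    (hyT : ∀ᶠ n in (𝒰 : Filter ι), y n ∈ Tb b E) (hy₀ : y₀ ∈ Tb b E) {g : ℂ → MN N} (hg : g ∈ Hc X Λ u a y₀) :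
    ∃ f : ι → ℂ → MN N, (∀ᶠ n in (𝒰 : Filter ι), f n ∈ Hc X Λ u a (y n)) ∧ Lm D a 𝒰 y₀ f g := by
  classical
  obtain ⟨m, hm⟩ : ∃ m, (Hc X Λ u a y₀).ncard = m := ⟨_, rfl⟩
  have hex : ∀ n, ∃ e : Fin m → ℂ → MN N, y n ∈ Tb b E → Function.Injective e ∧ ∀ i, e i ∈ Hc X Λ u a (y n) := by
    intro n
    by_cases h : y n ∈ Tb b E
    · have hc : (Hc X Λ u a (y n)).ncard = m := by rw [hE.card _ h, ← hE.card _ hy₀, hm]
      have hfin := hc_finite S (y n)
      have hcard : Nat.card (Hc X Λ u a (y n)) = m := by rw [Nat.card_coe_set_eq, hc]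
      haveI : Finite (Hc X Λ u a (y n)) := hfin
      have eqv := Finite.equivFinOfCardEq hcard
      exact ⟨fun i => (eqv.symm i : ℂ → MN N), fun _ => ⟨fun i j hij => eqv.symm.injective (Subtype.ext hij), fun i => (eqv.symm i).2⟩⟩
    · exact ⟨fun _ => g, fun h' => absurd h' h⟩
  choose e he using hex
  have hmem : ∀ i, ∀ᶠ n in (𝒰 : Filter ι), e n i ∈ Hc X Λ u a (y n) := fun i => hyT.mono fun n hn => (he n hn).2 i
  choose G hG hGl using fun i => hc_closed S.geo S.lg S.nl hy (hmem i)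
  have hinj : Function.Injective G := by
    intro i j hij
    by_contra hne
    have h1 := lm_sep S hy (hmem i) (hmem j) (hG i) (hGl i) (hij ▸ hGl j)
    obtain ⟨n, h2, h3⟩ := (h1.and hyT).exists
    exact hne ((he n h3).1 h2)
  have hrange : Set.range G = Hc X Λ u a y₀ := by
    refine Set.eq_of_subset_of_ncard_le (Set.range_subset_iff.2 hG) ?_ (hc_finite S y₀)
    rw [hm, ← Set.image_univ, Set.ncard_image_of_injective _ hinj, Set.ncard_univ, Nat.card_eq_fintype_card, Fintype.card_fin]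
  rw [← hrange] at hg
  obtain ⟨i, rfl⟩ := hg
  exact ⟨fun n => e n i, hmem i, hGl i⟩

/-- there are constants `η`, `R`, `θ` such that for `‖y - y'‖ ≤ η` every curve over `y` is near exactly one curve over `y'` -/
theorem near_exists (S : DA X Λ u D B Bad a α c₀ C₀ ρ δ) (hE : CE X Λ u a b E) : ∃ R θ : ℝ, 0 < R ∧ 0 < θ ∧ ∀ θ' : ℝ, 0 < θ' → θ' ≤ θ → ∃ η : ℝ, 0 < η ∧ η ≤ δ / 8 ∧
    ∀ y ∈ Tb b E, ∀ y' ∈ Tb b E, ‖y' - y‖ ≤ η → ∀ f ∈ Hc X Λ u a y,
      (∃ f' ∈ Hc X Λ u a y', ∀ z ∈ closedBall (0 : ℂ) R, y + z • a ∈ Gd D (δ / 2) → dist (f' z) (f z) ≤ θ') ∧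
      ∀ f' ∈ Hc X Λ u a y', ∀ f'' ∈ Hc X Λ u a y', (∀ z ∈ closedBall (0 : ℂ) R, y + z • a ∈ Gd D (3 / 4 * δ) → dist (f' z) (f z) ≤ 2 * θ) →
        (∀ z ∈ closedBall (0 : ℂ) R, y + z • a ∈ Gd D (3 / 4 * δ) → dist (f'' z) (f z) ≤ 2 * θ) → f' = f'' := by
  classical
  have hδ := S.lc.δ_pos
  obtain ⟨R, ε₁, hR, hε₁, hloc⟩ := loc_rigid S
  refine ⟨R, ε₁ / 4, hR, by positivity, fun θ' hθ' _ => ?_⟩
  -- the existence part
  have hkey : ∃ η : ℝ, 0 < η ∧ η ≤ δ / 8 ∧ ∀ y ∈ Tb b E, ∀ y' ∈ Tb b E, ‖y' - y‖ ≤ η → ∀ f ∈ Hc X Λ u a y,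
      ∃ f' ∈ Hc X Λ u a y', ∀ z ∈ closedBall (0 : ℂ) R, y + z • a ∈ Gd D (δ / 2) → dist (f' z) (f z) ≤ θ' := by
    by_contra hcon
    push Not at hcon
    obtain ⟨RE, -, hcpt⟩ := hE.cpt
    have hstep : ∀ n : ℕ, ∃ (y y' : Vd (k + 1)) (f : ℂ → MN N), y ∈ Tb b E ∧ y' ∈ Tb b E ∧ ‖y' - y‖ ≤ 1 / ((n : ℝ) + 1) ∧ y ∈ closedBall b RE ∧
        f ∈ Hc X Λ u a y ∧ ∀ f' ∈ Hc X Λ u a y', ∃ z ∈ closedBall (0 : ℂ) R, y + z • a ∈ Gd D (δ / 2) ∧ θ' < dist (f' z) (f z) := by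
      intro n
      obtain ⟨y, hy, y', hy', hyy, f, hf, hno⟩ := hcon (min (δ / 8) (1 / ((n : ℝ) + 1))) (by positivity) (min_le_left _ _)
      obtain ⟨l, hl, hlE, hle⟩ := hcpt (y - b) hy
      have hl' : -l ∈ Λ := Λ.neg_mem hl
      refine ⟨y + -l, y' + -l, f, ?_, ?_, ?_, ?_, ?_, ?_⟩
      · have h1 := E.sub_mem hy hlE
        have e : y + -l - b = y - b - l := by abel
        show y + -l - b ∈ E
        rwa [e]
      · have h1 := E.sub_mem hy' hlE
        have e : y' + -l - b = y' - b - l := by abel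
        show y' + -l - b ∈ E
        rwa [e]
      · rw [add_sub_add_right_eq_sub]
        exact hyy.trans (min_le_right _ _)
      · rw [mem_closedBall, dist_eq_norm]
        have e : y + -l - b = y - b - l := by abel
        rwa [e]
      · rwa [hc_per hl']
      · intro f' hf'
        rw [hc_per hl'] at hf'
        obtain ⟨z, hz, hzD, hzd⟩ := hno f' hf'
        refine ⟨z, hz, ?_, hzd⟩
        have e : y + -l + z • a = y + z • a + -l := by abel
        rw [e]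
        exact (S.geo.gd_add _ hl').2 hzD
    choose y y' f hy hy' hyy hyb hf hno using hstep
    obtain ⟨𝒰, h𝒰⟩ : ∃ 𝒰 : Ultrafilter ℕ, (𝒰 : Filter ℕ) ≤ atTop := ⟨Ultrafilter.of atTop, Ultrafilter.of_le atTop⟩
    have hle : ((𝒰.map y : Ultrafilter (Vd (k + 1))) : Filter (Vd (k + 1))) ≤ 𝓟 (closedBall b RE) := by
      rw [le_principal_iff, Ultrafilter.mem_coe, Ultrafilter.mem_map]
      exact Filter.Eventually.of_forall hyb
    obtain ⟨y₀, -, hy₀⟩ := (isCompact_closedBall b RE).ultrafilter_le_nhds (𝒰.map y) hle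
    have hyt : Tendsto y 𝒰 (𝓝 y₀) := hy₀
    have h1 : Tendsto (fun n : ℕ => 1 / ((n : ℝ) + 1)) (𝒰 : Filter ℕ) (𝓝 0) := tendsto_one_div_add_atTop_nhds_zero_nat.mono_left h𝒰
    have h2 : Tendsto (fun n => y' n - y n) (𝒰 : Filter ℕ) (𝓝 0) := squeeze_zero_norm hyy h1
    have hyt' : Tendsto y' 𝒰 (𝓝 y₀) := by
      have h3 := h2.add hyt
      simpa using h3
    have hclosed : IsClosed (Tb b E) := by
      have h3 : IsClosed (E : Set (Vd (k + 1))) := E.closed_of_finiteDimensional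
      exact h3.preimage (continuous_id.sub continuous_const)
    have hy₀T : y₀ ∈ Tb b E := hclosed.mem_of_tendsto hyt (Filter.Eventually.of_forall hy)
    obtain ⟨g, hg, hgl⟩ := hc_closed S.geo S.lg S.nl hyt (Filter.Eventually.of_forall hf)
    obtain ⟨f', hf', hfl'⟩ := hc_move S hE hyt' (Filter.Eventually.of_forall hy') hy₀T hg
    have hgc : Continuous g := hc_cont S.geo.cone hg
    have hKc : IsCompact {z : ℂ | z ∈ closedBall (0 : ℂ) R ∧ y₀ + z • a ∈ Gd D (δ / 4)} :=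
      (isCompact_closedBall (0 : ℂ) R).inter_right ((gd_closed D (δ / 4)).preimage (by fun_prop))
    have hKD : ∀ z ∈ {z : ℂ | z ∈ closedBall (0 : ℂ) R ∧ y₀ + z • a ∈ Gd D (δ / 4)}, y₀ + z • a ∉ D := fun z hz =>
      gd_notMem (by positivity) hz.2
    have h4 := hgl.unif hgc hKc hKD (half_pos hθ')
    have h5 := hfl'.unif hgc hKc hKD (half_pos hθ')
    have h6 : ∀ᶠ n in (𝒰 : Filter ℕ), y n ∈ closedBall y₀ (δ / 4) := hyt.eventually (closedBall_mem_nhds y₀ (by positivity))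
    obtain ⟨n, ⟨⟨h7, h8⟩, h9⟩, h10⟩ := (((h4.and h5).and h6).and hf').exists
    obtain ⟨z, hz, hzD, hzd⟩ := hno n (f' n) h10
    have h11 : y₀ + z • a ∈ Gd D (δ / 4) := by
      have h12 : ‖y₀ + z • a - (y n + z • a)‖ ≤ δ / 4 := by
        rw [add_sub_add_right_eq_sub, ← dist_eq_norm, dist_comm]
        exact h9
      have h13 := gd_near hzD h12
      have e : δ / 2 - δ / 4 = δ / 4 := by ring
      rwa [e] at h13
    have h14 := h7 z ⟨hz, h11⟩
    have h15 := h8 z ⟨hz, h11⟩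
    have h16 : dist (f' n z) (f n z) ≤ dist (f' n z) (g z) + dist (f n z) (g z) := dist_triangle_right _ _ _
    linarith
  obtain ⟨η, hη, hη8, hex⟩ := hkey
  refine ⟨η, hη, hη8, fun y hy y' hy' hyy f hf => ⟨hex y hy y' hy' hyy f hf, fun f' hf' f'' hf'' h1 h2 => ?_⟩⟩
  refine hloc y' f' hf' f'' hf'' 0 fun z hz hzD => ?_
  have h3 : y + z • a ∈ Gd D (3 / 4 * δ) := by
    have h4 : ‖y + z • a - (y' + z • a)‖ ≤ δ / 8 := by
      rw [add_sub_add_right_eq_sub, norm_sub_rev]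
      exact hyy.trans hη8
    exact gd_mono (by linarith) (gd_near hzD h4)
  have h5 := h1 z hz h3
  have h6 := h2 z hz h3
  have h7 : dist (f' z) (f'' z) ≤ dist (f' z) (f z) + dist (f'' z) (f z) := dist_triangle_right _ _ _
  linarith

end Pool.Agent.G3.A
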