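import Pool.Agent.G3.A.Defs
import Pool.Agent.TG.Y.Dv

/-!
# G3 A FrmA: the forms decay

`‖α.toFun y x v‖ exp (wt W y)` is `Γ`-periodic in `y` (`Tht`), bounded for `‖y‖ ≤ R` (compactness of the set of the `(y, x)`, `‖x‖ = 1`, and `VForm.analytic` in charts: the value on tangent vectors
`v i`, `‖v i‖ ≤ ‖x‖`, is `det` times the value on the coordinate vectors), so bounded; `wt W y ≥ c₀ ‖y‖ ^ 2` (`pos`, compactness of the unit sphere).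
-/

set_option autoImplicit false

open Topology Filter Metric

namespace Pool.Agent.G3.A

open Pool.Agent.H36.BP (EN fs wd)
open Pool.Agent.H14.PP (IsCone CurveAt Tan)
open Pool.Agent.H62.EF (MN pr)
open Pool.Agent.AD (Vd Chart Charts IsGerm)
open Pool.Agent.TG
open Pool.Agent.G3.C (Gc HP)

variable {N k : ℕ} {X : Set (EN N)} {Λ : AddSubgroup (Vd (k + 1))} {u : EN N → Vd (k + 1)} {D B Bad : Set (Vd (k + 1))} {a : Vd (k + 1)}

/-- a determinant with entries of norm at most `C` -/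
private theorem FrmA_det {n : ℕ} (M : Matrix (Fin n) (Fin n) ℂ) {C : ℝ} (hM : ∀ i j, ‖M i j‖ ≤ C) : ‖M.det‖ ≤ (n.factorial : ℝ) * C ^ n := by
  rw [Matrix.det_apply']
  calc ‖∑ σ : Equiv.Perm (Fin n), ((Equiv.Perm.sign σ : ℤ) : ℂ) * ∏ i, M (σ i) i‖
      ≤ ∑ σ : Equiv.Perm (Fin n), ‖((Equiv.Perm.sign σ : ℤ) : ℂ) * ∏ i, M (σ i) i‖ := norm_sum_le _ _
    _ ≤ ∑ _σ : Equiv.Perm (Fin n), C ^ n := by
        refine Finset.sum_le_sum fun σ _ => ?_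
        rw [norm_mul, norm_prod]
        have h1 : ‖((Equiv.Perm.sign σ : ℤ) : ℂ)‖ = 1 := by
          rcases Int.units_eq_one_or (Equiv.Perm.sign σ) with h | h <;> simp [h]
        rw [h1, one_mul]
        calc ∏ i, ‖M (σ i) i‖ ≤ ∏ _i : Fin n, C := Finset.prod_le_prod (fun i _ => norm_nonneg _) fun i _ => hM _ _
          _ = C ^ n := by simp
    _ = (n.factorial : ℝ) * C ^ n := by
        rw [Finset.sum_const, Finset.card_univ, Fintype.card_perm, Fintype.card_fin, nsmul_eq_mul]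

/-- the local bound -/
private theorem FrmA_loc (hX : IsCone X) (hch : Charts (k + 2) X) (hu : TMap X Λ u) (hΛ : Lat Λ) (α : VForm X Λ u) (y₀ : Vd (k + 1)) {x₀ : EN N} (hx₀ : x₀ ∈ X) :
    ∃ C : ℝ, ∀ᶠ p in 𝓝 ((y₀, x₀) : Vd (k + 1) × EN N), p.2 ∈ X → u p.2 - p.1 ∈ Λ → ∀ v : Fin (k + 2) → EN N, (∀ i, Tan X p.2 (v i)) → (∀ i, ‖v i‖ ≤ 1) →
      ‖α.toFun p.1 p.2 v‖ ≤ C := by
  have hfst : Tendsto (fun p : Vd (k + 1) × EN N => p.1) (𝓝 (y₀, x₀)) (𝓝 y₀) := continuousAt_fst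
  have hsnd : Tendsto (fun p : Vd (k + 1) × EN N => p.2) (𝓝 (y₀, x₀)) (𝓝 x₀) := continuousAt_snd
  by_cases h : u x₀ - y₀ ∈ Λ
  · obtain ⟨χ, hU, hq0⟩ := hch x₀ hx₀
    obtain ⟨υ, hυ, hυe, hl⟩ := exists_lift_chart hX hu χ hx₀ hU h
    have hb : χ.q x₀ ∈ ball (0 : Vd (k + 2)) 2 := (χ.surj x₀ hx₀ hU).1
    obtain ⟨δ, hδ, hdisc⟩ := hΛ.disc
    set C₁ : ℝ := ‖tc α χ υ (χ.q x₀)‖ + 1 with hC₁
    set C₂ : ℝ := ‖fderiv ℂ χ.q x₀‖ + 1 with hC₂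
    have hqc : Tendsto χ.q (𝓝 x₀) (𝓝 (χ.q x₀)) := (χ.q_an x₀ hU).continuousAt
    have h1 : ∀ᶠ q in 𝓝 (χ.q x₀), ‖tc α χ υ q‖ < C₁ :=
      (tc_an α χ hb hυ hl).continuousAt.norm.eventually_lt_const (by show ‖tc α χ υ (χ.q x₀)‖ < C₁; linarith)
    have h2 : ∀ᶠ x in 𝓝 x₀, ‖fderiv ℂ χ.q x‖ < C₂ :=
      (χ.q_an x₀ hU).fderiv.continuousAt.norm.eventually_lt_const (by show ‖fderiv ℂ χ.q x₀‖ < C₂; linarith)
    have h3 : ∀ᶠ p in 𝓝 ((y₀, x₀) : Vd (k + 1) × EN N), ‖p.1 - υ (χ.q p.2)‖ < δ := by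
      have h4 : Tendsto (fun p : Vd (k + 1) × EN N => ‖p.1 - υ (χ.q p.2)‖) (𝓝 (y₀, x₀)) (𝓝 ‖y₀ - υ (χ.q x₀)‖) :=
        (hfst.sub (hυ.continuousAt.tendsto.comp (hqc.comp hsnd))).norm
      refine h4.eventually_lt_const ?_
      rw [hυe, sub_self, norm_zero]
      exact hδ
    refine ⟨((k + 2).factorial : ℝ) * C₂ ^ (k + 2) * C₁, ?_⟩
    filter_upwards [hsnd.eventually (hqc.eventually h1), hsnd.eventually h2, h3, hsnd.eventually (χ.isOpen_U.mem_nhds hU), hsnd.eventually (hqc.eventually hl)]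
      with p hp1 hp2 hp3 hp4 hp5 hpX hpu v hv hv1
    obtain ⟨hqb, c, hc, hcx⟩ := χ.surj p.2 hpX hp4
    have hσX : χ.σ (χ.q p.2) ∈ X := (χ.σ_mem _ hqb).1
    have h6 : u p.2 - υ (χ.q p.2) ∈ Λ := by
      have h7 : u (c • χ.σ (χ.q p.2)) - u (χ.σ (χ.q p.2)) ∈ Λ := hu.smul _ hσX c hc
      rw [← hcx] at h7
      have h8 := Λ.add_mem h7 hp5
      have e : u p.2 - u (χ.σ (χ.q p.2)) + (u (χ.σ (χ.q p.2)) - υ (χ.q p.2)) = u p.2 - υ (χ.q p.2) := by abel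
      rwa [e] at h8
    have h7 : υ (χ.q p.2) = p.1 := by
      have h8 := Λ.sub_mem h6 hpu
      have e : u p.2 - υ (χ.q p.2) - (u p.2 - p.1) = p.1 - υ (χ.q p.2) := by abel
      rw [e] at h8
      exact (sub_eq_zero.1 (hdisc _ h8 hp3)).symm
    rw [toFun_eq hX hu α χ hpX hp4 hpu h7 v hv, norm_mul]
    have h8 : ‖(Matrix.of fun i j => fderiv ℂ χ.q p.2 (v i) j).det‖ ≤ ((k + 2).factorial : ℝ) * C₂ ^ (k + 2) := by
      refine FrmA_det _ fun i j => ?_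
      show ‖fderiv ℂ χ.q p.2 (v i) j‖ ≤ C₂
      have h9 : ‖fderiv ℂ χ.q p.2 (v i) j‖ ≤ ‖fderiv ℂ χ.q p.2 (v i)‖ := norm_le_pi_norm _ j
      have h10 := (fderiv ℂ χ.q p.2).le_opNorm (v i)
      have h11 : ‖fderiv ℂ χ.q p.2‖ * ‖v i‖ ≤ C₂ * 1 := mul_le_mul hp2.le (hv1 i) (norm_nonneg _) (by positivity)
      linarith
    exact mul_le_mul h8 hp1.le (norm_nonneg _) (by positivity)
  · refine ⟨0, ?_⟩
    obtain ⟨w, hw, hwl⟩ := hu.loc x₀ hx₀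
    have h1 : w x₀ - y₀ ∉ Λ := by
      intro h2
      apply h
      have h3 := Λ.add_mem (hwl.self_of_nhds hx₀) h2
      have e : u x₀ - w x₀ + (w x₀ - y₀) = u x₀ - y₀ := by abel
      rwa [e] at h3
    have h2 : Tendsto (fun p : Vd (k + 1) × EN N => w p.2 - p.1) (𝓝 (y₀, x₀)) (𝓝 (w x₀ - y₀)) :=
      (hw.continuousAt.tendsto.comp hsnd).sub hfst
    have h3 : ∀ᶠ p in 𝓝 ((y₀, x₀) : Vd (k + 1) × EN N), w p.2 - p.1 ∈ ((Λ : Set (Vd (k + 1))))ᶜ :=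
      h2.eventually (hΛ.closed.isOpen_compl.mem_nhds h1)
    filter_upwards [h3, hsnd.eventually hwl] with p hp1 hp2 hpX hpu
    exfalso
    apply hp1
    have h4 := Λ.sub_mem hpu (hp2 hpX)
    have e : u p.2 - p.1 - (u p.2 - w p.2) = w p.2 - p.1 := by abel
    rw [e] at h4
    exact h4

/-- the bound over a ball -/
private theorem FrmA_ball (hX : IsCone X) (hch : Charts (k + 2) X) (hu : TMap X Λ u) (hΛ : Lat Λ) (α : VForm X Λ u) (R : ℝ) :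
    ∃ C : ℝ, 0 ≤ C ∧ ∀ y : Vd (k + 1), ‖y‖ ≤ R → ∀ x ∈ X, u x - y ∈ Λ → ∀ v : Fin (k + 2) → EN N, (∀ i, Tan X x (v i)) → (∀ i, ‖v i‖ ≤ ‖x‖) →
      ‖α.toFun y x v‖ ≤ C := by
  have hK : IsCompact (closedBall (0 : Vd (k + 1)) R ×ˢ (X ∩ sphere (0 : EN N) 1)) := (isCompact_closedBall _ _).prod (compact_unit hX)
  have h1 : ∃ C : ℝ, ∀ p ∈ closedBall (0 : Vd (k + 1)) R ×ˢ (X ∩ sphere (0 : EN N) 1), p.2 ∈ X → u p.2 - p.1 ∈ Λ → ∀ v : Fin (k + 2) → EN N,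
      (∀ i, Tan X p.2 (v i)) → (∀ i, ‖v i‖ ≤ 1) → ‖α.toFun p.1 p.2 v‖ ≤ C := by
    refine hK.induction_on (p := fun S : Set (Vd (k + 1) × EN N) => ∃ C : ℝ, ∀ p ∈ S, p.2 ∈ X → u p.2 - p.1 ∈ Λ → ∀ v : Fin (k + 2) → EN N,
      (∀ i, Tan X p.2 (v i)) → (∀ i, ‖v i‖ ≤ 1) → ‖α.toFun p.1 p.2 v‖ ≤ C) ?_ ?_ ?_ ?_
    · exact ⟨0, fun p hp => absurd hp (Set.notMem_empty p)⟩
    · rintro S T hST ⟨C, hC⟩
      exact ⟨C, fun p hp => hC p (hST hp)⟩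
    · rintro S T ⟨C, hC⟩ ⟨C', hC'⟩
      refine ⟨max C C', fun p hp h1 h2 v h3 h4 => ?_⟩
      rcases hp with hp | hp
      · exact (hC p hp h1 h2 v h3 h4).trans (le_max_left _ _)
      · exact (hC' p hp h1 h2 v h3 h4).trans (le_max_right _ _)
    · rintro ⟨y, x⟩ ⟨hy, hx, hx'⟩
      obtain ⟨C, hC⟩ := FrmA_loc hX hch hu hΛ α y hx
      exact ⟨_, mem_nhdsWithin_of_mem_nhds hC, C, fun p hp => hp⟩
  obtain ⟨C, hC⟩ := h1
  refine ⟨max C 0, le_max_right _ _, fun y hy x hx hxy v hv hvn => ?_⟩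
  have hn : 0 < ‖x‖ := norm_pos_iff.2 (ne_zero hX hx)
  have hc : (((‖x‖⁻¹ : ℝ)) : ℂ) ≠ 0 := by
    exact_mod_cast inv_ne_zero hn.ne'
  set c : ℂ := (((‖x‖⁻¹ : ℝ)) : ℂ) with hcd
  have hcn : ‖c‖ = ‖x‖⁻¹ := by rw [hcd, Complex.norm_real, norm_inv, norm_norm]
  have hcx : c • x ∈ X := hX.smul_mem x hx c hc
  have hcs : c • x ∈ sphere (0 : EN N) 1 := by
    rw [mem_sphere_zero_iff_norm, norm_smul, hcn]
    exact inv_mul_cancel₀ hn.ne'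
  have ht : ∀ i, Tan X (c • x) (c • v i) := by
    intro i
    obtain ⟨F, hF, hF0, hFd⟩ := hv i
    refine ⟨fun z => c • F z, ⟨AnalyticAt.fun_smul analyticAt_const hF.1, ?_⟩, ?_, ?_⟩
    · filter_upwards [hF.2] with z hz
      exact hX.smul_mem _ hz c hc
    · show c • F 0 = c • x
      rw [hF0]
    · have h1 : HasDerivAt (fun z => c • F z) (c • deriv F 0) 0 := hF.1.differentiableAt.hasDerivAt.const_smul c
      rw [h1.deriv, hFd]
  have h2 := hC (y, c • x) ⟨by rwa [mem_closedBall_zero_iff], hcx, hcs⟩ hcx (smul_mem_lat hu hx hxy hc) (fun i => c • v i) ht (fun i => by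
    rw [norm_smul, hcn]
    calc ‖x‖⁻¹ * ‖v i‖ ≤ ‖x‖⁻¹ * ‖x‖ := mul_le_mul_of_nonneg_left (hvn i) (by positivity)
      _ = 1 := inv_mul_cancel₀ hn.ne')
  rw [α.scale y x hx hxy v hv c hc] at h2
  exact h2.trans (le_max_left _ _)

/-- the weight is bounded on balls -/
private theorem FrmA_wt_le {r : ℕ} (W : Fin r → Vd (k + 1) →L[ℂ] ℂ) (R : ℝ) : ∃ M : ℝ, ∀ y : Vd (k + 1), ‖y‖ ≤ R → wt W y ≤ M := by
  refine ⟨∑ i, (‖W i‖ * R) ^ 2, fun y hy => ?_⟩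
  unfold wt
  refine Finset.sum_le_sum fun i _ => ?_
  refine pow_le_pow_left₀ (norm_nonneg _) ?_ 2
  exact ((W i).le_opNorm y).trans (mul_le_mul_of_nonneg_left hy (norm_nonneg _))

/-- the weight is positive definite -/
private theorem FrmA_wt_ge {r : ℕ} {W : Fin r → Vd (k + 1) →L[ℂ] ℂ} (hW : ∀ y, (∀ i, W i y = 0) → y = 0) :
    ∃ c : ℝ, 0 < c ∧ ∀ y : Vd (k + 1), c * ‖y‖ ^ 2 ≤ wt W y := by
  have hcont : Continuous (wt W) := by
    unfold wt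
    exact continuous_finsetSum _ fun i _ => ((W i).continuous.norm.pow 2)
  have hpos : ∀ y ∈ sphere (0 : Vd (k + 1)) 1, 0 < wt W y := by
    intro y hy
    rw [mem_sphere_zero_iff_norm] at hy
    have h0 : 0 ≤ wt W y := Finset.sum_nonneg fun i _ => by positivity
    rcases h0.eq_or_lt with h1 | h1
    · exfalso
      have h2 : ∀ i, W i y = 0 := by
        intro i
        have h3 := (Finset.sum_eq_zero_iff_of_nonneg (s := Finset.univ) (f := fun i => ‖W i y‖ ^ 2) fun i _ => by positivity).1 h1.symm i (Finset.mem_univ i)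
        exact norm_eq_zero.1 (pow_eq_zero_iff (two_ne_zero)|>.1 h3)
      rw [hW y h2, norm_zero] at hy
      exact zero_ne_one hy
    · exact h1
  have hne : (sphere (0 : Vd (k + 1)) 1).Nonempty := by
    refine ⟨fun _ => 1, ?_⟩
    rw [mem_sphere_zero_iff_norm]
    simp [pi_norm_const]
  obtain ⟨y₁, hy₁, hmin⟩ := (isCompact_sphere (0 : Vd (k + 1)) 1).exists_isMinOn hne hcont.continuousOn
  refine ⟨wt W y₁, hpos y₁ hy₁, fun y => ?_⟩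
  by_cases hy : y = 0
  · subst hy
    simp [wt]
  · have hn : 0 < ‖y‖ := norm_pos_iff.2 hy
    set c : ℂ := (((‖y‖⁻¹ : ℝ)) : ℂ) with hcd
    have hcn : ‖c‖ = ‖y‖⁻¹ := by rw [hcd, Complex.norm_real, norm_inv, norm_norm]
    have h1 : c • y ∈ sphere (0 : Vd (k + 1)) 1 := by
      rw [mem_sphere_zero_iff_norm, norm_smul, hcn]
      exact inv_mul_cancel₀ hn.ne'
    have h2 : wt W y₁ ≤ wt W (c • y) := hmin h1
    have h3 : wt W (c • y) = (‖y‖⁻¹) ^ 2 * wt W y := by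
      unfold wt
      rw [Finset.mul_sum]
      refine Finset.sum_congr rfl fun i _ => ?_
      rw [map_smul, norm_smul, hcn, mul_pow]
    rw [h3] at h2
    have h4 := mul_le_mul_of_nonneg_right h2 (by positivity : 0 ≤ ‖y‖ ^ 2)
    have h5 : (‖y‖⁻¹) ^ 2 * wt W y * ‖y‖ ^ 2 = wt W y := by
      field_simp
    rwa [h5] at h4

theorem Frm.dec (G : Geo X Λ u D B) {Γ : AddSubgroup (Vd (k + 1))} {J r : ℕ} {W : Fin r → Vd (k + 1) →L[ℂ] ℂ} {α : Fin J → VForm X Λ u} (h : Frm X Λ u D Γ W α) :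
    ∃ c₀ C₀ : ℝ, 0 < c₀ ∧ 0 < C₀ ∧ ∀ j, Dec (α j) c₀ C₀ := by
  obtain ⟨c₀, hc₀, hwt⟩ := FrmA_wt_ge h.pos
  obtain ⟨R, hR, hcpt⟩ := h.lat.cpt
  obtain ⟨M, hM⟩ := FrmA_wt_le W R
  have hb := fun j => FrmA_ball G.cone G.charts G.tor G.lat (α j) R
  choose C hC0 hC using hb
  refine ⟨c₀, 1 + ∑ j, C j * Real.exp M, hc₀, ?_, ?_⟩
  · have : 0 ≤ ∑ j, C j * Real.exp M := Finset.sum_nonneg fun j _ => mul_nonneg (hC0 j) (Real.exp_nonneg _)
    linarith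
  · intro j y x hx hxy v hv hvn
    obtain ⟨l, hl, hyl⟩ := hcpt y
    obtain ⟨L, c, hLc, hθ⟩ := h.per j l hl
    have hxy' : u x - (y - l) ∈ Λ := by
      have h1 := Λ.add_mem hxy (h.le hl)
      have e : u x - y + l = u x - (y - l) := by abel
      rwa [e] at h1
    have h1 := hθ (y - l) x hx hxy' v hv
    rw [sub_add_cancel] at h1
    have h2 := hLc (y - l)
    rw [sub_add_cancel] at h2
    rw [h1, norm_mul, h2]
    have h3 := hC j (y - l) hyl x hx hxy' v hv hvn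
    have h4 : Real.exp (wt W (y - l) - wt W y) ≤ Real.exp M * Real.exp (-(c₀ * ‖y‖ ^ 2)) := by
      rw [← Real.exp_add]
      refine Real.exp_le_exp.2 ?_
      have h5 := hM (y - l) hyl
      have h6 := hwt y
      linarith
    have h5 : C j * Real.exp M ≤ 1 + ∑ j, C j * Real.exp M := by
      have h6 := Finset.single_le_sum (f := fun j => C j * Real.exp M) (fun j _ => mul_nonneg (hC0 j) (Real.exp_nonneg _)) (Finset.mem_univ j)
      linarith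
    calc Real.exp (wt W (y - l) - wt W y) * ‖(α j).toFun (y - l) x v‖ ≤ (Real.exp M * Real.exp (-(c₀ * ‖y‖ ^ 2))) * C j :=
          mul_le_mul h4 h3 (norm_nonneg _) (by positivity)
      _ = (C j * Real.exp M) * Real.exp (-(c₀ * ‖y‖ ^ 2)) := by ring
      _ ≤ _ := mul_le_mul_of_nonneg_right h5 (Real.exp_nonneg _)

end Pool.Agent.G3.A
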