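import Pool.Agent.G3.A.Defs
import Pool.Agent.G3.P.Tbd
import Pool.Agent.H56.G3.Lift

/-!
# G3 A NLp: normalised lifts

`f ∈ Hc`, entire lift `F`, `Cv` over `h z = y + z a`, `‖deriv h‖ = 1`.  `P/Tbd.tbd` (`R = 6`, `r = 5` and `r = 5/2`, `H = η = 1`) at the points over `Gd D δ`, then `H56/G3/Lift.norm_lift`
(`R = 7`, `Gd := {z | y + z a ∈ Gd D δ}`); `exp (-φ z) • F z ∈ X` (cone) and `pr` does not change.
-/

set_option autoImplicit false

open Topology Filter Metric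

namespace Pool.Agent.G3.A

open Pool.Agent.H36.BP (EN fs wd)
open Pool.Agent.H14.PP (IsCone CurveAt Tan)
open Pool.Agent.H62.EF (MN pr)
open Pool.Agent.AD (Vd Chart Charts IsGerm)
open Pool.Agent.TG
open Pool.Agent.G3.C (Gc HP)

variable {N k : ℕ} {X : Set (EN N)} {Λ : AddSubgroup (Vd (k + 1))} {u : EN N → Vd (k + 1)} {D B Bad : Set (Vd (k + 1))} {a : Vd (k + 1)}

theorem exists_nl {p : EN N → EN N → ℝ} {m : ℕ} {C : ℝ} (hX : IsCone X) (hP : Pool.Agent.G3.PS X Λ u D p m C) (ha : ‖a‖ = 1) : NL X Λ u D a := by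
  intro δ hδ
  obtain ⟨K₁, hK₁⟩ := Pool.Agent.G3.tbd hP (δ := δ) (η := 1) (H := 1) (r := 5) (R := 6) hδ one_pos zero_le_one (by norm_num) (by norm_num)
  obtain ⟨K₂, hK₂⟩ := Pool.Agent.G3.tbd hP (δ := δ) (η := 1) (H := 1) (r := 5 / 2) (R := 6) hδ one_pos zero_le_one (by norm_num) (by norm_num)
  refine ⟨Real.exp (-10 * max K₁ K₂), Real.exp_pos _, ?_⟩
  rintro y f ⟨F, ⟨hFd, hFX, hFl⟩, rfl⟩ z₀
  have hder : ∀ w : ℂ, deriv (fun z : ℂ => y + z • a) w = a := fun w => by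
    have h1 : HasDerivAt (fun z : ℂ => y + z • a) ((1 : ℂ) • a) w := ((hasDerivAt_id w).smul_const a).const_add y
    rw [h1.deriv, one_smul]
  have hcv : ∀ z : ℂ, Pool.Agent.G3.Cv X Λ u (ball z 6) F fun w => y + w • a := fun z =>
    ⟨hFd.differentiableOn, ((differentiable_id.smul_const a).const_add y).differentiableOn, fun w _ => hFX w, fun w _ => hFl w⟩
  have hF0 : ∀ z, F z ≠ 0 := fun z => ne_zero hX (hFX z)
  have hG : ∀ z ∈ {z : ℂ | y + z • a ∈ Gd D δ}, ‖z - z₀‖ ≤ 1 →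
      Real.circleAverage (fun w => Real.log ‖F w‖) z 5 ≤ Real.log ‖F z‖ + max K₁ K₂ ∧
      Real.circleAverage (fun w => Real.log ‖F w‖) z (5 / 2) ≤ Real.log ‖F z‖ + max K₁ K₂ := by
    intro z hz _
    have h1 := hK₁ F (fun w => y + w • a) z (hcv z) (fun w _ => by rw [hder, ha]) hz (by rw [hder, ha])
    have h2 := hK₂ F (fun w => y + w • a) z (hcv z) (fun w _ => by rw [hder, ha]) hz (by rw [hder, ha])
    unfold Pool.Agent.G3.TT at h1 h2
    have h3 := le_max_left K₁ K₂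
    have h4 := le_max_right K₁ K₂
    constructor
    · linarith
    · linarith
  obtain ⟨φ, hφ, hle, hge⟩ := Pool.Agent.H56.G3.norm_lift (R := 7) le_rfl (hFd.differentiableOn (s := ball z₀ 7)) (fun z _ => hF0 z) hG
  refine ⟨fun z => Complex.exp (-φ z) • F z, (hφ.neg.cexp).smul hFd.differentiableOn, fun z hz => ⟨?_, ?_, hle z hz⟩, fun z hz hzG => ?_⟩
  · exact hX.smul_mem _ (hFX z) _ (Complex.exp_ne_zero _)
  · exact (Pool.Agent.H62.EF.pr_smul _ (Complex.exp_ne_zero _)).symm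
  · exact hge z hzG (by rwa [mem_closedBall, dist_eq_norm] at hz)

end Pool.Agent.G3.A
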