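import Pool.Agent.G3.A.LGx
import Pool.Agent.G3.A.NLp
import Pool.Agent.G3.A.GeoC
import Pool.Agent.G3.A.FrmA
import Pool.Agent.G3.Z.Sit

/-!
# G3 A DAx: the data of block (A) from the hypotheses

`exists_lg`, `exists_lc`, `exists_nl`, `Frm.dec`; `CRL` at `p ∈ D`, `p ∉ Ba D B a` from `Crs` (`Z/Sit`) with the arc `γ z = p' + z • a`.
-/

set_option autoImplicit false

open Topology Filter Metric

namespace Pool.Agent.G3.A

open Pool.Agent.H36.BP (EN fs wd)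
open Pool.Agent.H14.PP (IsCone CurveAt Tan)
open Pool.Agent.H62.EF (MN pr)
open Pool.Agent.AD (Vd Chart Charts IsGerm)
open Pool.Agent.TG
open Pool.Agent.G3.C (Gc HP)

variable {N k : ℕ} {X : Set (EN N)} {Λ : AddSubgroup (Vd (k + 1))} {u : EN N → Vd (k + 1)} {D B Bad : Set (Vd (k + 1))} {a : Vd (k + 1)}

/-- crossing for lines, from the crossing for arcs -/
private theorem DAx_cr (hcr : Pool.Agent.G3.Crs X Λ u D B) {p : Vd (k + 1)} (hp : p ∈ D) (hpB : p ∉ B) (ht : TransAt D p a) : CRL X Λ u D a p := by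
  obtain ⟨s₁, hs₁, h⟩ := hcr p a hp hpB ht
  intro η hη
  obtain ⟨s₀, ρ₀, h1, h2, h3, h4, -, h5⟩ := h η hη
  refine ⟨s₀, ρ₀, h1, h2.le, h4, fun δ ε ε₀ hc => ?_⟩
  obtain ⟨ε₁, h6, h7, h8⟩ := h5 δ ε ε₀ hc
  refine ⟨ε₁, h6, h7, fun p' hp' hG α F H hFd hF hHd hH hdist => ?_⟩
  have hd : Differentiable ℂ fun z : ℂ => p' + z • a := (differentiable_id.smul_const a).const_add p'
  refine h8 (fun z => p' + z • a) hd.differentiableOn (fun z _ => ?_) hG α F H ⟨hFd, hd.differentiableOn, fun z hz => (hF z hz).1, fun z hz => (hF z hz).2⟩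
    ⟨hHd, hd.differentiableOn, fun z hz => (hH z hz).1, fun z hz => (hH z hz).2⟩ hdist
  rw [mem_ball_iff_norm] at hp'
  have e : p' + z • a - (p + z • a) = p' - p := by abel
  rw [e]
  exact hp'.le

theorem exists_da {X : Set (EN N)} {Λ : AddSubgroup (Vd (1 + 1))} {u : EN N → Vd (1 + 1)} {D B : Set (Vd (1 + 1))} {a : Vd (1 + 1)} {p : EN N → EN N → ℝ} {m J r : ℕ} {C : ℝ}
    {α : Fin J → VForm X Λ u} {Γ : AddSubgroup (Vd (1 + 1))} {W : Fin r → Vd (1 + 1) →L[ℂ] ℂ} (G : Geo X Λ u D B) (hB : ∀ β ∈ B, ∀ l ∈ Λ, β + l ∈ B)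
    (hs : Pool.Agent.G3.Simp Λ) (hP : Pool.Agent.G3.PS X Λ u D p m C) (hcr : Pool.Agent.G3.Crs X Λ u D B) (hF : Frm X Λ u D Γ W α) (ha : ‖a‖ = 1)
    (hfin : ∃ S : Set (Vd (1 + 1)), S.Finite ∧ ∀ β ∈ Ba D B a, ∃ s ∈ S, β - s ∈ Λ) : ∃ c₀ C₀ ρ δ : ℝ, DA X Λ u D B (Ba D B a) a α c₀ C₀ ρ δ := by
  have hlg : LG Λ D (Ba D B a) a := exists_lg G hB hs ha hfin
  obtain ⟨c₀, C₀, hc₀, hC₀, hdec⟩ := hF.dec G
  obtain ⟨ρ₀, hρ₀, hlc⟩ := exists_lc hlg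
  obtain ⟨δ₀, hδ₀, hlc'⟩ := hlc ρ₀ hρ₀ le_rfl
  have hgood : ∀ q ∈ D, q ∉ Ba D B a → q ∉ B ∧ TransAt D q a := by
    intro q hq hqb
    refine ⟨fun h => hqb ⟨hq, Or.inl h⟩, ?_⟩
    by_contra h
    exact hqb ⟨hq, Or.inr h⟩
  exact ⟨c₀, C₀, ρ₀, δ₀,
    { geo := G
      lg := hlg
      lc := hlc' δ₀ hδ₀ le_rfl
      nl := exists_nl G.cone hP ha
      c_pos := hc₀
      C_pos := hC₀
      dec := hdec
      sep := hF.sep
      cr := fun q hq hqb => DAx_cr hcr hq (hgood q hq hqb).1 (hgood q hq hqb).2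
      good := hgood }⟩

end Pool.Agent.G3.A
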