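import Mathlib

/-!
# G3 A DD: divided differences

`dd S f = ∑ a ∈ S, (∏ b ∈ S.erase a, (a - b))⁻¹ • f a`, the divided difference of `f : ℝ → E` for the set `S` of nodes.

* `dd_insert_insert`: the recursion; `dd_slope`: `dd (insert a S) f = dd S (slope of f at a)`.
* `dd_hol`: bound for the restriction of a holomorphic function.
* `dd_smul_bound`: Leibniz; `dd_newton`: the Newton polynomial; `dd_comp`: composition with a holomorphic function.
-/

set_option autoImplicit false

open Topology Filter Metric Finset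

namespace Pool.Agent.G3.A

variable {E : Type*} [AddCommGroup E] [Module ℝ E]

/-- the divided difference of `f` for the nodes `S` -/
noncomputable def dd (S : Finset ℝ) (f : ℝ → E) : E := ∑ a ∈ S, ((∏ b ∈ S.erase a, (a - b))⁻¹ : ℝ) • f a

theorem dd_congr {S : Finset ℝ} {f g : ℝ → E} (h : ∀ a ∈ S, f a = g a) : dd S f = dd S g := by
  unfold dd
  exact Finset.sum_congr rfl fun a ha => by rw [h a ha]

theorem dd_singleton (a : ℝ) (f : ℝ → E) : dd {a} f = f a := by
  unfold dd
  simp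

theorem dd_add (S : Finset ℝ) (f g : ℝ → E) : dd S (fun t => f t + g t) = dd S f + dd S g := by
  unfold dd
  rw [← Finset.sum_add_distrib]
  exact Finset.sum_congr rfl fun a _ => by rw [smul_add]

theorem dd_sub (S : Finset ℝ) (f g : ℝ → E) : dd S (fun t => f t - g t) = dd S f - dd S g := by
  unfold dd
  rw [← Finset.sum_sub_distrib]
  exact Finset.sum_congr rfl fun a _ => by rw [smul_sub]

theorem dd_smul {R : Type*} [Semiring R] [Module R E] [SMulCommClass ℝ R E] (S : Finset ℝ) (c : R) (f : ℝ → E) :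
    dd S (fun t => c • f t) = c • dd S f := by
  unfold dd
  rw [Finset.smul_sum]
  exact Finset.sum_congr rfl fun a _ => by rw [smul_comm]

theorem dd_finset_sum {ι : Type*} (T : Finset ι) (S : Finset ℝ) (f : ι → ℝ → E) : dd S (fun t => ∑ i ∈ T, f i t) = ∑ i ∈ T, dd S (f i) := by
  unfold dd
  rw [Finset.sum_comm]
  exact Finset.sum_congr rfl fun a _ => by rw [Finset.smul_sum]

theorem dd_map {F : Type*} [AddCommGroup F] [Module ℝ F] (L : E →ₗ[ℝ] F) (S : Finset ℝ) (f : ℝ → E) :
    dd S (fun t => L (f t)) = L (dd S f) := by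
  unfold dd
  rw [map_sum]
  exact Finset.sum_congr rfl fun a _ => by rw [map_smul]

/-- the recursion -/
theorem dd_insert_insert {S : Finset ℝ} {a b : ℝ} (hab : a ≠ b) (ha : a ∉ S) (hb : b ∉ S) (f : ℝ → E) :
    dd (insert a (insert b S)) f = (b - a)⁻¹ • (dd (insert b S) f - dd (insert a S) f) := by
  have hba : b - a ≠ 0 := sub_ne_zero.2 hab.symm
  have ha' : a ∉ insert b S := by simp [hab, ha]
  unfold dd
  rw [Finset.sum_insert ha', Finset.sum_insert hb, Finset.sum_insert hb, Finset.sum_insert ha]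
  have e1 : (insert a (insert b S)).erase a = insert b S := Finset.erase_insert ha'
  have e2 : (insert a (insert b S)).erase b = insert a S := by
    rw [Finset.erase_insert_of_ne hab, Finset.erase_insert hb]
  have e3 : (insert b S).erase b = S := Finset.erase_insert hb
  have e4 : (insert a S).erase a = S := Finset.erase_insert ha
  rw [e1, e2, e3, e4, Finset.prod_insert hb, Finset.prod_insert ha]
  have e5 : ∀ c ∈ S, ((∏ d ∈ (insert a (insert b S)).erase c, (c - d))⁻¹ : ℝ) • f c =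
      (b - a)⁻¹ • (((∏ d ∈ (insert b S).erase c, (c - d))⁻¹ : ℝ) • f c - ((∏ d ∈ (insert a S).erase c, (c - d))⁻¹ : ℝ) • f c) := by
    intro c hc
    have hac : a ≠ c := fun h => ha (h ▸ hc)
    have hbc : b ≠ c := fun h => hb (h ▸ hc)
    have hca : c - a ≠ 0 := sub_ne_zero.2 hac.symm
    have hcb : c - b ≠ 0 := sub_ne_zero.2 hbc.symm
    rw [Finset.erase_insert_of_ne hac, Finset.erase_insert_of_ne hbc, Finset.erase_insert_of_ne hac, Finset.prod_insert (by simp [hab, ha]),
      Finset.prod_insert (by simp [hb]), Finset.prod_insert (by simp [ha]), ← sub_smul, smul_smul]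
    congr 1
    rw [mul_inv, mul_inv, mul_inv]
    have e7 : (c - b)⁻¹ - (c - a)⁻¹ = (b - a) * ((c - a)⁻¹ * (c - b)⁻¹) := by
      field_simp
      ring
    rw [← sub_mul, e7]
    field_simp
  rw [Finset.sum_congr rfl e5, ← Finset.smul_sum, Finset.sum_sub_distrib, mul_inv, mul_inv]
  have e6 : (a - b)⁻¹ = -(b - a)⁻¹ := by rw [← neg_sub b a, inv_neg]
  rw [e6]
  module

/-- the divided difference of the slope -/
theorem dd_slope {a : ℝ} (f : ℝ → E) : ∀ {S : Finset ℝ}, a ∉ S → S.Nonempty → dd (insert a S) f = dd S (fun t => (t - a)⁻¹ • (f t - f a)) := by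
  intro S
  induction hn : S.card using Nat.strong_induction_on generalizing S with
  | _ n ih =>
    intro ha hS
    obtain ⟨b, hb⟩ := hS
    obtain ⟨S', hbS', rfl⟩ : ∃ S', b ∉ S' ∧ insert b S' = S := ⟨S.erase b, Finset.notMem_erase b S, Finset.insert_erase hb⟩
    have hab : a ≠ b := fun h => ha (h ▸ Finset.mem_insert_self _ _)
    have haS' : a ∉ S' := fun h => ha (Finset.mem_insert_of_mem h)
    rcases S'.eq_empty_or_nonempty with rfl | ⟨c, hc⟩
    · have h1 := dd_insert_insert (S := ∅) hab (Finset.notMem_empty a) (Finset.notMem_empty b) f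
      simp only [insert_empty_eq] at h1 ⊢
      rw [h1, dd_singleton, dd_singleton, dd_singleton]
    · obtain ⟨S'', hcS'', rfl⟩ : ∃ S'', c ∉ S'' ∧ insert c S'' = S' := ⟨S'.erase c, Finset.notMem_erase c S', Finset.insert_erase hc⟩
      have hbc : b ≠ c := fun h => hbS' (h ▸ Finset.mem_insert_self _ _)
      have hac : a ≠ c := fun h => haS' (h ▸ Finset.mem_insert_self _ _)
      have hbS'' : b ∉ S'' := fun h => hbS' (Finset.mem_insert_of_mem h)
      have haS'' : a ∉ S'' := fun h => haS' (Finset.mem_insert_of_mem h)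
      have hcard : (insert b (insert c S'')).card = S''.card + 2 := by
        rw [Finset.card_insert_of_notMem hbS', Finset.card_insert_of_notMem hcS'']
      have r1 : insert a (insert b (insert c S'')) = insert b (insert c (insert a S'')) := by
        rw [Finset.insert_comm a b, Finset.insert_comm a c]
      rw [r1, dd_insert_insert hbc (by simp [hab.symm, hbS'']) (by simp [hac.symm, hcS'']), dd_insert_insert hbc hbS'' hcS'']
      have i1 := ih (insert c S'').card (by rw [← hn, hcard, Finset.card_insert_of_notMem hcS'']; omega) rfl (by simp [hac, haS'']) ⟨c, Finset.mem_insert_self _ _⟩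
      have i2 := ih (insert b S'').card (by rw [← hn, hcard, Finset.card_insert_of_notMem hbS'']; omega) rfl (by simp [hab, haS'']) ⟨b, Finset.mem_insert_self _ _⟩
      rw [Finset.insert_comm c a, Finset.insert_comm b a, i1, i2]

/-- bound for the slope of a holomorphic function -/
theorem dslope_bound {E : Type*} [NormedAddCommGroup E] [NormedSpace ℂ E] [CompleteSpace E] {c r M : ℝ} (hr : 0 < r) {g : ℂ → E}
    (hg : DifferentiableOn ℂ g (ball (c : ℂ) (2 * r))) (hM : ∀ z ∈ ball (c : ℂ) (2 * r), ‖g z‖ ≤ M) {a : ℂ} (ha : dist a (c : ℂ) ≤ r) :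
    DifferentiableOn ℂ (dslope g a) (ball (c : ℂ) (2 * r)) ∧ ∀ z ∈ ball (c : ℂ) (2 * r), ‖dslope g a z‖ ≤ M * (4 / r) := by
  have hamem : a ∈ ball (c : ℂ) (2 * r) := mem_ball.2 (by linarith)
  have hd : DifferentiableOn ℂ (dslope g a) (ball (c : ℂ) (2 * r)) := (Complex.differentiableOn_dslope (isOpen_ball.mem_nhds hamem)).2 hg
  refine ⟨hd, fun z hz => ?_⟩
  have hM0 : 0 ≤ M := (norm_nonneg _).trans (hM z hz)
  rw [mem_ball] at hz
  set ρ : ℝ := (max (dist z (c : ℂ)) (3 / 2 * r) + 2 * r) / 2 with hρ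
  have h1 : dist z (c : ℂ) < ρ := by
    have := le_max_left (dist z (c : ℂ)) (3 / 2 * r)
    have h2 : max (dist z (c : ℂ)) (3 / 2 * r) < 2 * r := max_lt hz (by linarith)
    rw [hρ]
    linarith
  have h2 : ρ < 2 * r := by
    have h2 : max (dist z (c : ℂ)) (3 / 2 * r) < 2 * r := max_lt hz (by linarith)
    rw [hρ]
    linarith
  have h3 : 3 / 2 * r < ρ := by
    have := le_max_right (dist z (c : ℂ)) (3 / 2 * r)
    rw [hρ]
    linarith
  have hρ0 : ρ ≠ 0 := by
    have : 0 < ρ := by linarith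
    exact this.ne'
  have hsub : closedBall (c : ℂ) ρ ⊆ ball (c : ℂ) (2 * r) := closedBall_subset_ball h2
  refine Complex.norm_le_of_forall_mem_frontier_norm_le (U := ball (c : ℂ) ρ) isBounded_ball ?_ ?_ (subset_closure (mem_ball.2 h1))
  · exact (hd.mono hsub).diffContOnCl_ball (le_refl _)
  · intro w hw
    rw [frontier_ball _ hρ0, mem_sphere] at hw
    have hwa : r / 2 ≤ ‖w - a‖ := by
      have h4 := dist_triangle w a (c : ℂ)
      rw [← dist_eq_norm]
      linarith
    have hne : w ≠ a := by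
      rintro rfl
      rw [sub_self, norm_zero] at hwa
      linarith
    rw [dslope_of_ne _ hne, slope, norm_smul, norm_inv, vsub_eq_sub]
    have h5 : ‖g w - g a‖ ≤ 2 * M := by
      have h6 := hM w (hsub (mem_closedBall.2 hw.le))
      have h7 := hM a hamem
      have h8 := norm_sub_le (g w) (g a)
      linarith
    calc ‖w - a‖⁻¹ * ‖g w - g a‖ ≤ (r / 2)⁻¹ * (2 * M) := by gcongr
      _ = M * (4 / r) := by field_simp; ring

/-- divided differences of the restriction of a holomorphic function -/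
theorem dd_hol {E : Type*} [NormedAddCommGroup E] [NormedSpace ℂ E] [CompleteSpace E] {c r : ℝ} (hr : 0 < r) {S : Finset ℝ} (hne : S.Nonempty)
    (hS : ∀ a ∈ S, |a - c| ≤ r) : ∀ {g : ℂ → E} {M : ℝ}, DifferentiableOn ℂ g (ball (c : ℂ) (2 * r)) →
    (∀ z ∈ ball (c : ℂ) (2 * r), ‖g z‖ ≤ M) → ‖dd S (fun t => g t)‖ ≤ M * (4 / r) ^ (S.card - 1) := by
  have hdist : ∀ a : ℝ, |a - c| ≤ r → dist (a : ℂ) (c : ℂ) ≤ r := by
    intro a ha
    rw [dist_eq_norm, ← Complex.ofReal_sub, Complex.norm_real]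
    exact ha
  induction hne using Finset.Nonempty.cons_induction with
  | singleton a =>
    intro g M hg hM
    rw [dd_singleton, Finset.card_singleton]
    simp only [Nat.sub_self, pow_zero, mul_one]
    exact hM _ (mem_ball.2 (lt_of_le_of_lt (hdist a (hS a (Finset.mem_singleton_self a))) (by linarith)))
  | cons a S ha hne ih =>
    intro g M hg hM
    rw [Finset.cons_eq_insert] at hS ⊢
    have hda := hdist a (hS a (Finset.mem_insert_self _ _))
    obtain ⟨h1, h2⟩ := dslope_bound hr hg hM hda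
    have h3 := ih (fun b hb => hS b (Finset.mem_insert_of_mem hb)) h1 h2
    rw [dd_slope _ ha hne, Finset.card_insert_of_notMem ha]
    have h4 : dd S (fun t => (t - a)⁻¹ • (g t - g a)) = dd S (fun t => dslope g (a : ℂ) (t : ℂ)) := by
      refine dd_congr fun b hb => ?_
      have hba : (b : ℂ) ≠ (a : ℂ) := by
        intro h
        exact ha ((Complex.ofReal_injective h) ▸ hb)
      rw [dslope_of_ne _ hba, slope, vsub_eq_sub, ← Complex.ofReal_sub, ← Complex.ofReal_inv, Complex.coe_smul]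
    rw [h4]
    refine h3.trans (le_of_eq ?_)
    have hcard : 1 ≤ S.card := hne.card_pos
    have : S.card + 1 - 1 = (S.card - 1) + 1 := by omega
    rw [this, pow_succ]
    ring

/-- Leibniz -/
theorem dd_smul_bound {E : Type*} [NormedAddCommGroup E] [NormedSpace ℂ E] {A B : ℝ} (hA : 0 ≤ A) (_hB : 0 ≤ B) {S : Finset ℝ} (hne : S.Nonempty) :
    ∀ {f : ℝ → ℂ} {g : ℝ → E}, (∀ T ⊆ S, T.Nonempty → ‖dd T f‖ ≤ A) → (∀ T ⊆ S, T.Nonempty → ‖dd T g‖ ≤ B) →
    ‖dd S (fun t => f t • g t)‖ ≤ S.card * (A * B) := by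
  induction hne using Finset.Nonempty.cons_induction with
  | singleton a =>
    intro f g hf hg
    have h1 := hf {a} le_rfl (Finset.singleton_nonempty a)
    have h2 := hg {a} le_rfl (Finset.singleton_nonempty a)
    rw [dd_singleton] at h1 h2 ⊢
    rw [Finset.card_singleton, norm_smul]
    calc ‖f a‖ * ‖g a‖ ≤ A * B := by gcongr
      _ = ((1 : ℕ) : ℝ) * (A * B) := by simp
  | cons a S ha hne ih =>
    intro f g hf hg
    rw [Finset.cons_eq_insert] at hf hg ⊢
    have h1 := ih (f := fun t => (t - a)⁻¹ • (f t - f a)) (g := g) (fun T hT hTne => by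
      have haT : a ∉ T := fun h => ha (hT h)
      rw [← dd_slope f haT hTne]
      exact hf _ (Finset.insert_subset_insert a hT) (Finset.insert_nonempty _ _)) (fun T hT hTne => hg T (hT.trans (Finset.subset_insert a S)) hTne)
    have h2 : ‖dd S (fun t => (t - a)⁻¹ • (g t - g a))‖ ≤ B := by
      rw [← dd_slope g ha hne]
      exact hg _ le_rfl (Finset.insert_nonempty _ _)
    have h3 : ‖f a‖ ≤ A := by
      have := hf {a} (Finset.singleton_subset_iff.2 (Finset.mem_insert_self _ _)) (Finset.singleton_nonempty a)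
      rwa [dd_singleton] at this
    have h4 : dd (insert a S) (fun t => f t • g t) =
        dd S (fun t => ((t - a)⁻¹ • (f t - f a)) • g t) + f a • dd S (fun t => (t - a)⁻¹ • (g t - g a)) := by
      rw [dd_slope _ ha hne, ← dd_smul, ← dd_add]
      refine dd_congr fun b _ => ?_
      have e : (f b - f a) • g b + f a • (g b - g a) = f b • g b - f a • g a := by
        rw [sub_smul, smul_sub]
        abel
      rw [smul_assoc, smul_comm (f a) ((b - a)⁻¹ : ℝ), ← smul_add, e]
    rw [h4, Finset.card_insert_of_notMem ha]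
    refine (norm_add_le _ _).trans ?_
    rw [norm_smul]
    have h5 : ‖f a‖ * ‖dd S (fun t => (t - a)⁻¹ • (g t - g a))‖ ≤ A * B := by gcongr
    push_cast
    linarith

/-- the Newton polynomial -/
theorem dd_newton {E : Type*} [NormedAddCommGroup E] [NormedSpace ℂ E] {c r C : ℝ} (hr : 0 < r) (hr6 : 6 * r ≤ 1) (hC : 0 ≤ C) {S : Finset ℝ}
    (hne : S.Nonempty) (hS : ∀ a ∈ S, |a - c| ≤ r) : ∀ {f : ℝ → E}, (∀ T ⊆ S, T.Nonempty → ‖dd T f‖ ≤ C) → ∃ p : ℂ → E, Differentiable ℂ p ∧
    (∀ a ∈ S, p a = f a) ∧ (∀ x : ℝ, x ∉ S → f x - p x = (∏ b ∈ S, (x - b)) • dd (insert x S) f) ∧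
    (∀ ζ ∈ ball (c : ℂ) (2 * r), ‖p ζ‖ ≤ 2 * C) ∧ ∀ a ∈ S, ∀ ζ ∈ ball (c : ℂ) (2 * r), ‖p ζ - f a‖ ≤ 12 * r * C := by
  have hdist : ∀ a : ℝ, |a - c| ≤ r → dist (a : ℂ) (c : ℂ) ≤ r := by
    intro a ha
    rw [dist_eq_norm, ← Complex.ofReal_sub, Complex.norm_real]
    exact ha
  induction hne using Finset.Nonempty.cons_induction with
  | singleton a =>
    intro f hf
    refine ⟨fun _ => f a, differentiable_const _, ?_, ?_, ?_, ?_⟩
    · intro b hb
      rw [Finset.mem_singleton.1 hb]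
    · intro x hx
      have hxa : x ≠ a := fun h => hx (Finset.mem_singleton.2 h)
      have h1 : insert x ({a} : Finset ℝ) = insert a {x} := Finset.pair_comm x a
      rw [h1, dd_slope f (by simpa using hxa.symm) (Finset.singleton_nonempty x), dd_singleton, Finset.prod_singleton, smul_smul,
        mul_inv_cancel₀ (sub_ne_zero.2 hxa), one_smul]
    · intro ζ _
      have := hf {a} le_rfl (Finset.singleton_nonempty a)
      rw [dd_singleton] at this
      linarith
    · intro b hb ζ _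
      rw [Finset.mem_singleton.1 hb, sub_self, norm_zero]
      positivity
  | cons a S ha hne ih =>
    intro f hf
    rw [Finset.cons_eq_insert] at hf hS ⊢
    set g : ℝ → E := fun t => (t - a)⁻¹ • (f t - f a) with hg
    have hg' : ∀ T ⊆ S, T.Nonempty → ‖dd T g‖ ≤ C := by
      intro T hT hTne
      have haT : a ∉ T := fun h => ha (hT h)
      rw [hg, ← dd_slope f haT hTne]
      exact hf _ (Finset.insert_subset_insert a hT) (Finset.insert_nonempty _ _)
    obtain ⟨q, hq, hqS, hqx, hqb, -⟩ := ih (fun b hb => hS b (Finset.mem_insert_of_mem hb)) hg'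
    have hfa : ‖f a‖ ≤ C := by
      have := hf {a} (Finset.singleton_subset_iff.2 (Finset.mem_insert_self _ _)) (Finset.singleton_nonempty a)
      rwa [dd_singleton] at this
    have hda := hdist a (hS a (Finset.mem_insert_self _ _))
    have hza : ∀ ζ ∈ ball (c : ℂ) (2 * r), ‖ζ - a‖ ≤ 3 * r := by
      intro ζ hζ
      rw [mem_ball] at hζ
      have := dist_triangle_right ζ (a : ℂ) (c : ℂ)
      rw [← dist_eq_norm]
      linarith
    have hpb : ∀ ζ ∈ ball (c : ℂ) (2 * r), ‖(ζ - a) • q ζ‖ ≤ 6 * r * C := by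
      intro ζ hζ
      rw [norm_smul]
      calc ‖ζ - a‖ * ‖q ζ‖ ≤ 3 * r * (2 * C) := by
            have h1 := hza ζ hζ
            have h2 := hqb ζ hζ
            gcongr
        _ = 6 * r * C := by ring
    have hpS : ∀ b ∈ insert a S, f a + ((b : ℂ) - a) • q b = f b := by
      intro b hb
      rcases Finset.mem_insert.1 hb with rfl | hbS
      · simp
      · have hba : b - a ≠ 0 := sub_ne_zero.2 (fun h => ha (h ▸ hbS))
        rw [hqS b hbS, hg, ← Complex.ofReal_sub, Complex.coe_smul, smul_smul, mul_inv_cancel₀ hba, one_smul]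
        abel
    have hmem : ∀ b ∈ insert a S, (b : ℂ) ∈ ball (c : ℂ) (2 * r) := fun b hb =>
      mem_ball.2 (lt_of_le_of_lt (hdist b (hS b hb)) (by linarith))
    refine ⟨fun ζ => f a + (ζ - a) • q ζ, ?_, hpS, ?_, ?_, ?_⟩
    · exact (differentiable_const _).add ((differentiable_id.sub_const _).smul hq)
    · intro x hx
      have hxa : x ≠ a := fun h => hx (h ▸ Finset.mem_insert_self _ _)
      have hxS : x ∉ S := fun h => hx (Finset.mem_insert_of_mem h)
      have hxa' : x - a ≠ 0 := sub_ne_zero.2 hxa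
      have haxS : a ∉ insert x S := by
        rw [Finset.mem_insert]
        rintro (h | h)
        · exact hxa h.symm
        · exact ha h
      have h1 := hqx x hxS
      rw [Finset.insert_comm x a, dd_slope f haxS (Finset.insert_nonempty _ _), Finset.prod_insert ha, mul_smul, ← hg, ← h1, smul_sub, hg]
      simp only
      rw [smul_smul, mul_inv_cancel₀ hxa', one_smul, ← Complex.ofReal_sub, Complex.coe_smul]
      abel
    · intro ζ hζ
      have h1 := hpb ζ hζ
      have h2 : 6 * r * C ≤ 1 * C := by gcongr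
      have h3 := norm_add_le (f a) ((ζ - a) • q ζ)
      linarith
    · intro b hb ζ hζ
      have h1 := hpb ζ hζ
      have h2 := hpb b (hmem b hb)
      have h3 : f a + (ζ - a) • q ζ - f b = (ζ - a) • q ζ - ((b : ℂ) - a) • q b := by
        rw [← hpS b hb]
        abel
      rw [h3]
      have h4 := norm_sub_le ((ζ - a) • q ζ) (((b : ℂ) - a) • q b)
      linarith

/-- Lipschitz bound for a bounded holomorphic function -/
theorem hol_lip {E F : Type*} [NormedAddCommGroup E] [NormedSpace ℂ E] [NormedAddCommGroup F] [NormedSpace ℂ F] {R M : ℝ} (hR : 0 < R)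
    {t₀ : E} {c : ℂ} {Ψ : E × ℂ → F} (hd : DifferentiableOn ℂ Ψ (ball (t₀, c) R)) (hM : ∀ q ∈ ball (t₀, c) R, ‖Ψ q‖ ≤ M) {t t' : E} {s : ℂ}
    (ht : ‖t - t₀‖ ≤ R / 4) (ht' : ‖t' - t₀‖ ≤ R / 4) (hs : dist s c < R) : ‖Ψ (t, s) - Ψ (t', s)‖ ≤ 4 * M / R * ‖t - t'‖ := by
  have hM0 : 0 ≤ M := (norm_nonneg _).trans (hM (t₀, c) (mem_ball_self hR))
  by_cases htt : t = t'
  · rw [htt, sub_self, norm_zero, sub_self, norm_zero, mul_zero]
  have hn : 0 < ‖t - t'‖ := norm_pos_iff.2 (sub_ne_zero.2 htt)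
  have hn2 : ‖t - t'‖ ≤ R / 2 := by
    have : t - t' = (t - t₀) - (t' - t₀) := by abel
    rw [this]
    have := norm_sub_le (t - t₀) (t' - t₀)
    linarith
  set ρ : ℝ := 3 / 4 * R / ‖t - t'‖ with hρ
  have hρ1 : 1 < ρ := by
    rw [hρ, lt_div_iff₀ hn]
    linarith
  have hmap : ∀ l ∈ ball (0 : ℂ) ρ, (t' + l • (t - t'), s) ∈ ball (t₀, c) R := by
    intro l hl
    rw [mem_ball_zero_iff, hρ, lt_div_iff₀ hn] at hl
    rw [mem_ball, Prod.dist_eq, max_lt_iff]
    refine ⟨?_, hs⟩
    rw [dist_eq_norm]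
    have : t' + l • (t - t') - t₀ = (t' - t₀) + l • (t - t') := by abel
    rw [this]
    refine (norm_add_le _ _).trans_lt ?_
    rw [norm_smul]
    linarith
  set φ : ℂ → F := fun l => Ψ (t' + l • (t - t'), s) with hφ
  have hφd : DifferentiableOn ℂ φ (ball 0 ρ) := by
    refine hd.comp (f := fun l : ℂ => (t' + l • (t - t'), s)) ?_ hmap
    fun_prop
  have hmt : Set.MapsTo φ (ball 0 ρ) (closedBall (φ 0) (2 * M)) := by
    intro l hl
    rw [mem_closedBall, dist_eq_norm]
    have h1 := hM _ (hmap l hl)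
    have h2 := hM _ (hmap 0 (mem_ball_self (by linarith)))
    have h3 := norm_sub_le (φ l) (φ 0)
    have h1' : ‖φ l‖ ≤ M := h1
    have h2' : ‖φ 0‖ ≤ M := h2
    linarith
  have h1 := Complex.dist_le_div_mul_dist_of_mapsTo_ball hφd hmt (z := 1) (by rw [mem_ball_zero_iff, norm_one]; exact hρ1)
  have e1 : φ 1 = Ψ (t, s) := by
    simp only [hφ, one_smul]
    congr 2
    abel
  have e0 : φ 0 = Ψ (t', s) := by
    simp only [hφ, zero_smul, add_zero]
  rw [e1, e0, dist_eq_norm, dist_zero_right, norm_one, mul_one] at h1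
  refine h1.trans ?_
  have e2 : 2 * M / ρ = 8 / 3 * (M / R * ‖t - t'‖) := by
    rw [hρ]
    field_simp
    ring
  have e3 : 4 * M / R * ‖t - t'‖ = 4 * (M / R * ‖t - t'‖) := by ring
  have e4 : 0 ≤ M / R * ‖t - t'‖ := by positivity
  rw [e2, e3]
  linarith

/-- composition with a holomorphic function -/
theorem dd_comp {E F : Type*} [NormedAddCommGroup E] [NormedSpace ℂ E] [NormedAddCommGroup F] [NormedSpace ℂ F] [CompleteSpace F] (m : ℕ)
    {R M C : ℝ} (hR : 0 < R) (hM : 0 ≤ M) (hC : 0 ≤ C) : ∃ r C' : ℝ, 0 < r ∧ 0 ≤ C' ∧ ∀ (t₀ : E) (c : ℝ) (Ψ : E × ℂ → F),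
    DifferentiableOn ℂ Ψ (ball (t₀, (c : ℂ)) R) → (∀ q ∈ ball (t₀, (c : ℂ)) R, ‖Ψ q‖ ≤ M) → ∀ (t : ℝ → E) (S : Finset ℝ), S.card = m + 2 →
    (∀ a ∈ S, |a - c| ≤ r) → (∀ a ∈ S, ‖t a - t₀‖ ≤ R / 8) → (∀ T ⊆ S, T.Nonempty → T.card ≤ m + 1 → ‖dd T t‖ ≤ C) →
    ‖dd S (fun s => Ψ (t s, (s : ℂ)))‖ ≤ C' * (‖dd S t‖ + 1) := by
  set r : ℝ := min (1 / 6) (min (R / 16) (R / (96 * (C + 1)))) with hr
  have hr0 : 0 < r := by positivity
  have hr1 : 6 * r ≤ 1 := by
    have := min_le_left (1 / 6) (min (R / 16) (R / (96 * (C + 1))))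
    linarith
  have hr2 : 2 * r ≤ R / 8 := by
    have h1 := min_le_right (1 / 6) (min (R / 16) (R / (96 * (C + 1))))
    have h2 := min_le_left (R / 16) (R / (96 * (C + 1)))
    linarith
  have hr3 : 12 * r * C ≤ R / 8 := by
    have h1 := min_le_right (1 / 6) (min (R / 16) (R / (96 * (C + 1))))
    have h2 := min_le_right (R / 16) (R / (96 * (C + 1)))
    have h3 : r ≤ R / (96 * (C + 1)) := h1.trans h2
    rw [le_div_iff₀ (by positivity)] at h3
    nlinarith
  refine ⟨r, 4 * M / R + M * (4 / r) ^ (m + 1), hr0, by positivity, ?_⟩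
  intro t₀ c Ψ hd hb t S hcard hS ht hdd
  have hSne : S.Nonempty := by
    rw [← Finset.card_pos, hcard]
    omega
  obtain ⟨a, ha⟩ := hSne
  obtain ⟨S', haS', rfl⟩ : ∃ S', a ∉ S' ∧ insert a S' = S := ⟨S.erase a, Finset.notMem_erase a S, Finset.insert_erase ha⟩
  have hcard' : S'.card = m + 1 := by
    rw [Finset.card_insert_of_notMem haS'] at hcard
    omega
  have hS'ne : S'.Nonempty := by
    rw [← Finset.card_pos, hcard']
    omega
  obtain ⟨p, hp, hpS, hpx, -, hpb⟩ := dd_newton (c := c) hr0 hr1 hC hS'ne (fun b hb => hS b (Finset.mem_insert_of_mem hb)) (f := t)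
    (fun T hT hTne => hdd T (hT.trans (Finset.subset_insert a S')) hTne ((Finset.card_le_card hT).trans hcard'.le))
  obtain ⟨b₀, hb₀⟩ := hS'ne
  have hp0 : ∀ ζ ∈ ball (c : ℂ) (2 * r), ‖p ζ - t₀‖ ≤ R / 4 := by
    intro ζ hζ
    have h1 := hpb b₀ hb₀ ζ hζ
    have h2 := ht b₀ (Finset.mem_insert_of_mem hb₀)
    have : p ζ - t₀ = (p ζ - t b₀) + (t b₀ - t₀) := by abel
    rw [this]
    have := norm_add_le (p ζ - t b₀) (t b₀ - t₀)
    linarith
  have hmem : ∀ ζ ∈ ball (c : ℂ) (2 * r), (p ζ, ζ) ∈ ball (t₀, (c : ℂ)) R := by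
    intro ζ hζ
    rw [mem_ball, Prod.dist_eq, max_lt_iff]
    refine ⟨?_, ?_⟩
    · rw [dist_eq_norm]
      have := hp0 ζ hζ
      linarith
    · rw [mem_ball] at hζ
      linarith
  have hgd : DifferentiableOn ℂ (fun ζ => Ψ (p ζ, ζ)) (ball (c : ℂ) (2 * r)) := by
    refine hd.comp (f := fun ζ : ℂ => (p ζ, ζ)) ?_ hmem
    exact (hp.differentiableOn).prodMk differentiableOn_id
  have h1 := dd_hol hr0 (Finset.insert_nonempty a S') hS hgd (fun z hz => hb _ (hmem z hz))
  have hac : (a : ℂ) ∈ ball (c : ℂ) (2 * r) := by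
    rw [mem_ball, dist_eq_norm, ← Complex.ofReal_sub, Complex.norm_real]
    have := hS a (Finset.mem_insert_self _ _)
    rw [Real.norm_eq_abs]
    linarith
  -- the difference
  have hpi : (∏ b ∈ S', (a - b)) ≠ 0 := by
    rw [Finset.prod_ne_zero_iff]
    intro b hb
    exact sub_ne_zero.2 fun h => haS' (h ▸ hb)
  have h2 : dd (insert a S') (fun s => Ψ (t s, (s : ℂ))) - dd (insert a S') (fun s => Ψ (p s, (s : ℂ))) =
      ((∏ b ∈ S', (a - b))⁻¹ : ℝ) • (Ψ (t a, (a : ℂ)) - Ψ (p a, (a : ℂ))) := by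
    rw [← dd_sub]
    unfold dd
    rw [Finset.sum_insert haS', Finset.erase_insert haS']
    rw [Finset.sum_eq_zero (s := S'), add_zero]
    intro b hb
    simp only [hpS b hb, sub_self, smul_zero]
  have h3 : ‖Ψ (t a, (a : ℂ)) - Ψ (p a, (a : ℂ))‖ ≤ 4 * M / R * ‖t a - p a‖ := by
    refine hol_lip hR hd hb ?_ (hp0 _ hac) ?_
    · have := ht a (Finset.mem_insert_self _ _)
      linarith
    · rw [mem_ball] at hac
      linarith
  have h4 : ‖t a - p a‖ = |∏ b ∈ S', (a - b)| * ‖dd (insert a S') t‖ := by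
    rw [hpx a haS', norm_smul, Real.norm_eq_abs]
  have h5 : ‖dd (insert a S') (fun s => Ψ (t s, (s : ℂ))) - dd (insert a S') (fun s => Ψ (p s, (s : ℂ)))‖ ≤ 4 * M / R * ‖dd (insert a S') t‖ := by
    rw [h2, norm_smul, norm_inv, Real.norm_eq_abs]
    rw [h4] at h3
    have hpos : 0 < |∏ b ∈ S', (a - b)| := abs_pos.2 hpi
    calc |∏ b ∈ S', (a - b)|⁻¹ * ‖Ψ (t a, (a : ℂ)) - Ψ (p a, (a : ℂ))‖
        ≤ |∏ b ∈ S', (a - b)|⁻¹ * (4 * M / R * (|∏ b ∈ S', (a - b)| * ‖dd (insert a S') t‖)) := by gcongr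
      _ = 4 * M / R * ‖dd (insert a S') t‖ := by field_simp
  have h6 : ‖dd (insert a S') (fun s => Ψ (t s, (s : ℂ)))‖ ≤
      ‖dd (insert a S') (fun s => Ψ (t s, (s : ℂ))) - dd (insert a S') (fun s => Ψ (p s, (s : ℂ)))‖ + ‖dd (insert a S') (fun s => Ψ (p s, (s : ℂ)))‖ := by
    have := norm_add_le (dd (insert a S') (fun s => Ψ (t s, (s : ℂ))) - dd (insert a S') (fun s => Ψ (p s, (s : ℂ)))) (dd (insert a S') (fun s => Ψ (p s, (s : ℂ))))
    rwa [sub_add_cancel] at this
  have h7 : (insert a S').card - 1 = m + 1 := by omega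
  rw [h7] at h1
  have h8 : 0 ≤ M * (4 / r) ^ (m + 1) := by positivity
  have h9 : 0 ≤ 4 * M / R := by positivity
  have h10 := norm_nonneg (dd (insert a S') t)
  nlinarith

end Pool.Agent.G3.A
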