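import Pool.Agent.G3.A.DD
import Pool.Agent.G3.C.GenA

/-!
# G3 A DDJet: bounded divided differences of all orders give a smooth family

`dd_jet`: if `f s` is holomorphic on `D` for all `s ∈ I` and the divided differences of `s ↦ f s z` of every order are bounded uniformly in `z ∈ D`, then `f` is the first member
of a `JetFam`.
-/

set_option autoImplicit false

open Topology Filter Metric Finset

namespace Pool.Agent.G3.A

open Pool.Agent.G3.C (JetFam)

variable {E : Type*} [NormedAddCommGroup E] [NormedSpace ℝ E]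

/-- translation of the nodes -/
theorem dd_image_add (S : Finset ℝ) (h : ℝ) (g : ℝ → E) : dd (S.image (fun t => t + h)) g = dd S (fun t => g (t + h)) := by
  have hinj : Function.Injective fun t : ℝ => t + h := add_left_injective h
  unfold dd
  rw [Finset.sum_image fun a _ b _ hab => hinj hab]
  refine Finset.sum_congr rfl fun a _ => ?_
  congr 2
  rw [← Finset.image_erase hinj, Finset.prod_image fun a _ b _ hab => hinj hab]
  exact Finset.prod_congr rfl fun b _ => by ring

/-- replacing the nodes one by one -/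
theorem dd_shift_bound {S : Finset ℝ} {h C : ℝ} (hh : h ≠ 0) (hdis : ∀ a ∈ S, a + h ∉ S) {g : ℝ → E}
    (hC : ∀ T : Finset ℝ, T ⊆ S ∪ S.image (fun t => t + h) → T.card = S.card + 1 → ‖dd T g‖ ≤ C) :
    ‖dd (S.image (fun t => t + h)) g - dd S g‖ ≤ S.card * (|h| * C) := by
  have hinj : Function.Injective fun t : ℝ => t + h := add_left_injective h
  have key : ∀ U : Finset ℝ, U ⊆ S → ‖dd ((S \ U) ∪ U.image (fun t => t + h)) g - dd S g‖ ≤ U.card * (|h| * C) := by
    intro U
    induction U using Finset.induction_on with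
    | empty =>
      intro _
      simp
    | insert a U ha ih =>
      intro hU
      have haS : a ∈ S := hU (Finset.mem_insert_self _ _)
      have hUS : U ⊆ S := (Finset.subset_insert a U).trans hU
      have h1 := ih hUS
      set R : Finset ℝ := (S \ insert a U) ∪ U.image (fun t => t + h) with hR
      have e1 : (S \ U) ∪ U.image (fun t => t + h) = insert a R := by
        ext x
        simp only [hR, Finset.mem_union, Finset.mem_sdiff, Finset.mem_insert, Finset.mem_image]
        constructor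
        · rintro (⟨hx, hxU⟩ | hx)
          · by_cases hxa : x = a
            · exact Or.inl hxa
            · exact Or.inr (Or.inl ⟨hx, fun h => h.elim hxa hxU⟩)
          · exact Or.inr (Or.inr hx)
        · rintro (rfl | ⟨hx, hxU⟩ | hx)
          · exact Or.inl ⟨haS, ha⟩
          · exact Or.inl ⟨hx, fun h => hxU (Or.inr h)⟩
          · exact Or.inr hx
      have e2 : (S \ insert a U) ∪ (insert a U).image (fun t => t + h) = insert (a + h) R := by
        rw [Finset.image_insert, hR]
        ext x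
        simp only [Finset.mem_union, Finset.mem_insert]
        tauto
      have haR : a ∉ R := by
        rw [hR, Finset.mem_union]
        rintro (hx | hx)
        · exact (Finset.mem_sdiff.1 hx).2 (Finset.mem_insert_self _ _)
        · obtain ⟨b, hb, hba⟩ := Finset.mem_image.1 hx
          exact hdis b (hUS hb) (by rw [hba]; exact haS)
      have hahR : a + h ∉ R := by
        rw [hR, Finset.mem_union]
        rintro (hx | hx)
        · exact hdis a haS (Finset.mem_sdiff.1 hx).1
        · obtain ⟨b, hb, hba⟩ := Finset.mem_image.1 hx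
          exact ha ((hinj hba) ▸ hb)
      have hne : a ≠ a + h := fun h' => hh (by linarith)
      have h2 : dd (insert (a + h) R) g - dd (insert a R) g = h • dd (insert a (insert (a + h) R)) g := by
        rw [dd_insert_insert hne haR hahR, smul_smul]
        have : h * (a + h - a)⁻¹ = 1 := by
          rw [add_sub_cancel_left]
          exact mul_inv_cancel₀ hh
        rw [this, one_smul]
      have hRcard : R.card + 1 = S.card := by
        have h3 : (insert a R).card = R.card + 1 := Finset.card_insert_of_notMem haR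
        rw [← h3, ← e1, Finset.card_union_of_disjoint, Finset.card_image_of_injective _ hinj, Finset.card_sdiff_of_subset hUS]
        · have := Finset.card_le_card hUS
          omega
        · rw [Finset.disjoint_left]
          intro x hx hx'
          obtain ⟨b, hb, hba⟩ := Finset.mem_image.1 hx'
          exact hdis b (hUS hb) (by rw [hba]; exact (Finset.mem_sdiff.1 hx).1)
      have hRsub : R ⊆ S ∪ S.image (fun t => t + h) := by
        rw [hR]
        exact Finset.union_subset_union Finset.sdiff_subset (Finset.image_subset_image hUS)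
      have h3 : ‖dd (insert a (insert (a + h) R)) g‖ ≤ C := by
        refine hC _ ?_ ?_
        · refine Finset.insert_subset (Finset.mem_union_left _ haS) (Finset.insert_subset (Finset.mem_union_right _ ?_) hRsub)
          exact Finset.mem_image_of_mem (fun t => t + h) haS
        · have h4 : a ∉ insert (a + h) R := by
            rw [Finset.mem_insert]
            rintro (h5 | h5)
            · exact hne h5
            · exact haR h5
          rw [Finset.card_insert_of_notMem h4, Finset.card_insert_of_notMem hahR]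
          omega
      rw [e1] at h1
      rw [e2, Finset.card_insert_of_notMem ha]
      have h4 : dd (insert (a + h) R) g - dd S g = (dd (insert (a + h) R) g - dd (insert a R) g) + (dd (insert a R) g - dd S g) := by abel
      rw [h4]
      refine (norm_add_le _ _).trans ?_
      rw [h2, norm_smul, Real.norm_eq_abs]
      have h5 : |h| * ‖dd (insert a (insert (a + h) R)) g‖ ≤ |h| * C := by gcongr
      push_cast
      linarith
  have h1 := key S le_rfl
  rwa [Finset.sdiff_self, Finset.empty_union] at h1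

/-- the derivative exists -/
theorem dd_deriv [CompleteSpace E] {I : Set ℝ} (hI : IsOpen I) {C : ℝ} {g : ℝ → E}
    (hC : ∀ T : Finset ℝ, (∀ a ∈ T, a ∈ I) → T.card = 3 → ‖dd T g‖ ≤ C) {s : ℝ} (hs : s ∈ I) :
    ∃ v : E, HasDerivAt g v s ∧ ∀ t ∈ I, t ≠ s → ‖(t - s)⁻¹ • (g t - g s) - v‖ ≤ C * |t - s| := by
  -- Lipschitz bound for the slopes
  have hlip : ∀ t ∈ I, ∀ t' ∈ I, t ≠ s → t' ≠ s → ‖(t - s)⁻¹ • (g t - g s) - (t' - s)⁻¹ • (g t' - g s)‖ ≤ C * |t - t'| := by
    intro t ht t' ht' hts ht's
    by_cases htt : t = t'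
    · rw [htt]
      simp
    have h1 : dd (insert s (insert t {t'})) g = (t' - t)⁻¹ • ((t' - s)⁻¹ • (g t' - g s) - (t - s)⁻¹ • (g t - g s)) := by
      have hs1 : s ∉ insert t ({t'} : Finset ℝ) := by
        rw [Finset.mem_insert, Finset.mem_singleton]
        rintro (h | h)
        · exact hts h.symm
        · exact ht's h.symm
      rw [dd_slope g hs1 (Finset.insert_nonempty _ _)]
      have h2 := dd_insert_insert (S := ∅) htt (Finset.notMem_empty t) (Finset.notMem_empty t') (fun x => (x - s)⁻¹ • (g x - g s))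
      simp only [insert_empty_eq] at h2
      rw [h2, dd_singleton, dd_singleton]
    have h2 : ‖dd (insert s (insert t {t'})) g‖ ≤ C := by
      refine hC _ ?_ ?_
      · intro a ha
        rw [Finset.mem_insert, Finset.mem_insert, Finset.mem_singleton] at ha
        rcases ha with rfl | rfl | rfl
        · exact hs
        · exact ht
        · exact ht'
      · rw [Finset.card_insert_of_notMem, Finset.card_insert_of_notMem, Finset.card_singleton]
        · simpa using htt
        · rw [Finset.mem_insert, Finset.mem_singleton]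
          rintro (h | h)
          · exact hts h.symm
          · exact ht's h.symm
    have h3 : (t - s)⁻¹ • (g t - g s) - (t' - s)⁻¹ • (g t' - g s) = (t - t') • dd (insert s (insert t {t'})) g := by
      have hne : t' - t ≠ 0 := sub_ne_zero.2 fun h => htt h.symm
      have e : (t - t') * (t' - t)⁻¹ = -1 := by
        rw [← neg_sub t' t, neg_mul, mul_inv_cancel₀ hne]
      rw [h1, smul_smul, e, neg_one_smul]
      abel
    rw [h3, norm_smul, Real.norm_eq_abs, mul_comm]
    gcongr
  obtain ⟨δ, hδ, hball⟩ := Metric.isOpen_iff.1 hI s hs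
  have hC0 : 0 ≤ C := by
    have h1 : s + δ / 2 ∈ I := hball (by rw [mem_ball, Real.dist_eq]; rw [add_sub_cancel_left, abs_of_pos (by linarith)]; linarith)
    have h2 : s + δ / 3 ∈ I := hball (by rw [mem_ball, Real.dist_eq]; rw [add_sub_cancel_left, abs_of_pos (by linarith)]; linarith)
    have h3 := hlip _ h1 _ h2 (by linarith) (by linarith)
    have h4 : 0 < |s + δ / 2 - (s + δ / 3)| := abs_pos.2 (by linarith)
    have h5 := (norm_nonneg _).trans h3
    by_contra hcon
    rw [not_le] at hcon
    have := mul_neg_of_neg_of_pos hcon h4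
    linarith
  -- a sequence
  set tn : ℕ → ℝ := fun n => s + δ / (n + 2) with htn
  have htnI : ∀ n, tn n ∈ I := by
    intro n
    apply hball
    rw [mem_ball, Real.dist_eq, htn]
    simp only [add_sub_cancel_left]
    have hp : (0 : ℝ) < (n : ℝ) + 2 := by positivity
    rw [abs_of_pos (by positivity), div_lt_iff₀ hp]
    nlinarith [(Nat.cast_nonneg n : (0 : ℝ) ≤ n)]
  have htns : ∀ n, tn n ≠ s := by
    intro n
    rw [htn]
    have : 0 < δ / ((n : ℝ) + 2) := by positivity
    simp only
    linarith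
  have htnlim : Tendsto tn atTop (𝓝 s) := by
    have h1 : Tendsto (fun n : ℕ => δ / ((n : ℝ) + 2)) atTop (𝓝 0) :=
      tendsto_const_nhds.div_atTop (tendsto_natCast_atTop_atTop.atTop_add tendsto_const_nhds)
    have h2 := (tendsto_const_nhds (x := s)).add h1
    simpa [htn] using h2
  set σ : ℝ → E := fun t => (t - s)⁻¹ • (g t - g s) with hσ
  have hcau : CauchySeq fun n => σ (tn n) := by
    have hc := htnlim.cauchySeq
    rw [Metric.cauchySeq_iff] at hc ⊢
    intro ε hε
    obtain ⟨N, hN⟩ := hc (ε / (C + 1)) (by positivity)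
    refine ⟨N, fun m hm n hn => ?_⟩
    have h1 := hlip _ (htnI m) _ (htnI n) (htns m) (htns n)
    have h2 := hN m hm n hn
    rw [dist_eq_norm]
    rw [Real.dist_eq, lt_div_iff₀ (by positivity)] at h2
    have h3 : C * |tn m - tn n| ≤ |tn m - tn n| * (C + 1) := by nlinarith [abs_nonneg (tn m - tn n)]
    exact (h1.trans h3).trans_lt h2
  obtain ⟨v, hv⟩ := cauchySeq_tendsto_of_complete hcau
  have hbd : ∀ t ∈ I, t ≠ s → ‖σ t - v‖ ≤ C * |t - s| := by
    intro t ht hts
    have h1 : Tendsto (fun n => ‖σ t - σ (tn n)‖) atTop (𝓝 ‖σ t - v‖) := (tendsto_const_nhds.sub hv).norm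
    have h2 : Tendsto (fun n => C * |t - tn n|) atTop (𝓝 (C * |t - s|)) := ((tendsto_const_nhds.sub htnlim).abs).const_mul C
    exact le_of_tendsto_of_tendsto' h1 h2 fun n => hlip t ht _ (htnI n) hts (htns n)
  refine ⟨v, ?_, hbd⟩
  rw [hasDerivAt_iff_tendsto_slope]
  have h1 : Tendsto (fun t => C * |t - s|) (𝓝[≠] s) (𝓝 0) := by
    have h2 : Tendsto (fun t => C * |t - s|) (𝓝 s) (𝓝 (C * |s - s|)) := by
      have : Continuous fun t : ℝ => C * |t - s| := by fun_prop
      exact this.tendsto s
    rw [sub_self, abs_zero, mul_zero] at h2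
    exact h2.mono_left nhdsWithin_le_nhds
  rw [tendsto_iff_norm_sub_tendsto_zero]
  refine squeeze_zero' (Eventually.of_forall fun t => norm_nonneg _) ?_ h1
  have h2 : ∀ᶠ t in 𝓝[≠] s, t ∈ I := nhdsWithin_le_nhds (hI.mem_nhds hs)
  filter_upwards [h2, self_mem_nhdsWithin] with t ht hts
  rw [slope, vsub_eq_sub]
  exact hbd t ht hts

/-- the divided differences of the derivative -/
theorem dd_deriv_bound {I : Set ℝ} (hI : IsOpen I) {C : ℝ} {g g' : ℝ → E} (hg : ∀ s ∈ I, HasDerivAt g (g' s) s) {S : Finset ℝ}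
    (hS : ∀ a ∈ S, a ∈ I) (hC : ∀ T : Finset ℝ, (∀ a ∈ T, a ∈ I) → T.card = S.card + 1 → ‖dd T g‖ ≤ C) : ‖dd S g'‖ ≤ S.card * C := by
  -- the limit
  have h1 : Tendsto (fun h : ℝ => dd S (fun t => h⁻¹ • (g (t + h) - g t))) (𝓝[≠] 0) (𝓝 (dd S g')) := by
    unfold dd
    refine tendsto_finsetSum _ fun a ha => ?_
    have h2 := hasDerivAt_iff_tendsto_slope_zero.1 (hg a (hS a ha))
    exact h2.const_smul _
  have h2 : ∀ᶠ h in 𝓝[≠] (0 : ℝ), ∀ a ∈ S, a + h ∈ I := by
    rw [eventually_all_finset]
    intro a ha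
    have h3 : Tendsto (fun h : ℝ => a + h) (𝓝 0) (𝓝 (a + 0)) := (continuous_const.add continuous_id).tendsto 0
    rw [add_zero] at h3
    exact (h3.eventually (hI.mem_nhds (hS a ha))).filter_mono nhdsWithin_le_nhds
  have h3 : ∀ᶠ h in 𝓝[≠] (0 : ℝ), ∀ a ∈ S, a + h ∉ S := by
    rw [eventually_all_finset]
    intro a ha
    have h4 : ∀ᶠ h in 𝓝[≠] (0 : ℝ), ∀ b ∈ S, a + h ≠ b := by
      rw [eventually_all_finset]
      intro b hb
      by_cases hab : b = a
      · filter_upwards [self_mem_nhdsWithin] with h hh hah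
        apply hh
        simp only [Set.mem_singleton_iff]
        linarith
      · have h5 : Tendsto (fun h : ℝ => a + h) (𝓝 0) (𝓝 (a + 0)) := (continuous_const.add continuous_id).tendsto 0
        rw [add_zero] at h5
        exact (h5.eventually_ne (fun h => hab h.symm)).filter_mono nhdsWithin_le_nhds
    filter_upwards [h4] with h hh hmem
    exact hh _ hmem rfl
  refine le_of_tendsto h1.norm ?_
  filter_upwards [h2, h3, self_mem_nhdsWithin] with h a1 a2 a3
  have hh : h ≠ 0 := a3
  have h4 := dd_shift_bound hh a2 (g := g) (C := C) (fun T hT hcard => hC T (fun b hb => by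
    rcases Finset.mem_union.1 (hT hb) with h5 | h5
    · exact hS b h5
    · obtain ⟨c, hc, rfl⟩ := Finset.mem_image.1 h5
      exact a1 c hc) hcard)
  rw [dd_image_add, ← dd_sub] at h4
  have h5 : dd S (fun t => h⁻¹ • (g (t + h) - g t)) = h⁻¹ • dd S (fun t => g (t + h) - g t) := dd_smul S h⁻¹ _
  rw [h5, norm_smul, norm_inv, Real.norm_eq_abs]
  have h6 : 0 < |h| := abs_pos.2 hh
  calc |h|⁻¹ * ‖dd S (fun t => g (t + h) - g t)‖ ≤ |h|⁻¹ * (S.card * (|h| * C)) := by gcongr
    _ = S.card * C := by field_simp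

/-- families with bounded divided differences of all orders -/
structure BD (f : ℝ → ℂ → ℂ) (I : Set ℝ) (D : Set ℂ) : Prop where
  hol : ∀ s ∈ I, DifferentiableOn ℂ (f s) D
  bd : ∀ m : ℕ, ∃ C : ℝ, ∀ z ∈ D, ∀ S : Finset ℝ, (∀ a ∈ S, a ∈ I) → S.card = m + 1 → ‖dd S (fun s => f s z)‖ ≤ C

theorem BD.deriv {f : ℝ → ℂ → ℂ} {I : Set ℝ} {D : Set ℂ} (hI : IsOpen I) (hD : IsOpen D) (h : BD f I D) :
    ∃ f' : ℝ → ℂ → ℂ, BD f' I D ∧ ∀ s ∈ I, ∀ z ∈ D, HasDerivAt (fun t => f t z) (f' s z) s := by
  obtain ⟨C, hC⟩ := h.bd 2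
  have h1 : ∀ s ∈ I, ∀ z ∈ D, ∃ v : ℂ, HasDerivAt (fun t => f t z) v s ∧ ∀ t ∈ I, t ≠ s → ‖(t - s)⁻¹ • (f t z - f s z) - v‖ ≤ C * |t - s| :=
    fun s hs z hz => dd_deriv hI (g := fun t => f t z) (fun T hT hcard => hC z hz T hT hcard) hs
  choose! f' hf' using h1
  refine ⟨f', ⟨?_, ?_⟩, fun s hs z hz => (hf' s hs z hz).1⟩
  · intro s hs
    have h2 : TendstoUniformlyOn (fun (t : ℝ) (z : ℂ) => (t - s)⁻¹ • (f t z - f s z)) (f' s) (𝓝[≠] s) D := by
      rw [Metric.tendstoUniformlyOn_iff]
      intro ε hε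
      have h3 : ∀ᶠ t in 𝓝[≠] s, C * |t - s| < ε := by
        have h4 : Tendsto (fun t => C * |t - s|) (𝓝 s) (𝓝 (C * |s - s|)) := by
          have : Continuous fun t : ℝ => C * |t - s| := by fun_prop
          exact this.tendsto s
        rw [sub_self, abs_zero, mul_zero] at h4
        exact (h4.eventually (gt_mem_nhds hε)).filter_mono nhdsWithin_le_nhds
      have h4 : ∀ᶠ t in 𝓝[≠] s, t ∈ I := nhdsWithin_le_nhds (hI.mem_nhds hs)
      filter_upwards [h3, h4, self_mem_nhdsWithin] with t a1 a2 a3 z hz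
      rw [dist_comm, dist_eq_norm]
      exact ((hf' s hs z hz).2 t a2 a3).trans_lt a1
    refine h2.tendstoLocallyUniformlyOn.differentiableOn ?_ hD
    have h4 : ∀ᶠ t in 𝓝[≠] s, t ∈ I := nhdsWithin_le_nhds (hI.mem_nhds hs)
    filter_upwards [h4] with t ht
    exact ((h.hol t ht).sub (h.hol s hs)).const_smul ((t - s)⁻¹ : ℝ)
  · intro m
    obtain ⟨C', hC'⟩ := h.bd (m + 1)
    refine ⟨((m + 1 : ℕ) : ℝ) * C', fun z hz S hS hcard => ?_⟩
    have h2 := dd_deriv_bound hI (g := fun t => f t z) (g' := fun t => f' t z) (C := C') (fun s hs => (hf' s hs z hz).1) hS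
      (fun T hT hT' => hC' z hz T hT (by omega))
    rwa [hcard] at h2

/-- the families are continuous -/
theorem BD.cont {f : ℝ → ℂ → ℂ} {I : Set ℝ} {D : Set ℂ} (h : BD f I D) : ContinuousOn (fun q : ℝ × ℂ => f q.1 q.2) (I ×ˢ D) := by
  obtain ⟨C, hC⟩ := h.bd 1
  rintro ⟨s, z⟩ ⟨hs, hz⟩
  have hs' : s ∈ I := hs
  have hz' : z ∈ D := hz
  have h1 : ∀ t ∈ I, ∀ x ∈ D, ‖f t x - f s x‖ ≤ C * |t - s| := by
    intro t ht x hx
    by_cases hts : t = s
    · rw [hts]
      simp
    have h2 := hC x hx (insert s {t}) (by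
      intro a ha
      rw [Finset.mem_insert, Finset.mem_singleton] at ha
      rcases ha with rfl | rfl
      · exact hs'
      · exact ht) (by
      rw [Finset.card_insert_of_notMem (by simpa using fun h => hts h.symm), Finset.card_singleton])
    rw [dd_slope _ (by simpa using fun h => hts h.symm) (Finset.singleton_nonempty t), dd_singleton, norm_smul, norm_inv, Real.norm_eq_abs] at h2
    have h3 : 0 < |t - s| := abs_pos.2 (sub_ne_zero.2 hts)
    rw [inv_mul_le_iff₀ h3] at h2
    linarith
  have h2 : Tendsto (fun q : ℝ × ℂ => f q.1 q.2 - f s q.2) (𝓝[I ×ˢ D] (s, z)) (𝓝 0) := by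
    rw [tendsto_zero_iff_norm_tendsto_zero]
    have h3 : Tendsto (fun q : ℝ × ℂ => C * |q.1 - s|) (𝓝[I ×ˢ D] (s, z)) (𝓝 0) := by
      have h4 : Tendsto (fun q : ℝ × ℂ => C * |q.1 - s|) (𝓝 (s, z)) (𝓝 (C * |s - s|)) := by
        have : Continuous fun q : ℝ × ℂ => C * |q.1 - s| := by fun_prop
        exact this.tendsto (s, z)
      rw [sub_self, abs_zero, mul_zero] at h4
      exact h4.mono_left nhdsWithin_le_nhds
    refine squeeze_zero' (Eventually.of_forall fun q => norm_nonneg _) ?_ h3
    filter_upwards [self_mem_nhdsWithin] with q hq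
    exact h1 q.1 hq.1 q.2 hq.2
  have h3 : Tendsto (fun q : ℝ × ℂ => f s q.2) (𝓝[I ×ˢ D] (s, z)) (𝓝 (f s z)) := by
    have h4 : Tendsto (fun q : ℝ × ℂ => q.2) (𝓝[I ×ˢ D] (s, z)) (𝓝[D] z) := by
      refine tendsto_nhdsWithin_iff.2 ⟨(continuous_snd.tendsto (s, z)).mono_left nhdsWithin_le_nhds, ?_⟩
      filter_upwards [self_mem_nhdsWithin] with q hq
      exact hq.2
    exact ((h.hol s hs').continuousOn z hz').tendsto.comp h4
  have h4 := h2.add h3
  simp only [sub_add_cancel, zero_add] at h4
  exact h4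

/-- **Bounded divided differences of all orders give a smooth family.** -/
theorem dd_jet {f : ℝ → ℂ → ℂ} {I : Set ℝ} {D : Set ℂ} (hI : IsOpen I) (hD : IsOpen D) (h : BD f I D) :
    ∃ w : ℕ → ℝ → ℂ → ℂ, w 0 = f ∧ JetFam w I D ∧ ∀ j, BD (w j) I D := by
  classical
  have step : ∀ p : {g : ℝ → ℂ → ℂ // BD g I D}, ∃ p' : {g : ℝ → ℂ → ℂ // BD g I D}, ∀ s ∈ I, ∀ z ∈ D, HasDerivAt (fun t => p.1 t z) (p'.1 s z) s := by
    rintro ⟨g, hg⟩
    obtain ⟨g', hg', hder⟩ := hg.deriv hI hD
    exact ⟨⟨g', hg'⟩, hder⟩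
  choose nxt hnxt using step
  set W : ℕ → {g : ℝ → ℂ → ℂ // BD g I D} := fun n => Nat.rec ⟨f, h⟩ (fun _ p => nxt p) n with hW
  refine ⟨fun j => (W j).1, rfl, ⟨?_, ?_, ?_⟩, fun j => (W j).2⟩
  · intro j s hs z hz
    exact hnxt (W j) s hs z hz
  · intro j
    exact (W j).2.cont
  · intro j s hs
    exact (W j).2.hol s hs

end Pool.Agent.G3.A
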