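import Pool.Agent.G3.C.EDefs
import Pool.Agent.G3.C.LemmaU
import Pool.Agent.G3.Defs
import Pool.Agent.TG.JJ
import Pool.Agent.TG.Gd

/-!
# G3 A Defs: curves over the lines of one direction

`a` is a direction (sup norm `1`), `Bad` the set of the bad points for this direction (`Ba D B a`: points of `B` and points where `a` is tangent to `D`).

* `Hc X Λ u a y`: the entire curves over the line `y + ℂ a`, as maps to the projective space (`MN N`).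
* `Frm`: finitely many forms `α j` with theta factors for `Γ ≤ Λ` (`Tht`), without common zeros outside `D` (`Sepa`); `Dec`: decay `|α j| ≤ C₀ exp (- c₀ |y|²)`.
* `NL`: normalised lifts of the curves in `Hc` (from block P).
* `LG`: the geometry of the lines of direction `a`; `LC`: the constants `ρ`, `δ`; `Co`: the core.
* `CRL`: crossing for the lines near a line through a good point (from block X); `DA`: all data for the direction `a`.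
* `Tb`, `ToE`, `Sht`: the real subspace `E`, the closure of `ℂ a`, and the sheets over `b + E`.
* `Lm`: convergence of curves `f n` over `y n + ℂ a` to a curve `g` over `y₀ + ℂ a`, locally uniformly outside `D`.
-/

set_option autoImplicit false

open Topology Filter Metric

namespace Pool.Agent.G3.A

open Pool.Agent.H36.BP (EN fs wd)
open Pool.Agent.H14.PP (IsCone CurveAt Tan)
open Pool.Agent.H62.EF (MN pr)
open Pool.Agent.AD (Vd Chart Charts IsGerm)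
open Pool.Agent.TG
open Pool.Agent.G3.C (Gc HP)

variable {N k : ℕ}

/-- the bad points for the direction `a`: the points of `B`, and the points at which `a` is tangent to `D` -/
def Ba (D B : Set (Vd (k + 1))) (a : Vd (k + 1)) : Set (Vd (k + 1)) := {q | q ∈ D ∧ (q ∈ B ∨ ¬ TransAt D q a)}

/-- the entire curves in `X` over the line `y + ℂ a`, as maps to the projective space -/
def Hc (X : Set (EN N)) (Λ : AddSubgroup (Vd (k + 1))) (u : EN N → Vd (k + 1)) (a y : Vd (k + 1)) : Set (ℂ → MN N) :=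
  {f | ∃ F ∈ Gc X Λ u a y, f = fun z => pr (F z)}

/-- the form `α` decays -/
def Dec {X : Set (EN N)} {Λ : AddSubgroup (Vd (k + 1))} {u : EN N → Vd (k + 1)} (α : VForm X Λ u) (c₀ C₀ : ℝ) : Prop :=
  ∀ y, ∀ x ∈ X, u x - y ∈ Λ → ∀ v : Fin (k + 2) → EN N, (∀ i, Tan X x (v i)) → (∀ i, ‖v i‖ ≤ ‖x‖) →
    ‖α.toFun y x v‖ ≤ C₀ * Real.exp (-(c₀ * ‖y‖ ^ 2))

/-- the forms `α j` have no common zero outside `D` -/
def Sepa {X : Set (EN N)} {Λ : AddSubgroup (Vd (k + 1))} {u : EN N → Vd (k + 1)} (D : Set (Vd (k + 1))) {J : ℕ} (α : Fin J → VForm X Λ u) : Prop :=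
  ∀ y ∉ D, ∀ x ∈ X, u x - y ∈ Λ → ∃ j, ∃ v : Fin (k + 2) → EN N, (∀ i, Tan X x (v i)) ∧ (α j).toFun y x v ≠ 0

/-- the form `α` is quasi-periodic for `Γ`, with theta factors of the weight `wt W` -/
def Tht {X : Set (EN N)} {Λ : AddSubgroup (Vd (k + 1))} {u : EN N → Vd (k + 1)} (Γ : AddSubgroup (Vd (k + 1))) {r : ℕ}
    (W : Fin r → Vd (k + 1) →L[ℂ] ℂ) (α : VForm X Λ u) : Prop :=
  ∀ l ∈ Γ, ∃ (L : Vd (k + 1) →L[ℂ] ℂ) (c : ℂ), (∀ y, ‖Complex.exp (L y + c)‖ = Real.exp (wt W y - wt W (y + l))) ∧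
    ∀ y, ∀ x ∈ X, u x - y ∈ Λ → ∀ v : Fin (k + 2) → EN N, (∀ i, Tan X x (v i)) → α.toFun (y + l) x v = Complex.exp (L y + c) * α.toFun y x v

/-- the forms: theta factors for a lattice `Γ ≤ Λ` and a positive definite weight, no common zero outside `D` -/
structure Frm (X : Set (EN N)) (Λ : AddSubgroup (Vd (k + 1))) (u : EN N → Vd (k + 1)) (D : Set (Vd (k + 1))) (Γ : AddSubgroup (Vd (k + 1))) {J r : ℕ}
    (W : Fin r → Vd (k + 1) →L[ℂ] ℂ) (α : Fin J → VForm X Λ u) : Prop where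
  lat : Lat Γ
  le : Γ ≤ Λ
  pos : ∀ y, (∀ i, W i y = 0) → y = 0
  per : ∀ j, Tht Γ W (α j)
  sep : Sepa D α

/-- normalised lifts of the curves over the lines of direction `a` -/
def NL (X : Set (EN N)) (Λ : AddSubgroup (Vd (k + 1))) (u : EN N → Vd (k + 1)) (D : Set (Vd (k + 1))) (a : Vd (k + 1)) : Prop :=
  ∀ δ : ℝ, 0 < δ → ∃ c : ℝ, 0 < c ∧ ∀ y, ∀ f ∈ Hc X Λ u a y, ∀ z₀ : ℂ, ∃ F : ℂ → EN N, DifferentiableOn ℂ F (ball z₀ 2) ∧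
    (∀ z ∈ ball z₀ 2, F z ∈ X ∧ f z = pr (F z) ∧ ‖F z‖ ≤ 1) ∧ ∀ z ∈ closedBall z₀ 1, y + z • a ∈ Gd D δ → c ≤ ‖F z‖

/-- the geometry of the lines of direction `a` -/
structure LG (Λ : AddSubgroup (Vd (k + 1))) (D Bad : Set (Vd (k + 1))) (a : Vd (k + 1)) : Prop where
  norm : ‖a‖ = 1
  lat : Lat Λ
  D_closed : IsClosed D
  D_inv : ∀ y ∈ D, ∀ l ∈ Λ, y + l ∈ D
  bad_sub : Bad ⊆ D
  bad_inv : ∀ β ∈ Bad, ∀ l ∈ Λ, β + l ∈ Bad
  bad_fin : ∃ S : Set (Vd (k + 1)), S.Finite ∧ ∀ β ∈ Bad, ∃ s ∈ S, β - s ∈ Λ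
  iso : ∀ y : Vd (k + 1), ∀ᶠ z in 𝓝[≠] (0 : ℂ), y + z • a ∉ D
  rank : ∃ ω : ℂ, ‖ω‖ = 1 ∧ ∀ z : ℂ, z • a ∈ Λ → ((starRingEnd ℂ) ω * z).im = 0

/-- the core: points of distance at least `2 δ` from `D` and at least `ρ / 2` from the bad points -/
def Co (D Bad : Set (Vd (k + 1))) (δ ρ : ℝ) : Set (Vd (k + 1)) := {y | y ∈ Gd D (2 * δ) ∧ ∀ β ∈ Bad, ρ / 2 ≤ ‖y - β‖}

/-- the constants of the geometry of the lines of direction `a` -/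
structure LC (D Bad : Set (Vd (k + 1))) (a : Vd (k + 1)) (ρ δ : ℝ) : Prop where
  norm : ‖a‖ = 1
  D_closed : IsClosed D
  bad_sub : Bad ⊆ D
  ρ_pos : 0 < ρ
  ρ_le : ρ ≤ 1 / 4
  δ_pos : 0 < δ
  δ_le : 8 * δ ≤ ρ
  sep : ∀ β ∈ Bad, ∀ β' ∈ Bad, β ≠ β' → 8 * ρ ≤ ‖β - β'‖
  iso : ∀ y : Vd (k + 1), ∀ᶠ z in 𝓝[≠] (0 : ℂ), y + z • a ∉ D
  /-- the discs around the bad points contain no other hits -/
  ann : ∀ β ∈ Bad, ∀ z : ℂ, ρ / 4 ≤ ‖z‖ → ‖z‖ ≤ ρ → β + z • a ∈ Gd D (2 * δ)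
  /-- small circles -/
  circ : ∀ y : Vd (k + 1), ∃ r : ℝ, 0 < r ∧ r < ρ / 2 ∧ ∀ z : ℂ, ‖z‖ = r → y + z • a ∈ Gd D (2 * δ)
  /-- circles in the core -/
  circC : ∀ y : Vd (k + 1), ∃ r : ℝ, 0 < r ∧ r ≤ 2 * ρ ∧ ∀ z : ℂ, ‖z‖ = r → y + z • a ∈ Gd D (4 * δ) ∧ ∀ β ∈ Bad, 3 / 4 * ρ ≤ ‖y + z • a - β‖
  /-- the exact bad hits of a line are in a strip -/
  strip : ∀ y : Vd (k + 1), ∃ (ω : ℂ) (M : ℝ), ‖ω‖ = 1 ∧ ∀ z : ℂ, y + z • a ∈ Bad → |((starRingEnd ℂ) ω * z).im| ≤ M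

/-- the curves `f n` over `y n + ℂ a` converge to `g` locally uniformly at the points where `y₀ + z a` is not in `D` -/
def Lm (D : Set (Vd (k + 1))) (a : Vd (k + 1)) {ι : Type*} (l : Filter ι) (y₀ : Vd (k + 1)) (f : ι → ℂ → MN N) (g : ℂ → MN N) : Prop :=
  ∀ z : ℂ, y₀ + z • a ∉ D → ∀ w : ι → ℂ, Tendsto w l (𝓝 z) → Tendsto (fun n => f n (w n)) l (𝓝 (g z))


/-- crossing for the lines near the line `p + ℂ a` -/
def CRL (X : Set (EN N)) (Λ : AddSubgroup (Vd (k + 1))) (u : EN N → Vd (k + 1)) (D : Set (Vd (k + 1))) (a p : Vd (k + 1)) : Prop :=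
  ∀ η : ℝ, 0 < η → ∃ s₀ ρ₀ : ℝ, 0 < s₀ ∧ s₀ ≤ η ∧ 0 < ρ₀ ∧ ∀ δ ε ε₀ : ℝ, Cst X Λ u D δ ε ε₀ → ∃ ε₁ : ℝ, 0 < ε₁ ∧ ε₁ ≤ ε₀ ∧
    ∀ p' ∈ ball p ρ₀, (∀ z : ℂ, s₀ / 4 ≤ ‖z‖ → ‖z‖ ≤ s₀ → p' + z • a ∈ Gd D δ) → ∀ (α : VForm X Λ u) (F H : ℂ → EN N),
      DifferentiableOn ℂ F (ball 0 (2 * s₀)) → (∀ z ∈ ball (0 : ℂ) (2 * s₀), F z ∈ X ∧ u (F z) - (p' + z • a) ∈ Λ) →
      DifferentiableOn ℂ H (ball 0 (2 * s₀)) → (∀ z ∈ ball (0 : ℂ) (2 * s₀), H z ∈ X ∧ u (H z) - (p' + z • a) ∈ Λ) →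
      (∀ z : ℂ, s₀ / 4 ≤ ‖z‖ → ‖z‖ ≤ s₀ → dist (pr (F z)) (pr (H z)) ≤ ε₁) →
      ∃ J : ℂ → ℂ, DifferentiableOn ℂ J (ball 0 s₀) ∧ ∀ z : ℂ, s₀ / 4 < ‖z‖ → ‖z‖ < s₀ → J z = II α ε (p' + z • a) (pr (F z)) (pr (H z))

/-- the data of block (A) for the direction `a` -/
structure DA (X : Set (EN N)) (Λ : AddSubgroup (Vd (k + 1))) (u : EN N → Vd (k + 1)) (D B Bad : Set (Vd (k + 1))) (a : Vd (k + 1)) {J : ℕ}
    (α : Fin J → VForm X Λ u) (c₀ C₀ ρ δ : ℝ) : Prop where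
  geo : Geo X Λ u D B
  lg : LG Λ D Bad a
  lc : LC D Bad a ρ δ
  nl : NL X Λ u D a
  c_pos : 0 < c₀
  C_pos : 0 < C₀
  dec : ∀ j, Dec (α j) c₀ C₀
  sep : Sepa D α
  cr : ∀ p ∈ D, p ∉ Bad → CRL X Λ u D a p
  good : ∀ p ∈ D, p ∉ Bad → p ∉ B ∧ TransAt D p a

/-- the real affine subspace `b + E` -/
def Tb (b : Vd (k + 1)) (E : Submodule ℝ (Vd (k + 1))) : Set (Vd (k + 1)) := {y | y - b ∈ E}

/-- `E` is the real closure of `ℂ a`: the lift of the closure of the image of `ℂ a` in the torus -/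
structure ToE (Λ : AddSubgroup (Vd (k + 1))) (a : Vd (k + 1)) (E : Submodule ℝ (Vd (k + 1))) : Prop where
  mem : ∀ z : ℂ, z • a ∈ E
  cpt : ∃ R : ℝ, 0 < R ∧ ∀ v ∈ E, ∃ l ∈ Λ, l ∈ E ∧ ‖v - l‖ ≤ R
  dns : ∀ v ∈ E, ∀ ε : ℝ, 0 < ε → ∃ l ∈ Λ, l ∈ E ∧ ∃ z : ℂ, ‖v - (l + z • a)‖ ≤ ε

/-- the hypothesis under which the curves over the lines in `b + E` are the leaves of sheets: their number is constant (`ToE.ce` in `A/Cns`; also used for `E = ⊤`) -/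
structure CE (X : Set (EN N)) (Λ : AddSubgroup (Vd (k + 1))) (u : EN N → Vd (k + 1)) (a b : Vd (k + 1)) (E : Submodule ℝ (Vd (k + 1))) : Prop where
  mem : ∀ z : ℂ, z • a ∈ E
  cpt : ∃ R : ℝ, 0 < R ∧ ∀ v ∈ E, ∃ l ∈ Λ, l ∈ E ∧ ‖v - l‖ ≤ R
  card : ∀ y ∈ Tb b E, (Hc X Λ u a y).ncard = (Hc X Λ u a b).ncard

/-- `φ` is a sheet over `T`: a continuous family of curves over the lines in `T` (the values outside `T` do not matter) -/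
structure Sht (X : Set (EN N)) (Λ : AddSubgroup (Vd (k + 1))) (u : EN N → Vd (k + 1)) (D : Set (Vd (k + 1))) (a : Vd (k + 1)) (T : Set (Vd (k + 1)))
    (φ : Vd (k + 1) → MN N) : Prop where
  line : ∀ y ∈ T, (fun z : ℂ => φ (y + z • a)) ∈ Hc X Λ u a y
  cont : ∀ y ∈ T, y ∉ D → ContinuousWithinAt φ T y

theorem LC.mono {D Bad : Set (Vd (k + 1))} {a : Vd (k + 1)} {ρ δ δ' : ℝ} (h : LC D Bad a ρ δ) (h0 : 0 < δ') (hle : δ' ≤ δ) : LC D Bad a ρ δ' where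
  norm := h.norm
  D_closed := h.D_closed
  bad_sub := h.bad_sub
  ρ_pos := h.ρ_pos
  ρ_le := h.ρ_le
  δ_pos := h0
  δ_le := by linarith [h.δ_le]
  sep := h.sep
  iso := h.iso
  ann := fun β hβ z h1 h2 => gd_mono (by linarith) (h.ann β hβ z h1 h2)
  circ := fun y => by
    obtain ⟨r, h1, h2, h3⟩ := h.circ y
    exact ⟨r, h1, h2, fun z hz => gd_mono (by linarith) (h3 z hz)⟩
  circC := fun y => by
    obtain ⟨r, h1, h2, h3⟩ := h.circC y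
    exact ⟨r, h1, h2, fun z hz => ⟨gd_mono (by linarith) (h3 z hz).1, (h3 z hz).2⟩⟩
  strip := h.strip

end Pool.Agent.G3.A
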