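import Pool.Agent.G3.A.LOC

/-!
# G3 A Fin: over every line there are finitely many curves, and their number is upper semicontinuous

`lm_sep`: if `f n ≠ g n` over `y n → y₀` converge to `h`, `h'`, then `h ≠ h'` (otherwise they are close on `closedBall 0 R₁` over `Gd D δ` for most `n`: `Lm.unif`; the set `{z ∈ closedBall 0 R₁ | y₀ + z a ∈ Gd D (δ/2)}`
is compact; `loc_rigid`).  `hc_finite`: an infinite set of curves over `y` contains an injective sequence; `hc_closed` on `ℕ × ℕ` or a Cauchy argument: two different members close to the limit.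
`ncard_usc`: `m` different curves over `y n`, limits are different (`lm_sep`, `hc_closed`).
-/

set_option autoImplicit false

open Topology Filter Metric

namespace Pool.Agent.G3.A

open Pool.Agent.H36.BP (EN fs wd)
open Pool.Agent.H14.PP (IsCone CurveAt Tan)
open Pool.Agent.H62.EF (MN pr)
open Pool.Agent.AD (Vd Chart Charts IsGerm)
open Pool.Agent.TG
open Pool.Agent.G3.C (Gc HP)

variable {N k : ℕ} {X : Set (EN N)} {Λ : AddSubgroup (Vd (k + 1))} {u : EN N → Vd (k + 1)} {D B Bad : Set (Vd (k + 1))} {a : Vd (k + 1)}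

variable {J : ℕ} {α : Fin J → VForm X Λ u} {c₀ C₀ ρ δ : ℝ}

theorem lm_sep (S : DA X Λ u D B Bad a α c₀ C₀ ρ δ) {ι : Type*} {𝒰 : Ultrafilter ι} {y : ι → Vd (k + 1)} {y₀ : Vd (k + 1)} (hy : Tendsto y 𝒰 (𝓝 y₀)) {f g : ι → ℂ → MN N} {h : ℂ → MN N}
    (hf : ∀ᶠ n in (𝒰 : Filter ι), f n ∈ Hc X Λ u a (y n)) (hg : ∀ᶠ n in (𝒰 : Filter ι), g n ∈ Hc X Λ u a (y n)) (hh : h ∈ Hc X Λ u a y₀)
    (hfh : Lm D a 𝒰 y₀ f h) (hgh : Lm D a 𝒰 y₀ g h) : ∀ᶠ n in (𝒰 : Filter ι), f n = g n := by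
  obtain ⟨R₁, ε₁, hR₁, hε₁, hrig⟩ := loc_rigid S
  have hδ := S.lc.δ_pos
  have hcont : Continuous h := hc_cont S.geo.cone hh
  have hlin : Continuous fun z : ℂ => y₀ + z • a := by fun_prop
  have hK : IsCompact (closedBall (0 : ℂ) R₁ ∩ (fun z : ℂ => y₀ + z • a) ⁻¹' Gd D (δ / 2)) :=
    (isCompact_closedBall 0 R₁).inter_right ((gd_closed D (δ / 2)).preimage hlin)
  have hKD : ∀ z ∈ closedBall (0 : ℂ) R₁ ∩ (fun z : ℂ => y₀ + z • a) ⁻¹' Gd D (δ / 2), y₀ + z • a ∉ D :=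
    fun z hz => gd_notMem (by linarith) hz.2
  have hyn : ∀ᶠ n in (𝒰 : Filter ι), ‖y n - y₀‖ ≤ δ / 2 := by
    filter_upwards [hy.eventually (ball_mem_nhds y₀ (half_pos hδ))] with n hn
    rw [← dist_eq_norm]
    exact (mem_ball.1 hn).le
  filter_upwards [hf, hg, hyn, hfh.unif hcont hK hKD (half_pos hε₁), hgh.unif hcont hK hKD (half_pos hε₁)] with n a1 a2 a3 a4 a5
  refine hrig (y n) (f n) a1 (g n) a2 0 fun z hz hzG => ?_
  have h5 : ‖y₀ + z • a - (y n + z • a)‖ ≤ δ / 2 := by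
    rw [add_sub_add_right_eq_sub, norm_sub_rev]
    exact a3
  have h6 := gd_near hzG h5
  have h7 : δ - δ / 2 = δ / 2 := by ring
  rw [h7] at h6
  have h8 := a4 z ⟨hz, h6⟩
  have h9 := a5 z ⟨hz, h6⟩
  have h10 := dist_triangle_right (f n z) (g n z) (h z)
  linarith

private theorem lm_const {ι : Type*} {l : Filter ι} {y₀ : Vd (k + 1)} {g : ℂ → MN N} (hg : Continuous g) : Lm D a l y₀ (fun _ => g) g :=
  fun z _ _ hw => (hg.tendsto z).comp hw

theorem hc_finite (S : DA X Λ u D B Bad a α c₀ C₀ ρ δ) (y : Vd (k + 1)) : (Hc X Λ u a y).Finite := by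
  by_contra hcon
  have hinf : (Hc X Λ u a y).Infinite := hcon
  obtain ⟨φ, hφ⟩ : ∃ φ : ℕ → Hc X Λ u a y, Function.Injective φ := ⟨hinf.natEmbedding, (hinf.natEmbedding).injective⟩
  have hfm : ∀ n, (φ n : ℂ → MN N) ∈ Hc X Λ u a y := fun n => (φ n).2
  obtain ⟨g, hg, hlm⟩ := hc_closed S.geo S.lg S.nl (𝒰 := hyperfilter ℕ) (y := fun _ : ℕ => y) tendsto_const_nhds
    (f := fun n => (φ n : ℂ → MN N)) (Eventually.of_forall hfm)
  have h1 := lm_sep S (𝒰 := hyperfilter ℕ) (y := fun _ : ℕ => y) tendsto_const_nhds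
    (f := fun n => (φ n : ℂ → MN N)) (g := fun _ => g) (Eventually.of_forall hfm) (Eventually.of_forall fun _ => hg) hg hlm
    (lm_const (hc_cont S.geo.cone hg))
  have h2 : {n : ℕ | (φ n : ℂ → MN N) = g}.Finite := by
    refine Set.Subsingleton.finite fun i hi j hj => ?_
    refine hφ (Subtype.ext ?_)
    exact (show (φ i : ℂ → MN N) = g from hi).trans (show (φ j : ℂ → MN N) = g from hj).symm
  exact notMem_hyperfilter_of_finite h2 h1

theorem ncard_usc (S : DA X Λ u D B Bad a α c₀ C₀ ρ δ) (y₀ : Vd (k + 1)) : ∀ᶠ y in 𝓝 y₀, (Hc X Λ u a y).ncard ≤ (Hc X Λ u a y₀).ncard := by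
  classical
  by_contra hcon
  rw [Filter.not_eventually] at hcon
  obtain ⟨m, hm⟩ : ∃ m, m = (Hc X Λ u a y₀).ncard := ⟨_, rfl⟩
  rw [← hm] at hcon
  have hne : (𝓝 y₀ ⊓ 𝓟 {y | ¬ (Hc X Λ u a y).ncard ≤ m}).NeBot := frequently_mem_iff_neBot.1 hcon
  obtain ⟨𝒰, h𝒰⟩ : ∃ 𝒰 : Ultrafilter (Vd (k + 1)), (𝒰 : Filter (Vd (k + 1))) ≤ 𝓝 y₀ ⊓ 𝓟 {y | ¬ (Hc X Λ u a y).ncard ≤ m} :=
    ⟨Ultrafilter.of _, Ultrafilter.of_le _⟩
  have hy : Tendsto (fun y : Vd (k + 1) => y) (𝒰 : Filter (Vd (k + 1))) (𝓝 y₀) := h𝒰.trans inf_le_left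
  have hbig : ∀ᶠ y in (𝒰 : Filter (Vd (k + 1))), ¬ (Hc X Λ u a y).ncard ≤ m := le_principal_iff.1 (h𝒰.trans inf_le_right)
  have hex : ∀ y : Vd (k + 1), ∃ F : Fin (m + 1) → ℂ → MN N, ¬ (Hc X Λ u a y).ncard ≤ m → Function.Injective F ∧ ∀ i, F i ∈ Hc X Λ u a y := by
    intro y
    by_cases hy : (Hc X Λ u a y).ncard ≤ m
    · exact ⟨fun _ _ => pr 0, fun h => absurd hy h⟩
    · push Not at hy
      obtain ⟨T, hT, hTc⟩ := Set.exists_subset_card_eq (s := Hc X Λ u a y) (n := m + 1) hy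
      have hTf : T.Finite := (hc_finite S y).subset hT
      have : Fintype T := hTf.fintype
      have hcard : Fintype.card T = m + 1 := by
        rw [← Nat.card_eq_fintype_card, Nat.card_coe_set_eq, hTc]
      obtain ⟨e⟩ : Nonempty (Fin (m + 1) ≃ T) := ⟨(Fintype.equivFinOfCardEq hcard).symm⟩
      exact ⟨fun i => (e i : ℂ → MN N), fun _ => ⟨fun i j hij => e.injective (Subtype.ext hij), fun i => hT (e i).2⟩⟩
  choose F hF using hex
  have hFm : ∀ i, ∀ᶠ y in (𝒰 : Filter (Vd (k + 1))), F y i ∈ Hc X Λ u a y := fun i => by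
    filter_upwards [hbig] with y hy
    exact (hF y hy).2 i
  choose g hg hlm using fun i => hc_closed S.geo S.lg S.nl (𝒰 := 𝒰) (y := fun y => y) hy (f := fun y => F y i) (hFm i)
  have hginj : Function.Injective g := by
    intro i j hij
    by_contra hne
    have h1 := hlm i
    rw [hij] at h1
    have h2 := lm_sep S hy (hFm i) (hFm j) (hg j) h1 (hlm j)
    obtain ⟨y, hy1, hy2⟩ := (h2.and hbig).exists
    exact hne ((hF y hy2).1 hy1)
  have h3 : (Set.range g).ncard ≤ (Hc X Λ u a y₀).ncard :=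
    Set.ncard_le_ncard (by rintro _ ⟨i, rfl⟩; exact hg i) (hc_finite S y₀)
  rw [Set.ncard_range_of_injective hginj, Nat.card_eq_fintype_card, Fintype.card_fin, ← hm] at h3
  omega

end Pool.Agent.G3.A
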