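import Pool.Agent.G3.A.P1
import Pool.Agent.H56.G3.Poi

/-!
# G3 A Gr: the field `gr` of `TDat`: the growth of the curves on discs of radius `1`

`R₀ = 1`.  Otherwise there are `y n` (in a bounded set, by `hc_per`), entire lifts `F n` and (recentre, `hc_add`) `t n = circleAverage (log ‖F n‖) 0 1 - log ‖F n 0‖ → 0` (it is `≥ 0`).  `G n = exp (-φ n) • F n`
on `ball 0 1` with `Re φ n` = the Poisson integral of `log ‖F n‖` (`H56/G3/Poi`: `herglotz`, `poisson_jensen`): `‖G n‖ ≤ 1`, `‖G n 0‖ = exp (- t n) → 1`.  Limit `G` (`ul_diff`): `‖G‖ ≤ 1`, `‖G 0‖ = 1`, so `G` is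
constant (maximum principle, strictly convex norm).  The limit curve `g` (`hc_closed`) is `pr G` off `D`, constant near `0`, but `u` of it is `y₀ + z a` modulo the discrete `Λ`, `a ≠ 0`: contradiction
(`Fb` over different points are disjoint modulo `Λ`: `hc_mem`, `fb_lift`).
-/

set_option autoImplicit false

open Topology Filter Metric

namespace Pool.Agent.G3.A

open Pool.Agent.H36.BP (EN fs wd)
open Pool.Agent.H14.PP (IsCone CurveAt Tan)
open Pool.Agent.H62.EF (MN pr pr_smul continuousAt_pr)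
open Pool.Agent.AD (Vd Chart Charts IsGerm)
open Pool.Agent.TG
open Pool.Agent.G3.C (Gc HP)

variable {N k : ℕ} {X : Set (EN N)} {Λ : AddSubgroup (Vd (k + 1))} {u : EN N → Vd (k + 1)} {D B Bad : Set (Vd (k + 1))} {a : Vd (k + 1)}

/-- a multiple of the curve with norm almost `1` -/
private theorem gr_a {F : ℂ → EN N} (hF : Differentiable ℂ F) (h0 : ∀ z, F z ≠ 0) {ε : ℝ} (hε : 0 < ε)
    (h : Real.circleAverage (fun w => Real.log ‖F w‖) 0 1 < Real.log ‖F 0‖ + ε) :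
    ∃ K : ℂ → EN N, Differentiable ℂ K ∧ (∀ z, ∃ c : ℂ, c ≠ 0 ∧ K z = c • F z) ∧ (∀ z ∈ ball (0 : ℂ) 1, ‖K z‖ ≤ Real.exp ε) ∧
      Real.exp (-(2 * ε)) ≤ ‖K 0‖ := by
  have hcont : ContinuousOn (fun z => Real.log ‖F z‖) (sphere (0 : ℂ) 1) :=
    ContinuousOn.log hF.continuous.continuousOn.norm fun z _ => norm_ne_zero_iff.2 (h0 z)
  obtain ⟨ψ, hψ, hψu⟩ := Pool.Agent.H56.G3.approx_re one_pos hcont hε
  refine ⟨fun z => Complex.exp (-ψ z) • F z, ?_, fun z => ⟨_, Complex.exp_ne_zero _, rfl⟩, ?_, ?_⟩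
  · have h1 : Differentiable ℂ fun z => Complex.exp (-ψ z) := by fun_prop
    exact h1.smul hF
  · intro w hw
    have hd : DiffContOnCl ℂ (fun z => Complex.exp (-ψ z) • F z) (ball 0 1) := by
      have h1 : Differentiable ℂ fun z => Complex.exp (-ψ z) := by fun_prop
      exact (h1.smul hF).diffContOnCl
    refine Complex.norm_le_of_forall_mem_frontier_norm_le isBounded_ball hd ?_ (subset_closure hw)
    intro z hz
    rw [frontier_ball _ one_ne_zero] at hz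
    have h1 := abs_le.1 (hψu z hz)
    have h2 : 0 < ‖F z‖ := norm_pos_iff.2 (h0 z)
    rw [norm_smul, Complex.norm_exp, Complex.neg_re]
    calc Real.exp (-(ψ z).re) * ‖F z‖ = Real.exp (-(ψ z).re) * Real.exp (Real.log ‖F z‖) := by rw [Real.exp_log h2]
      _ = Real.exp (-(ψ z).re + Real.log ‖F z‖) := by rw [← Real.exp_add]
      _ ≤ Real.exp ε := Real.exp_le_exp.2 (by linarith [h1.1])
  · have h1 : (ψ 0).re ≤ Real.circleAverage (fun w => Real.log ‖F w‖) 0 1 + ε := by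
      have h2 : Real.circleAverage ψ 0 1 = ψ 0 := by
        have h3 : DiffContOnCl ℂ ψ (ball 0 |1|) := hψ.diffContOnCl
        exact h3.circleAverage
      have h4 : CircleIntegrable ψ 0 1 := hψ.continuous.continuousOn.circleIntegrable'
      have h5 := Complex.reCLM.circleAverage_comp_comm h4
      rw [h2] at h5
      simp only [Complex.reCLM_apply] at h5
      rw [← h5]
      have h6 : CircleIntegrable (fun w => Real.log ‖F w‖) 0 1 := by
        refine ContinuousOn.circleIntegrable' ?_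
        rwa [abs_one]
      have h7 : Real.circleAverage (fun w => Real.log ‖F w‖ + ε) 0 1 = Real.circleAverage (fun w => Real.log ‖F w‖) 0 1 + ε := by
        rw [Real.circleAverage_fun_add h6 (circleIntegrable_const _ _ _), Real.circleAverage_const]
      rw [← h7]
      refine Real.circleAverage_mono ?_ ?_ ?_
      · exact (Complex.continuous_re.comp hψ.continuous).continuousOn.circleIntegrable'
      · exact h6.add (circleIntegrable_const _ _ _)
      · intro z hz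
        rw [abs_one] at hz
        have h8 := abs_le.1 (hψu z hz)
        show (ψ z).re ≤ _
        linarith [h8.2]
    have h2 : 0 < ‖F 0‖ := norm_pos_iff.2 (h0 0)
    rw [norm_smul, Complex.norm_exp, Complex.neg_re]
    calc Real.exp (-(2 * ε)) ≤ Real.exp (-(ψ 0).re + Real.log ‖F 0‖) := Real.exp_le_exp.2 (by linarith)
      _ = Real.exp (-(ψ 0).re) * ‖F 0‖ := by rw [Real.exp_add, Real.exp_log h2]

theorem gr (G : Geo X Λ u D B) (hL : LG Λ D Bad a) (hN : NL X Λ u D a) : ∃ R₀ c : ℝ, 0 < R₀ ∧ 0 < c ∧ ∀ y : Vd (k + 1), ∀ F ∈ Gc X Λ u a y, ∀ z : ℂ,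
    Real.log ‖F z‖ + c ≤ Real.circleAverage (fun w => Real.log ‖F w‖) z R₀ := by
  classical
  have hX := G.cone
  by_contra hcon
  push Not at hcon
  obtain ⟨R, -, hR⟩ := G.lat.cpt
  -- the sequence
  have hex : ∀ n : ℕ, ∃ (y : Vd (k + 1)) (F : ℂ → EN N), ‖y‖ ≤ R ∧ F ∈ Gc X Λ u a y ∧
      Real.circleAverage (fun w => Real.log ‖F w‖) 0 1 < Real.log ‖F 0‖ + 1 / ((n : ℝ) + 1) := by
    intro n
    obtain ⟨y, F, hF, z, hz⟩ := hcon 1 (1 / ((n : ℝ) + 1)) one_pos (by positivity)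
    obtain ⟨l, hl, hlR⟩ := hR (y + z • a)
    refine ⟨y + z • a - l, fun w => F (z + w), hlR, ⟨hF.1.comp (differentiable_id.const_add z), fun w => hF.2.1 _, fun w => ?_⟩, ?_⟩
    · have h1 := Λ.add_mem (hF.2.2 (z + w)) hl
      have e : u (F (z + w)) - (y + (z + w) • a) + l = u (F (z + w)) - (y + z • a - l + w • a) := by
        rw [add_smul]
        abel
      rwa [e] at h1
    · have h2 : Real.circleAverage (fun w => Real.log ‖F (z + w)‖) 0 1 = Real.circleAverage (fun w => Real.log ‖F w‖) z 1 := by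
        rw [Real.circleAverage_def, Real.circleAverage_def]
        simp only [circleMap, zero_add]
      rw [h2]
      show _ < Real.log ‖F (z + 0)‖ + _
      rw [add_zero]
      exact hz
  choose y F hyR hF hFc using hex
  have hK : ∀ n, ∃ K : ℂ → EN N, Differentiable ℂ K ∧ (∀ z, ∃ c : ℂ, c ≠ 0 ∧ K z = c • F n z) ∧ (∀ z ∈ ball (0 : ℂ) 1, ‖K z‖ ≤ Real.exp (1 / ((n : ℝ) + 1))) ∧
      Real.exp (-(2 * (1 / ((n : ℝ) + 1)))) ≤ ‖K 0‖ := fun n => gr_a (hF n).1 (fun z => ne_zero hX ((hF n).2.1 z)) (by positivity) (hFc n)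
  choose K hKd hKF hKle hK0 using hK
  obtain ⟨𝒰, h𝒰⟩ : ∃ 𝒰 : Ultrafilter ℕ, (𝒰 : Filter ℕ) ≤ atTop := ⟨Ultrafilter.of atTop, Ultrafilter.of_le atTop⟩
  have hinv : Tendsto (fun n : ℕ => 1 / ((n : ℝ) + 1)) 𝒰 (𝓝 0) := tendsto_one_div_add_atTop_nhds_zero_nat.mono_left h𝒰
  have hexp1 : Tendsto (fun n : ℕ => Real.exp (1 / ((n : ℝ) + 1))) 𝒰 (𝓝 1) := by
    have h1 := (Real.continuous_exp.tendsto 0).comp hinv
    rwa [Real.exp_zero] at h1
  have hexp2 : Tendsto (fun n : ℕ => Real.exp (-(2 * (1 / ((n : ℝ) + 1))))) 𝒰 (𝓝 1) := by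
    have h1 := (Real.continuous_exp.tendsto (-(2 * 0))).comp ((hinv.const_mul 2).neg)
    rwa [mul_zero, neg_zero, Real.exp_zero] at h1
  -- the limits
  obtain ⟨y₀, hy₀⟩ : ∃ y₀, Tendsto y 𝒰 (𝓝 y₀) := by
    have hle : ((𝒰.map y : Ultrafilter (Vd (k + 1))) : Filter (Vd (k + 1))) ≤ 𝓟 (closedBall 0 R) := by
      rw [le_principal_iff, Ultrafilter.mem_coe, Ultrafilter.mem_map]
      exact Filter.Eventually.of_forall fun n => mem_closedBall_zero_iff.2 (hyR n)
    obtain ⟨y₀, -, h⟩ := (isCompact_closedBall (0 : Vd (k + 1)) R).ultrafilter_le_nhds (𝒰.map y) hle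
    exact ⟨y₀, h⟩
  obtain ⟨g, hg, hlm⟩ := hc_closed (𝒰 := 𝒰) G hL hN hy₀ (f := fun n z => pr (F n z)) (Filter.Eventually.of_forall fun n => ⟨F n, hF n, rfl⟩)
  obtain ⟨L, hLd, -, hLl⟩ := ul_diff (𝒰 := 𝒰) (g := K) (z₀ := 0) (r := 1) (C := Real.exp 1) (Filter.Eventually.of_forall fun n =>
    ⟨(hKd n).differentiableOn, fun z hz => (hKle n z hz).trans (Real.exp_le_exp.2 (by
      rw [div_le_one (by positivity)]
      linarith [(Nat.cast_nonneg n : (0 : ℝ) ≤ n)]))⟩)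
  have hL1 : ∀ z ∈ ball (0 : ℂ) 1, ‖L z‖ ≤ 1 := by
    intro z hz
    exact le_of_tendsto_of_tendsto (hLl z hz (fun _ => z) tendsto_const_nhds).norm hexp1 (Filter.Eventually.of_forall fun n => hKle n z hz)
  have h00 : (0 : ℂ) ∈ ball (0 : ℂ) 1 := mem_ball_self one_pos
  have hL0 : 1 ≤ ‖L 0‖ :=
    le_of_tendsto_of_tendsto hexp2 (hLl 0 h00 (fun _ => 0) tendsto_const_nhds).norm (Filter.Eventually.of_forall fun n => hK0 n)
  have hconst : ∀ z ∈ ball (0 : ℂ) 1, L z = L 0 := by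
    have hm : IsMaxOn (norm ∘ L) (ball (0 : ℂ) 1) 0 := fun z hz => (hL1 z hz).trans hL0
    exact Complex.eqOn_of_isPreconnected_of_isMaxOn_norm (convex_ball 0 1).isPreconnected isOpen_ball hLd h00 hm
  have hL00 : L 0 ≠ 0 := by
    intro h
    rw [h, norm_zero] at hL0
    linarith
  -- the limit curve is constant
  have hgc : ∀ z ∈ ball (0 : ℂ) 1, y₀ + z • a ∉ D → g z = pr (L 0) := by
    intro z hz hzD
    have h1 : Tendsto (fun n => pr (F n z)) 𝒰 (𝓝 (g z)) := hlm z hzD (fun _ => z) tendsto_const_nhds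
    have h2 : Tendsto (fun n => pr (K n z)) 𝒰 (𝓝 (pr (L 0))) := by
      have h3 := hLl z hz (fun _ => z) tendsto_const_nhds
      rw [hconst z hz] at h3
      exact (continuousAt_pr hL00).tendsto.comp h3
    refine tendsto_nhds_unique h1 (h2.congr fun n => ?_)
    obtain ⟨c, hc, hcK⟩ := hKF n z
    rw [hcK, pr_smul _ hc]
  obtain ⟨δ, hδ, hd⟩ := G.lat.disc
  have hnear : ∀ᶠ z : ℂ in 𝓝[≠] (0 : ℂ), y₀ + z • a ∉ D ∧ z ∈ ball (0 : ℂ) 1 ∧ ‖z‖ < δ / 2 := by
    have h1 : ∀ᶠ z : ℂ in 𝓝[≠] (0 : ℂ), z ∈ ball (0 : ℂ) 1 := nhdsWithin_le_nhds (isOpen_ball.mem_nhds h00)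
    have h2 : ∀ᶠ z : ℂ in 𝓝[≠] (0 : ℂ), z ∈ ball (0 : ℂ) (δ / 2) := nhdsWithin_le_nhds (ball_mem_nhds 0 (by positivity))
    filter_upwards [hL.iso y₀, h1, h2] with z a1 a2 a3
    exact ⟨a1, a2, mem_ball_zero_iff.1 a3⟩
  obtain ⟨z, hz, hz0⟩ := (hnear.and self_mem_nhdsWithin).exists
  have hnear2 : ∀ᶠ w : ℂ in 𝓝[≠] (0 : ℂ), w ≠ z := by
    refine nhdsWithin_le_nhds ?_
    exact isOpen_ne.mem_nhds (Ne.symm hz0)
  obtain ⟨w, hw, hwz⟩ := (hnear.and hnear2).exists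
  have h1 := hc_mem hg z
  have h2 := hc_mem hg w
  rw [hgc z hz.2.1 hz.1] at h1
  rw [hgc w hw.2.1 hw.1] at h2
  obtain ⟨x, hx, hxm, hxu⟩ := h1
  have h3 := fb_lift hX G.tor h2 hx hxm
  have h4 := Λ.sub_mem h3 hxu
  have e : u x - (y₀ + w • a) - (u x - (y₀ + z • a)) = (z - w) • a := by
    rw [sub_smul]
    abel
  rw [e] at h4
  have h5 : ‖(z - w) • a‖ < δ := by
    rw [norm_smul, hL.norm, mul_one]
    exact (norm_sub_le _ _).trans_lt (by linarith [hz.2.2, hw.2.2])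
  have h6 := hd _ h4 h5
  have h7 : a ≠ 0 := by
    intro h
    have h8 := hL.norm
    rw [h, norm_zero] at h8
    exact zero_ne_one h8
  rcases smul_eq_zero.1 h6 with h8 | h8
  · exact hwz (sub_eq_zero.1 h8).symm
  · exact h7 h8

end Pool.Agent.G3.A
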