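import Pool.Agent.G3.A.Defs
import Pool.Agent.TG.Jan

/-!
# G3 A JA: the integral is holomorphic along curves

As `TG.II_analytic` (same proof with a curve `h` instead of the identity of `Vd (k + 1)`).
-/

set_option autoImplicit false

open Topology Filter Metric

namespace Pool.Agent.G3.A

open Pool.Agent.H36.BP (EN fs wd)
open Pool.Agent.H14.PP (IsCone CurveAt Tan)
open Pool.Agent.H62.EF (MN pr)
open Pool.Agent.AD (Vd Chart Charts IsGerm)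
open Pool.Agent.TG
open Pool.Agent.G3.C (Gc HP)

variable {N k : ℕ} {X : Set (EN N)} {Λ : AddSubgroup (Vd (k + 1))} {u : EN N → Vd (k + 1)} {D B Bad : Set (Vd (k + 1))} {a : Vd (k + 1)}

theorem II_curve (hX : IsCone X) (hu : TMap X Λ u) (hΛ : Lat Λ) {α : VForm X Λ u} {ε r : ℝ} {F H : ℂ → EN N} {h : ℂ → Vd (k + 1)} {z₀ : ℂ} (hF : AnalyticAt ℂ F z₀)
    (hH : AnalyticAt ℂ H z₀) (hh : AnalyticAt ℂ h z₀) (hFX : ∀ᶠ z in 𝓝 z₀, F z ∈ X ∧ u (F z) - h z ∈ Λ) (hHX : ∀ᶠ z in 𝓝 z₀, H z ∈ X ∧ u (H z) - h z ∈ Λ)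
    {χ : Chart (k + 2) X} {c : Vd (k + 1)} {ρ : ℝ} (hc : Cap Λ u χ c ρ (h z₀) (pr (F z₀)) r) (hr : ε < r)
    (hrel : ∀ᶠ z in 𝓝 z₀, ∃ v, IRel α ε (h z) (pr (F z)) (pr (H z)) v) : AnalyticAt ℂ (fun z => II α ε (h z) (pr (F z)) (pr (H z))) z₀ := by
  obtain ⟨A, hA⟩ := exists_prim α χ hc.str
  obtain ⟨v₀, hv₀⟩ := hrel.self_of_nhds
  obtain ⟨-, -, hfg⟩ := hv₀.mem
  have hε : 0 ≤ ε := dist_nonneg.trans hfg
  have hr0 : 0 < r := lt_of_le_of_lt hε hr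
  obtain ⟨hFX0, hFu⟩ := hFX.self_of_nhds
  obtain ⟨hHX0, hHu⟩ := hHX.self_of_nhds
  have hsub : closedBall (0 : Vd (k + 2)) 1 ⊆ ball (0 : Vd (k + 2)) 2 := closedBall_subset_ball (by norm_num)
  have hy₀r : h z₀ ∈ closedBall (h z₀) r := mem_closedBall_self hr0.le
  obtain ⟨hFU, hFq, -⟩ := hc.cap (h z₀) hy₀r (F z₀) hFX0 hFu (by rw [dist_self]; exact hr0.le)
  obtain ⟨hHU, hHq, -⟩ := hc.cap (h z₀) hy₀r (H z₀) hHX0 hHu (hfg.trans hr.le)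
  have a1 : AnalyticAt ℂ (fun z => A (χ.q (F z))) z₀ :=
    AnalyticAt.comp (f := fun z => χ.q (F z)) (g := A) (hA.an _ (hsub hFq))
      (AnalyticAt.comp (f := F) (g := χ.q) (χ.q_an _ hFU) hF)
  have a2 : AnalyticAt ℂ (fun z => A (χ.q (H z))) z₀ :=
    AnalyticAt.comp (f := fun z => χ.q (H z)) (g := A) (hA.an _ (hsub hHq))
      (AnalyticAt.comp (f := H) (g := χ.q) (χ.q_an _ hHU) hH)
  have hρ : (ρ : ℂ) ^ (k + 1) ≠ 0 := by
    have h1 := hc.str.pos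
    exact pow_ne_zero _ (by exact_mod_cast h1.ne')
  have a3 : AnalyticAt ℂ (fun z => (A (χ.q (H z)) - A (χ.q (F z))) / (ρ : ℂ) ^ (k + 1)) z₀ := (a2.sub a1).div analyticAt_const hρ
  refine a3.congr ?_
  have e3 : ∀ᶠ z in 𝓝 z₀, h z ∈ closedBall (h z₀) r := hh.continuousAt.eventually (closedBall_mem_nhds _ hr0)
  have e4 : ∀ᶠ z in 𝓝 z₀, dist (pr (F z)) (pr (F z₀)) < r - ε := by
    have h1 : ContinuousAt (fun z => pr (F z)) z₀ := ContinuousAt.comp (f := F) (g := pr)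
      (Pool.Agent.H62.EF.continuousAt_pr (ne_zero hX hFX0)) hF.continuousAt
    exact h1.eventually (ball_mem_nhds _ (by linarith))
  filter_upwards [hFX, hHX, e3, e4, hrel] with z h1 h2 h3 h4 h5
  exact (II_eq hX hu hΛ h5 hc hA h3 (by linarith) h1.1 h2.1 rfl rfl).symm

end Pool.Agent.G3.A
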