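import Mathlib

/-!
# G3 A Ul: limits of bounded holomorphic functions along a filter

* `ul_lip` (helper80), `ul_lipc`: uniformly bounded holomorphic functions on a disc are uniformly Lipschitz near every point.
* `ul_hol`: a pointwise limit (along any filter) of uniformly bounded holomorphic functions on a disc is holomorphic.
* `ul_diff`: along an ultrafilter the limit exists, is holomorphic, has the same bound, and `g n (w n) → K z` if `w n → z`.
-/

set_option autoImplicit false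

namespace Pool.Agent.G3.A

open Complex Filter Topology Metric Set

/-- Lipschitz bound for a bounded holomorphic function near a point of the ball (helper80). -/
lemma ul_lip {E : Type*} [NormedAddCommGroup E] [NormedSpace ℂ E] {f : ℂ → E} {z₀ : ℂ} {r C : ℝ}
    (hd : DifferentiableOn ℂ f (ball z₀ r)) (hb : ∀ z ∈ ball z₀ r, ‖f z‖ ≤ C)
    {z : ℂ} (hz : z ∈ ball z₀ r) {w : ℂ} (hw : dist w z < r - dist z z₀) :
    dist (f w) (f z) ≤ (2 * C + 1) / (r - dist z z₀) * dist w z := by
  have hR : 0 < r - dist z z₀ := lt_of_le_of_lt dist_nonneg hw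
  have hsub : ball z (r - dist z z₀) ⊆ ball z₀ r := by
    intro x hx
    rw [mem_ball] at hx ⊢
    calc dist x z₀ ≤ dist x z + dist z z₀ := dist_triangle _ _ _
      _ < r := by linarith
  have hmaps : MapsTo f (ball z (r - dist z z₀)) (ball (f z) (2 * C + 1)) := by
    intro x hx
    rw [mem_ball, dist_eq_norm]
    calc ‖f x - f z‖ ≤ ‖f x‖ + ‖f z‖ := norm_sub_le _ _
      _ ≤ C + C := add_le_add (hb x (hsub hx)) (hb z hz)
      _ < 2 * C + 1 := by linarith
  exact Complex.dist_le_div_mul_dist_of_mapsTo_ball (hd.mono hsub)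
    (hmaps.mono_right ball_subset_closedBall) (by
    rw [mem_ball]; exact hw)

/-- Lipschitz bound -/
theorem ul_lipc {E : Type*} [NormedAddCommGroup E] [NormedSpace ℂ E] {f : ℂ → E} {c x : ℂ} {r M δ : ℝ} (hδ : 0 < δ)
    (hd : DifferentiableOn ℂ f (ball c r)) (hb : ∀ z ∈ ball c r, ‖f z‖ ≤ M) (hs : closedBall x (2 * δ) ⊆ ball c r) :
    ∀ y ∈ closedBall x δ, ∀ w ∈ closedBall x δ, ‖f y - f w‖ ≤ (M / δ + 1) * ‖y - w‖ := by
  intro y hy w hw
  have hder : ∀ v ∈ closedBall x δ, ‖deriv f v‖ ≤ M / δ + 1 := by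
    intro v hv
    have hsub : closedBall v δ ⊆ ball c r := by
      refine (closedBall_subset_closedBall' ?_).trans hs
      rw [mem_closedBall] at hv
      linarith
    have h1 : ‖deriv f v‖ ≤ M / δ := by
      refine Complex.norm_deriv_le_of_forall_mem_sphere_norm_le hδ ?_ fun t ht => hb t (hsub (sphere_subset_closedBall ht))
      exact (hd.mono hsub).diffContOnCl_ball (le_refl _)
    linarith
  have hdiff : ∀ v ∈ closedBall x δ, DifferentiableAt ℂ f v := fun v hv =>
    hd.differentiableAt (isOpen_ball.mem_nhds (hs (closedBall_subset_closedBall (by linarith) hv)))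
  exact (convex_closedBall x δ).norm_image_sub_le_of_norm_deriv_le hdiff hder hw hy

theorem exists_two_ball {c x : ℂ} {r : ℝ} (hx : x ∈ ball c r) : ∃ δ : ℝ, 0 < δ ∧ closedBall x (2 * δ) ⊆ ball c r := by
  obtain ⟨δ, hδ, h⟩ := Metric.isOpen_iff.1 isOpen_ball x hx
  exact ⟨δ / 4, by positivity, (closedBall_subset_ball (by linarith)).trans h⟩

/-- a pointwise limit of uniformly bounded holomorphic functions is holomorphic (any filter) -/
theorem ul_hol {E : Type*} [NormedAddCommGroup E] [NormedSpace ℂ E] [CompleteSpace E] {ι : Type*} {U : Filter ι} [U.NeBot] {f : ι → ℂ → E}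
    {K : ℂ → E} {c : ℂ} {r M : ℝ} (hf : ∀ᶠ n in U, DifferentiableOn ℂ (f n) (ball c r) ∧ ∀ z ∈ ball c r, ‖f n z‖ ≤ M)
    (hK : ∀ z ∈ ball c r, Tendsto (fun n => f n z) U (𝓝 (K z))) : DifferentiableOn ℂ K (ball c r) := by
  have hloc : TendstoLocallyUniformlyOn f K U (ball c r) := by
    rw [Metric.tendstoLocallyUniformlyOn_iff]
    intro ε hε x hx
    obtain ⟨δ, hδ, hδs⟩ := exists_two_ball hx
    have hM : 0 ≤ M := by
      obtain ⟨n, hn⟩ := hf.exists
      exact (norm_nonneg _).trans (hn.2 x hx)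
    set L : ℝ := M / δ + 1 with hL
    have hLpos : 0 < L := by positivity
    have hlip : ∀ᶠ n in U, ∀ y ∈ closedBall x δ, ∀ w ∈ closedBall x δ, ‖f n y - f n w‖ ≤ L * ‖y - w‖ := by
      filter_upwards [hf] with n hn
      exact ul_lipc hδ hn.1 hn.2 hδs
    have hlipK : ∀ y ∈ closedBall x δ, ∀ w ∈ closedBall x δ, ‖K y - K w‖ ≤ L * ‖y - w‖ := by
      intro y hy w hw
      have h1 : Tendsto (fun n => ‖f n y - f n w‖) U (𝓝 ‖K y - K w‖) :=
        ((hK y (hδs (closedBall_subset_closedBall (by linarith) hy))).sub (hK w (hδs (closedBall_subset_closedBall (by linarith) hw)))).norm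
      exact le_of_tendsto h1 (hlip.mono fun n hn => hn y hy w hw)
    obtain ⟨t, htsub, htf, htc⟩ := (isCompact_closedBall x δ).finite_cover_balls (e := ε / (3 * L)) (by positivity)
    have hnet : ∀ᶠ n in U, ∀ p ∈ t, ‖K p - f n p‖ < ε / 3 := by
      rw [eventually_all_finite htf]
      intro p hp
      have h1 := hK p (hδs (closedBall_subset_closedBall (by linarith) (htsub hp)))
      have h2 := Metric.tendsto_nhds.1 h1 (ε / 3) (by positivity)
      filter_upwards [h2] with n hn
      rw [← dist_eq_norm, dist_comm]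
      exact hn
    refine ⟨closedBall x δ, mem_nhdsWithin_of_mem_nhds (closedBall_mem_nhds x hδ), ?_⟩
    filter_upwards [hlip, hnet] with n h1 h2 y hy
    obtain ⟨p, hp, hyp⟩ := mem_iUnion₂.1 (htc hy)
    have hpc := htsub hp
    rw [dist_eq_norm]
    have h3 : ‖y - p‖ < ε / (3 * L) := by rwa [← dist_eq_norm]
    have h4 : L * ‖y - p‖ < ε / 3 := by
      calc L * ‖y - p‖ < L * (ε / (3 * L)) := by gcongr
        _ = ε / 3 := by field_simp
    have h5 := hlipK y hy p hpc
    have h6 := h1 p hpc y hy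
    rw [norm_sub_rev p y] at h6
    have h7 := h2 p hp
    calc ‖K y - f n y‖ = ‖(K y - K p) + (K p - f n p) + (f n p - f n y)‖ := by congr 1; abel
      _ ≤ ‖(K y - K p) + (K p - f n p)‖ + ‖f n p - f n y‖ := norm_add_le _ _
      _ ≤ ‖K y - K p‖ + ‖K p - f n p‖ + ‖f n p - f n y‖ := by gcongr; exact norm_add_le _ _
      _ < ε := by linarith
  exact hloc.differentiableOn (hf.mono fun n hn => hn.1) isOpen_ball

/-- limits along an ultrafilter -/
theorem ul_diff {E : Type*} [NormedAddCommGroup E] [NormedSpace ℂ E] [FiniteDimensional ℂ E] {ι : Type*} {𝒰 : Ultrafilter ι} {g : ι → ℂ → E}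
    {z₀ : ℂ} {r C : ℝ} (h : ∀ᶠ n in (𝒰 : Filter ι), DifferentiableOn ℂ (g n) (ball z₀ r) ∧ ∀ z ∈ ball z₀ r, ‖g n z‖ ≤ C) :
    ∃ K : ℂ → E, DifferentiableOn ℂ K (ball z₀ r) ∧ (∀ z ∈ ball z₀ r, ‖K z‖ ≤ C) ∧
      ∀ z ∈ ball z₀ r, ∀ w : ι → ℂ, Tendsto w (𝒰 : Filter ι) (𝓝 z) → Tendsto (fun n => g n (w n)) (𝒰 : Filter ι) (𝓝 (K z)) := by
  classical
  have : ProperSpace E := FiniteDimensional.proper_rclike ℂ E
  have : CompleteSpace E := FiniteDimensional.complete ℂ E
  have hlim : ∀ z ∈ ball z₀ r, ∃ v : E, Tendsto (fun n => g n z) (𝒰 : Filter ι) (𝓝 v) := by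
    intro z hz
    have h5 : ∀ᶠ n in (𝒰 : Filter ι), g n z ∈ closedBall (0 : E) C := by
      filter_upwards [h] with n hn
      rw [mem_closedBall_zero_iff]
      exact hn.2 z hz
    obtain ⟨v, -, hv⟩ := (isCompact_closedBall (0 : E) C).ultrafilter_le_nhds (𝒰.map fun n => g n z) (by
      rw [Ultrafilter.coe_map, le_principal_iff]
      exact h5)
    exact ⟨v, hv⟩
  choose! K hK using hlim
  refine ⟨K, ul_hol h hK, fun z hz => le_of_tendsto (hK z hz).norm (h.mono fun n hn => hn.2 z hz), ?_⟩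
  intro z hz w hw
  obtain ⟨δ, hδ, hδs⟩ := exists_two_ball hz
  have h1 : Tendsto (fun n => g n (w n) - g n z) (𝒰 : Filter ι) (𝓝 0) := by
    rw [tendsto_zero_iff_norm_tendsto_zero]
    have h2 : Tendsto (fun n => (C / δ + 1) * ‖w n - z‖) (𝒰 : Filter ι) (𝓝 0) := by
      have h3 : Tendsto (fun n => ‖w n - z‖) (𝒰 : Filter ι) (𝓝 0) := by
        rw [← tendsto_iff_norm_sub_tendsto_zero]
        exact hw
      simpa using h3.const_mul (C / δ + 1)
    refine squeeze_zero' (Eventually.of_forall fun n => norm_nonneg _) ?_ h2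
    filter_upwards [h, hw.eventually (closedBall_mem_nhds z hδ)] with n hn hwn
    exact ul_lipc hδ hn.1 hn.2 hδs (w n) hwn z (mem_closedBall_self hδ.le)
  have h3 := h1.add (hK z hz)
  simpa using h3

end Pool.Agent.G3.A
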