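import Pool.Agent.G3.A.Quad
import Pool.Agent.G3.A.Amp
import Pool.Agent.G3.A.Ul
import Pool.Agent.G3.C.LemmaU

/-!
# G3 A LLim: the limit lemma

`depth ν z = re (conj ν * z)`.  `route`: a function which is holomorphic on `{-1/2 < depth}` off the closed discs of radius `r0` around the points of the separated set `E`
and `0` near a point of `{0 ≤ depth}` is `0` at all points of `{0 ≤ depth}` off the discs.  `limit_lemma`: the limit lemma (LL).
-/

set_option autoImplicit false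

namespace Pool.Agent.G3.A

open Complex Filter Topology Metric Set
open Pool.Agent.G3 (sector_zero)
open Pool.Agent.G3.C (HP)

/-- the depth of the point `z` in the half plane with inner normal `ν` -/
noncomputable def depth (ν z : ℂ) : ℝ := ((starRingEnd ℂ) ν * z).re

theorem depth_sub_le {ν : ℂ} (hν : ‖ν‖ = 1) (z w : ℂ) : |depth ν z - depth ν w| ≤ dist z w := by
  unfold depth
  rw [← sub_re, ← mul_sub, dist_eq_norm]
  refine (abs_re_le_norm _).trans ?_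
  rw [norm_mul, RCLike.norm_conj, hν, one_mul]

theorem continuous_depth (ν : ℂ) : Continuous (depth ν) := by
  unfold depth
  fun_prop

/-- the domain: depth at least `-1/2`, off the discs -/
def Om (ν : ℂ) (E : Set ℂ) (r0 : ℝ) : Set ℂ := {z | -(1 / 2) < depth ν z ∧ ∀ e ∈ E, r0 < dist z e}

theorem isOpen_Om {ν : ℂ} {E : Set ℂ} {r0 : ℝ} (hr0 : 0 < r0) (hsep : ∀ e ∈ E, ∀ e' ∈ E, e ≠ e' → 8 * r0 ≤ dist e e') :
    IsOpen (Om ν E r0) := by
  rw [isOpen_iff_mem_nhds]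
  rintro z ⟨hz1, hz2⟩
  have h1 : ∀ᶠ w in 𝓝 z, -(1 / 2) < depth ν w := (continuous_depth ν).continuousAt.eventually (lt_mem_nhds hz1)
  by_cases hex : ∃ e ∈ E, dist z e < 3 * r0
  · obtain ⟨e, he, hze⟩ := hex
    have h2 : ∀ᶠ w in 𝓝 z, r0 < dist w e := (continuous_id.dist continuous_const).continuousAt.eventually (lt_mem_nhds (hz2 e he))
    filter_upwards [h1, h2, ball_mem_nhds z hr0] with w hw1 hw2 hw3
    refine ⟨hw1, fun e' he' => ?_⟩
    by_cases hee : e' = e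
    · rw [hee]
      exact hw2
    · have h3 := hsep e he e' he' (fun h => hee h.symm)
      have h4 := dist_triangle4 e z w e'
      rw [mem_ball] at hw3
      rw [dist_comm e z] at h4
      rw [dist_comm w z] at hw3
      linarith
  · push Not at hex
    filter_upwards [h1, ball_mem_nhds z hr0] with w hw1 hw3
    refine ⟨hw1, fun e' he' => ?_⟩
    have h3 := hex e' he'
    have h4 := dist_triangle z w e'
    rw [mem_ball, dist_comm] at hw3
    linarith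

/-- annuli are preconnected -/
theorem isPreconnected_ann (c : ℂ) {r₁ r₂ : ℝ} (h : 0 ≤ r₁) : IsPreconnected {z : ℂ | r₁ < dist z c ∧ dist z c < r₂} := by
  have he : {z : ℂ | r₁ < dist z c ∧ dist z c < r₂} = (fun p : ℝ × ℝ => circleMap c p.1 p.2) '' (Ioo r₁ r₂ ×ˢ univ) := by
    ext z
    simp only [mem_ofPred_eq, mem_image, mem_prod, mem_Ioo, mem_univ, and_true, Prod.exists]
    constructor
    · rintro ⟨h1, h2⟩
      refine ⟨dist z c, Complex.arg (z - c), ⟨h1, h2⟩, ?_⟩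
      rw [circleMap, Complex.dist_eq, Complex.norm_mul_exp_arg_mul_I]
      ring
    · rintro ⟨r, θ, ⟨h1, h2⟩, rfl⟩
      have hd : dist (circleMap c r θ) c = r := by
        rw [Complex.dist_eq, circleMap_sub_center, norm_circleMap_zero, abs_of_pos (lt_of_le_of_lt h h1)]
      rw [hd]
      exact ⟨h1, h2⟩
  rw [he]
  refine (isPreconnected_Ioo.prod isPreconnected_univ).image _ ?_
  have hc : Continuous fun p : ℝ × ℝ => circleMap c p.1 p.2 := by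
    unfold circleMap
    fun_prop
  exact hc.continuousOn

/-- the identity theorem, going round the discs -/
theorem route {ν : ℂ} (hν : ‖ν‖ = 1) {E : Set ℂ} {r0 : ℝ} (hr0 : 0 < r0) (hr1 : 16 * r0 ≤ 1) (hsep : ∀ e ∈ E, ∀ e' ∈ E, e ≠ e' → 8 * r0 ≤ dist e e')
    {K : ℂ → ℂ} (hK : DifferentiableOn ℂ K (Om ν E r0)) {p q : ℂ} (hp : 0 ≤ depth ν p) (hq : 0 ≤ depth ν q) (hpE : ∀ e ∈ E, r0 < dist p e)
    (hqE : ∀ e ∈ E, r0 < dist q e) (hz : ∀ᶠ z in 𝓝 q, K z = 0) : K p = 0 := by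
  have hO := isOpen_Om (ν := ν) hr0 hsep
  have ha : AnalyticOnNhd ℂ K (Om ν E r0) := hK.analyticOnNhd hO
  set Z : Set ℂ := {z ∈ Om ν E r0 | ∀ᶠ w in 𝓝 z, K w = 0} with hZ
  set Y : Set ℂ := {z ∈ Om ν E r0 | ¬ ∀ᶠ w in 𝓝 z, K w = 0} with hY
  have hZo : IsOpen Z := by
    rw [isOpen_iff_mem_nhds]
    rintro z ⟨h1, h2⟩
    filter_upwards [hO.mem_nhds h1, eventually_eventually_nhds.2 h2] with w hw1 hw2
    exact ⟨hw1, hw2⟩
  have hYo : IsOpen Y := by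
    rw [isOpen_iff_mem_nhds]
    rintro z ⟨h1, h2⟩
    obtain ⟨δ, hδ, hball⟩ := Metric.isOpen_iff.1 hO z h1
    filter_upwards [ball_mem_nhds z hδ] with w hw
    refine ⟨hball hw, fun hcon => h2 ?_⟩
    have h3 := (ha.mono hball).eqOn_zero_of_preconnected_of_eventuallyEq_zero (convex_ball z δ).isPreconnected hw hcon
    filter_upwards [ball_mem_nhds z hδ] with v hv
    exact h3 hv
  set An : ℂ → Set ℂ := fun e => {z : ℂ | r0 < dist z e ∧ dist z e < 4 * r0} with hAn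
  have hAnO : ∀ e ∈ E, -(1 / 4) < depth ν e → An e ⊆ Om ν E r0 := by
    rintro e he hde z ⟨h1, h2⟩
    refine ⟨?_, fun e' he' => ?_⟩
    · have h3 := depth_sub_le hν e z
      rw [abs_le] at h3
      rw [dist_comm] at h3
      linarith [h3.2]
    · by_cases hee : e' = e
      · rw [hee]
        exact h1
      · have h3 := hsep e he e' he' (fun h => hee h.symm)
        have h4 := dist_triangle e z e'
        rw [dist_comm e z] at h4
        linarith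
  set V : Set ℂ := Z ∪ ⋃ e ∈ {e ∈ E | -(1 / 4) < depth ν e ∧ An e ⊆ Z}, ball e (4 * r0) with hV
  set W : Set ℂ := Y ∪ ⋃ e ∈ {e ∈ E | -(1 / 4) < depth ν e ∧ ¬ An e ⊆ Z}, ball e (4 * r0) with hW
  have hVo : IsOpen V := hZo.union (isOpen_biUnion fun e _ => isOpen_ball)
  have hWo : IsOpen W := hYo.union (isOpen_biUnion fun e _ => isOpen_ball)
  -- an annulus meeting `Z` is in `Z`
  have hAnZ : ∀ e ∈ E, -(1 / 4) < depth ν e → (An e ∩ Z).Nonempty → An e ⊆ Z := by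
    rintro e he hde ⟨z, hz1, hz2⟩ w hw
    have hsub := hAnO e he hde
    have h3 := (ha.mono hsub).eqOn_zero_of_preconnected_of_eventuallyEq_zero (isPreconnected_ann e hr0.le) hz1 hz2.2
    refine ⟨hsub hw, ?_⟩
    have hAo : IsOpen (An e) := (isOpen_lt continuous_const (continuous_id.dist continuous_const)).inter
      (isOpen_lt (continuous_id.dist continuous_const) continuous_const)
    filter_upwards [hAo.mem_nhds hw] with v hv
    exact h3 hv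
  have hdisj : ∀ x, x ∈ V → x ∈ W → False := by
    intro x hxV hxW
    rcases hxV with hxZ | hxV <;> rcases hxW with hxY | hxW
    · exact hxY.2 hxZ.2
    · obtain ⟨e, ⟨he, hde, hnot⟩, hxe⟩ := mem_iUnion₂.1 hxW
      exact hnot (hAnZ e he hde ⟨x, ⟨hxZ.1.2 e he, hxe⟩, hxZ⟩)
    · obtain ⟨e, ⟨he, hde, hsub⟩, hxe⟩ := mem_iUnion₂.1 hxV
      exact hxY.2 (hsub ⟨hxY.1.2 e he, hxe⟩).2
    · obtain ⟨e, ⟨he, hde, hsub⟩, hxe⟩ := mem_iUnion₂.1 hxV
      obtain ⟨e', ⟨he', hde', hnot⟩, hxe'⟩ := mem_iUnion₂.1 hxW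
      have hee : e ≠ e' := by
        rintro rfl
        exact hnot hsub
      have h1 := hsep e he e' he' hee
      have h2 := dist_triangle e x e'
      rw [mem_ball] at hxe hxe'
      rw [dist_comm e x] at h2
      linarith
  have hcov : ∀ x ∈ segment ℝ p q, x ∈ V ∪ W := by
    intro x hx
    have hdx : 0 ≤ depth ν x := by
      obtain ⟨a, b, ha', hb', -, rfl⟩ := hx
      have h1 : depth ν (a • p + b • q) = a * depth ν p + b * depth ν q := by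
        unfold depth
        simp only [real_smul, mul_add, add_re, mul_re, ofReal_re, ofReal_im, mul_im, conj_re, conj_im]
        ring
      rw [h1]
      positivity
    by_cases hxO : x ∈ Om ν E r0
    · by_cases h : ∀ᶠ w in 𝓝 x, K w = 0
      · exact Or.inl (Or.inl ⟨hxO, h⟩)
      · exact Or.inr (Or.inl ⟨hxO, h⟩)
    · have h1 : ∃ e ∈ E, dist x e ≤ r0 := by
        by_contra hcon
        push Not at hcon
        exact hxO ⟨by linarith, hcon⟩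
      obtain ⟨e, he, hxe⟩ := h1
      have h2 := depth_sub_le hν x e
      rw [abs_le] at h2
      have hde : -(1 / 4) < depth ν e := by linarith [h2.2]
      have hxb : x ∈ ball e (4 * r0) := mem_ball.2 (by linarith)
      by_cases hs : An e ⊆ Z
      · exact Or.inl (Or.inr (mem_iUnion₂.2 ⟨e, ⟨he, hde, hs⟩, hxb⟩))
      · exact Or.inr (Or.inr (mem_iUnion₂.2 ⟨e, ⟨he, hde, hs⟩, hxb⟩))
  have hqV : q ∈ V := Or.inl ⟨⟨by linarith, hqE⟩, hz⟩
  have hpO : p ∈ Om ν E r0 := ⟨by linarith, hpE⟩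
  by_contra hKp
  have hpW : p ∈ W := Or.inl ⟨hpO, fun h => hKp h.self_of_nhds⟩
  have hconn : IsPreconnected (segment ℝ p q) := (convex_segment p q).isPreconnected
  obtain ⟨x, -, hxV, hxW⟩ := hconn V W hVo hWo hcov ⟨q, right_mem_segment ℝ p q, hqV⟩ ⟨p, left_mem_segment ℝ p q, hpW⟩
  exact hdisj x hxV hxW

/-- a unit vector `w` such that the sector `z0 + w * u`, `0 < re u`, `0 < im u`, has depth `≥ 0` and is far from the strip -/
theorem exists_sector {ν ω : ℂ} (_hν : ‖ν‖ = 1) (hω : ‖ω‖ = 1) {W : ℝ} (hW : 0 ≤ W) :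
    ∃ w z0 : ℂ, ‖w‖ = 1 ∧ ∀ u : ℂ, 0 < u.re → 0 < u.im → 0 ≤ depth ν (z0 + w * u) ∧ W < |((starRingEnd ℂ) ω * (z0 + w * u)).im| := by
  have hωω : (starRingEnd ℂ) ω * ω = 1 := by
    rw [mul_comm, Complex.mul_conj, Complex.normSq_eq_norm_sq, hω]
    norm_num
  -- the number `conj ν * ω`
  set b : ℂ := (starRingEnd ℂ) ν * ω with hb
  rcases le_total 0 b.re with h1 | h1 <;> rcases le_total 0 b.im with h2 | h2
  · -- first quadrant: `w = -i ω`, `z0 = - W i ω`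
    refine ⟨-I * ω, -(W * I) * ω, by simp [hω], fun u hu1 hu2 => ⟨?_, ?_⟩⟩
    · unfold depth
      have : (starRingEnd ℂ) ν * (-(W * I) * ω + -I * ω * u) = b * (-(W * I) - I * u) := by rw [hb]; ring
      rw [this]
      simp only [mul_re, sub_re, neg_re, sub_im, neg_im, ofReal_re, ofReal_im, I_re, I_im, mul_im]
      nlinarith [mul_nonneg h2 hW, mul_nonneg h2 hu1.le, mul_nonneg h1 hu2.le]
    · have : (starRingEnd ℂ) ω * (-(W * I) * ω + -I * ω * u) = (-(W * I) - I * u) := by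
        calc (starRingEnd ℂ) ω * (-(W * I) * ω + -I * ω * u) = (starRingEnd ℂ) ω * ω * (-(W * I) - I * u) := by ring
          _ = _ := by rw [hωω, one_mul]
      rw [this]
      simp only [sub_im, neg_im, mul_im, ofReal_re, ofReal_im, I_re, I_im]
      rw [lt_abs]
      right
      linarith
  · -- fourth quadrant: `w = ω`, `z0 = W i ω`
    refine ⟨ω, (W * I) * ω, hω, fun u hu1 hu2 => ⟨?_, ?_⟩⟩
    · unfold depth
      have : (starRingEnd ℂ) ν * ((W * I) * ω + ω * u) = b * ((W * I) + u) := by rw [hb]; ring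
      rw [this]
      simp only [mul_re, add_re, add_im, ofReal_re, ofReal_im, I_re, I_im, mul_im]
      nlinarith [mul_nonneg (neg_nonneg.2 h2) hW, mul_nonneg (neg_nonneg.2 h2) hu2.le, mul_nonneg h1 hu1.le]
    · have : (starRingEnd ℂ) ω * ((W * I) * ω + ω * u) = ((W * I) + u) := by
        calc (starRingEnd ℂ) ω * ((W * I) * ω + ω * u) = (starRingEnd ℂ) ω * ω * ((W * I) + u) := by ring
          _ = _ := by rw [hωω, one_mul]
      rw [this]
      simp only [add_im, mul_im, ofReal_re, ofReal_im, I_re, I_im]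
      rw [lt_abs]
      left
      linarith
  · -- second quadrant: `w = -ω`, `z0 = - W i ω`
    refine ⟨-ω, -(W * I) * ω, by simp [hω], fun u hu1 hu2 => ⟨?_, ?_⟩⟩
    · unfold depth
      have : (starRingEnd ℂ) ν * (-(W * I) * ω + -ω * u) = b * (-(W * I) - u) := by rw [hb]; ring
      rw [this]
      simp only [mul_re, sub_re, neg_re, sub_im, neg_im, ofReal_re, ofReal_im, I_re, I_im, mul_im]
      nlinarith [mul_nonneg h2 hW, mul_nonneg h2 hu2.le, mul_nonneg (neg_nonneg.2 h1) hu1.le]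
    · have : (starRingEnd ℂ) ω * (-(W * I) * ω + -ω * u) = (-(W * I) - u) := by
        calc (starRingEnd ℂ) ω * (-(W * I) * ω + -ω * u) = (starRingEnd ℂ) ω * ω * (-(W * I) - u) := by ring
          _ = _ := by rw [hωω, one_mul]
      rw [this]
      simp only [sub_im, neg_im, mul_im, ofReal_re, ofReal_im, I_re, I_im]
      rw [lt_abs]
      right
      linarith
  · -- third quadrant: `w = i ω`, `z0 = W i ω`
    refine ⟨I * ω, (W * I) * ω, by simp [hω], fun u hu1 hu2 => ⟨?_, ?_⟩⟩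
    · unfold depth
      have : (starRingEnd ℂ) ν * ((W * I) * ω + I * ω * u) = b * ((W * I) + I * u) := by rw [hb]; ring
      rw [this]
      simp only [mul_re, add_re, add_im, ofReal_re, ofReal_im, I_re, I_im, mul_im]
      nlinarith [mul_nonneg (neg_nonneg.2 h2) hW, mul_nonneg (neg_nonneg.2 h2) hu1.le, mul_nonneg (neg_nonneg.2 h1) hu2.le]
    · have : (starRingEnd ℂ) ω * ((W * I) * ω + I * ω * u) = ((W * I) + I * u) := by
        calc (starRingEnd ℂ) ω * ((W * I) * ω + I * ω * u) = (starRingEnd ℂ) ω * ω * ((W * I) + I * u) := by ring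
          _ = _ := by rw [hωω, one_mul]
      rw [this]
      simp only [add_im, mul_im, ofReal_re, ofReal_im, I_re, I_im]
      rw [lt_abs]
      left
      linarith

/-- the local bound -/
theorem limit_local {ι : Type*} {F : Filter ι} {ν : ℂ} (hν : ‖ν‖ = 1) {E : Set ℂ} {Rg : ι → Set ℂ} {g : ℂ → ι → ℂ → ℂ} {r : ℂ → ℝ} {C c : ℝ} (hC : 0 ≤ C) (hc : 0 < c)
    (h1 : ∀ z₀, -1 < depth ν z₀ → z₀ ∉ E → 0 < r z₀ ∧ ∀ᶠ n in F, DifferentiableOn ℂ (g z₀ n) (ball z₀ (r z₀)))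
    (h2 : ∀ z₀ z₁, -1 < depth ν z₀ → z₀ ∉ E → -1 < depth ν z₁ → z₁ ∉ E → ∀ ε : ℝ, 0 < ε →
      ∀ᶠ n in F, ∀ z ∈ ball z₀ (r z₀), z ∈ ball z₁ (r z₁) → ‖g z₀ n z - g z₁ n z‖ ≤ ε)
    (h3 : ∀ z₀, -1 < depth ν z₀ → z₀ ∉ E → ∀ᶠ n in F, ∀ z ∈ ball z₀ (r z₀), z ∈ Rg n → ‖g z₀ n z‖ ≤ C * Real.exp (-c * ‖z‖ ^ 2))
    {z₀ : ℂ} (hz₀ : -(1 / 2) < depth ν z₀) {s : ℝ} (hs : 0 < s) (hs1 : s ≤ 1 / 4) (hsE : ∀ e ∈ E, s < dist z₀ e)
    (hsR : ∀ᶠ n in F, sphere z₀ s ⊆ Rg n) :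
    (∃ B ρ : ℝ, 0 < ρ ∧ ∀ᶠ n in F, DifferentiableOn ℂ (g z₀ n) (ball z₀ ρ) ∧ ∀ z ∈ ball z₀ ρ, ‖g z₀ n z‖ ≤ B) ∧
    ∀ η : ℝ, 0 < η → ∀ᶠ n in F, ‖g z₀ n z₀‖ ≤ C * Real.exp (c / 16) * Real.exp (-(c / 2) * ‖z₀‖ ^ 2) + η := by
  classical
  set M : ℝ := C * Real.exp (c / 16) * Real.exp (-(c / 2) * ‖z₀‖ ^ 2) with hM
  have hM0 : 0 ≤ M := by positivity
  have hdep : ∀ z ∈ closedBall z₀ s, -1 < depth ν z := by
    intro z hz
    have h4 := depth_sub_le hν z₀ z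
    rw [abs_le] at h4
    rw [mem_closedBall, dist_comm] at hz
    linarith [h4.2]
  have hnE : ∀ z ∈ closedBall z₀ s, z ∉ E := by
    intro z hz hzE
    have h4 := hsE z hzE
    rw [mem_closedBall, dist_comm] at hz
    linarith
  have hz₀m : z₀ ∈ closedBall z₀ s := mem_closedBall_self hs.le
  -- finite cover
  obtain ⟨t, htsub, htcov⟩ := (isCompact_closedBall z₀ s).elim_nhds_subcover (fun z => ball z (r z / 2))
    (fun z hz => ball_mem_nhds z (by have := (h1 z (hdep z hz) (hnE z hz)).1; linarith))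
  set T : Finset ℂ := insert z₀ t with hT
  have hTm : ∀ i ∈ T, i ∈ closedBall z₀ s := by
    intro i hi
    rcases Finset.mem_insert.1 hi with h | h
    · rw [h]
      exact hz₀m
    · exact htsub i h
  obtain ⟨A, hA, hamp⟩ := amp T (fun z => z) r (fun i hi => (h1 i (hdep i (hTm i hi)) (hnE i (hTm i hi))).1) (isCompact_closedBall z₀ s) (by
    intro z hz
    obtain ⟨x, hx, hzx⟩ := mem_iUnion₂.1 (htcov hz)
    exact ⟨x, Finset.mem_insert_of_mem hx, hzx⟩)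
  -- the bound on the sphere
  have hexp : ∀ z ∈ sphere z₀ s, C * Real.exp (-c * ‖z‖ ^ 2) ≤ M := by
    intro z hz
    rw [hM, mul_assoc, ← Real.exp_add]
    refine mul_le_mul_of_nonneg_left (Real.exp_le_exp.2 ?_) hC
    have h4 : ‖z₀‖ ≤ ‖z‖ + 1 / 4 := by
      have h5 := norm_sub_norm_le z₀ z
      rw [mem_sphere, dist_comm, dist_eq_norm] at hz
      linarith
    have h6 : ‖z₀‖ ^ 2 ≤ (‖z‖ + 1 / 4) ^ 2 := by
      have := norm_nonneg z₀
      gcongr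
    have h7 : ‖z₀‖ ^ 2 ≤ 2 * ‖z‖ ^ 2 + 1 / 8 := by nlinarith [sq_nonneg (‖z‖ - 1 / 4)]
    nlinarith
  -- eventually all hypotheses of `amp`
  have hall : ∀ ε : ℝ, 0 < ε → ∀ᶠ n in F, ∀ i ∈ T, ∀ z ∈ closedBall z₀ s, z ∈ ball i (r i) → ‖g i n z‖ ≤ M + A * ε := by
    intro ε hε
    have e1 : ∀ᶠ n in F, ∀ i ∈ T, DifferentiableOn ℂ (g i n) (ball i (r i)) := by
      rw [eventually_all_finset]
      exact fun i hi => (h1 i (hdep i (hTm i hi)) (hnE i (hTm i hi))).2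
    have e2 : ∀ᶠ n in F, ∀ i ∈ T, ∀ j ∈ T, ∀ z ∈ ball i (r i), z ∈ ball j (r j) → ‖g i n z - g j n z‖ ≤ ε := by
      rw [eventually_all_finset]
      intro i hi
      rw [eventually_all_finset]
      exact fun j hj => h2 i j (hdep i (hTm i hi)) (hnE i (hTm i hi)) (hdep j (hTm j hj)) (hnE j (hTm j hj)) ε hε
    have e3 : ∀ᶠ n in F, ∀ i ∈ T, ∀ z ∈ ball i (r i), z ∈ Rg n → ‖g i n z‖ ≤ C * Real.exp (-c * ‖z‖ ^ 2) := by
      rw [eventually_all_finset]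
      exact fun i hi => h3 i (hdep i (hTm i hi)) (hnE i (hTm i hi))
    filter_upwards [e1, e2, e3, hsR] with n a1 a2 a3 a4
    refine hamp (fun i => g i n) ε M hε.le a1 (fun i hi j hj z _ hzi hzj => a2 i hi j hj z hzi hzj) ?_
    intro i hi z hz hzi
    have hz' : z ∈ sphere z₀ s := by
      rwa [frontier_closedBall z₀ hs.ne'] at hz
    exact (a3 i hi z hzi (a4 hz')).trans (hexp z hz')
  have hz₀T : z₀ ∈ T := Finset.mem_insert_self _ _
  have hr0 := (h1 z₀ (hdep z₀ hz₀m) (hnE z₀ hz₀m)).1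
  constructor
  · refine ⟨M + A * 1, min s (r z₀), lt_min hs hr0, ?_⟩
    filter_upwards [hall 1 one_pos, (h1 z₀ (hdep z₀ hz₀m) (hnE z₀ hz₀m)).2] with n a1 a2
    refine ⟨a2.mono (ball_subset_ball (min_le_right _ _)), fun z hz => ?_⟩
    rw [mem_ball, lt_min_iff] at hz
    exact a1 z₀ hz₀T z (mem_closedBall.2 hz.1.le) (mem_ball.2 hz.2)
  · intro η hη
    have hε : 0 < η / (A + 1) := by positivity
    filter_upwards [hall _ hε] with n a1
    refine (a1 z₀ hz₀T z₀ hz₀m (mem_ball_self hr0)).trans ?_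
    have h4 : A * (η / (A + 1)) ≤ η := by
      rw [mul_div_assoc', div_le_iff₀ (by positivity)]
      nlinarith
    linarith

/-- **The limit lemma (LL).** -/
theorem limit_lemma {ι : Type*} {𝒰 : Ultrafilter ι} {ω ν : ℂ} (hω : ‖ω‖ = 1) (hν : ‖ν‖ = 1) {E : Set ℂ} {W : ℝ} (hW : ∀ e ∈ E, |((starRingEnd ℂ) ω * e).im| ≤ W) {r0 : ℝ}
    (hr0 : 0 < r0) (hr1 : 16 * r0 ≤ 1) (hsep : ∀ e ∈ E, ∀ e' ∈ E, e ≠ e' → 8 * r0 ≤ dist e e') (h0 : ∀ e ∈ E, r0 < ‖e‖)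
    {Rg : ι → Set ℂ} {g : ℂ → ι → ℂ → ℂ} {r : ℂ → ℝ} {C c : ℝ} (hc : 0 < c)
    (h1 : ∀ z₀, -1 < depth ν z₀ → z₀ ∉ E → 0 < r z₀ ∧ ∀ᶠ n in (𝒰 : Filter ι), DifferentiableOn ℂ (g z₀ n) (ball z₀ (r z₀)))
    (h2 : ∀ z₀ z₁, -1 < depth ν z₀ → z₀ ∉ E → -1 < depth ν z₁ → z₁ ∉ E → ∀ ε : ℝ, 0 < ε →
      ∀ᶠ n in (𝒰 : Filter ι), ∀ z ∈ ball z₀ (r z₀), z ∈ ball z₁ (r z₁) → ‖g z₀ n z - g z₁ n z‖ ≤ ε)
    (h3 : ∀ z₀, -1 < depth ν z₀ → z₀ ∉ E → ∀ᶠ n in (𝒰 : Filter ι), ∀ z ∈ ball z₀ (r z₀), z ∈ Rg n → ‖g z₀ n z‖ ≤ C * Real.exp (-c * ‖z‖ ^ 2))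
    (h4 : ∀ z₀, -(1 / 2) < depth ν z₀ → (∀ e ∈ E, r0 < dist z₀ e) → ∃ s : ℝ, 0 < s ∧ s ≤ 1 / 4 ∧ (∀ e ∈ E, s < dist z₀ e) ∧
      ∀ᶠ n in (𝒰 : Filter ι), sphere z₀ s ⊆ Rg n) :
    Tendsto (fun n => g 0 n 0) (𝒰 : Filter ι) (𝓝 0) := by
  -- replace `C` by `max C 0`
  set C' : ℝ := max C 0 with hC'
  have hC0 : 0 ≤ C' := le_max_right _ _
  have h3' : ∀ z₀, -1 < depth ν z₀ → z₀ ∉ E → ∀ᶠ n in (𝒰 : Filter ι), ∀ z ∈ ball z₀ (r z₀), z ∈ Rg n → ‖g z₀ n z‖ ≤ C' * Real.exp (-c * ‖z‖ ^ 2) := by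
    intro z₀ a1 a2
    filter_upwards [h3 z₀ a1 a2] with n hn z hz hzR
    refine (hn z hz hzR).trans ?_
    have := le_max_left C 0
    gcongr
  have hloc : ∀ z₀ ∈ Om ν E r0, (∃ B ρ : ℝ, 0 < ρ ∧ ∀ᶠ n in (𝒰 : Filter ι), DifferentiableOn ℂ (g z₀ n) (ball z₀ ρ) ∧ ∀ z ∈ ball z₀ ρ, ‖g z₀ n z‖ ≤ B) ∧
      ∀ η : ℝ, 0 < η → ∀ᶠ n in (𝒰 : Filter ι), ‖g z₀ n z₀‖ ≤ C' * Real.exp (c / 16) * Real.exp (-(c / 2) * ‖z₀‖ ^ 2) + η := by
    rintro z₀ ⟨a1, a2⟩
    obtain ⟨s, hs, hs1, hsE, hsR⟩ := h4 z₀ a1 a2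
    exact limit_local hν hC0 hc h1 h2 h3' a1 hs hs1 hsE hsR
  have hOm : ∀ z ∈ Om ν E r0, -1 < depth ν z ∧ z ∉ E := by
    rintro z ⟨a1, a2⟩
    refine ⟨by linarith, fun hzE => ?_⟩
    have := a2 z hzE
    rw [dist_self] at this
    linarith
  -- the limit
  have hlim : ∀ z ∈ Om ν E r0, ∃ v : ℂ, Tendsto (fun n => g z n z) (𝒰 : Filter ι) (𝓝 v) := by
    intro z hz
    obtain ⟨B, ρ, hρ, hB⟩ := (hloc z hz).1
    have h5 : ∀ᶠ n in (𝒰 : Filter ι), g z n z ∈ closedBall (0 : ℂ) B := by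
      filter_upwards [hB] with n hn
      rw [mem_closedBall_zero_iff]
      exact hn.2 z (mem_ball_self hρ)
    obtain ⟨v, -, hv⟩ := (isCompact_closedBall (0 : ℂ) B).ultrafilter_le_nhds (𝒰.map fun n => g z n z) (by
      rw [Ultrafilter.coe_map, le_principal_iff]
      exact h5)
    exact ⟨v, hv⟩
  classical
  set K : ℂ → ℂ := fun z => if h : ∃ v : ℂ, Tendsto (fun n => g z n z) (𝒰 : Filter ι) (𝓝 v) then h.choose else 0 with hKdef
  have hK : ∀ z ∈ Om ν E r0, Tendsto (fun n => g z n z) (𝒰 : Filter ι) (𝓝 (K z)) := by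
    intro z hz
    have h5 := hlim z hz
    simp only [hKdef, dif_pos h5]
    exact h5.choose_spec
  have hO : IsOpen (Om ν E r0) := isOpen_Om hr0 hsep
  have hKd : DifferentiableOn ℂ K (Om ν E r0) := by
    intro z₀ hz₀
    obtain ⟨B, ρ, hρ, hB⟩ := (hloc z₀ hz₀).1
    obtain ⟨δ', hδ', hball⟩ := Metric.isOpen_iff.1 hO z₀ hz₀
    obtain ⟨b1, b2⟩ := hOm z₀ hz₀
    have hrz := (h1 z₀ b1 b2).1
    set ρ' : ℝ := min (min ρ δ') (r z₀) with hρ'
    have hρ'0 : 0 < ρ' := lt_min (lt_min hρ hδ') hrz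
    have hsub1 : ball z₀ ρ' ⊆ ball z₀ ρ := ball_subset_ball ((min_le_left _ _).trans (min_le_left _ _))
    have hsub2 : ball z₀ ρ' ⊆ Om ν E r0 := (ball_subset_ball ((min_le_left _ _).trans (min_le_right _ _))).trans hball
    have hsub3 : ball z₀ ρ' ⊆ ball z₀ (r z₀) := ball_subset_ball (min_le_right _ _)
    have hd : DifferentiableOn ℂ K (ball z₀ ρ') := by
      refine ul_hol (U := (𝒰 : Filter ι)) (f := g z₀) (M := B) ?_ ?_
      · filter_upwards [hB] with n hn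
        exact ⟨hn.1.mono hsub1, fun z hz => hn.2 z (hsub1 hz)⟩
      · intro z hz
        have hzO := hsub2 hz
        obtain ⟨b3, b4⟩ := hOm z hzO
        have h5 : Tendsto (fun n => g z₀ n z - g z n z) (𝒰 : Filter ι) (𝓝 0) := by
          rw [Metric.tendsto_nhds]
          intro ε hε
          filter_upwards [(h2 z₀ z b1 b2 b3 b4 (ε / 2) (by positivity))] with n hn
          rw [dist_zero_right]
          have := hn z (hsub3 hz) (mem_ball_self (h1 z b3 b4).1)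
          linarith
        have h6 := h5.add (hK z hzO)
        simpa using h6
    exact (hd.differentiableAt (ball_mem_nhds z₀ hρ'0)).differentiableWithinAt
  have hKb : ∀ z ∈ Om ν E r0, ‖K z‖ ≤ C' * Real.exp (c / 16) * Real.exp (-(c / 2) * ‖z‖ ^ 2) := by
    intro z hz
    refine le_of_forall_pos_le_add fun η hη => ?_
    exact le_of_tendsto (hK z hz).norm ((hloc z hz).2 η hη)
  -- the sector
  obtain ⟨w, z0, hw, hsec⟩ := exists_sector hν hω (W := max W 0 + 1) (by positivity)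
  have hsecO : ∀ u : ℂ, 0 < u.re → 0 < u.im → z0 + w * u ∈ Om ν E r0 := by
    intro u hu1 hu2
    obtain ⟨b1, b2⟩ := hsec u hu1 hu2
    refine ⟨by linarith, fun e he => ?_⟩
    have b3 := hW e he
    have b4 : |((starRingEnd ℂ) ω * (z0 + w * u)).im - ((starRingEnd ℂ) ω * e).im| ≤ dist (z0 + w * u) e := by
      rw [← sub_im, ← mul_sub, dist_eq_norm]
      refine (abs_im_le_norm _).trans ?_
      rw [norm_mul, RCLike.norm_conj, hω, one_mul]
    have b5 := abs_sub_abs_le_abs_sub ((starRingEnd ℂ) ω * (z0 + w * u)).im ((starRingEnd ℂ) ω * e).im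
    have b6 := le_max_left W 0
    linarith
  have hzero : ∀ u : ℂ, 0 < u.re → 0 < u.im → K (z0 + w * u) = 0 := by
    refine sector_zero (C := C' * Real.exp (c / 16)) (c := c / 2) (by positivity) hw ?_ ?_
    · refine hKd.mono ?_
      rintro z ⟨u, hu1, hu2, rfl⟩
      exact hsecO u hu1 hu2
    · intro u hu1 hu2
      exact hKb _ (hsecO u hu1 hu2)
  -- a point of the sector
  set q : ℂ := z0 + w * (1 + I) with hq
  have hqO : q ∈ Om ν E r0 := hsecO _ (by simp) (by simp)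
  have hqd : 0 ≤ depth ν q := (hsec (1 + I) (by simp) (by simp)).1
  have hw0 : w ≠ 0 := by
    rintro rfl
    simp at hw
  have hqz : ∀ᶠ z in 𝓝 q, K z = 0 := by
    have h5 : ContinuousAt (fun z : ℂ => w⁻¹ * (z - z0)) q := by fun_prop
    have h6 : w⁻¹ * (q - z0) = 1 + I := by
      rw [hq]
      field_simp
      ring
    have h7 : ∀ᶠ z in 𝓝 q, 0 < (w⁻¹ * (z - z0)).re := by
      have : Tendsto (fun z : ℂ => (w⁻¹ * (z - z0)).re) (𝓝 q) (𝓝 (w⁻¹ * (q - z0)).re) := (continuous_re.continuousAt.comp h5).tendsto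
      refine this.eventually (lt_mem_nhds ?_)
      rw [h6]
      simp
    have h8 : ∀ᶠ z in 𝓝 q, 0 < (w⁻¹ * (z - z0)).im := by
      have : Tendsto (fun z : ℂ => (w⁻¹ * (z - z0)).im) (𝓝 q) (𝓝 (w⁻¹ * (q - z0)).im) := (continuous_im.continuousAt.comp h5).tendsto
      refine this.eventually (lt_mem_nhds ?_)
      rw [h6]
      simp
    filter_upwards [h7, h8] with z a1 a2
    have h9 := hzero _ a1 a2
    have h10 : z0 + w * (w⁻¹ * (z - z0)) = z := by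
      field_simp
      ring
    rwa [h10] at h9
  have h0O : (0 : ℂ) ∈ Om ν E r0 := ⟨by unfold depth; simp, fun e he => by rw [dist_comm, dist_zero_right]; exact h0 e he⟩
  have hK0 : K 0 = 0 := route hν hr0 hr1 hsep hKd (p := 0) (q := q) (by unfold depth; simp) hqd h0O.2 hqO.2 hqz
  have h5 := hK 0 h0O
  rw [hK0] at h5
  exact h5

/-- the same, in the form of helper15 -/
theorem LL {ι : Type*} {𝒰 : Ultrafilter ι} {ω ν : ℂ} (hω : ‖ω‖ = 1) (hν : ‖ν‖ = 1) {E : Set ℂ} {W ρ C c : ℝ}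
    (hW : ∀ e ∈ E, |((starRingEnd ℂ) ω * e).im| ≤ W) (hρ : 0 < ρ) (hρ' : ρ ≤ 1 / 4)
    (hsep : ∀ e ∈ E, ∀ e' ∈ E, e ≠ e' → 8 * ρ ≤ ‖e - e'‖) (h5 : ∀ e ∈ E, ρ / 2 ≤ ‖e‖) (hc : 0 < c) {g : ℂ → ι → ℂ → ℂ} {r : ℂ → ℝ} {Rg : ι → Set ℂ}
    (h1 : ∀ z₀ ∈ HP ν (-1), z₀ ∉ E → 0 < r z₀ ∧ ∀ᶠ n in (𝒰 : Filter ι), DifferentiableOn ℂ (g z₀ n) (ball z₀ (r z₀)))
    (h2 : ∀ z₀ ∈ HP ν (-1), z₀ ∉ E → ∀ z₁ ∈ HP ν (-1), z₁ ∉ E → ∀ ε : ℝ, 0 < ε →
      ∀ᶠ n in (𝒰 : Filter ι), ∀ x ∈ ball z₀ (r z₀) ∩ ball z₁ (r z₁), ‖g z₀ n x - g z₁ n x‖ ≤ ε)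
    (h3 : ∀ z₀ ∈ HP ν (-1), z₀ ∉ E → ∀ᶠ n in (𝒰 : Filter ι), ∀ x ∈ ball z₀ (r z₀), x ∈ Rg n → ‖g z₀ n x‖ ≤ C * Real.exp (-(c * ‖x‖ ^ 2)))
    (h4 : ∀ z₀ ∈ HP ν (-3 / 4), (∀ e ∈ E, ρ / 4 < ‖z₀ - e‖) → ∃ t : ℝ, 0 < t ∧ ((∀ᶠ n in (𝒰 : Filter ι), ball z₀ t ⊆ Rg n) ∨
      ∃ s : ℝ, 0 < s ∧ s < 1 / 8 ∧ (∀ e ∈ E, s < ‖z₀ - e‖) ∧ ∀ᶠ n in (𝒰 : Filter ι), ∀ x, |‖x - z₀‖ - s| < t → x ∈ Rg n)) :
    Tendsto (fun n => g 0 n 0) (𝒰 : Filter ι) (𝓝 0) := by
  have hIν : ‖I * ν‖ = 1 := by rw [norm_mul, Complex.norm_I, hν, one_mul]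
  have hdep : ∀ z : ℂ, depth (I * ν) z = ((starRingEnd ℂ) ν * z).im := by
    intro z
    unfold depth
    simp only [map_mul, conj_I, mul_re, mul_im, neg_re, neg_im, I_re, I_im, conj_re, conj_im]
    ring
  have hHP : ∀ (z : ℂ) (h : ℝ), h < depth (I * ν) z → z ∈ HP ν h := by
    intro z h hz
    rw [hdep] at hz
    exact hz
  refine limit_lemma (r0 := ρ / 4) (r := r) (Rg := Rg) (C := C) (c := c) hω hIν hW (by linarith) (by linarith) ?_ ?_ hc ?_ ?_ ?_ ?_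
  · intro e he e' he' hee
    have := hsep e he e' he' hee
    rw [dist_eq_norm]
    linarith
  · intro e he
    have := h5 e he
    linarith
  · intro z₀ a1 a2
    exact h1 z₀ (hHP _ _ a1) a2
  · intro z₀ z₁ a1 a2 a3 a4 ε hε
    filter_upwards [h2 z₀ (hHP _ _ a1) a2 z₁ (hHP _ _ a3) a4 ε hε] with n hn z hz0 hz1
    exact hn z ⟨hz0, hz1⟩
  · intro z₀ a1 a2
    filter_upwards [h3 z₀ (hHP _ _ a1) a2] with n hn z hz hzR
    rw [neg_mul]
    exact hn z hz hzR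
  · intro z₀ a1 a2
    obtain ⟨t, ht, h6⟩ := h4 z₀ (hHP _ _ (by linarith)) (fun e he => by rw [← dist_eq_norm]; exact a2 e he)
    rcases h6 with h6 | ⟨s, hs, hs8, hsE, h6⟩
    · refine ⟨min (t / 2) (ρ / 4), by positivity, (min_le_right _ _).trans (by linarith), fun e he => (min_le_right _ _).trans_lt (a2 e he), ?_⟩
      filter_upwards [h6] with n hn z hz
      refine hn ?_
      rw [mem_sphere] at hz
      rw [mem_ball, hz]
      exact (min_le_left _ _).trans_lt (by linarith)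
    · refine ⟨s, hs, by linarith, fun e he => by rw [dist_eq_norm]; exact hsE e he, ?_⟩
      filter_upwards [h6] with n hn z hz
      refine hn z ?_
      rw [mem_sphere, dist_eq_norm] at hz
      rw [hz]
      simpa using ht

end Pool.Agent.G3.A
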