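import Pool.Agent.G3.A.Defs
import Pool.Agent.TG.Jan
import Pool.Agent.TG.Cp

/-!
# G3 A JN: the integrals separate the points

Sequences: otherwise `y n → y₀` in `Gd D δ`, `m n, m' n → m₀`, `m n ≠ m' n`, `‖II (α j)‖ / dist → 0` for all `j`.  In the chart `χ` of `Cst.cap` at `(y₀, m₀)`: some `α j` is not `0` at the point
`p₀ = χ.q x₀` (`Sepa`, `det`: the value on arbitrary tangent vectors is a multiple of the value `tc` on the coordinate vectors), so `‖A p' - A p‖ ≥ c ‖p' - p‖` for `p, p'` near `p₀` in the same fibre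
(mean value: `fderiv A · (Pi.single 0 1) = tc` is near `tc p₀ ≠ 0`), `‖p' - p‖ ≥ c dist m m'`.
-/

set_option autoImplicit false

open Topology Filter Metric

namespace Pool.Agent.G3.A

open Pool.Agent.H36.BP (EN fs wd)
open Pool.Agent.H14.PP (IsCone CurveAt Tan)
open Pool.Agent.H62.EF (MN pr)
open Pool.Agent.AD (Vd Chart Charts IsGerm)
open Pool.Agent.TG
open Pool.Agent.G3.C (Gc HP)

variable {N k : ℕ} {X : Set (EN N)} {Λ : AddSubgroup (Vd (k + 1))} {u : EN N → Vd (k + 1)} {D B Bad : Set (Vd (k + 1))} {a : Vd (k + 1)}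

/-- the distance of two lines -/
private theorem jn_wd {x y : EN N} : wd x y ≤ ‖x‖ * ‖y - x‖ := by
  have h1 := Pool.Agent.H36.BP.wd_inv x (y - x) 1 1
  rw [one_smul, one_smul, sub_add_cancel, norm_one, one_pow, one_mul] at h1
  rw [h1]
  exact Pool.Agent.H36.BP.wd_le x (y - x)

private theorem jn_dist {x y : EN N} (hx : x ≠ 0) (hy : y ≠ 0) : dist (pr x) (pr y) ≤ 2 * (‖y - x‖ / ‖y‖) := by
  have hx0 : 0 < ‖x‖ := norm_pos_iff.2 hx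
  have hy0 : 0 < ‖y‖ := norm_pos_iff.2 hy
  rw [Pool.Agent.H62.EF.dist_pr hx hy]
  have h1 : wd x y / (‖x‖ * ‖y‖) ≤ ‖y - x‖ / ‖y‖ := by
    rw [div_le_div_iff₀ (by positivity) hy0]
    have h2 := mul_le_mul_of_nonneg_right (jn_wd (x := x) (y := y)) hy0.le
    linarith
  have hs2 : Real.sqrt 2 ≤ 2 := by
    rw [Real.sqrt_le_left (by norm_num)]
    norm_num
  have h0 : 0 ≤ wd x y / (‖x‖ * ‖y‖) := div_nonneg (Pool.Agent.H36.BP.wd_nonneg x y) (by positivity)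
  calc Real.sqrt 2 * (wd x y / (‖x‖ * ‖y‖)) ≤ 2 * (wd x y / (‖x‖ * ‖y‖)) := mul_le_mul_of_nonneg_right hs2 h0
    _ ≤ 2 * (‖y - x‖ / ‖y‖) := by linarith

/-- the map from the chart to the projective space is Lipschitz near every point -/
private theorem jn_lip (hX : IsCone X) (χ : Chart (k + 2) X) {p : Vd (k + 2)} (hp : p ∈ ball (0 : Vd (k + 2)) 2) :
    ∃ L : ℝ, 0 < L ∧ ∀ᶠ q : Vd (k + 2) × Vd (k + 2) in 𝓝 (p, p), dist (pr (χ.σ q.2)) (pr (χ.σ q.1)) ≤ L * ‖q.1 - q.2‖ := by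
  have hX0 : ∀ w ∈ X, w ≠ 0 := fun w hw => ne_zero hX hw
  have hσ0 : 0 < ‖χ.σ p‖ := norm_pos_iff.2 (hX0 _ (χ.σ_mem p hp).1)
  have hstr := (χ.σ_an p hp).hasStrictFDerivAt
  have hlo := hstr.isLittleO.def (zero_lt_one' ℝ)
  set T := fderiv ℂ χ.σ p with hT
  have hn : ∀ᶠ q in 𝓝 p, ‖χ.σ p‖ / 2 < ‖χ.σ q‖ := (χ.σ_an p hp).continuousAt.norm.eventually_const_lt (by linarith)
  have hb : ∀ᶠ q in 𝓝 p, q ∈ ball (0 : Vd (k + 2)) 2 := isOpen_ball.mem_nhds hp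
  have e1 : ∀ᶠ q : Vd (k + 2) × Vd (k + 2) in 𝓝 (p, p), (‖χ.σ p‖ / 2 < ‖χ.σ q.1‖ ∧ q.1 ∈ ball (0 : Vd (k + 2)) 2) ∧ q.2 ∈ ball (0 : Vd (k + 2)) 2 := by
    rw [nhds_prod_eq]
    exact (hn.and hb).prod_mk hb
  refine ⟨4 * (‖T‖ + 1) / ‖χ.σ p‖, by positivity, ?_⟩
  filter_upwards [hlo, e1] with q h1 h2
  obtain ⟨⟨h3, h4⟩, h5⟩ := h2
  have h6 : ‖χ.σ q.1 - χ.σ q.2‖ ≤ (‖T‖ + 1) * ‖q.1 - q.2‖ := by
    have h7 : χ.σ q.1 - χ.σ q.2 = (χ.σ q.1 - χ.σ q.2 - T (q.1 - q.2)) + T (q.1 - q.2) := by abel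
    rw [h7]
    have h8 := norm_add_le (χ.σ q.1 - χ.σ q.2 - T (q.1 - q.2)) (T (q.1 - q.2))
    have h9 := T.le_opNorm (q.1 - q.2)
    linarith
  have h7 := jn_dist (hX0 _ (χ.σ_mem _ h5).1) (hX0 _ (χ.σ_mem _ h4).1)
  refine h7.trans ?_
  have h8 : ‖χ.σ q.1 - χ.σ q.2‖ / ‖χ.σ q.1‖ ≤ (‖T‖ + 1) * ‖q.1 - q.2‖ / (‖χ.σ p‖ / 2) :=
    div_le_div₀ (by positivity) h6 (by positivity) h3.le
  calc 2 * (‖χ.σ q.1 - χ.σ q.2‖ / ‖χ.σ q.1‖) ≤ 2 * ((‖T‖ + 1) * ‖q.1 - q.2‖ / (‖χ.σ p‖ / 2)) := by linarith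
    _ = 4 * (‖T‖ + 1) / ‖χ.σ p‖ * ‖q.1 - q.2‖ := by
      field_simp
      ring

/-- limits along an ultrafilter -/
private theorem jn_limit (G : Geo X Λ u D B) {δ R : ℝ} (𝒰 : Ultrafilter ℕ) (y : ℕ → Vd (k + 1))
    (hy : ∀ n, y n ∈ Gd D δ) (hR : ∀ n, ‖y n‖ ≤ R) (m : ℕ → MN N) (hm : ∀ n, m n ∈ Fb X Λ u (y n)) :
    ∃ (w : Vd (k + 1)) (m₀ : MN N), w ∈ Gd D δ ∧ m₀ ∈ Fb X Λ u w ∧ Tendsto y 𝒰 (𝓝 w) ∧ Tendsto m 𝒰 (𝓝 m₀) := by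
  have hK : IsCompact (closedBall (0 : Vd (k + 1)) R ∩ Gd D δ) := (isCompact_closedBall 0 R).inter_right (gd_closed D δ)
  have hle : ((𝒰.map y : Ultrafilter (Vd (k + 1))) : Filter (Vd (k + 1))) ≤ 𝓟 (closedBall (0 : Vd (k + 1)) R ∩ Gd D δ) := by
    rw [le_principal_iff]
    exact Filter.mem_map.2 (Filter.univ_mem' fun n => ⟨by rw [mem_closedBall, dist_zero_right]; exact hR n, hy n⟩)
  obtain ⟨w, hw, hlim⟩ := hK.ultrafilter_le_nhds (𝒰.map y) hle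
  have hle2 : ((𝒰.map m : Ultrafilter (MN N)) : Filter (MN N)) ≤ 𝓟 (pr '' X) := by
    rw [le_principal_iff]
    refine Filter.mem_map.2 (Filter.univ_mem' fun n => ?_)
    obtain ⟨x, hx, hxm, -⟩ := hm n
    exact ⟨x, hx, hxm⟩
  obtain ⟨m₀, -, hlim2⟩ := (Pool.Agent.H62.EF.isCompact_pr G.cone).ultrafilter_le_nhds (𝒰.map m) hle2
  have hyw : Tendsto y 𝒰 (𝓝 w) := hlim
  have hmw : Tendsto m 𝒰 (𝓝 m₀) := hlim2
  exact ⟨w, m₀, hw.2, (fb_lim G.cone G.lat G.tor hmw hyw (Filter.Eventually.of_forall hm)).1, hyw, hmw⟩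

private theorem jn_pr_sigma_q (χ : Chart (k + 2) X) {x : EN N} (hx : x ∈ X) (hU : x ∈ χ.U) : pr (χ.σ (χ.q x)) = pr x := by
  obtain ⟨-, b, hb, h⟩ := χ.surj x hx hU
  conv_rhs => rw [h]
  rw [Pool.Agent.H62.EF.pr_smul _ hb]

theorem jn (G : Geo X Λ u D B) {J : ℕ} {α : Fin J → VForm X Λ u} (hs : Sepa D α) {δ ε ε₀ : ℝ} (hc : Cst X Λ u D δ ε ε₀) (R : ℝ) : ∃ ε₁ c : ℝ, 0 < ε₁ ∧ ε₁ ≤ ε₀ ∧ 0 < c ∧
    ∀ y ∈ Gd D δ, ‖y‖ ≤ R → ∀ m ∈ Fb X Λ u y, ∀ m' ∈ Fb X Λ u y, dist m m' ≤ ε₁ → ∃ j, c * dist m m' ≤ ‖II (α j) ε y m m'‖ := by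
  by_contra hcon
  push Not at hcon
  have hX := G.cone
  have hε := hc.ε_pos
  have hε₀ := hc.ε₀_pos
  have hr0 : 0 < 3 * ε := by linarith
  have hseq : ∀ n : ℕ, ∃ y ∈ Gd D δ, ‖y‖ ≤ R ∧ ∃ m ∈ Fb X Λ u y, ∃ m' ∈ Fb X Λ u y, dist m m' ≤ min ε₀ (1 / ((n : ℝ) + 1)) ∧
      ∀ j, ‖II (α j) ε y m m'‖ < 1 / ((n : ℝ) + 1) * dist m m' := fun n =>
    hcon (min ε₀ (1 / ((n : ℝ) + 1))) (1 / ((n : ℝ) + 1)) (lt_min hε₀ (by positivity)) (min_le_left _ _) (by positivity)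
  choose y hy hyR m hm m' hm' hd hII using hseq
  set 𝒰 : Ultrafilter ℕ := hyperfilter ℕ with h𝒰
  have hle : (𝒰 : Filter ℕ) ≤ atTop := Nat.hyperfilter_le_atTop
  obtain ⟨y₀, m₀, hy₀, hm₀, hyt, hmt⟩ := jn_limit G 𝒰 y hy hyR m hm
  have hsmall : ∀ s : ℝ, 0 < s → ∀ᶠ n : ℕ in (𝒰 : Filter ℕ), 1 / ((n : ℝ) + 1) < s := fun s hs =>
    hle (tendsto_one_div_add_atTop_nhds_zero_nat (𝕜 := ℝ) |>.eventually_lt_const hs)
  have hmt' : Tendsto m' 𝒰 (𝓝 m₀) := by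
    rw [tendsto_iff_dist_tendsto_zero] at hmt ⊢
    have h1 : Tendsto (fun n : ℕ => 1 / ((n : ℝ) + 1)) 𝒰 (𝓝 0) := (tendsto_one_div_add_atTop_nhds_zero_nat (𝕜 := ℝ)).mono_left hle
    have h2 : Tendsto (fun n : ℕ => 1 / ((n : ℝ) + 1) + dist (m n) m₀) 𝒰 (𝓝 0) := by simpa using h1.add hmt
    refine squeeze_zero (fun _ => dist_nonneg) (fun n => ?_) h2
    have h3 := dist_triangle (m' n) (m n) m₀
    have h4 := (hd n).trans (min_le_right _ _)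
    rw [dist_comm] at h4
    linarith
  obtain ⟨x₀, hx₀, hx₀m, hx₀u⟩ := hm₀
  obtain ⟨χ, c, ρ, hcap⟩ := hc.cap y₀ hy₀ m₀ ⟨x₀, hx₀, hx₀m, hx₀u⟩
  obtain ⟨hU, hq, hms⟩ := hcap.cap y₀ (mem_closedBall_self hr0.le) x₀ hx₀ hx₀u (by rw [hx₀m, dist_self]; exact hr0.le)
  set p := χ.q x₀ with hp
  have hp2 : p ∈ ball (0 : Vd (k + 2)) 2 := closedBall_subset_ball (by norm_num) hq
  obtain ⟨j, v, hv, hne⟩ := hs y₀ (gd_notMem hc.δ_pos hy₀) x₀ hx₀ hx₀u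
  have htc : tc (α j) χ (ms c ρ) p ≠ 0 := by
    intro h0
    apply hne
    rw [toFun_eq hX G.tor (α j) χ hx₀ hU hx₀u (υ := ms c ρ) hms v hv, ← hp, h0, mul_zero]
  obtain ⟨A, hA⟩ := exists_prim (α j) χ hcap.str
  have hD : fderiv ℂ A p (Pi.single 0 1) ≠ 0 := by rw [hA.der p hp2]; exact htc
  have hDpos : 0 < ‖fderiv ℂ A p (Pi.single 0 1)‖ := norm_pos_iff.2 hD
  have hstr := (hA.an p hp2).hasStrictFDerivAt
  have hlo := hstr.isLittleO.def (half_pos hDpos)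
  obtain ⟨L, hL, hlip⟩ := jn_lip hX χ hp2
  choose z hz using hm
  choose z' hz' using hm'
  have t1 : Tendsto (fun n => χ.q (z n)) 𝒰 (𝓝 p) := by
    refine tendsto_q χ hU (ne_zero hX hx₀) (Eventually.of_forall fun n => ne_zero hX (hz n).1) ?_
    rw [hx₀m]
    exact hmt.congr fun n => (hz n).2.1.symm
  have t2 : Tendsto (fun n => χ.q (z' n)) 𝒰 (𝓝 p) := by
    refine tendsto_q χ hU (ne_zero hX hx₀) (Eventually.of_forall fun n => ne_zero hX (hz' n).1) ?_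
    rw [hx₀m]
    exact hmt'.congr fun n => (hz' n).2.1.symm
  have t3 : Tendsto (fun n => (χ.q (z' n), χ.q (z n))) 𝒰 (𝓝 (p, p)) := t2.prodMk_nhds t1
  have hρ0 : 0 < ρ := hcap.str.pos
  have hρk : 0 < ρ ^ (k + 1) := pow_pos hρ0 _
  have hκ : 0 < ‖fderiv ℂ A p (Pi.single 0 1)‖ / 2 / (L * ρ ^ (k + 1)) := by positivity
  have e1 := t3.eventually hlo
  have e1' := t3.eventually hlip
  have e2 : ∀ᶠ n in (𝒰 : Filter ℕ), dist (m n) m₀ < ε := hmt.eventually (ball_mem_nhds _ hε)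
  have e3 : ∀ᶠ n in (𝒰 : Filter ℕ), dist (m' n) m₀ < ε := hmt'.eventually (ball_mem_nhds _ hε)
  have e4 : ∀ᶠ n in (𝒰 : Filter ℕ), y n ∈ closedBall y₀ (3 * ε) := hyt.eventually (closedBall_mem_nhds _ hr0)
  obtain ⟨n, h0, hbd, hlb, h2, h3, h4⟩ := ((hsmall _ hκ).and (e1.and (e1'.and (e2.and (e3.and e4))))).exists
  obtain ⟨hz1, hz2, hz3⟩ := hz n
  obtain ⟨hz4, hz5, hz6⟩ := hz' n
  have hd3 : dist (m n) (m' n) ≤ ε₀ := (hd n).trans (min_le_left _ _)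
  have hvr := hc.rel (y n) (hy n) _ ⟨z n, hz n⟩ _ ⟨z' n, hz' n⟩ hd3 (α j)
  have hIe := II_eq hX G.tor G.lat hvr hcap hA h4 (by linarith : dist (m n) m₀ + ε ≤ 3 * ε) hz1 hz4 hz2 hz5
  obtain ⟨hU1, -, hms1⟩ := hcap.cap (y n) h4 (z n) hz1 hz3 (by rw [hz2]; linarith)
  obtain ⟨hU2, -, hms2⟩ := hcap.cap (y n) h4 (z' n) hz4 hz6 (by rw [hz5]; linarith)
  have htl : tl (χ.q (z' n) - χ.q (z n)) = 0 := by
    have h5 : (ρ : ℂ) • tl (χ.q (z' n)) = (ρ : ℂ) • tl (χ.q (z n)) := by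
      have h6 := hms2.trans hms1.symm
      unfold ms at h6
      exact add_left_cancel h6
    have hρ1 : (ρ : ℂ) ≠ 0 := by exact_mod_cast hρ0.ne'
    rw [tl_sub, smul_right_injective _ hρ1 h5, sub_self]
  have hLin : fderiv ℂ A p (χ.q (z' n) - χ.q (z n)) = (χ.q (z' n) - χ.q (z n)) 0 • fderiv ℂ A p (Pi.single 0 1) := lin_vert _ htl
  have hve := vert_eq htl
  have hnorm : ‖χ.q (z' n) - χ.q (z n)‖ = ‖(χ.q (z' n) - χ.q (z n)) 0‖ := by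
    conv_lhs => rw [hve]
    rw [norm_smul]
    have h5 : ‖(Pi.single 0 1 : Vd (k + 2))‖ = 1 := by
      rw [Pi.norm_single]
      exact norm_one
    rw [h5, mul_one]
  simp only at hbd hlb
  rw [jn_pr_sigma_q χ hz1 hU1, jn_pr_sigma_q χ hz4 hU2, hz2, hz5] at hlb
  -- the lower bound for the difference of the values of `A`
  have hlow : ‖fderiv ℂ A p (Pi.single 0 1)‖ / 2 * ‖χ.q (z' n) - χ.q (z n)‖ ≤ ‖A (χ.q (z' n)) - A (χ.q (z n))‖ := by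
    have h5 : fderiv ℂ A p (χ.q (z' n) - χ.q (z n)) =
        (A (χ.q (z' n)) - A (χ.q (z n))) - (A (χ.q (z' n)) - A (χ.q (z n)) - fderiv ℂ A p (χ.q (z' n) - χ.q (z n))) := by abel
    have h6 : ‖fderiv ℂ A p (χ.q (z' n) - χ.q (z n))‖ = ‖χ.q (z' n) - χ.q (z n)‖ * ‖fderiv ℂ A p (Pi.single 0 1)‖ := by
      rw [hLin, norm_smul, hnorm]
    have h7 := norm_sub_le (A (χ.q (z' n)) - A (χ.q (z n))) (A (χ.q (z' n)) - A (χ.q (z n)) - fderiv ℂ A p (χ.q (z' n) - χ.q (z n)))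
    rw [← h5, h6] at h7
    linarith
  have hI := hII n j
  rw [hIe, norm_div, norm_pow, Complex.norm_real, Real.norm_of_nonneg hρ0.le, div_lt_iff₀ hρk] at hI
  have hdpos : 0 < dist (m n) (m' n) := by
    rcases (dist_nonneg (x := m n) (y := m' n)).lt_or_eq with h | h
    · exact h
    · rw [← h, mul_zero, zero_mul] at hI
      exact absurd hI (not_lt.2 (norm_nonneg _))
  have h8 : ‖fderiv ℂ A p (Pi.single 0 1)‖ / 2 * (dist (m n) (m' n) / L) ≤ ‖A (χ.q (z' n)) - A (χ.q (z n))‖ := by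
    refine le_trans (mul_le_mul_of_nonneg_left ?_ (by positivity)) hlow
    rw [div_le_iff₀ hL, mul_comm]
    exact hlb
  have h9 : ‖fderiv ℂ A p (Pi.single 0 1)‖ / 2 * (dist (m n) (m' n) / L) =
      ‖fderiv ℂ A p (Pi.single 0 1)‖ / 2 / (L * ρ ^ (k + 1)) * dist (m n) (m' n) * ρ ^ (k + 1) := by
    field_simp
  rw [h9] at h8
  have h10 := lt_of_le_of_lt h8 hI
  have h11 : ‖fderiv ℂ A p (Pi.single 0 1)‖ / 2 / (L * ρ ^ (k + 1)) < 1 / ((n : ℝ) + 1) := by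
    have h12 := lt_of_mul_lt_mul_right h10 hρk.le
    exact lt_of_mul_lt_mul_right h12 hdpos.le
  linarith

end Pool.Agent.G3.A
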