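import Pool.Agent.G3.A.MD
import Pool.Agent.G3.A.P1
import Pool.Agent.G3.A.JB
import Pool.Agent.G3.A.JN
import Pool.Agent.G3.A.JFam
import Pool.Agent.G3.A.GeoC
import Pool.Agent.G3.A.LLim

/-!
# G3 A HP: two curves which are close in a half plane are equal

`κ = c₀ / 8`.  `hp_claim` by contradiction: `R n → ∞`, `ε n → 0`, `z n` near maximum over the core with `‖z n - c n‖ < R n - 2` and `dist ≠ 0`; recentre: `f n (z n + ·)`, `g n (z n + ·)` over
`y n + z n a`, moved by `Λ` (`hc_per`) into a bounded set, limits `y₀`, curves `f₀ = g₀` (`hc_closed`; dist ≤ `ε n` in the core of the half plane `HP ν (-2)`, which is the limit of the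
discs: use the circles `LC.thick` and `hc_eq`).  Put `d n = dist (f n 0) (g n 0)`, `e n z = exp (- 2 κ conj (z n - c n) z)`: `dist (f n z) (g n z) ‖e n z‖ ≤ 2 d n exp (κ ‖z‖²)` in the core, and by `md`
(circles `LC.thick`, `r ≤ 2 ρ ≤ 1 / 2`) `≤ C d n exp (2 κ ‖z‖² + 1)` at all `z` of depth `≥ - 1` over `Gd D δ`.  `LL` (file `LLim`) with `g z₀ n x = J z₀ n x * e n x / d n` (`jfam`), `E = {z | y₀ + z a ∈ Bad}`,
`Rg n = {x | y n + x a ∈ Gd D δ}`, `jb` for the bound: `→ 0` for every `j`; `jn` at `0`: `max_j ≥ c > 0`.  Contradiction.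
`hp_rigid`: `md` and `R → ∞` with discs in the half plane which touch its boundary: `dist (f z) (g z) ≤ 2 ε₀ exp (4 κ R - κ (R² - (R - t)²))` at core points of depth `t > 2`; `f = g` on a circle, `hc_eq`.
-/

set_option autoImplicit false

open Topology Filter Metric

namespace Pool.Agent.G3.A

open Pool.Agent.H36.BP (EN fs wd)
open Pool.Agent.H14.PP (IsCone CurveAt Tan)
open Pool.Agent.H62.EF (MN pr)
open Pool.Agent.AD (Vd Chart Charts IsGerm)
open Pool.Agent.TG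
open Pool.Agent.G3.C (Gc HP)

variable {N k : ℕ} {X : Set (EN N)} {Λ : AddSubgroup (Vd (k + 1))} {u : EN N → Vd (k + 1)} {D B Bad : Set (Vd (k + 1))} {a : Vd (k + 1)}

variable {J : ℕ} {α : Fin J → VForm X Λ u} {c₀ C₀ ρ δ : ℝ}

private theorem hp_co_aux (hL : LG Λ D Bad a) {y l : Vd (k + 1)} (hl : l ∈ Λ) (h : y ∈ Co D Bad δ ρ) : y + l ∈ Co D Bad δ ρ := by
  refine ⟨fun b hb => ?_, fun β hβ => ?_⟩
  · have h1 := h.1 (b + -l) (hL.D_inv b hb (-l) (Λ.neg_mem hl))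
    have e : y - (b + -l) = y + l - b := by abel
    rwa [e] at h1
  · have h1 := h.2 (β + -l) (hL.bad_inv β hβ (-l) (Λ.neg_mem hl))
    have e : y - (β + -l) = y + l - β := by abel
    rwa [e] at h1

private theorem hp_co (hL : LG Λ D Bad a) {y l : Vd (k + 1)} (hl : l ∈ Λ) : y + l ∈ Co D Bad δ ρ ↔ y ∈ Co D Bad δ ρ := by
  refine ⟨fun h => ?_, hp_co_aux hL hl⟩
  have h1 := hp_co_aux hL (Λ.neg_mem hl) h
  rwa [add_neg_cancel_right] at h1

private theorem hp_im {ν : ℂ} (hν : ‖ν‖ = 1) (z w : ℂ) : ((starRingEnd ℂ) ν * z).im - ‖z - w‖ ≤ ((starRingEnd ℂ) ν * w).im := by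
  have h1 : ((starRingEnd ℂ) ν * z).im - ((starRingEnd ℂ) ν * w).im = ((starRingEnd ℂ) ν * (z - w)).im := by
    rw [mul_sub, Complex.sub_im]
  have h2 := Complex.abs_im_le_norm ((starRingEnd ℂ) ν * (z - w))
  rw [norm_mul, RCLike.norm_conj, hν, one_mul] at h2
  have h3 := le_abs_self ((starRingEnd ℂ) ν * (z - w)).im
  linarith

private theorem hp_im_norm {ν : ℂ} (hν : ‖ν‖ = 1) (z : ℂ) : -‖z‖ ≤ ((starRingEnd ℂ) ν * z).im := by
  have h2 := Complex.abs_im_le_norm ((starRingEnd ℂ) ν * z)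
  rw [norm_mul, RCLike.norm_conj, hν, one_mul] at h2
  have h3 := neg_abs_le ((starRingEnd ℂ) ν * z).im
  linarith

private theorem hp_nsq (z c : ℂ) : ‖z - c‖ ^ 2 = ‖z‖ ^ 2 - 2 * ((starRingEnd ℂ) c * z).re + ‖c‖ ^ 2 := by
  rw [Complex.sq_norm, Complex.sq_norm, Complex.sq_norm, Complex.normSq_sub, mul_comm z]
  ring

/-- the limit of the discs is a half plane or the plane -/
private theorem hp_disc {c : ℕ → ℂ} {R : ℕ → ℝ} {𝒰 : Ultrafilter ℕ} (hR : Tendsto R (𝒰 : Filter ℕ) atTop) (hc : ∀ n, ‖c n‖ < R n - 2) :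
    ∃ ν : ℂ, ‖ν‖ = 1 ∧ ∀ M η : ℝ, 0 < η → ∀ᶠ n in (𝒰 : Filter ℕ), ∀ z : ℂ, ‖z‖ ≤ M → -2 + η < ((starRingEnd ℂ) ν * z).im → z ∈ ball (c n) (R n) := by
  classical
  obtain ⟨v, hv⟩ : ∃ v : ℕ → ℂ, v = fun n => if c n = 0 then 1 else (‖c n‖ : ℂ)⁻¹ * c n := ⟨_, rfl⟩
  have hv1 : ∀ n, ‖v n‖ = 1 := by
    intro n
    rw [hv]
    by_cases h : c n = 0
    · simp [h]
    · simp only [h, if_false]
      rw [norm_mul, norm_inv, Complex.norm_real, norm_norm, inv_mul_cancel₀ (norm_ne_zero_iff.2 h)]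
  have hcv : ∀ n, c n = (‖c n‖ : ℂ) * v n := by
    intro n
    rw [hv]
    by_cases h : c n = 0
    · simp [h]
    · simp only [h, if_false]
      have h1 : (‖c n‖ : ℂ) ≠ 0 := by exact_mod_cast norm_ne_zero_iff.2 h
      rw [← mul_assoc, mul_inv_cancel₀ h1, one_mul]
  obtain ⟨w, hw, hwt⟩ := (isCompact_sphere (0 : ℂ) 1).ultrafilter_le_nhds (𝒰.map v) (by
    rw [Ultrafilter.coe_map, le_principal_iff, mem_map]
    refine univ_mem' fun n => ?_
    simpa using hv1 n)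
  have hwt' : Tendsto v (𝒰 : Filter ℕ) (𝓝 w) := hwt
  have hw1 : ‖w‖ = 1 := by simpa using hw
  refine ⟨-Complex.I * w, by rw [norm_mul, norm_neg, Complex.norm_I, hw1, one_mul], fun M η hη => ?_⟩
  obtain ⟨M', hM'⟩ : ∃ M' : ℝ, M' = max M 0 := ⟨_, rfl⟩
  have hM0 : 0 ≤ M' := by rw [hM']; exact le_max_right _ _
  have hMM : M ≤ M' := by rw [hM']; exact le_max_left _ _
  have e1 : ∀ᶠ n in (𝒰 : Filter ℕ), dist (v n) w < η / (2 * (M' + 1)) := hwt'.eventually (ball_mem_nhds _ (by positivity))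
  have e2 : ∀ᶠ n in (𝒰 : Filter ℕ), M' + M' ^ 2 / η < R n := hR.eventually_gt_atTop _
  filter_upwards [e1, e2] with n h1 h2 z hz hd
  have hzM : ‖z‖ ≤ M' := hz.trans hMM
  have hd' : -2 + η < ((starRingEnd ℂ) w * z).re := by
    have e : ((starRingEnd ℂ) (-Complex.I * w) * z).im = ((starRingEnd ℂ) w * z).re := by
      rw [map_mul, map_neg, Complex.conj_I, neg_neg, mul_assoc, Complex.I_mul_im]
    rwa [e] at hd
  have hvz : -2 + η / 2 < ((starRingEnd ℂ) (v n) * z).re := by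
    have h3 : ((starRingEnd ℂ) w * z).re - ((starRingEnd ℂ) (v n) * z).re ≤ η / 2 := by
      have h4 : ((starRingEnd ℂ) w * z).re - ((starRingEnd ℂ) (v n) * z).re = ((starRingEnd ℂ) (w - v n) * z).re := by
        rw [map_sub, sub_mul, Complex.sub_re]
      rw [h4]
      refine (Complex.re_le_norm _).trans ?_
      rw [norm_mul, RCLike.norm_conj, ← dist_eq_norm, dist_comm]
      calc dist (v n) w * ‖z‖ ≤ η / (2 * (M' + 1)) * (M' + 1) := by
            refine mul_le_mul h1.le (by linarith) (norm_nonneg _) (by positivity)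
        _ = η / 2 := by field_simp
    linarith
  rw [mem_ball, dist_eq_norm]
  have hs0 : 0 ≤ ‖c n‖ := norm_nonneg _
  have hRc := hc n
  rcases le_or_gt (M' ^ 2 / η) ‖c n‖ with hs | hs
  · have h3 : M' ^ 2 ≤ η * ‖c n‖ := by
      rw [div_le_iff₀ hη] at hs
      linarith
    have h4 : ((starRingEnd ℂ) (c n) * z).re = ‖c n‖ * ((starRingEnd ℂ) (v n) * z).re := by
      conv_lhs => rw [hcv n]
      rw [map_mul, Complex.conj_ofReal, mul_assoc, Complex.re_ofReal_mul]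
    have h5 := hp_nsq z (c n)
    rw [h4] at h5
    have h6 : ‖z‖ ^ 2 ≤ M' ^ 2 := by gcongr
    have h7 : ‖c n‖ * (-2 + η / 2) ≤ ‖c n‖ * ((starRingEnd ℂ) (v n) * z).re := mul_le_mul_of_nonneg_left hvz.le hs0
    have h8 : ‖z - c n‖ ^ 2 < R n ^ 2 := by nlinarith
    exact lt_of_pow_lt_pow_left₀ 2 (by linarith) h8
  · have h3 := norm_sub_le z (c n)
    linarith

/-- the core of the claim: the contradiction after recentering -/
private theorem hp_core (S : DA X Λ u D B Bad a α c₀ C₀ ρ δ) {y : ℕ → Vd (k + 1)} {f g : ℕ → ℂ → MN N} {c : ℕ → ℂ} {R ε : ℕ → ℝ} {Q : ℝ}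
    (hy : ∀ n, ‖y n‖ ≤ Q) (hf : ∀ n, f n ∈ Hc X Λ u a (y n)) (hg : ∀ n, g n ∈ Hc X Λ u a (y n)) (hR : Tendsto R atTop atTop) (hε : Tendsto ε atTop (𝓝 0))
    (hc : ∀ n, ‖c n‖ < R n - 2) (h1 : ∀ n, ∀ z ∈ ball (c n) (R n), y n + z • a ∈ Co D Bad δ ρ → dist (f n z) (g n z) ≤ ε n)
    (h2 : ∀ n, y n ∈ Co D Bad δ ρ) (h3 : ∀ n, ∀ z ∈ ball (c n) (R n), y n + z • a ∈ Co D Bad δ ρ →
      dist (f n z) (g n z) * Real.exp (c₀ / 8 * (R n ^ 2 - ‖z - c n‖ ^ 2)) ≤ 2 * (dist (f n 0) (g n 0) * Real.exp (c₀ / 8 * (R n ^ 2 - ‖c n‖ ^ 2))))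
    (h4 : ∀ n, f n 0 ≠ g n 0) : False := by
  obtain ⟨𝒰, h𝒰⟩ : ∃ 𝒰 : Ultrafilter ℕ, (𝒰 : Filter ℕ) ≤ atTop := ⟨hyperfilter ℕ, Nat.hyperfilter_le_atTop⟩
  have hX := S.geo.cone
  have hδ := S.lc.δ_pos
  have hρ := S.lc.ρ_pos
  have hρ4 := S.lc.ρ_le
  have hδρ := S.lc.δ_le
  have ha := S.lc.norm
  have hc₀ := S.c_pos
  have hR' : Tendsto R (𝒰 : Filter ℕ) atTop := hR.mono_left h𝒰
  have hε' : Tendsto ε (𝒰 : Filter ℕ) (𝓝 0) := hε.mono_left h𝒰
  obtain ⟨y₀, -, hy₀⟩ := (isCompact_closedBall (0 : Vd (k + 1)) Q).ultrafilter_le_nhds (𝒰.map y) (by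
    rw [Ultrafilter.coe_map, le_principal_iff, mem_map]
    refine univ_mem' fun n => ?_
    simpa using hy n)
  have hyt : Tendsto y (𝒰 : Filter ℕ) (𝓝 y₀) := hy₀
  have hyn : ∀ t : ℝ, 0 < t → ∀ᶠ n in (𝒰 : Filter ℕ), ‖y n - y₀‖ ≤ t := by
    intro t ht
    filter_upwards [hyt.eventually (ball_mem_nhds y₀ ht)] with n hn
    rw [← dist_eq_norm]
    exact (mem_ball.1 hn).le
  have hna : ∀ z : ℂ, ‖z • a‖ = ‖z‖ := fun z => by rw [norm_smul, ha, mul_one]
  obtain ⟨ν, hν, hball⟩ := hp_disc hR' hc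
  obtain ⟨f₀, hf₀, hff⟩ := hc_closed S.geo S.lg S.nl hyt (Eventually.of_forall hf)
  obtain ⟨g₀, hg₀, hgg⟩ := hc_closed S.geo S.lg S.nl hyt (Eventually.of_forall hg)
  -- the limits are equal
  have hfg : f₀ = g₀ := by
    obtain ⟨r, hr0, hr, hth⟩ := S.lc.thick y₀
    have key : ∀ z : ℂ, |‖z‖ - r| ≤ δ → f₀ z = g₀ z := by
      intro z hz
      have hz1 : ‖z‖ ≤ 1 := by
        rw [abs_le] at hz
        linarith [hz.2]
      have hzlt : ‖z‖ < 1 := by
        rw [abs_le] at hz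
        linarith [hz.2]
      have hC₀ : y₀ + z • a ∈ Co D Bad δ ρ := hth y₀ (by rw [sub_self, norm_zero]; exact hδ.le) z hz
      have hD₀ : y₀ + z • a ∉ D := gd_notMem (by linarith) hC₀.1
      have t1 := hff z hD₀ (fun _ => z) tendsto_const_nhds
      have t2 := hgg z hD₀ (fun _ => z) tendsto_const_nhds
      have t3 : Tendsto (fun n => dist (f n z) (g n z)) (𝒰 : Filter ℕ) (𝓝 (dist (f₀ z) (g₀ z))) := t1.dist t2
      have hle : dist (f₀ z) (g₀ z) ≤ 0 := by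
        refine le_of_tendsto_of_tendsto t3 hε' ?_
        filter_upwards [hball 1 1 one_pos, hyn δ hδ] with n a1 a2
        have h5 := hp_im_norm hν z
        exact h1 n z (a1 z hz1 (by linarith)) (hth (y n) a2 z hz)
      exact dist_le_zero.1 hle
    refine hc_eq hX hf₀ hg₀ (z₀ := (r : ℂ)) ?_
    have hev : ∀ᶠ z in 𝓝 (r : ℂ), f₀ z = g₀ z := by
      have h5 : ContinuousAt (fun z : ℂ => |‖z‖ - r|) (r : ℂ) := by fun_prop
      have h6 : |‖(r : ℂ)‖ - r| < δ := by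
        rw [Complex.norm_real, Real.norm_eq_abs, abs_of_pos hr0, sub_self, abs_zero]
        exact hδ
      filter_upwards [h5.eventually_lt_const h6] with z hz
      exact key z hz.le
    exact (hev.filter_mono nhdsWithin_le_nhds).frequently
  rw [← hfg] at hgg
  -- the maximum principle
  obtain ⟨Cm, hCm, hmd⟩ := md (Λ := Λ) (u := u) hX S.nl hδ
  obtain ⟨d, hd⟩ : ∃ d : ℕ → ℝ, d = fun n => dist (f n 0) (g n 0) := ⟨_, rfl⟩
  have hd0 : ∀ n, 0 < d n := fun n => by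
    rw [hd]
    exact dist_pos.2 (h4 n)
  obtain ⟨e, he⟩ : ∃ e : ℕ → ℂ → ℂ, e = fun n z => Complex.exp (((c₀ / 4 : ℝ) : ℂ) * ((starRingEnd ℂ) (c n) * z)) := ⟨_, rfl⟩
  have hed : ∀ n, Differentiable ℂ (e n) := by
    intro n
    rw [he]
    fun_prop
  have hen : ∀ n z, ‖e n z‖ = Real.exp (c₀ / 4 * ((starRingEnd ℂ) (c n) * z).re) := by
    intro n z
    rw [he]
    simp only
    rw [Complex.norm_exp, Complex.re_ofReal_mul]
  have hw : ∀ n, ∀ z ∈ ball (c n) (R n), y n + z • a ∈ Co D Bad δ ρ → dist (f n z) (g n z) * ‖e n z‖ ≤ 2 * d n * Real.exp (c₀ / 8 * ‖z‖ ^ 2) := by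
    intro n z hz hzC
    have h5 := h3 n z hz hzC
    rw [hp_nsq z (c n)] at h5
    have h6 : Real.exp (c₀ / 8 * (R n ^ 2 - (‖z‖ ^ 2 - 2 * ((starRingEnd ℂ) (c n) * z).re + ‖c n‖ ^ 2))) =
        Real.exp (c₀ / 4 * ((starRingEnd ℂ) (c n) * z).re) * Real.exp (c₀ / 8 * (R n ^ 2 - ‖c n‖ ^ 2)) * (Real.exp (c₀ / 8 * ‖z‖ ^ 2))⁻¹ := by
      rw [← Real.exp_neg, ← Real.exp_add, ← Real.exp_add]
      congr 1
      ring
    rw [h6, ← hen n z] at h5
    have hp1 : 0 < Real.exp (c₀ / 8 * (R n ^ 2 - ‖c n‖ ^ 2)) := Real.exp_pos _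
    have hp2 : 0 < Real.exp (c₀ / 8 * ‖z‖ ^ 2) := Real.exp_pos _
    have h7 : dist (f n z) (g n z) * ‖e n z‖ * (Real.exp (c₀ / 8 * ‖z‖ ^ 2))⁻¹ ≤ 2 * d n := by
      refine le_of_mul_le_mul_right ?_ hp1
      calc dist (f n z) (g n z) * ‖e n z‖ * (Real.exp (c₀ / 8 * ‖z‖ ^ 2))⁻¹ * Real.exp (c₀ / 8 * (R n ^ 2 - ‖c n‖ ^ 2))
          = dist (f n z) (g n z) * (‖e n z‖ * Real.exp (c₀ / 8 * (R n ^ 2 - ‖c n‖ ^ 2)) * (Real.exp (c₀ / 8 * ‖z‖ ^ 2))⁻¹) := by ring
        _ ≤ _ := h5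
        _ = 2 * d n * Real.exp (c₀ / 8 * (R n ^ 2 - ‖c n‖ ^ 2)) := by rw [hd]; ring
    rw [← div_eq_mul_inv, div_le_iff₀ hp2] at h7
    exact h7
  -- bounds at all points over `Gd D δ`
  have hbd : ∀ M : ℝ, ∀ᶠ n in (𝒰 : Filter ℕ), ∀ x : ℂ, ‖x‖ ≤ M → -(5 / 4) < ((starRingEnd ℂ) ν * x).im → y n + x • a ∈ Gd D δ →
      dist (f n x) (g n x) ≤ Cm * ε n ∧ dist (f n x) (g n x) * ‖e n x‖ ≤ Cm * (2 * d n * Real.exp (c₀ / 8 * (‖x‖ + 1 / 2) ^ 2)) := by
    intro M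
    filter_upwards [hball (M + 1 / 2) (1 / 4) (by norm_num)] with n hn x hx hdx hxG
    obtain ⟨r, hr0, hr, hth⟩ := S.lc.thick (y n + x • a)
    have hr1 : r ≤ 1 / 2 := by linarith
    have hcirc : ∀ z : ℂ, ‖z - x‖ = r → z ∈ ball (c n) (R n) ∧ y n + z • a ∈ Co D Bad δ ρ ∧ ‖z‖ ≤ ‖x‖ + 1 / 2 := by
      intro z hz
      have h5 : ‖z‖ ≤ ‖x‖ + 1 / 2 := by
        have := norm_le_norm_add_norm_sub x z
        rw [norm_sub_rev, hz] at this
        linarith
      have h6 := hp_im hν x z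
      rw [norm_sub_rev, hz] at h6
      refine ⟨hn z (by linarith) (by linarith), ?_, h5⟩
      have h7 := hth (y n + x • a) (by rw [sub_self, norm_zero]; exact hδ.le) (z - x) (by rw [hz, sub_self, abs_zero]; exact hδ.le)
      have e1 : y n + x • a + (z - x) • a = y n + z • a := by
        rw [sub_smul]
        abel
      rwa [e1] at h7
    have hxm : x ∈ closedBall x r := mem_closedBall_self hr0.le
    constructor
    · have h5 := hmd (y n) (y n) (f n) (hf n) (g n) (hg n) x r hr0 (by linarith) (fun _ => 1) (differentiableOn_const _) (ε n) (fun z hz => by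
        obtain ⟨b1, b2, -⟩ := hcirc z hz
        rw [norm_one, mul_one]
        exact h1 n z b1 b2) x hxm hxG hxG
      rwa [norm_one, mul_one] at h5
    · refine hmd (y n) (y n) (f n) (hf n) (g n) (hg n) x r hr0 (by linarith) (e n) (hed n).differentiableOn _ (fun z hz => ?_) x hxm hxG hxG
      obtain ⟨b1, b2, b3⟩ := hcirc z hz
      refine (hw n z b1 b2).trans ?_
      have h5 : 0 ≤ 2 * d n := by linarith [hd0 n]
      have h6 : ‖z‖ ^ 2 ≤ (‖x‖ + 1 / 2) ^ 2 := by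
        have := norm_nonneg z
        gcongr
      refine mul_le_mul_of_nonneg_left (Real.exp_le_exp.2 ?_) h5
      exact mul_le_mul_of_nonneg_left h6 (by positivity)
  obtain ⟨ε', ε₀, -, -, hcst⟩ := exists_cst S.geo hδ one_pos
  -- `y₀` is in the core
  have hCo₀ : ∀ β ∈ Bad, ρ / 2 ≤ ‖y₀ - β‖ := by
    intro β hβ
    have t1 : Tendsto (fun n => ‖y n - β‖) (𝒰 : Filter ℕ) (𝓝 ‖y₀ - β‖) := (hyt.sub_const β).norm
    exact ge_of_tendsto t1 (Eventually.of_forall fun n => (h2 n).2 β hβ)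
  have hEn : ∀ z : ℂ, y₀ + z • a ∈ Bad → ρ / 2 ≤ ‖z‖ := by
    intro z hz
    have h5 := hCo₀ _ hz
    have e1 : y₀ - (y₀ + z • a) = -(z • a) := by abel
    rw [e1, norm_neg, hna] at h5
    exact h5
  have h0E : y₀ + (0 : ℂ) • a ∉ Bad := by
    intro h
    have := hEn 0 h
    rw [norm_zero] at this
    linarith
  obtain ⟨ω, W, hω, hW⟩ := S.lc.strip y₀
  have hGδ : ∀ n, y n ∈ Gd D δ := fun n => gd_mono (by linarith) (h2 n).1
  -- the limit lemma for one form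
  have hlim : ∀ j, ∃ Jj : ℕ → ℂ, Tendsto (fun n => Jj n / (d n : ℂ)) (𝒰 : Filter ℕ) (𝓝 0) ∧
      ∀ᶠ n in (𝒰 : Filter ℕ), Jj n = JJ (α j) (y n) (f n 0) (g n 0) := by
    intro j
    obtain ⟨r, J', hJ⟩ := jfam S.geo S.lg S.cr hyt (Eventually.of_forall hf) (Eventually.of_forall hg) hf₀ hff hgg (α j)
    obtain ⟨Cj, hCj, hjb⟩ := jb S.geo (S.dec j) S.C_pos hcst
    obtain ⟨G, hG⟩ : ∃ G : ℂ → ℕ → ℂ → ℂ, G = fun z₀ n x => J' z₀ n x * e n x / (d n : ℂ) := ⟨_, rfl⟩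
    have hdne : ∀ n, (d n : ℂ) ≠ 0 := fun n => by exact_mod_cast (hd0 n).ne'
    have hLL : Tendsto (fun n => G 0 n 0) (𝒰 : Filter ℕ) (𝓝 0) := by
      refine LL (𝒰 := 𝒰) (ω := ω) (ν := ν) hω hν (E := {z | y₀ + z • a ∈ Bad}) (W := W) (ρ := ρ) (C := Cj * (Cm * 2) * Real.exp (c₀ * Q ^ 2 + c₀ / 16)) (c := c₀ / 4)
        (fun z hz => hW z hz) hρ hρ4 ?_ (fun z hz => hEn z hz) (by positivity) (g := G) (r := fun z₀ => min (r z₀) (1 / 4))
        (Rg := fun n => {x | y n + x • a ∈ Gd D δ}) ?_ ?_ ?_ ?_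
      · intro z hz z' hz' hne
        have h5 := S.lc.sep _ hz _ hz' (by
          intro h
          apply hne
          have h6 : (z - z') • a = 0 := by
            rw [sub_smul, sub_eq_zero]
            exact add_left_cancel h
          have h7 : ‖z - z'‖ = 0 := by rw [← hna, h6, norm_zero]
          exact sub_eq_zero.1 (norm_eq_zero.1 h7))
        have e1 : y₀ + z • a - (y₀ + z' • a) = (z - z') • a := by
          rw [sub_smul]
          abel
        rw [e1, hna] at h5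
        exact h5
      · intro z₀ _ hz₀
        obtain ⟨b1, b2, -, -⟩ := hJ z₀ hz₀
        refine ⟨lt_min b1 (by norm_num), ?_⟩
        filter_upwards [b2] with n hn
        rw [hG]
        exact ((hn.mono (ball_subset_ball (min_le_left _ _))).mul (hed n).differentiableOn).div_const _
      · intro z₀ _ hz₀ z₁ _ hz₁ η hη
        obtain ⟨-, -, b3, -⟩ := hJ z₀ hz₀
        filter_upwards [b3 z₁ hz₁] with n hn x hx
        have h5 : J' z₀ n x = J' z₁ n x :=
          hn x ⟨ball_subset_ball (min_le_left _ _) hx.1, ball_subset_ball (min_le_left _ _) hx.2⟩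
        rw [hG]
        simp only
        rw [h5, sub_self, norm_zero]
        exact hη.le
      · intro z₀ hz₀H hz₀
        obtain ⟨-, -, -, b4⟩ := hJ z₀ hz₀
        have hz₀H' : -1 < ((starRingEnd ℂ) ν * z₀).im := hz₀H
        have hεe : ∀ᶠ n in (𝒰 : Filter ℕ), Cm * ε n < ε₀ := by
          have t1 : Tendsto (fun n => Cm * ε n) (𝒰 : Filter ℕ) (𝓝 (Cm * 0)) := hε'.const_mul Cm
          rw [mul_zero] at t1
          exact t1.eventually_lt_const hcst.ε₀_pos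
        filter_upwards [b4 δ hδ, hbd (‖z₀‖ + 1 / 4), hεe] with n a1 a2 a3 x hx hxR
        have hxr : x ∈ ball z₀ (r z₀) := ball_subset_ball (min_le_left _ _) hx
        have hx4 : ‖x - z₀‖ < 1 / 4 := by
          rw [← dist_eq_norm]
          exact lt_of_lt_of_le hx (min_le_right _ _)
        have hxn : ‖x‖ ≤ ‖z₀‖ + 1 / 4 := by
          have := norm_le_norm_add_norm_sub z₀ x
          rw [norm_sub_rev] at this
          linarith
        have hxd : -(5 / 4) < ((starRingEnd ℂ) ν * x).im := by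
          have := hp_im hν z₀ x
          rw [norm_sub_rev] at this
          linarith
        obtain ⟨a4, a5⟩ := a2 x hxn hxd hxR
        have a6 : dist (f n x) (g n x) ≤ ε₀ := by linarith
        have a7 := hjb _ hxR _ (hc_mem (hf n) x) _ (hc_mem (hg n) x) a6
        rw [← jj_eq_II hX S.geo.tor S.geo.lat hcst hxR (hc_mem (hf n) x) (hc_mem (hg n) x) a6, ← a1 x hxr hxR] at a7
        rw [hG]
        simp only
        rw [norm_div, norm_mul, Complex.norm_real, Real.norm_eq_abs, abs_of_pos (hd0 n), div_le_iff₀ (hd0 n)]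
        have a8 : ‖x‖ ^ 2 ≤ 2 * ‖y n + x • a‖ ^ 2 + 2 * Q ^ 2 := by
          have b5 : ‖x‖ ≤ ‖y n + x • a‖ + Q := by
            rw [← hna x]
            have e1 : x • a = (y n + x • a) - y n := by abel
            calc ‖x • a‖ = ‖(y n + x • a) - y n‖ := by rw [← e1]
              _ ≤ ‖y n + x • a‖ + ‖y n‖ := norm_sub_le _ _
              _ ≤ _ := by linarith [hy n]
          have b6 : ‖x‖ ^ 2 ≤ (‖y n + x • a‖ + Q) ^ 2 := by
            have := norm_nonneg x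
            gcongr
          nlinarith [sq_nonneg (‖y n + x • a‖ - Q)]
        have a9 : (‖x‖ + 1 / 2) ^ 2 ≤ 2 * ‖x‖ ^ 2 + 1 / 2 := by nlinarith [sq_nonneg (‖x‖ - 1 / 2)]
        calc ‖J' z₀ n x‖ * ‖e n x‖ ≤ Cj * Real.exp (-(c₀ * ‖y n + x • a‖ ^ 2)) * dist (f n x) (g n x) * ‖e n x‖ :=
              mul_le_mul_of_nonneg_right a7 (norm_nonneg _)
          _ = Cj * Real.exp (-(c₀ * ‖y n + x • a‖ ^ 2)) * (dist (f n x) (g n x) * ‖e n x‖) := by ring
          _ ≤ Cj * Real.exp (-(c₀ * ‖y n + x • a‖ ^ 2)) * (Cm * (2 * d n * Real.exp (c₀ / 8 * (‖x‖ + 1 / 2) ^ 2))) :=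
              mul_le_mul_of_nonneg_left a5 (by positivity)
          _ = Cj * (Cm * 2) * (Real.exp (-(c₀ * ‖y n + x • a‖ ^ 2)) * Real.exp (c₀ / 8 * (‖x‖ + 1 / 2) ^ 2)) * d n := by ring
          _ ≤ Cj * (Cm * 2) * (Real.exp (c₀ * Q ^ 2 + c₀ / 16) * Real.exp (-(c₀ / 4 * ‖x‖ ^ 2))) * d n := by
              have b7 : Real.exp (-(c₀ * ‖y n + x • a‖ ^ 2)) * Real.exp (c₀ / 8 * (‖x‖ + 1 / 2) ^ 2) ≤
                  Real.exp (c₀ * Q ^ 2 + c₀ / 16) * Real.exp (-(c₀ / 4 * ‖x‖ ^ 2)) := by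
                rw [← Real.exp_add, ← Real.exp_add]
                refine Real.exp_le_exp.2 ?_
                nlinarith [mul_le_mul_of_nonneg_left a8 hc₀.le, mul_le_mul_of_nonneg_left a9 hc₀.le]
              have b8 : 0 ≤ Cj * (Cm * 2) := by positivity
              exact mul_le_mul_of_nonneg_right (mul_le_mul_of_nonneg_left b7 b8) (hd0 n).le
          _ = Cj * (Cm * 2) * Real.exp (c₀ * Q ^ 2 + c₀ / 16) * Real.exp (-(c₀ / 4 * ‖x‖ ^ 2)) * d n := by ring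
      · intro z₀ _ hz₀E
        by_cases hex : ∃ z ∈ {z | y₀ + z • a ∈ Bad}, ‖z₀ - z‖ ≤ ρ
        · obtain ⟨z, hz, hzρ⟩ := hex
          have h5 := S.lc.ann _ hz (z₀ - z) (hz₀E z hz).le hzρ
          have e1 : y₀ + z • a + (z₀ - z) • a = y₀ + z₀ • a := by
            rw [sub_smul]
            abel
          rw [e1] at h5
          refine ⟨δ / 2, by positivity, Or.inl ?_⟩
          filter_upwards [hyn (δ / 2) (by positivity)] with n hn x hx
          rw [mem_ball, dist_eq_norm] at hx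
          have h6 : ‖y n + x • a - (y₀ + z₀ • a)‖ ≤ δ := by
            have e2 : y n + x • a - (y₀ + z₀ • a) = (y n - y₀) + (x - z₀) • a := by
              rw [sub_smul]
              abel
            rw [e2]
            refine (norm_add_le _ _).trans ?_
            rw [hna]
            linarith
          have h7 := gd_near h5 h6
          have e3 : 2 * δ - δ = δ := by ring
          rw [e3] at h7
          exact h7
        · push Not at hex
          obtain ⟨s, hs0, hsρ, hcirc⟩ := S.lc.circ (y₀ + z₀ • a)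
          refine ⟨min (δ / 2) s, lt_min (by positivity) hs0, Or.inr ⟨s, hs0, by linarith, fun z hz => ?_, ?_⟩⟩
          · have := hex z hz
            linarith
          · filter_upwards [hyn (δ / 2) (by positivity)] with n hn x hx
            have hx1 : |‖x - z₀‖ - s| < δ / 2 := lt_of_lt_of_le hx (min_le_left _ _)
            have hx2 : |‖x - z₀‖ - s| < s := lt_of_lt_of_le hx (min_le_right _ _)
            have hxz : 0 < ‖x - z₀‖ := by
              rw [abs_lt] at hx2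
              linarith [hx2.1]
            obtain ⟨z', hz'⟩ : ∃ z' : ℂ, z' = ((s / ‖x - z₀‖ : ℝ) : ℂ) * (x - z₀) := ⟨_, rfl⟩
            have hz'n : ‖z'‖ = s := by
              rw [hz', norm_mul, Complex.norm_real, Real.norm_eq_abs, abs_of_pos (by positivity)]
              field_simp
            have hz'd : ‖x - z₀ - z'‖ = |‖x - z₀‖ - s| := by
              have e4 : x - z₀ - z' = ((1 - s / ‖x - z₀‖ : ℝ) : ℂ) * (x - z₀) := by
                rw [hz']
                push_cast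
                ring
              rw [e4, norm_mul, Complex.norm_real, Real.norm_eq_abs]
              nth_rewrite 2 [← abs_of_pos hxz]
              rw [← abs_mul]
              congr 1
              field_simp
            have h5 := hcirc z' hz'n
            have h6 : ‖y n + x • a - (y₀ + z₀ • a + z' • a)‖ ≤ δ := by
              have e2 : y n + x • a - (y₀ + z₀ • a + z' • a) = (y n - y₀) + (x - z₀ - z') • a := by
                rw [sub_smul, sub_smul]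
                abel
              rw [e2]
              refine (norm_add_le _ _).trans ?_
              rw [hna, hz'd]
              linarith
            have h7 := gd_near h5 h6
            have e3 : 2 * δ - δ = δ := by ring
            rw [e3] at h7
            exact h7
    refine ⟨fun n => J' 0 n 0, ?_, ?_⟩
    · refine hLL.congr fun n => ?_
      rw [hG, he]
      simp
    · obtain ⟨b1, -, -, b4⟩ := hJ 0 h0E
      filter_upwards [b4 δ hδ] with n hn
      have h5 := hn 0 (mem_ball_self b1) (by rw [zero_smul, add_zero]; exact hGδ n)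
      rwa [zero_smul, add_zero] at h5
  choose Jj hJ1 hJ2 using hlim
  obtain ⟨ε₁, c₁, hε₁, -, hc₁, hjn⟩ := jn S.geo S.sep hcst Q
  have hd1 : ∀ n, d n ≤ ε n := by
    intro n
    have h5 := h1 n 0 (by
      rw [mem_ball, dist_eq_norm, zero_sub, norm_neg]
      linarith [hc n]) (by rw [zero_smul, add_zero]; exact h2 n)
    rw [hd]
    exact h5
  have e1 : ∀ᶠ n in (𝒰 : Filter ℕ), ∀ j, ‖Jj j n / (d n : ℂ)‖ < c₁ := by
    rw [eventually_all]
    intro j
    have t1 := (hJ1 j).norm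
    rw [norm_zero] at t1
    exact t1.eventually_lt_const hc₁
  have e2 : ∀ᶠ n in (𝒰 : Filter ℕ), ∀ j, Jj j n = JJ (α j) (y n) (f n 0) (g n 0) := by
    rw [eventually_all]
    exact hJ2
  have e3 : ∀ᶠ n in (𝒰 : Filter ℕ), ε n < min ε₁ ε₀ := hε'.eventually_lt_const (lt_min hε₁ hcst.ε₀_pos)
  obtain ⟨n, a1, a2, a3⟩ := (e1.and (e2.and e3)).exists
  rw [lt_min_iff] at a3
  have m1 : f n 0 ∈ Fb X Λ u (y n) := by
    have := hc_mem (hf n) 0
    rwa [zero_smul, add_zero] at this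
  have m2 : g n 0 ∈ Fb X Λ u (y n) := by
    have := hc_mem (hg n) 0
    rwa [zero_smul, add_zero] at this
  have hdn : dist (f n 0) (g n 0) = d n := by rw [hd]
  obtain ⟨j, hj⟩ := hjn (y n) (hGδ n) (hy n) _ m1 _ m2 (by rw [hdn]; linarith [hd1 n, a3.1])
  rw [hdn, ← jj_eq_II hX S.geo.tor S.geo.lat hcst (hGδ n) m1 m2 (by rw [hdn]; linarith [hd1 n, a3.2]), ← a2 j] at hj
  have h5 := a1 j
  rw [norm_div, Complex.norm_real, Real.norm_eq_abs, abs_of_pos (hd0 n), div_lt_iff₀ (hd0 n)] at h5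
  linarith

theorem hp_claim (S : DA X Λ u D B Bad a α c₀ C₀ ρ δ) : ∃ R₀ ε₀ : ℝ, 0 < R₀ ∧ 0 < ε₀ ∧ ∀ y : Vd (k + 1), ∀ f ∈ Hc X Λ u a y, ∀ g ∈ Hc X Λ u a y, ∀ (c : ℂ) (R : ℝ), R₀ ≤ R →
    (∀ z ∈ ball c R, y + z • a ∈ Co D Bad δ ρ → dist (f z) (g z) ≤ ε₀) → ∀ z₁ : ℂ, ‖z₁ - c‖ < R - 2 → y + z₁ • a ∈ Co D Bad δ ρ →
    (∀ z ∈ ball c R, y + z • a ∈ Co D Bad δ ρ → dist (f z) (g z) * Real.exp (c₀ / 8 * (R ^ 2 - ‖z - c‖ ^ 2)) ≤ 2 * (dist (f z₁) (g z₁) * Real.exp (c₀ / 8 * (R ^ 2 - ‖z₁ - c‖ ^ 2)))) →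
    f z₁ = g z₁ := by
  by_contra hcon
  push Not at hcon
  have hcon' : ∀ n : ℕ, ∃ y : Vd (k + 1), ∃ f ∈ Hc X Λ u a y, ∃ g ∈ Hc X Λ u a y, ∃ (c : ℂ) (R : ℝ), (n : ℝ) + 1 ≤ R ∧
      (∀ z ∈ ball c R, y + z • a ∈ Co D Bad δ ρ → dist (f z) (g z) ≤ 1 / ((n : ℝ) + 1)) ∧ ∃ z₁ : ℂ, ‖z₁ - c‖ < R - 2 ∧ y + z₁ • a ∈ Co D Bad δ ρ ∧
      (∀ z ∈ ball c R, y + z • a ∈ Co D Bad δ ρ → dist (f z) (g z) * Real.exp (c₀ / 8 * (R ^ 2 - ‖z - c‖ ^ 2)) ≤
        2 * (dist (f z₁) (g z₁) * Real.exp (c₀ / 8 * (R ^ 2 - ‖z₁ - c‖ ^ 2)))) ∧ f z₁ ≠ g z₁ := by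
    intro n
    obtain ⟨y, f, hf, g, hg, c, R, hR, h1, z₁, h2, h3, h4, h5⟩ := hcon ((n : ℝ) + 1) (1 / ((n : ℝ) + 1)) (by positivity) (by positivity)
    exact ⟨y, f, hf, g, hg, c, R, hR, h1, z₁, h2, h3, h4, h5⟩
  choose y f hf g hg c R hR h1 z₁ h2 h3 h4 h5 using hcon'
  obtain ⟨Q, hQ, hcpt⟩ := S.lg.lat.cpt
  choose l hl hyl using fun n => hcpt (y n + z₁ n • a)
  have hco : ∀ (n : ℕ) (z : ℂ), y n + z₁ n • a - l n + z • a ∈ Co D Bad δ ρ → y n + (z₁ n + z) • a ∈ Co D Bad δ ρ := by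
    intro n z hz
    have h6 := (hp_co S.lg (hl n)).2 hz
    have e : y n + z₁ n • a - l n + z • a + l n = y n + (z₁ n + z) • a := by
      rw [add_smul]
      abel
    rwa [e] at h6
  have hHc : ∀ (n : ℕ) (F : ℂ → MN N), F ∈ Hc X Λ u a (y n) → (fun z => F (z₁ n + z)) ∈ Hc X Λ u a (y n + z₁ n • a - l n) := by
    intro n F hF
    have h6 := hc_add hF (z₁ n)
    have h7 := hc_per (X := X) (u := u) (a := a) (y := y n + z₁ n • a) (Λ.neg_mem (hl n))
    rw [← sub_eq_add_neg] at h7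
    rw [h7]
    exact h6
  have hbl : ∀ (n : ℕ) (z : ℂ), z ∈ ball (c n - z₁ n) (R n) → z₁ n + z ∈ ball (c n) (R n) := by
    intro n z hz
    rw [mem_ball, dist_eq_norm] at hz ⊢
    have e : z₁ n + z - c n = z - (c n - z₁ n) := by ring
    rwa [e]
  refine hp_core S (y := fun n => y n + z₁ n • a - l n) (f := fun n z => f n (z₁ n + z)) (g := fun n z => g n (z₁ n + z)) (c := fun n => c n - z₁ n) (R := R)
    (ε := fun n : ℕ => 1 / ((n : ℝ) + 1)) (Q := Q) hyl (fun n => hHc n _ (hf n)) (fun n => hHc n _ (hg n)) ?_ tendsto_one_div_add_atTop_nhds_zero_nat ?_ ?_ ?_ ?_ ?_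
  · refine tendsto_atTop_mono (fun n => ?_) tendsto_natCast_atTop_atTop
    linarith [hR n]
  · intro n
    rw [norm_sub_rev]
    exact h2 n
  · intro n z hz hzC
    exact h1 n _ (hbl n z hz) (hco n z hzC)
  · intro n
    have h6 := (hp_co (δ := δ) (ρ := ρ) S.lg (Λ.neg_mem (hl n))).2 (h3 n)
    rwa [← sub_eq_add_neg] at h6
  · intro n z hz hzC
    have h6 := h4 n _ (hbl n z hz) (hco n z hzC)
    have e1 : z₁ n + z - c n = z - (c n - z₁ n) := by ring
    rw [e1] at h6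
    have e2 : ‖z₁ n - c n‖ = ‖c n - z₁ n‖ := norm_sub_rev _ _
    rw [e2] at h6
    simp only [add_zero]
    exact h6
  · intro n
    simp only [add_zero]
    exact h5 n

theorem hp_rigid (S : DA X Λ u D B Bad a α c₀ C₀ ρ δ) : ∃ ε₀ : ℝ, 0 < ε₀ ∧ ∀ y : Vd (k + 1), ∀ f ∈ Hc X Λ u a y, ∀ g ∈ Hc X Λ u a y, ∀ (ω : ℂ) (h : ℝ), ‖ω‖ = 1 →
    (∀ z ∈ HP ω h, y + z • a ∈ Co D Bad δ ρ → dist (f z) (g z) ≤ ε₀) → f = g := by
  obtain ⟨R₀, ε₀, hR₀, hε₀, hcl⟩ := hp_claim S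
  have hX := S.geo.cone
  have hδ := S.lc.δ_pos
  have hρ := S.lc.ρ_pos
  have hρ4 := S.lc.ρ_le
  have hδρ := S.lc.δ_le
  have hc₀ := S.c_pos
  refine ⟨ε₀, hε₀, fun y f hf g hg ω h hω hclose => ?_⟩
  have hωω : (starRingEnd ℂ) ω * ω = 1 := by
    rw [mul_comm, Complex.mul_conj, Complex.normSq_eq_norm_sq, hω]
    simp
  -- the bound on a disc in the half plane
  have hdisc : ∀ (c : ℂ) (R : ℝ), R₀ ≤ R → ball c R ⊆ HP ω h → ∀ z ∈ ball c R, y + z • a ∈ Co D Bad δ ρ →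
      dist (f z) (g z) ≤ 2 * ε₀ * Real.exp (c₀ / 8 * (4 * R) - c₀ / 8 * (R ^ 2 - ‖z - c‖ ^ 2)) := by
    intro c R hR hsub z hz hzC
    obtain ⟨Ψ, hΨ⟩ : ∃ Ψ : ℂ → ℝ, Ψ = fun z => dist (f z) (g z) * Real.exp (c₀ / 8 * (R ^ 2 - ‖z - c‖ ^ 2)) := ⟨_, rfl⟩
    have hR0 : 0 < R := lt_of_lt_of_le hR₀ hR
    have hkey : Ψ z ≤ 2 * ε₀ * Real.exp (c₀ / 8 * (4 * R)) := by
      by_contra hcon
      push Not at hcon
      obtain ⟨T, hT⟩ : ∃ T : Set ℝ, T = Ψ '' {z | z ∈ ball c R ∧ y + z • a ∈ Co D Bad δ ρ} := ⟨_, rfl⟩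
      have hTb : BddAbove T := by
        refine ⟨ε₀ * Real.exp (c₀ / 8 * R ^ 2), ?_⟩
        rw [hT]
        rintro _ ⟨w, ⟨hw1, hw2⟩, rfl⟩
        rw [hΨ]
        simp only
        refine mul_le_mul (hclose w (hsub hw1) hw2) (Real.exp_le_exp.2 ?_) (Real.exp_pos _).le hε₀.le
        refine mul_le_mul_of_nonneg_left ?_ (by positivity)
        linarith [sq_nonneg ‖w - c‖]
      have hzT : Ψ z ∈ T := by
        rw [hT]
        exact ⟨z, ⟨hz, hzC⟩, rfl⟩
      have hs1 : Ψ z ≤ sSup T := le_csSup hTb hzT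
      have hpos : 0 < sSup T := lt_of_lt_of_le (lt_trans (by positivity) hcon) hs1
      obtain ⟨_, hb1, hb2⟩ := exists_lt_of_lt_csSup ⟨_, hzT⟩ (half_lt_self hpos)
      rw [hT] at hb1
      obtain ⟨z₁, ⟨hz₁, hz₁C⟩, rfl⟩ := hb1
      have hmax : ∀ w ∈ ball c R, y + w • a ∈ Co D Bad δ ρ → Ψ w ≤ 2 * Ψ z₁ := by
        intro w hw hwC
        have h6 : Ψ w ≤ sSup T := le_csSup hTb (by rw [hT]; exact ⟨w, ⟨hw, hwC⟩, rfl⟩)
        linarith
      rcases lt_or_ge ‖z₁ - c‖ (R - 2) with hlt | hge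
      · have h6 := hcl y f hf g hg c R hR (fun w hw hwC => hclose w (hsub hw) hwC) z₁ hlt hz₁C (fun w hw hwC => by
          have := hmax w hw hwC
          rw [hΨ] at this
          exact this)
        have h7 : Ψ z₁ = 0 := by
          rw [hΨ]
          simp only
          rw [h6, dist_self, zero_mul]
        linarith
      · have h6 : Ψ z₁ ≤ ε₀ * Real.exp (c₀ / 8 * (4 * R)) := by
          rw [hΨ]
          simp only
          refine mul_le_mul (hclose z₁ (hsub hz₁) hz₁C) (Real.exp_le_exp.2 ?_) (Real.exp_pos _).le hε₀.le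
          refine mul_le_mul_of_nonneg_left ?_ (by positivity)
          have h7 : ‖z₁ - c‖ < R := by rwa [mem_ball, dist_eq_norm] at hz₁
          rcases le_or_gt 2 R with hR2 | hR2
          · nlinarith [norm_nonneg (z₁ - c)]
          · nlinarith [norm_nonneg (z₁ - c)]
        have h7 := hmax z hz hzC
        linarith
    have h6 : Ψ z = dist (f z) (g z) * Real.exp (c₀ / 8 * (R ^ 2 - ‖z - c‖ ^ 2)) := by rw [hΨ]
    rw [h6] at hkey
    rw [Real.exp_sub, ← mul_div_assoc, le_div_iff₀ (Real.exp_pos _)]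
    exact hkey
  -- deep points
  have hdeep : ∀ z : ℂ, h + 2 < ((starRingEnd ℂ) ω * z).im → y + z • a ∈ Co D Bad δ ρ → f z = g z := by
    intro z hz hzC
    obtain ⟨t, ht⟩ : ∃ t : ℝ, t = ((starRingEnd ℂ) ω * z).im - h := ⟨_, rfl⟩
    have ht2 : 2 < t := by linarith
    have hb : ∀ R : ℝ, max R₀ t < R → dist (f z) (g z) ≤ 2 * ε₀ * Real.exp (c₀ / 8 * (4 - 2 * t) * R + c₀ / 8 * t ^ 2) := by
      intro R hR
      rw [max_lt_iff] at hR
      obtain ⟨c, hc⟩ : ∃ c : ℂ, c = z + ω * (Complex.I * ((R - t : ℝ) : ℂ)) := ⟨_, rfl⟩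
      have hzc : ‖z - c‖ = R - t := by
        rw [hc, sub_add_cancel_left, norm_neg, norm_mul, norm_mul, hω, Complex.norm_I, Complex.norm_real, Real.norm_eq_abs, abs_of_pos (by linarith), one_mul, one_mul]
      have hcd : ((starRingEnd ℂ) ω * c).im = h + R := by
        rw [hc, mul_add, ← mul_assoc, hωω, one_mul, Complex.add_im]
        have : (Complex.I * ((R - t : ℝ) : ℂ)).im = R - t := by
          rw [Complex.I_mul_im, Complex.ofReal_re]
        rw [this, ht]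
        ring
      have hsub : ball c R ⊆ HP ω h := by
        intro w hw
        rw [mem_ball, dist_eq_norm] at hw
        have h6 := hp_im hω c w
        rw [norm_sub_rev] at h6
        show h < ((starRingEnd ℂ) ω * w).im
        linarith
      have h6 := hdisc c R hR.1.le hsub z (by rw [mem_ball, dist_eq_norm, hzc]; linarith) hzC
      rw [hzc] at h6
      refine h6.trans (le_of_eq ?_)
      congr 2
      ring
    have hlim : Tendsto (fun R : ℝ => 2 * ε₀ * Real.exp (c₀ / 8 * (4 - 2 * t) * R + c₀ / 8 * t ^ 2)) atTop (𝓝 0) := by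
      have h6 : Tendsto (fun R : ℝ => c₀ / 8 * (4 - 2 * t) * R + c₀ / 8 * t ^ 2) atTop atBot := by
        refine tendsto_atBot_add_const_right _ _ ?_
        refine (tendsto_const_mul_atBot_of_neg ?_).2 tendsto_id
        have : 4 - 2 * t < 0 := by linarith
        exact mul_neg_of_pos_of_neg (by positivity) this
      have h7 := (Real.tendsto_exp_atBot.comp h6).const_mul (2 * ε₀)
      rw [mul_zero] at h7
      exact h7
    have hle : dist (f z) (g z) ≤ 0 := ge_of_tendsto hlim (by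
      filter_upwards [eventually_gt_atTop (max R₀ t)] with R hR
      exact hb R hR)
    exact dist_le_zero.1 hle
  -- a circle
  obtain ⟨z₂, hz₂⟩ : ∃ z₂ : ℂ, z₂ = ω * (Complex.I * ((h + 4 : ℝ) : ℂ)) := ⟨_, rfl⟩
  have hz₂d : ((starRingEnd ℂ) ω * z₂).im = h + 4 := by
    rw [hz₂, ← mul_assoc, hωω, one_mul, Complex.I_mul_im, Complex.ofReal_re]
  obtain ⟨r, hr0, hr, hth⟩ := S.lc.thick (y + z₂ • a)
  have key : ∀ z : ℂ, |‖z - z₂‖ - r| ≤ δ → f z = g z := by
    intro z hz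
    refine hdeep z ?_ ?_
    · have h6 := hp_im hω z₂ z
      rw [norm_sub_rev] at h6
      rw [abs_le] at hz
      linarith [hz.2]
    · have h6 := hth (y + z₂ • a) (by rw [sub_self, norm_zero]; exact hδ.le) (z - z₂) hz
      have e1 : y + z₂ • a + (z - z₂) • a = y + z • a := by
        rw [sub_smul]
        abel
      rwa [e1] at h6
  refine hc_eq hX hf hg (z₀ := z₂ + (r : ℂ)) ?_
  have hev : ∀ᶠ z in 𝓝 (z₂ + (r : ℂ)), f z = g z := by
    have h5 : ContinuousAt (fun z : ℂ => |‖z - z₂‖ - r|) (z₂ + (r : ℂ)) := by fun_prop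
    have h6 : |‖z₂ + (r : ℂ) - z₂‖ - r| < δ := by
      rw [add_sub_cancel_left, Complex.norm_real, Real.norm_eq_abs, abs_of_pos hr0, sub_self, abs_zero]
      exact hδ
    filter_upwards [h5.eventually_lt_const h6] with z hz
    exact key z hz.le
  exact (hev.filter_mono nhdsWithin_le_nhds).frequently

end Pool.Agent.G3.A
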