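import Pool.Agent.G3.A.Defs
import Pool.Agent.TG.Un

/-!
# G3 A Idn: elementary facts on the curves over lines

`hc_eq`: `F z ∧ G z = 0` (all `2 × 2` minors) near `z₀`, so everywhere (identity theorem for entire functions), `pr (F z) = pr (G z)` (`F z, G z ≠ 0`: `X` is a cone without `0`).
`Lm.unif`: otherwise there are `ε > 0` and for `𝒰`-most `n` a point `w n ∈ K` with `dist > ε`; `w n → z ∈ K` along `𝒰`, contradiction to `Lm` at `z` and continuity of `g`.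
-/

set_option autoImplicit false

open Topology Filter Metric

namespace Pool.Agent.G3.A

open Pool.Agent.H36.BP (EN fs wd)
open Pool.Agent.H14.PP (IsCone CurveAt Tan)
open Pool.Agent.H62.EF (MN pr)
open Pool.Agent.AD (Vd Chart Charts IsGerm)
open Pool.Agent.TG
open Pool.Agent.G3.C (Gc HP)

variable {N k : ℕ} {X : Set (EN N)} {Λ : AddSubgroup (Vd (k + 1))} {u : EN N → Vd (k + 1)} {D B Bad : Set (Vd (k + 1))} {a : Vd (k + 1)}

theorem hc_mem {f : ℂ → MN N} {y : Vd (k + 1)} (hf : f ∈ Hc X Λ u a y) (z : ℂ) : f z ∈ Fb X Λ u (y + z • a) := by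
  obtain ⟨F, ⟨-, hFX, hFu⟩, rfl⟩ := hf
  exact ⟨F z, hFX z, rfl, hFu z⟩

theorem hc_cont (hX : IsCone X) {f : ℂ → MN N} {y : Vd (k + 1)} (hf : f ∈ Hc X Λ u a y) : Continuous f := by
  obtain ⟨F, ⟨hFd, hFX, -⟩, rfl⟩ := hf
  rw [continuous_iff_continuousAt]
  intro z
  exact ContinuousAt.comp (g := pr) (f := F) (Pool.Agent.H62.EF.continuousAt_pr (ne_zero hX (hFX z))) hFd.continuous.continuousAt

theorem hc_add {f : ℂ → MN N} {y : Vd (k + 1)} (hf : f ∈ Hc X Λ u a y) (z₁ : ℂ) : (fun z => f (z₁ + z)) ∈ Hc X Λ u a (y + z₁ • a) := by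
  obtain ⟨F, ⟨hFd, hFX, hFu⟩, rfl⟩ := hf
  refine ⟨fun z => F (z₁ + z), ⟨hFd.comp (differentiable_id.const_add z₁), fun z => hFX _, fun z => ?_⟩, rfl⟩
  have h := hFu (z₁ + z)
  rw [add_smul, ← add_assoc] at h
  exact h

theorem hc_per {y l : Vd (k + 1)} (hl : l ∈ Λ) : Hc X Λ u a (y + l) = Hc X Λ u a y := by
  ext f
  constructor
  · rintro ⟨F, ⟨hFd, hFX, hFu⟩, rfl⟩
    refine ⟨F, ⟨hFd, hFX, fun z => ?_⟩, rfl⟩
    have h := Λ.add_mem (hFu z) hl
    have e : u (F z) - (y + l + z • a) + l = u (F z) - (y + z • a) := by abel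
    rwa [e] at h
  · rintro ⟨F, ⟨hFd, hFX, hFu⟩, rfl⟩
    refine ⟨F, ⟨hFd, hFX, fun z => ?_⟩, rfl⟩
    have h := Λ.sub_mem (hFu z) hl
    have e : u (F z) - (y + z • a) - l = u (F z) - (y + l + z • a) := by abel
    rwa [e] at h

/-- identity theorem -/
theorem hc_eq (hX : IsCone X) {f g : ℂ → MN N} {y y' : Vd (k + 1)} (hf : f ∈ Hc X Λ u a y) (hg : g ∈ Hc X Λ u a y') {z₀ : ℂ}
    (h : ∃ᶠ z in 𝓝[≠] z₀, f z = g z) : f = g := by
  obtain ⟨F, ⟨hFd, hFX, -⟩, rfl⟩ := hf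
  obtain ⟨G, ⟨hGd, hGX, -⟩, rfl⟩ := hg
  have hco : ∀ (H : ℂ → EN N), Differentiable ℂ H → ∀ i, Differentiable ℂ fun z => H z i := by
    intro H hH i
    exact (EuclideanSpace.proj (𝕜 := ℂ) i : EN N →L[ℂ] ℂ).differentiable.comp hH
  have hmin : ∀ i j z, F z i * G z j - F z j * G z i = 0 := by
    intro i j
    have hd : Differentiable ℂ fun z => F z i * G z j - F z j * G z i :=
      ((hco F hFd i).mul (hco G hGd j)).sub ((hco F hFd j).mul (hco G hGd i))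
    have ha : AnalyticOnNhd ℂ (fun z => F z i * G z j - F z j * G z i) Set.univ := fun z _ => hd.analyticAt z
    have hfr : ∃ᶠ z in 𝓝[≠] z₀, F z i * G z j - F z j * G z i = 0 := by
      refine h.mono fun z hz => ?_
      obtain ⟨c, -, hc⟩ := (Pool.Agent.H62.EF.pr_eq_iff (ne_zero hX (hFX z)) (ne_zero hX (hGX z))).1 hz
      rw [hc]
      simp only [PiLp.smul_apply, smul_eq_mul]
      ring
    intro z
    exact ha.eqOn_zero_of_preconnected_of_frequently_eq_zero isPreconnected_univ (Set.mem_univ z₀) hfr (Set.mem_univ z)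
  funext z
  obtain ⟨j, hj⟩ : ∃ j, G z j ≠ 0 := by
    by_contra hn
    push Not at hn
    apply ne_zero hX (hGX z)
    ext j
    exact hn j
  have he : F z = (F z j / G z j) • G z := by
    ext i
    simp only [PiLp.smul_apply, smul_eq_mul]
    rw [div_mul_eq_mul_div, eq_div_iff hj]
    linear_combination hmin i j z
  have hc : F z j / G z j ≠ 0 := by
    intro h0
    rw [h0, zero_smul] at he
    exact ne_zero hX (hFX z) he
  exact (Pool.Agent.H62.EF.pr_eq_iff (ne_zero hX (hFX z)) (ne_zero hX (hGX z))).2 ⟨_, hc, he⟩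

/-- locally uniform convergence -/
theorem Lm.unif {ι : Type*} {𝒰 : Ultrafilter ι} {y₀ : Vd (k + 1)} {f : ι → ℂ → MN N} {g : ℂ → MN N} (h : Lm D a 𝒰 y₀ f g) (hg : Continuous g) {K : Set ℂ}
    (hK : IsCompact K) (hKD : ∀ z ∈ K, y₀ + z • a ∉ D) {ε : ℝ} (hε : 0 < ε) : ∀ᶠ n in (𝒰 : Filter ι), ∀ z ∈ K, dist (f n z) (g z) ≤ ε := by
  classical
  by_contra hcon
  rw [← Ultrafilter.eventually_not] at hcon
  have hcon' : ∀ᶠ n in (𝒰 : Filter ι), ∃ z ∈ K, ε < dist (f n z) (g z) := by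
    filter_upwards [hcon] with n hn
    push Not at hn
    exact hn
  obtain ⟨n₀, z₀, hz₀, -⟩ := hcon'.exists
  obtain ⟨w, hw⟩ : ∃ w : ι → ℂ, ∀ n, w n ∈ K ∧ ((∃ z ∈ K, ε < dist (f n z) (g z)) → ε < dist (f n (w n)) (g (w n))) := by
    refine ⟨fun n => if hn : ∃ z ∈ K, ε < dist (f n z) (g z) then hn.choose else z₀, fun n => ?_⟩
    by_cases hn : ∃ z ∈ K, ε < dist (f n z) (g z)
    · simp only [dif_pos hn]
      exact ⟨hn.choose_spec.1, fun _ => hn.choose_spec.2⟩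
    · simp only [dif_neg hn]
      exact ⟨hz₀, fun h' => absurd h' hn⟩
  have hle : ((𝒰.map w : Ultrafilter ℂ) : Filter ℂ) ≤ 𝓟 K := by
    rw [le_principal_iff, Ultrafilter.mem_coe, Ultrafilter.mem_map]
    exact Filter.Eventually.of_forall fun n => (hw n).1
  obtain ⟨z, hzK, hz⟩ := hK.ultrafilter_le_nhds (𝒰.map w) hle
  have hwz : Tendsto w 𝒰 (𝓝 z) := hz
  have h1 : Tendsto (fun n => f n (w n)) 𝒰 (𝓝 (g z)) := h z (hKD z hzK) w hwz
  have h2 : Tendsto (fun n => g (w n)) 𝒰 (𝓝 (g z)) := (hg.tendsto z).comp hwz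
  have h3 : Tendsto (fun n => dist (f n (w n)) (g (w n))) 𝒰 (𝓝 0) := by
    have h4 := h1.dist h2
    rwa [dist_self] at h4
  obtain ⟨n, h5, h6⟩ := ((h3.eventually_lt_const hε).and hcon').exists
  exact absurd ((hw n).2 h6) (not_lt.2 h5.le)

theorem Lm.unique {ι : Type*} {𝒰 : Ultrafilter ι} (hX : IsCone X) (hL : LG Λ D Bad a) {y₀ : Vd (k + 1)} {f : ι → ℂ → MN N} {g g' : ℂ → MN N}
    (h : Lm D a 𝒰 y₀ f g) (h' : Lm D a 𝒰 y₀ f g') (hg : g ∈ Hc X Λ u a y₀) (hg' : g' ∈ Hc X Λ u a y₀) : g = g' := by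
  refine hc_eq hX hg hg' (z₀ := 0) ?_
  refine Filter.Eventually.frequently ?_
  filter_upwards [hL.iso y₀] with z hz
  exact tendsto_nhds_unique (h z hz (fun _ => z) tendsto_const_nhds) (h' z hz (fun _ => z) tendsto_const_nhds)

end Pool.Agent.G3.A
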