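import Pool.Agent.G3.A.Defs
import Pool.Agent.G3.Z.CDefs
import Pool.Agent.TG.IsoA

/-!
# G3 A LGx: the geometry of the lines from the hypotheses on `D`, `B`

`iso` at `y ∈ D`: `h` from `Geo.D_thin`.  If `h (y + z a)` is not identically `0` near `z = 0`: clear.  Otherwise suppose `p n = y + z n a ∈ D`, `z n → 0`, `z n ≠ 0`.  The bad points are discrete
(`hfin`, `Λ` discrete), so the `p n` are not bad, and `a` is transversal to `D` at `p n`, `D` is a smooth hypersurface near `p n` (`IsCoord`), different from the line (`k = 1`).  In linear coordinates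
`(t, z)`, `q = y + t e + z a`, `h = t ^ m h₁` with `h₁ (0, z)` not identically `0`; `h₁ = 0` on `D` near `p n` (on `D` minus the line, which is dense in `D` near `p n` by transversality), so
`h₁ (0, z n) = 0` for all `n`: contradiction.  At `y ∉ D` clear (`D_closed`).  `rank`: `Simp`: any two elements of `{z | z a ∈ Λ}` are linearly dependent over `ℝ`, so they are in one real line.
`hpl`: `z ↦ z a + b` with `a` of any norm: rescale; `LG.rank` and `bad_fin`: the exact bad hits are in a strip (as in `GeoC`, `LC.strip`).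
-/

set_option autoImplicit false

open Topology Filter Metric

namespace Pool.Agent.G3.A

open Pool.Agent.H36.BP (EN fs wd)
open Pool.Agent.H14.PP (IsCone CurveAt Tan)
open Pool.Agent.H62.EF (MN pr)
open Pool.Agent.AD (Vd Chart Charts IsGerm)
open Pool.Agent.TG
open Pool.Agent.G3.C (Gc HP)

variable {N k : ℕ} {X : Set (EN N)} {Λ : AddSubgroup (Vd (k + 1))} {u : EN N → Vd (k + 1)} {D B Bad : Set (Vd (k + 1))} {a : Vd (k + 1)}

/-- the order of vanishing along the hyperplane of the coordinate `0` -/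
private theorem lgx_factor {m : ℕ} {R : ℝ} (hR : 0 < R) {G : Vd (m + 1) → ℂ} (hG : ∀ p ∈ ball (0 : Vd (m + 1)) R, AnalyticAt ℂ G p)
    {p₁ : Vd (m + 1)} (hp₁ : p₁ ∈ ball (0 : Vd (m + 1)) R) (hne : G p₁ ≠ 0) :
    ∃ (j : ℕ) (H : Vd (m + 1) → ℂ), (∀ p ∈ ball (0 : Vd (m + 1)) R, AnalyticAt ℂ H p) ∧ (∀ p ∈ ball (0 : Vd (m + 1)) R, G p = p 0 ^ j * H p) ∧
      ∃ p ∈ ball (0 : Vd (m + 1)) R, p 0 = 0 ∧ H p ≠ 0 := by
  by_contra hcon
  push Not at hcon
  have hdiv : ∀ j : ℕ, ∃ H : Vd (m + 1) → ℂ, (∀ p ∈ ball (0 : Vd (m + 1)) R, AnalyticAt ℂ H p) ∧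
      ∀ p ∈ ball (0 : Vd (m + 1)) R, G p = p 0 ^ j * H p := by
    intro j
    induction j with
    | zero => exact ⟨G, hG, fun p _ => by rw [pow_zero, one_mul]⟩
    | succ j ih =>
      obtain ⟨H, hH, hGH⟩ := ih
      obtain ⟨H', hH', hHH⟩ := exists_div_zero hH (hcon j H hH hGH)
      refine ⟨H', hH', fun p hp => ?_⟩
      rw [hGH p hp, hHH p hp]
      ring
  set L : ℂ → Vd (m + 1) := fun t => Fin.cons (α := fun _ => ℂ) t fun i : Fin m => p₁ i.succ with hL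
  have hp₁R : ‖p₁‖ < R := by simpa using hp₁
  have hLb : ∀ t ∈ ball (0 : ℂ) R, L t ∈ ball (0 : Vd (m + 1)) R := by
    intro t ht
    rw [mem_ball_zero_iff, pi_norm_lt_iff hR]
    intro i
    refine Fin.cases ?_ ?_ i
    · show ‖t‖ < R
      simpa using ht
    · intro j
      exact (norm_le_pi_norm p₁ j.succ).trans_lt hp₁R
  have hLa : ∀ t, AnalyticAt ℂ L t := by
    intro t
    rw [analyticAt_pi_iff]
    intro i
    refine Fin.cases ?_ ?_ i
    · exact analyticAt_id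
    · intro j
      exact analyticAt_const
  have hga : ∀ t ∈ ball (0 : ℂ) R, AnalyticAt ℂ (fun t => G (L t)) t := fun t ht => AnalyticAt.fun_comp (hG _ (hLb t ht)) (hLa t)
  have h0b : (0 : ℂ) ∈ ball (0 : ℂ) R := mem_ball_self hR
  have htop : analyticOrderAt (fun t => G (L t)) 0 = ⊤ := by
    rw [ENat.eq_top_iff_forall_ge]
    intro j
    obtain ⟨H, hH, hGH⟩ := hdiv j
    rw [natCast_le_analyticOrderAt (hga 0 h0b)]
    refine ⟨fun t => H (L t), AnalyticAt.fun_comp (hH _ (hLb 0 h0b)) (hLa 0), ?_⟩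
    filter_upwards [isOpen_ball.mem_nhds h0b] with t ht
    rw [hGH _ (hLb t ht), sub_zero, smul_eq_mul]
    rfl
  rw [analyticOrderAt_eq_top] at htop
  have h1 : AnalyticOnNhd ℂ (fun t => G (L t)) (ball 0 R) := hga
  have ht₁ : p₁ 0 ∈ ball (0 : ℂ) R := by
    rw [mem_ball_zero_iff]
    exact (norm_le_pi_norm p₁ 0).trans_lt hp₁R
  have h2 := h1.eqOn_zero_of_preconnected_of_eventuallyEq_zero (convex_ball 0 R).isPreconnected h0b htop ht₁
  have h3 : L (p₁ 0) = p₁ := by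
    funext i
    refine Fin.cases ?_ ?_ i
    · rfl
    · intro j
      rfl
  have h4 : G (L (p₁ 0)) = 0 := h2
  rw [h3] at h4
  exact hne h4

/-- the points of a line in finitely many classes modulo the lattice are isolated -/
private theorem lgx_isol {Γ : AddSubgroup (Vd (k + 1))} (hΓ : Lat Γ) {a : Vd (k + 1)} (ha : a ≠ 0) {Z : Set (Vd (k + 1))}
    (hfin : ∃ S : Set (Vd (k + 1)), S.Finite ∧ ∀ β ∈ Z, ∃ s ∈ S, β - s ∈ Γ) (y : Vd (k + 1)) : ∀ᶠ z in 𝓝[≠] (0 : ℂ), y + z • a ∉ Z := by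
  obtain ⟨S, hS, hZ⟩ := hfin
  obtain ⟨δ, hδ, hd⟩ := hΓ.disc
  have ha0 : 0 < ‖a‖ := norm_pos_iff.2 ha
  have h1 : ∀ s ∈ S, ∀ᶠ z in 𝓝[≠] (0 : ℂ), y + z • a - s ∉ Γ := by
    intro s _
    by_cases hex : ∃ z₁ : ℂ, z₁ ≠ 0 ∧ ‖z₁‖ < δ / (2 * ‖a‖) ∧ y + z₁ • a - s ∈ Γ
    · obtain ⟨z₁, hz₁, hz₁δ, hz₁Γ⟩ := hex
      have h2 : ball (0 : ℂ) ‖z₁‖ ∈ 𝓝[≠] (0 : ℂ) := mem_nhdsWithin_of_mem_nhds (ball_mem_nhds _ (norm_pos_iff.2 hz₁))
      filter_upwards [h2] with z hz hzΓ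
      rw [mem_ball_zero_iff] at hz
      have h3 : (z - z₁) • a ∈ Γ := by
        have h4 := Γ.sub_mem hzΓ hz₁Γ
        have h5 : y + z • a - s - (y + z₁ • a - s) = (z - z₁) • a := by
          rw [sub_smul]
          abel
        rwa [h5] at h4
      have h4 : ‖(z - z₁) • a‖ < δ := by
        rw [norm_smul]
        have h5 : ‖z - z₁‖ ≤ ‖z‖ + ‖z₁‖ := norm_sub_le _ _
        have h6 : ‖z - z₁‖ < δ / ‖a‖ := by
          have h7 : δ / (2 * ‖a‖) + δ / (2 * ‖a‖) = δ / ‖a‖ := by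
            field_simp
            ring
          linarith
        rwa [lt_div_iff₀ ha0] at h6
      have h5 := hd _ h3 h4
      rcases smul_eq_zero.1 h5 with h6 | h6
      · rw [sub_eq_zero] at h6
        rw [h6] at hz
        exact lt_irrefl _ hz
      · exact ha h6
    · push Not at hex
      have h2 : ball (0 : ℂ) (δ / (2 * ‖a‖)) ∈ 𝓝[≠] (0 : ℂ) := mem_nhdsWithin_of_mem_nhds (ball_mem_nhds _ (by positivity))
      filter_upwards [h2, self_mem_nhdsWithin] with z hz hz0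
      rw [mem_ball_zero_iff] at hz
      exact hex z hz0 hz
  have h2 : ∀ᶠ z in 𝓝[≠] (0 : ℂ), ∀ s ∈ S, y + z • a - s ∉ Γ := (Filter.eventually_all_finite hS).2 h1
  filter_upwards [h2] with z hz hzZ
  obtain ⟨s, hs, hsΓ⟩ := hZ _ hzZ
  exact hz s hs hsΓ

/-- the points of `D` on a line are isolated -/
private theorem lgx_iso {X : Set (EN N)} {Λ : AddSubgroup (Vd (1 + 1))} {u : EN N → Vd (1 + 1)} {D B : Set (Vd (1 + 1))} (G : Geo X Λ u D B)
    {a : Vd (1 + 1)} (ha : a ≠ 0) (hfin : ∃ S : Set (Vd (1 + 1)), S.Finite ∧ ∀ β ∈ Ba D B a, ∃ s ∈ S, β - s ∈ Λ) (y : Vd (1 + 1)) :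
    ∀ᶠ z in 𝓝[≠] (0 : ℂ), y + z • a ∉ D := by
  set w : Vd (1 + 1) := Pi.single 1 1 with hw
  have hw0 : w 0 = 0 := by simp [hw]
  have hw1 : w 1 = 1 := by simp [hw]
  have hwne : w ≠ 0 := by
    intro h
    rw [h] at hw1
    simp at hw1
  have hwn : ∀ z : ℂ, ‖z • w‖ = ‖z‖ := by
    intro z
    have h1 : ‖w‖ = 1 := by
      refine le_antisymm ?_ ?_
      · rw [pi_norm_le_iff_of_nonneg zero_le_one]
        intro i
        fin_cases i
        · simp [hw0]
        · simp [hw1]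
      · have h2 := norm_le_pi_norm w 1
        rwa [hw1, norm_one] at h2
    rw [norm_smul, h1, mul_one]
  have heq : ∀ p : Vd (1 + 1), p 0 = 0 → p = p 1 • w := by
    intro p hp
    funext i
    fin_cases i
    · simp [hp, hw0]
    · simp [hw1]
  obtain ⟨Le, hLe⟩ := SeparatingDual.exists_continuousLinearEquiv_apply_eq (R := ℂ) hwne ha
  obtain ⟨h, han, hD, hne⟩ := G.D_thin y
  have hcont : Tendsto (fun p : Vd (1 + 1) => y + Le p) (𝓝 0) (𝓝 y) := by
    have h1 : Continuous (fun p : Vd (1 + 1) => y + Le p) := continuous_const.add Le.continuous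
    have h2 := h1.tendsto 0
    rwa [map_zero, add_zero] at h2
  obtain ⟨R, hR, hball⟩ := Metric.eventually_nhds_iff_ball.1 (hcont.eventually (han.eventually_analyticAt.and hD))
  have hLean : ∀ p : Vd (1 + 1), AnalyticAt ℂ (fun p : Vd (1 + 1) => y + Le p) p := fun p =>
    analyticAt_const.add ((Le : Vd (1 + 1) →L[ℂ] Vd (1 + 1)).analyticAt p)
  have hK : ∀ p ∈ ball (0 : Vd (1 + 1)) R, AnalyticAt ℂ (fun p => h (y + Le p)) p := fun p hp =>
    AnalyticAt.fun_comp (g := h) (hball p hp).1 (hLean p)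
  have hK1 : ∃ p₁ ∈ ball (0 : Vd (1 + 1)) R, h (y + Le p₁) ≠ 0 := by
    by_contra hcon
    push Not at hcon
    apply hne
    have h1 : Tendsto (fun q : Vd (1 + 1) => Le.symm (q - y)) (𝓝 y) (𝓝 0) := by
      have h2 : Continuous (fun q : Vd (1 + 1) => Le.symm (q - y)) := Le.symm.continuous.comp (continuous_id.sub continuous_const)
      have h3 := h2.tendsto y
      rwa [sub_self, map_zero] at h3
    filter_upwards [h1.eventually (ball_mem_nhds (0 : Vd (1 + 1)) hR)] with q hq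
    have h2 := hcon _ hq
    rwa [Le.apply_symm_apply, add_sub_cancel] at h2
  obtain ⟨p₁, hp₁, hp₁K⟩ := hK1
  obtain ⟨j, H, hH, hKH, p₂, hp₂, hp₂0, hp₂H⟩ := lgx_factor hR hK hp₁ hp₁K
  -- `H` on the line
  have hzb : ∀ z ∈ ball (0 : ℂ) R, z • w ∈ ball (0 : Vd (1 + 1)) R := by
    intro z hz
    rw [mem_ball_zero_iff] at hz ⊢
    rwa [hwn]
  have hgan : AnalyticOnNhd ℂ (fun z : ℂ => H (z • w)) (ball 0 R) := fun z hz =>
    AnalyticAt.fun_comp (g := H) (f := fun z : ℂ => z • w) (hH _ (hzb z hz)) (analyticAt_id.smul analyticAt_const)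
  have hg : ∀ᶠ z in 𝓝[≠] (0 : ℂ), H (z • w) ≠ 0 := by
    by_contra hcon
    have hfr : ∃ᶠ z in 𝓝[≠] (0 : ℂ), H (z • w) = 0 := fun hev => hcon (hev.mono fun z hz => hz)
    have h1 := hgan.eqOn_zero_of_preconnected_of_frequently_eq_zero (convex_ball (0 : ℂ) R).isPreconnected (mem_ball_self hR) hfr
    have h2 : p₂ 1 ∈ ball (0 : ℂ) R := by
      rw [mem_ball_zero_iff] at hp₂ ⊢
      exact (norm_le_pi_norm p₂ 1).trans_lt hp₂
    have h3 : H (p₂ 1 • w) = 0 := h1 h2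
    rw [← heq p₂ hp₂0] at h3
    exact hp₂H h3
  have hbR : ball (0 : ℂ) R ∈ 𝓝[≠] (0 : ℂ) := mem_nhdsWithin_of_mem_nhds (ball_mem_nhds _ hR)
  filter_upwards [hg, lgx_isol G.lat ha hfin y, hbR] with z hz1 hz2 hz3 hzD
  have hgood : y + z • a ∉ B ∧ TransAt D (y + z • a) a := by
    by_contra hc
    apply hz2
    refine ⟨hzD, ?_⟩
    by_cases hB : y + z • a ∈ B
    · exact Or.inl hB
    · exact Or.inr fun ht => hc ⟨hB, ht⟩
  obtain ⟨κ, hκ, -⟩ := G.nc _ hzD hgood.1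
  -- the curve `κ (s w)` in `D`
  have hder : HasDerivAt (fun s : ℂ => κ (s • w)) (fderiv ℂ κ 0 w) 0 := by
    have h1 : HasDerivAt (fun s : ℂ => s • w) w 0 := by
      have h2 := (hasDerivAt_id (0 : ℂ)).smul_const w
      rwa [one_smul] at h2
    have h2 : HasFDerivAt κ (fderiv ℂ κ 0) ((0 : ℂ) • w) := by
      rw [zero_smul]
      exact hκ.an.differentiableAt.hasFDerivAt
    exact h2.comp_hasDerivAt (0 : ℂ) h1
  have hκ0 : κ ((0 : ℂ) • w) = y + z • a := by rw [zero_smul, hκ.zero]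
  have hsw : Tendsto (fun s : ℂ => s • w) (𝓝 0) (𝓝 0) := by
    have h1 : Continuous (fun s : ℂ => s • w) := continuous_id.smul continuous_const
    have h2 := h1.tendsto 0
    rwa [zero_smul] at h2
  have hLz : Le.symm (y + z • a - y) = z • w := by
    rw [add_sub_cancel_left, map_smul]
    congr 1
    rw [ContinuousLinearEquiv.symm_apply_eq]
    exact hLe.symm
  have hp' : Tendsto (fun s : ℂ => Le.symm (κ (s • w) - y)) (𝓝 0) (𝓝 (z • w)) := by
    have h1 : ContinuousAt (fun s : ℂ => Le.symm (κ (s • w) - y)) 0 :=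
      Le.symm.continuous.continuousAt.comp (hder.continuousAt.sub continuousAt_const)
    have h2 := h1.tendsto
    simp only [hκ0, hLz] at h2
    exact h2
  have hzero : ∀ᶠ s in 𝓝 (0 : ℂ), (Le.symm (κ (s • w) - y)) 0 = 0 := by
    have e1 : ∀ᶠ p in 𝓝 (z • w), p ∈ ball (0 : Vd (1 + 1)) R := isOpen_ball.mem_nhds (hzb z hz3)
    have h1 : ∀ᶠ p in 𝓝 (z • w), p ∈ ball (0 : Vd (1 + 1)) R ∧ H p ≠ 0 :=
      e1.and ((hH _ (hzb z hz3)).continuousAt.eventually_ne hz1)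
    filter_upwards [hsw.eventually hκ.mem_iff, hp'.eventually h1] with s hs1 hs2
    have h2 : κ (s • w) ∈ D := hs1.2 (by rw [Pi.smul_apply, hw0, smul_zero])
    have h3 := hKH _ hs2.1
    simp only [Le.apply_symm_apply, add_sub_cancel] at h3
    have h4 : h (κ (s • w)) = 0 := by
      have h5 := (hball _ hs2.1).2
      rw [Le.apply_symm_apply, add_sub_cancel] at h5
      exact h5 h2
    rw [h4] at h3
    rcases mul_eq_zero.1 h3.symm with h5 | h5
    · exact eq_zero_of_pow_eq_zero h5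
    · exact absurd h5 hs2.2
  have hv0 : (Le.symm (fderiv ℂ κ 0 w)) 0 = 0 := by
    have h1 : HasDerivAt (fun s : ℂ => Le.symm (κ (s • w) - y)) (Le.symm (fderiv ℂ κ 0 w)) 0 := by
      have h2 : HasDerivAt (fun s : ℂ => κ (s • w) - y) (fderiv ℂ κ 0 w) 0 := hder.sub_const y
      exact (Le.symm : Vd (1 + 1) →L[ℂ] Vd (1 + 1)).hasFDerivAt.comp_hasDerivAt (0 : ℂ) h2
    have h2 : HasDerivAt (fun s : ℂ => (Le.symm (κ (s • w) - y)) 0) ((Le.symm (fderiv ℂ κ 0 w)) 0) 0 := (hasDerivAt_pi.1 h1) 0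
    have h3 : HasDerivAt (fun s : ℂ => (Le.symm (κ (s • w) - y)) 0) 0 0 := by
      refine (hasDerivAt_const (0 : ℂ) (0 : ℂ)).congr_of_eventuallyEq ?_
      filter_upwards [hzero] with s hs using hs
    exact h2.unique h3
  set c : ℂ := (Le.symm (fderiv ℂ κ 0 w)) 1 with hc
  have hva : fderiv ℂ κ 0 w = c • a := by
    have h1 := heq _ hv0
    rw [ContinuousLinearEquiv.symm_apply_eq, map_smul, hLe] at h1
    exact h1
  have hc0 : c ≠ 0 := by
    intro h0
    rw [h0, zero_smul] at hva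
    exact hwne (hκ.inj (by rw [hva, map_zero]))
  refine hgood.2.2 κ hκ (c⁻¹ • w) (by rw [Pi.smul_apply, hw0, smul_zero]) ?_
  rw [map_smul, hva, smul_smul, inv_mul_cancel₀ hc0, one_smul]

/-- the real direction of the lattice points on a line -/
private theorem lgx_rank {Γ : AddSubgroup (Vd (k + 1))} (hs : Pool.Agent.G3.Simp Γ) {a : Vd (k + 1)} (ha : a ≠ 0) :
    ∃ ω : ℂ, ‖ω‖ = 1 ∧ ∀ z : ℂ, z • a ∈ Γ → ((starRingEnd ℂ) ω * z).im = 0 := by
  by_cases hex : ∃ z₁ : ℂ, z₁ ≠ 0 ∧ z₁ • a ∈ Γ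
  · obtain ⟨z₁, hz₁, hz₁Γ⟩ := hex
    have hn : 0 < ‖z₁‖ := norm_pos_iff.2 hz₁
    refine ⟨((‖z₁‖⁻¹ : ℝ) : ℂ) * z₁, ?_, ?_⟩
    · rw [norm_mul, Complex.norm_real, Real.norm_of_nonneg (by positivity), inv_mul_cancel₀ hn.ne']
    · intro z hz
      have h1 := hs a ha z₁ z hz₁Γ hz
      rw [LinearIndependent.pair_iff] at h1
      push Not at h1
      obtain ⟨s, t, hst, hne⟩ := h1
      have ht : t ≠ 0 := by
        intro h0
        rw [h0, zero_smul, add_zero] at hst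
        rcases smul_eq_zero.1 hst with h2 | h2
        · exact hne h2 h0
        · exact hz₁ h2
      have hz' : z = (((-(s / t)) : ℝ) : ℂ) * z₁ := by
        have ht' : (t : ℂ) ≠ 0 := by exact_mod_cast ht
        rw [Complex.real_smul, Complex.real_smul] at hst
        push_cast
        field_simp
        linear_combination hst
      have h2 : (starRingEnd ℂ) (((‖z₁‖⁻¹ : ℝ) : ℂ) * z₁) * z = (((‖z₁‖⁻¹ * (-(s / t)) * ‖z₁‖ ^ 2) : ℝ) : ℂ) := by
        rw [hz', map_mul, Complex.conj_ofReal]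
        have h3 : (starRingEnd ℂ) z₁ * z₁ = ((‖z₁‖ ^ 2 : ℝ) : ℂ) := by
          rw [mul_comm, Complex.mul_conj, Complex.normSq_eq_norm_sq]
        calc ((‖z₁‖⁻¹ : ℝ) : ℂ) * (starRingEnd ℂ) z₁ * ((((-(s / t)) : ℝ) : ℂ) * z₁)
            = ((‖z₁‖⁻¹ : ℝ) : ℂ) * (((-(s / t)) : ℝ) : ℂ) * ((starRingEnd ℂ) z₁ * z₁) := by ring
          _ = _ := by rw [h3]; push_cast; ring
      rw [h2, Complex.ofReal_im]
  · push Not at hex
    refine ⟨1, norm_one, fun z hz => ?_⟩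
    have h1 : z = 0 := by
      by_contra h0
      exact hex z h0 hz
    rw [h1, mul_zero, Complex.zero_im]

private theorem lgx_trans {Γ : AddSubgroup (Vd (k + 1))} (hinv : ∀ y ∈ D, ∀ l ∈ Γ, y + l ∈ D) {β l a : Vd (k + 1)} (hl : l ∈ Γ) (h : TransAt D (β + l) a) :
    TransAt D β a := by
  refine ⟨h.1, fun κ hκ q hq => ?_⟩
  have hfd : fderiv ℂ (fun q => κ q + l) 0 = fderiv ℂ κ 0 := by rw [fderiv_add_const]
  have hκ' : IsCoord D (fun q => κ q + l) (β + l) := by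
    refine ⟨hκ.an.add analyticAt_const, by rw [hκ.zero], by rw [hfd]; exact hκ.inj, ?_⟩
    filter_upwards [hκ.mem_iff] with q hq
    rw [← hq]
    constructor
    · intro h1
      have h2 := hinv _ h1 _ (Γ.neg_mem hl)
      rwa [add_neg_cancel_right] at h2
    · intro h1
      exact hinv _ h1 l hl
  have h1 := h.2 _ hκ' q hq
  rwa [hfd] at h1

theorem exists_lg {X : Set (EN N)} {Λ : AddSubgroup (Vd (1 + 1))} {u : EN N → Vd (1 + 1)} {D B : Set (Vd (1 + 1))} (G : Geo X Λ u D B) (hB : ∀ β ∈ B, ∀ l ∈ Λ, β + l ∈ B)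
    (hs : Pool.Agent.G3.Simp Λ) {a : Vd (1 + 1)} (ha : ‖a‖ = 1) (hfin : ∃ S : Set (Vd (1 + 1)), S.Finite ∧ ∀ β ∈ Ba D B a, ∃ s ∈ S, β - s ∈ Λ) :
    LG Λ D (Ba D B a) a := by
  have ha0 : a ≠ 0 := by
    intro h
    rw [h, norm_zero] at ha
    exact zero_ne_one ha
  refine ⟨ha, G.lat, G.D_closed, G.D_inv, fun q hq => hq.1, ?_, hfin, fun y => lgx_iso G ha0 hfin y, lgx_rank hs ha0⟩
  intro β hβ l hl
  refine ⟨G.D_inv β hβ.1 l hl, ?_⟩
  rcases hβ.2 with h | h
  · exact Or.inl (hB β h l hl)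
  · exact Or.inr fun ht => h (lgx_trans G.D_inv hl ht)

theorem ldi {X : Set (EN N)} {Λ : AddSubgroup (Vd (1 + 1))} {u : EN N → Vd (1 + 1)} {D B : Set (Vd (1 + 1))} (G : Geo X Λ u D B) (hB : ∀ β ∈ B, ∀ l ∈ Λ, β + l ∈ B)
    (hs : Pool.Agent.G3.Simp Λ) (hfin : ∀ a : Vd (1 + 1), a ≠ 0 → ∃ S : Set (Vd (1 + 1)), S.Finite ∧ ∀ β ∈ Ba D B a, ∃ s ∈ S, β - s ∈ Λ) :
    Pool.Agent.G3.LDi D ∧ Pool.Agent.G3.HPl D B := by
  have _ := hB
  constructor
  · intro a ha b z
    have h1 := lgx_iso G ha (hfin a ha) (z • a + b)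
    have h2 : Tendsto (fun w : ℂ => w - z) (𝓝[≠] z) (𝓝[≠] (0 : ℂ)) := by
      refine tendsto_nhdsWithin_of_tendsto_nhds_of_eventually_within _ ?_ ?_
      · have h3 : Continuous (fun w : ℂ => w - z) := by fun_prop
        have h4 := h3.tendsto z
        rw [sub_self] at h4
        exact h4.mono_left nhdsWithin_le_nhds
      · filter_upwards [self_mem_nhdsWithin] with w hw
        exact sub_ne_zero.2 hw
    filter_upwards [h2.eventually h1] with w hw
    have h3 : z • a + b + (w - z) • a = w • a + b := by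
      rw [sub_smul]
      abel
    rwa [h3] at hw
  · intro a ha b
    obtain ⟨ω, hω, hrank⟩ := lgx_rank hs ha
    obtain ⟨S, hS, hSB⟩ := hfin a ha
    have h1 : ∀ s : Vd (1 + 1), ∃ M : ℝ, ∀ z : ℂ, z • a + b - s ∈ Λ → ((starRingEnd ℂ) ω * z).im ≤ M := by
      intro s
      by_cases hex : ∃ z₁ : ℂ, z₁ • a + b - s ∈ Λ
      · obtain ⟨z₁, hz₁⟩ := hex
        refine ⟨((starRingEnd ℂ) ω * z₁).im, fun z hz => ?_⟩
        have h2 : (z - z₁) • a ∈ Λ := by
          have h3 := Λ.sub_mem hz hz₁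
          have h4 : z • a + b - s - (z₁ • a + b - s) = (z - z₁) • a := by
            rw [sub_smul]
            abel
          rwa [h4] at h3
        have h3 := hrank _ h2
        rw [mul_sub, Complex.sub_im] at h3
        linarith
      · push Not at hex
        exact ⟨0, fun z hz => absurd hz (hex z)⟩
    choose M hM using h1
    obtain ⟨η, hη⟩ := (hS.image M).bddAbove
    refine ⟨ω, η, hω, fun z hz hzD => ?_⟩
    have h2 : z • a + b ∉ Ba D B a := by
      intro hb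
      obtain ⟨s, hs, hsΛ⟩ := hSB _ hb
      have h3 := hM s z hsΛ
      have h4 : M s ≤ η := hη ⟨s, hs, rfl⟩
      have h5 : η < ((starRingEnd ℂ) ω * z).im := hz
      linarith
    constructor
    · intro hzB
      exact h2 ⟨hzD, Or.inl hzB⟩
    · by_contra ht
      exact h2 ⟨hzD, Or.inr ht⟩

end Pool.Agent.G3.A
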