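import Pool.Agent.G3.A.Wdg

/-!
# G3 A MD: the maximum principle for the distance of two curves

Normalised lifts `F`, `G` on `ball z₀ 2` (`NL` for `δ`).  `E z • wg (F z) (G z)` is holomorphic on `ball z₀ 2`; on the circle its norm is `≤ C dist ‖F‖ ‖G‖ ‖E‖ ≤ C M`; maximum principle
(`Complex.norm_le_of_forall_mem_frontier_norm_le`); at `z` we have `‖F z‖, ‖G z‖ ≥ c`.
-/

set_option autoImplicit false

open Topology Filter Metric

namespace Pool.Agent.G3.A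

open Pool.Agent.H36.BP (EN fs wd)
open Pool.Agent.H14.PP (IsCone CurveAt Tan)
open Pool.Agent.H62.EF (MN pr)
open Pool.Agent.AD (Vd Chart Charts IsGerm)
open Pool.Agent.TG
open Pool.Agent.G3.C (Gc HP)

variable {N k : ℕ} {X : Set (EN N)} {Λ : AddSubgroup (Vd (k + 1))} {u : EN N → Vd (k + 1)} {D B Bad : Set (Vd (k + 1))} {a : Vd (k + 1)}

theorem md (hX : IsCone X) (hN : NL X Λ u D a) {δ : ℝ} (hδ : 0 < δ) : ∃ C : ℝ, 0 < C ∧ ∀ y y' : Vd (k + 1), ∀ f ∈ Hc X Λ u a y, ∀ g ∈ Hc X Λ u a y', ∀ (z₀ : ℂ) (r : ℝ),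
    0 < r → r ≤ 1 → ∀ E : ℂ → ℂ, DifferentiableOn ℂ E (ball z₀ 2) → ∀ M : ℝ, (∀ z : ℂ, ‖z - z₀‖ = r → dist (f z) (g z) * ‖E z‖ ≤ M) →
    ∀ z ∈ closedBall z₀ r, y + z • a ∈ Gd D δ → y' + z • a ∈ Gd D δ → dist (f z) (g z) * ‖E z‖ ≤ C * M := by
  obtain ⟨c, hc, hcN⟩ := hN δ hδ
  obtain ⟨C, hC, hw⟩ := wg_dist N
  refine ⟨C * C / (c * c), by positivity, ?_⟩
  intro y y' f hf g hg z₀ r hr hr1 E hE M hM z hz hy hy'
  obtain ⟨F, hF, hFX, hFc⟩ := hcN y f hf z₀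
  obtain ⟨G, hG, hGX, hGc⟩ := hcN y' g hg z₀
  have hne : ∀ x ∈ X, x ≠ 0 := fun x hx h => hX.zero_notMem (h ▸ hx)
  have hsub : closedBall z₀ r ⊆ ball z₀ 2 := fun w hw' => by
    rw [mem_closedBall] at hw'
    rw [mem_ball]
    linarith
  have hφ : DifferentiableOn ℂ (fun w => E w • wg (F w) (G w)) (ball z₀ 2) := hE.smul (wg_diff hF hG)
  have hbd : ∀ w ∈ frontier (ball z₀ r), ‖E w • wg (F w) (G w)‖ ≤ C * M := by
    intro w hw'
    rw [frontier_ball z₀ hr.ne'] at hw'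
    have hwr : ‖w - z₀‖ = r := by
      rw [← dist_eq_norm]
      exact hw'
    have hwb : w ∈ ball z₀ 2 := hsub (sphere_subset_closedBall hw')
    obtain ⟨h1, h2, h3⟩ := hFX w hwb
    obtain ⟨h4, h5, h6⟩ := hGX w hwb
    have h7 := (hw (F w) (G w) (hne _ h1) (hne _ h4)).1
    have h8 := hM w hwr
    rw [h2, h5] at h8
    have h9 : 0 ≤ dist (pr (F w)) (pr (G w)) := dist_nonneg
    have h10 : ‖F w‖ * ‖G w‖ ≤ 1 := mul_le_one₀ h3 (norm_nonneg _) h6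
    rw [norm_smul]
    calc ‖E w‖ * ‖wg (F w) (G w)‖ ≤ ‖E w‖ * (C * dist (pr (F w)) (pr (G w)) * ‖F w‖ * ‖G w‖) :=
          mul_le_mul_of_nonneg_left h7 (norm_nonneg _)
      _ = C * (dist (pr (F w)) (pr (G w)) * ‖E w‖) * (‖F w‖ * ‖G w‖) := by ring
      _ ≤ C * (dist (pr (F w)) (pr (G w)) * ‖E w‖) * 1 := mul_le_mul_of_nonneg_left h10 (by positivity)
      _ ≤ C * M := by
          rw [mul_one]
          exact mul_le_mul_of_nonneg_left h8 hC.le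
  have hcl : DiffContOnCl ℂ (fun w => E w • wg (F w) (G w)) (ball z₀ r) := by
    refine DifferentiableOn.diffContOnCl ?_
    rw [closure_ball z₀ hr.ne']
    exact hφ.mono hsub
  have hmax : ‖E z • wg (F z) (G z)‖ ≤ C * M := by
    refine Complex.norm_le_of_forall_mem_frontier_norm_le isBounded_ball hcl hbd ?_
    rw [closure_ball z₀ hr.ne']
    exact hz
  have hz1 : z ∈ closedBall z₀ 1 := by
    rw [mem_closedBall] at hz ⊢
    linarith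
  have hz2 : z ∈ ball z₀ 2 := hsub hz
  obtain ⟨h1, h2, -⟩ := hFX z hz2
  obtain ⟨h4, h5, -⟩ := hGX z hz2
  have h7 := (hw (F z) (G z) (hne _ h1) (hne _ h4)).2
  have h8 := hFc z hz1 hy
  have h9 := hGc z hz1 hy'
  rw [norm_smul] at hmax
  rw [h2, h5]
  have h10 : 0 ≤ dist (pr (F z)) (pr (G z)) * ‖E z‖ := by positivity
  have h11 : c * c ≤ ‖F z‖ * ‖G z‖ := mul_le_mul h8 h9 hc.le (norm_nonneg _)
  rw [div_mul_eq_mul_div, le_div_iff₀ (by positivity)]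
  calc dist (pr (F z)) (pr (G z)) * ‖E z‖ * (c * c) ≤ dist (pr (F z)) (pr (G z)) * ‖E z‖ * (‖F z‖ * ‖G z‖) :=
        mul_le_mul_of_nonneg_left h11 h10
    _ = dist (pr (F z)) (pr (G z)) * ‖F z‖ * ‖G z‖ * ‖E z‖ := by ring
    _ ≤ C * ‖wg (F z) (G z)‖ * ‖E z‖ := mul_le_mul_of_nonneg_right h7 (norm_nonneg _)
    _ = C * (‖E z‖ * ‖wg (F z) (G z)‖) := by ring
    _ ≤ C * (C * M) := mul_le_mul_of_nonneg_left hmax hC.le
    _ = C * C * M := by ring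

end Pool.Agent.G3.A
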