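import Mathlib

/-!
# The log-divergent case of Lemma U

A holomorphic function on the open first quadrant with `|P z| ≤ C exp (-c |z|^2)` vanishes.
Sector form: the same on a translated and rotated quadrant.
-/

set_option autoImplicit false

namespace Pool.Agent.G3

open Complex Filter Topology Asymptotics

/-- half-plane form: `|F w| ≤ C exp (-c |w|)` on `0 < re w`, `F` differentiable near the closed
half plane, implies `F = 0`. -/
theorem half_zero {F : ℂ → ℂ} {C c : ℝ} (hc : 0 < c)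
    (hF : DifferentiableOn ℂ F {w | 0 ≤ w.re})
    (hb : ∀ w : ℂ, 0 ≤ w.re → ‖F w‖ ≤ C * Real.exp (-c * ‖w‖)) :
    ∀ w : ℂ, 0 < w.re → F w = 0 := by
  have hC : 0 ≤ C := by
    have h := hb 0 (by simp)
    have h2 : 0 ≤ ‖F 0‖ := norm_nonneg _
    simp at h
    linarith
  set k : ℝ := 2 * c / Real.pi with hk
  have hkpos : 0 < k := by positivity
  -- the exponent
  set E : ℝ → ℂ → ℂ := fun A w => -(k : ℂ) * ((w + 1) * log (w + 1)) + (A : ℂ) * w with hE
  have hslit : ∀ w : ℂ, 0 ≤ w.re → w + 1 ∈ slitPlane := by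
    intro w hw
    left
    simp
    linarith
  have hEdiff : ∀ A, DifferentiableOn ℂ (E A) {w | 0 ≤ w.re} := by
    intro A w hw
    have h1 : DifferentiableAt ℂ (fun w : ℂ => w + 1) w := by fun_prop
    have h2 : DifferentiableAt ℂ (fun w : ℂ => log (w + 1)) w := h1.clog (hslit w hw)
    have h3 : DifferentiableAt ℂ (E A) w := by
      simp only [hE]
      exact (((h1.mul h2).const_mul _).add (differentiableAt_id.const_mul _))
    exact h3.differentiableWithinAt
  -- real part of the exponent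
  have hre : ∀ (A : ℝ) (w : ℂ), 0 ≤ w.re →
      (E A w).re ≤ c * ‖w‖ + A * w.re - k * ((w.re + 1) * Real.log ‖w + 1‖) := by
    intro A w hw
    have harg : |arg (w + 1)| ≤ Real.pi / 2 := by
      rw [abs_arg_le_pi_div_two_iff]
      simp
      linarith
    have h1 : (E A w).re = -k * ((w.re + 1) * Real.log ‖w + 1‖ - w.im * arg (w + 1))
        + A * w.re := by
      simp only [hE, add_re, mul_re, neg_re, ofReal_re, neg_im, ofReal_im, neg_zero, zero_mul,
        sub_zero, one_re, log_re, log_im, add_im, one_im, add_zero]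
    rw [h1]
    have h2 : w.im * arg (w + 1) ≤ ‖w‖ * (Real.pi / 2) := by
      calc w.im * arg (w + 1) ≤ |w.im * arg (w + 1)| := le_abs_self _
        _ = |w.im| * |arg (w + 1)| := abs_mul _ _
        _ ≤ ‖w‖ * (Real.pi / 2) := by
          apply mul_le_mul (abs_im_le_norm w) harg (abs_nonneg _) (norm_nonneg _)
    have h3 : k * (‖w‖ * (Real.pi / 2)) = c * ‖w‖ := by
      rw [hk]; field_simp
    nlinarith [mul_le_mul_of_nonneg_left h2 hkpos.le]
  have hlog : ∀ w : ℂ, 0 ≤ w.re → Real.log (w.re + 1) ≤ Real.log ‖w + 1‖ := by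
    intro w hw
    apply Real.log_le_log (by linarith)
    have := re_le_norm (w + 1)
    simpa using this
  have hlog0 : ∀ w : ℂ, 0 ≤ w.re → 0 ≤ Real.log ‖w + 1‖ := by
    intro w hw
    refine le_trans ?_ (hlog w hw)
    apply Real.log_nonneg
    linarith
  -- main bound
  have hmain : ∀ (A : ℝ) (w : ℂ), 0 ≤ w.re →
      ‖F w * cexp (E A w)‖ ≤ C * Real.exp (A * w.re - k * ((w.re + 1) * Real.log ‖w + 1‖)) := by
    intro A w hw
    rw [norm_mul, norm_exp]
    calc ‖F w‖ * Real.exp (E A w).re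
        ≤ (C * Real.exp (-c * ‖w‖)) *
          Real.exp (c * ‖w‖ + A * w.re - k * ((w.re + 1) * Real.log ‖w + 1‖)) := by
          apply mul_le_mul (hb w hw) (Real.exp_le_exp.2 (hre A w hw)) (Real.exp_pos _).le
          positivity
      _ = _ := by
          rw [mul_assoc, ← Real.exp_add]
          congr 2
          ring
  have hmain2 : ∀ (A : ℝ) (w : ℂ), 0 ≤ w.re →
      ‖F w * cexp (E A w)‖ ≤ C * Real.exp (A * w.re) := by
    intro A w hw
    refine (hmain A w hw).trans ?_
    apply mul_le_mul_of_nonneg_left _ hC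
    apply Real.exp_le_exp.2
    have : 0 ≤ k * ((w.re + 1) * Real.log ‖w + 1‖) :=
      mul_nonneg hkpos.le (mul_nonneg (by linarith) (hlog0 w hw))
    linarith
  -- Phragmen-Lindelof
  have hPL : ∀ A : ℝ, 0 ≤ A → ∀ w : ℂ, 0 ≤ w.re → ‖F w * cexp (E A w)‖ ≤ C := by
    intro A hA w hw
    have hd : DiffContOnCl ℂ (fun w => F w * cexp (E A w)) {z : ℂ | 0 < z.re} := by
      apply DifferentiableOn.diffContOnCl
      have hcl : closure {z : ℂ | 0 < z.re} = {z : ℂ | 0 ≤ z.re} := by
        exact Complex.closure_setOfPred_lt_re 0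
      rw [hcl]
      exact hF.mul (hEdiff A).cexp
    refine PhragmenLindelof.right_half_plane_of_tendsto_zero_on_real
      (f := fun w => F w * cexp (E A w)) hd ?_ ?_ ?_ hw
    · refine ⟨1, by norm_num, A, ?_⟩
      apply IsBigO.of_bound C
      rw [Filter.eventually_inf_principal]
      filter_upwards with z hz
      have hz' : 0 ≤ z.re := le_of_lt hz
      refine (hmain2 A z hz').trans ?_
      rw [Real.norm_eq_abs, abs_of_pos (Real.exp_pos _)]
      apply mul_le_mul_of_nonneg_left _ hC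
      apply Real.exp_le_exp.2
      rw [Real.rpow_one]
      exact mul_le_mul_of_nonneg_left (re_le_norm z) hA
    · -- tends to zero on the positive reals
      have h1 : Tendsto (fun x : ℝ => C * Real.exp (x * (A - k * Real.log (x + 1)))) atTop
          (𝓝 (C * 0)) := by
        apply Tendsto.const_mul
        apply Real.tendsto_exp_atBot.comp
        apply Tendsto.atTop_mul_atBot₀ tendsto_id
        have h2 : Tendsto (fun x : ℝ => Real.log (x + 1)) atTop atTop :=
          Real.tendsto_log_atTop.comp (tendsto_atTop_add_const_right _ _ tendsto_id)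
        have h3 : Tendsto (fun x : ℝ => k * Real.log (x + 1)) atTop atTop :=
          Tendsto.const_mul_atTop hkpos h2
        have h4 : Tendsto (fun x : ℝ => A + -(k * Real.log (x + 1))) atTop atBot :=
          tendsto_atBot_add_const_left _ _ (tendsto_neg_atTop_atBot.comp h3)
        simpa [sub_eq_add_neg] using h4
      rw [mul_zero] at h1
      apply squeeze_zero_norm' _ h1
      filter_upwards [eventually_ge_atTop (0 : ℝ)] with x hx
      have hx' : 0 ≤ ((x : ℂ)).re := by simpa using hx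
      refine (hmain A x hx').trans ?_
      apply mul_le_mul_of_nonneg_left _ hC
      apply Real.exp_le_exp.2
      have h5 := hlog x hx'
      simp only [ofReal_re] at h5 ⊢
      have h6 : 0 ≤ Real.log (x + 1) := Real.log_nonneg (by linarith)
      have h7 : x * Real.log (x + 1) ≤ (x + 1) * Real.log ‖(x : ℂ) + 1‖ := by
        calc x * Real.log (x + 1) ≤ (x + 1) * Real.log (x + 1) := by
              apply mul_le_mul_of_nonneg_right _ h6; linarith
          _ ≤ _ := mul_le_mul_of_nonneg_left h5 (by linarith)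
      nlinarith [mul_le_mul_of_nonneg_left h7 hkpos.le]
    · intro x
      have := hmain2 A (x * I) (by simp)
      simpa using this
  intro w hw
  by_contra hne
  have hpos : 0 < ‖F w‖ * Real.exp (E 0 w).re := by
    have : 0 < ‖F w‖ := norm_pos_iff.2 hne
    positivity
  have hA : ∀ A : ℝ, 0 ≤ A → (‖F w‖ * Real.exp (E 0 w).re) * Real.exp (A * w.re) ≤ C := by
    intro A hA
    have h := hPL A hA w hw.le
    rw [norm_mul, norm_exp] at h
    have h2 : (E A w).re = (E 0 w).re + A * w.re := by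
      simp [hE]
    rw [h2, Real.exp_add] at h
    linarith [h]
  -- choose A large
  set B := ‖F w‖ * Real.exp (E 0 w).re with hB
  have h := hA (C / B / w.re) (by positivity)
  have h2 : C / B / w.re * w.re = C / B := by field_simp
  rw [h2] at h
  have h3 : C / B + 1 ≤ Real.exp (C / B) := Real.add_one_le_exp _
  have h4 : B * (C / B + 1) ≤ B * Real.exp (C / B) := mul_le_mul_of_nonneg_left h3 hpos.le
  have h5 : B * (C / B + 1) = C + B := by field_simp
  linarith

/-- square root of a point of the right half plane. -/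
theorem sqrt_re_pos {v : ℂ} (hv : 0 < v.re) :
    |(v ^ (2⁻¹ : ℂ)).im| < (v ^ (2⁻¹ : ℂ)).re ∧ (v ^ (2⁻¹ : ℂ)) ^ 2 = v := by
  have hne : v ≠ 0 := by
    intro h; rw [h] at hv; simp at hv
  have hsq : (v ^ (2⁻¹ : ℂ)) ^ 2 = v := by
    have := cpow_nat_inv_pow v (n := 2) (by norm_num)
    simpa using this
  have hpos : 0 < (v ^ (2⁻¹ : ℂ)).re := by
    rw [cpow_def_of_ne_zero hne, exp_re]
    apply mul_pos (Real.exp_pos _)
    have h1 : (log v * 2⁻¹).im = arg v / 2 := by
      have : (log v * 2⁻¹ : ℂ) = log v / ((2 : ℝ) : ℂ) := by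
        push_cast; ring
      rw [this, div_ofReal_im, log_im]
    rw [h1]
    have h2 : |arg v| < Real.pi / 2 := abs_arg_lt_pi_div_two_iff.2 (Or.inl hv)
    rw [abs_lt] at h2
    apply Real.cos_pos_of_mem_Ioo
    constructor <;> [skip; skip] <;> · have := Real.pi_pos; linarith [h2.1, h2.2]
  refine ⟨?_, hsq⟩
  have h3 : (v ^ (2⁻¹ : ℂ)).re ^ 2 - (v ^ (2⁻¹ : ℂ)).im ^ 2 = v.re := by
    have h4 := congrArg Complex.re hsq
    rw [sq, mul_re] at h4
    nlinarith [h4]
  apply abs_lt_of_sq_lt_sq (by nlinarith) hpos.le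

/-- Log-divergent case of Lemma U on the open first quadrant. -/
theorem quad_zero {P : ℂ → ℂ} {C c : ℝ} (hc : 0 < c)
    (hP : DifferentiableOn ℂ P {z | 0 < z.re ∧ 0 < z.im})
    (hb : ∀ z : ℂ, 0 < z.re → 0 < z.im → ‖P z‖ ≤ C * Real.exp (-c * ‖z‖ ^ 2)) :
    ∀ z : ℂ, 0 < z.re → 0 < z.im → P z = 0 := by
  have hC : 0 ≤ C := by
    have h := hb (1 + I) (by simp) (by simp)
    have h2 : 0 ≤ ‖P (1 + I)‖ := norm_nonneg _
    by_contra hneg
    rw [not_le] at hneg
    have h3 : C * Real.exp (-c * ‖(1 + I : ℂ)‖ ^ 2) < 0 :=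
      mul_neg_of_neg_of_pos hneg (Real.exp_pos _)
    linarith
  intro z hzr hzi
  set a : ℝ := Real.sqrt 2 / 2 with ha
  have ha2 : a * a = 1 / 2 := by
    rw [ha, div_mul_div_comm, Real.mul_self_sqrt (by norm_num)]; norm_num
  have hapos : 0 < a := by positivity
  set ω : ℂ := ⟨a, a⟩ with hω
  set W : ℂ := -I * z ^ 2 with hW
  have hWre : W.re = 2 * z.re * z.im := by
    simp only [hW, sq, mul_re, neg_re, I_re, neg_zero, zero_mul, neg_im, I_im, mul_im, zero_sub]
    ring
  have hWpos : 0 < W.re := by rw [hWre]; positivity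
  set η : ℝ := W.re / 2 with hη
  have hηpos : 0 < η := by positivity
  set g : ℂ → ℂ := fun w => ω * (w + η) ^ (2⁻¹ : ℂ) with hg
  have hre : ∀ w : ℂ, 0 ≤ w.re → 0 < (w + (η : ℂ)).re := by
    intro w hw
    simp only [add_re, ofReal_re]
    linarith
  have hgslit : ∀ w : ℂ, 0 ≤ w.re → w + η ∈ slitPlane := fun w hw => Or.inl (hre w hw)
  have hgq : ∀ w : ℂ, 0 ≤ w.re → 0 < (g w).re ∧ 0 < (g w).im := by
    intro w hw
    obtain ⟨h1, -⟩ := sqrt_re_pos (hre w hw)
    rw [abs_lt] at h1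
    constructor
    · have : (g w).re = a * (((w + η) ^ (2⁻¹ : ℂ)).re - ((w + η) ^ (2⁻¹ : ℂ)).im) := by
        simp only [hg, hω, mul_re]; ring
      rw [this]
      apply mul_pos hapos; linarith [h1.2]
    · have : (g w).im = a * (((w + η) ^ (2⁻¹ : ℂ)).re + ((w + η) ^ (2⁻¹ : ℂ)).im) := by
        simp only [hg, hω, mul_im]; ring
      rw [this]
      apply mul_pos hapos; linarith [h1.1]
  have hωn : ‖ω‖ = 1 := by
    have h1 : ‖ω‖ ^ 2 = 1 := by
      rw [← normSq_eq_norm_sq, normSq_apply]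
      simp only [hω]
      linarith
    have h2 : 0 ≤ ‖ω‖ := norm_nonneg _
    nlinarith
  have hgn : ∀ w : ℂ, 0 ≤ w.re → ‖g w‖ ^ 2 = ‖w + η‖ := by
    intro w hw
    obtain ⟨-, h1⟩ := sqrt_re_pos (hre w hw)
    have h2 : ‖(w + (η : ℂ)) ^ (2⁻¹ : ℂ)‖ ^ 2 = ‖w + η‖ := by
      rw [← norm_pow, h1]
    simp only [hg]
    rw [norm_mul, hωn, one_mul, h2]
  have hgd : DifferentiableOn ℂ g {w | 0 ≤ w.re} := by
    intro w hw
    have h1 : DifferentiableAt ℂ (fun w : ℂ => w + (η : ℂ)) w := by fun_prop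
    have h2 : DifferentiableAt ℂ (fun w : ℂ => (w + (η : ℂ)) ^ (2⁻¹ : ℂ)) w :=
      h1.cpow_const (hgslit w hw)
    exact (h2.const_mul ω).differentiableWithinAt
  have hFd : DifferentiableOn ℂ (fun w => P (g w)) {w | 0 ≤ w.re} :=
    hP.comp hgd (fun w hw => hgq w hw)
  have hFb : ∀ w : ℂ, 0 ≤ w.re → ‖P (g w)‖ ≤ C * Real.exp (-c * ‖w‖) := by
    intro w hw
    refine (hb _ (hgq w hw).1 (hgq w hw).2).trans ?_
    apply mul_le_mul_of_nonneg_left _ hC
    apply Real.exp_le_exp.2
    rw [hgn w hw]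
    have h1 : ‖w‖ ≤ ‖w + η‖ := by
      apply le_of_sq_le_sq _ (norm_nonneg _)
      rw [← normSq_eq_norm_sq, ← normSq_eq_norm_sq, normSq_apply, normSq_apply]
      simp only [add_re, ofReal_re, add_im, ofReal_im, add_zero]
      nlinarith
    nlinarith
  have hzero := half_zero hc hFd hFb (W - η) (by
    simp only [sub_re, ofReal_re]; linarith)
  -- `g (W - η) = z`
  set s : ℂ := ⟨a * (z.re + z.im), a * (z.im - z.re)⟩ with hs
  have hs2 : s ^ 2 = W := by
    apply Complex.ext
    · rw [hWre, sq, mul_re]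
      simp only [hs]
      nlinarith [ha2]
    · simp only [hW, hs, sq, mul_im, mul_re, neg_re, I_re, neg_im, I_im]
      nlinarith [ha2]
  have hsr : 0 < s.re := by
    simp only [hs]; positivity
  have hgz : g (W - η) = z := by
    have h1 : W ^ (2⁻¹ : ℂ) = s := by rw [← hs2]; exact sq_cpow_two_inv hsr
    simp only [hg, sub_add_cancel, h1]
    apply Complex.ext
    · simp only [hω, hs, mul_re]
      nlinarith [ha2]
    · simp only [hω, hs, mul_im]
      nlinarith [ha2]
  rw [hgz] at hzero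
  exact hzero

/-- Sector form: a translated and rotated quadrant. -/
theorem sector_zero {P : ℂ → ℂ} {C c : ℝ} (hc : 0 < c) {z0 ω : ℂ} (hω : ‖ω‖ = 1)
    (hP : DifferentiableOn ℂ P {z | ∃ u : ℂ, 0 < u.re ∧ 0 < u.im ∧ z = z0 + ω * u})
    (hb : ∀ u : ℂ, 0 < u.re → 0 < u.im →
      ‖P (z0 + ω * u)‖ ≤ C * Real.exp (-c * ‖z0 + ω * u‖ ^ 2)) :
    ∀ u : ℂ, 0 < u.re → 0 < u.im → P (z0 + ω * u) = 0 := by
  have hC : 0 ≤ C := by
    have h := hb (1 + I) (by simp) (by simp)
    have h2 : 0 ≤ ‖P (z0 + ω * (1 + I))‖ := norm_nonneg _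
    by_contra hneg
    rw [not_le] at hneg
    have h3 : C * Real.exp (-c * ‖(z0 + ω * (1 + I) : ℂ)‖ ^ 2) < 0 :=
      mul_neg_of_neg_of_pos hneg (Real.exp_pos _)
    linarith
  have hd : DifferentiableOn ℂ (fun u => P (z0 + ω * u)) {u | 0 < u.re ∧ 0 < u.im} := by
    apply hP.comp
    · intro u _
      apply DifferentiableAt.differentiableWithinAt
      fun_prop
    · intro u hu
      exact ⟨u, hu.1, hu.2, rfl⟩
  refine quad_zero (P := fun u => P (z0 + ω * u)) (C := C * Real.exp (c * ‖z0‖ ^ 2))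
    (c := c / 2) (by positivity) hd ?_
  intro u h1 h2
  refine (hb u h1 h2).trans ?_
  rw [mul_assoc, ← Real.exp_add]
  apply mul_le_mul_of_nonneg_left _ hC
  apply Real.exp_le_exp.2
  have h3 : ‖u‖ ≤ ‖z0 + ω * u‖ + ‖z0‖ := by
    have h4 : ‖ω * u‖ = ‖u‖ := by rw [norm_mul, hω, one_mul]
    rw [← h4]
    calc ‖ω * u‖ = ‖(z0 + ω * u) - z0‖ := by congr 1; ring
      _ ≤ _ := norm_sub_le _ _
  have h5 : ‖u‖ ^ 2 ≤ 2 * ‖z0 + ω * u‖ ^ 2 + 2 * ‖z0‖ ^ 2 := by
    have h6 : ‖u‖ ^ 2 ≤ (‖z0 + ω * u‖ + ‖z0‖) ^ 2 :=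
      pow_le_pow_left₀ (norm_nonneg _) h3 2
    nlinarith [sq_nonneg (‖z0 + ω * u‖ - ‖z0‖)]
  nlinarith

end Pool.Agent.G3
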