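import Pool.Agent.G3.A.Defs
import Pool.Agent.TG.XTan
import Pool.Agent.TG.ChN

/-!
# G3 A Rstr: straight charts at the points of the curves over the points which are not bad

Off `D` the map `u` is a submersion (`Geo.sub`).  At a point `v` of `D` which is not in `B`, at which `a` is not tangent to `D`: `u = κ (x ^ m y ^ n, s)` (`Geo.nc`); along the curve
`κ (nm m n (q w)) = y + w a`, so `x ^ m y ^ n` has a nonzero derivative there and `m + n = 1`: `u` is a submersion.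
-/

set_option autoImplicit false

open Topology Filter Metric

namespace Pool.Agent.G3.A

open Pool.Agent.H36.BP (EN fs wd)
open Pool.Agent.H14.PP (IsCone CurveAt Tan)
open Pool.Agent.H62.EF (MN pr)
open Pool.Agent.AD (Vd Chart Charts IsGerm)
open Pool.Agent.TG
open Pool.Agent.G3.C (Gc HP)

variable {N k d : ℕ} {X : Set (EN N)} {Λ : AddSubgroup (Vd (k + 1))} {u : EN N → Vd (k + 1)} {D B : Set (Vd (k + 1))} {a : Vd (k + 1)}

/-- change of the coordinates of a germ -/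
private theorem rstr_germ {σ : Vd d → EN N} {τ : EN N → Vd d} (h : IsGerm X σ τ) {P R : Vd d → Vd d} (hP : AnalyticAt ℂ P 0) (hP0 : P 0 = 0)
    (hR : AnalyticAt ℂ R 0) (hRP : ∀ᶠ p in 𝓝 (0 : Vd d), R (P p) = p) (hPR : ∀ᶠ q in 𝓝 (0 : Vd d), P (R q) = q) :
    IsGerm X (fun p => σ (P p)) (fun x => R (τ x)) := by
  have hτ0 : τ (σ 0) = 0 := h.left.self_of_nhds
  have hPt : Tendsto P (𝓝 0) (𝓝 0) := by
    have := hP.continuousAt.tendsto
    rwa [hP0] at this
  have hτt : Tendsto τ (𝓝 (σ 0)) (𝓝 0) := by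
    have := h.τ_an.continuousAt.tendsto
    rwa [hτ0] at this
  refine ⟨?_, ?_, ?_, ?_, ?_, ?_⟩
  · have h1 : AnalyticAt ℂ σ (P 0) := by
      rw [hP0]
      exact h.σ_an
    exact h1.fun_comp hP
  · exact hPt.eventually h.σ_mem
  · show AnalyticAt ℂ (fun x => R (τ x)) (σ (P 0))
    rw [hP0]
    have h1 : AnalyticAt ℂ R (τ (σ 0)) := by
      rw [hτ0]
      exact hR
    exact h1.fun_comp h.τ_an
  · filter_upwards [hPt.eventually h.left, hRP] with p h1 h2
    show R (τ (σ (P p))) = p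
    rw [h1, h2]
  · show ∀ᶠ y in 𝓝 (σ (P 0)), y ∈ X → ∃ c : ℂ, c ≠ 0 ∧ y = c • σ (P (R (τ y)))
    rw [hP0]
    filter_upwards [h.right, hτt.eventually hPR] with y h1 h2 hy
    rw [h2]
    exact h1 hy
  · show ∀ᶠ z in 𝓝 (σ (P 0), (1 : ℂ)), R (τ (z.2 • z.1)) = R (τ z.1)
    rw [hP0]
    filter_upwards [h.inv] with z hz
    rw [hz]

private theorem rstr_nm0 {m n : ℕ} (h : 0 < m + n) : nm m n (0 : Vd (k + 2)) = 0 := by
  funext i
  refine Fin.cases ?_ (fun i => rfl) i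
  show (0 : ℂ) ^ m * (0 : ℂ) ^ n = 0
  rw [← pow_add, zero_pow h.ne']

private theorem rstr_nm_an (m n : ℕ) : AnalyticAt ℂ (nm (k := k) m n) 0 := by
  refine analyticAt_pi_iff.2 fun i => ?_
  refine Fin.cases ?_ (fun i => ?_) i
  · exact (((ContinuousLinearMap.proj (R := ℂ) (φ := fun _ : Fin (k + 2) => ℂ) 0).analyticAt _).pow m).mul
      (((ContinuousLinearMap.proj (R := ℂ) (φ := fun _ : Fin (k + 2) => ℂ) 1).analyticAt _).pow n)
  · exact (ContinuousLinearMap.proj (R := ℂ) (φ := fun _ : Fin (k + 2) => ℂ) i.succ.succ).analyticAt _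

/-- the splitting of the coordinates for `m + n = 1` -/
private theorem rstr_split {m n : ℕ} (h : m + n = 1) :
    ∃ (Q : ℂ → Vd (k + 1) → Vd (k + 2)) (s : Fin (k + 2)), (∀ t w, nm m n (Q t w) = w) ∧ (∀ t w, Q t w s = t) ∧
      (∀ q, Q (q s) (nm m n q) = q) ∧ ∀ i, (∀ t w, Q t w i = t) ∨ ∃ j, ∀ t w, Q t w i = w j := by
  have h1 : (m = 1 ∧ n = 0) ∨ (m = 0 ∧ n = 1) := by omega
  rcases h1 with ⟨rfl, rfl⟩ | ⟨rfl, rfl⟩
  · refine ⟨fun t w => Fin.cons (α := fun _ => ℂ) (w 0) (Fin.cons (α := fun _ => ℂ) t fun i : Fin k => w i.succ), 1, ?_, fun t w => rfl, ?_, ?_⟩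
    · intro t w
      funext i
      refine Fin.cases ?_ (fun i => rfl) i
      show w 0 ^ 1 * t ^ 0 = w 0
      rw [pow_one, pow_zero, mul_one]
    · intro q
      funext i
      refine Fin.cases ?_ (fun i => ?_) i
      · show q 0 ^ 1 * q 1 ^ 0 = q 0
        rw [pow_one, pow_zero, mul_one]
      · refine Fin.cases rfl (fun i => rfl) i
    · intro i
      refine Fin.cases ?_ (fun i => ?_) i
      · exact Or.inr ⟨0, fun t w => rfl⟩
      · refine Fin.cases ?_ (fun i => ?_) i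
        · exact Or.inl fun t w => rfl
        · exact Or.inr ⟨i.succ, fun t w => rfl⟩
  · refine ⟨fun t w => Fin.cons (α := fun _ => ℂ) t w, 0, ?_, fun t w => rfl, ?_, ?_⟩
    · intro t w
      funext i
      refine Fin.cases ?_ (fun i => rfl) i
      show t ^ 0 * w 0 ^ 1 = w 0
      rw [pow_one, pow_zero, one_mul]
    · intro q
      funext i
      refine Fin.cases rfl (fun i => ?_) i
      refine Fin.cases ?_ (fun i => rfl) i
      show q 0 ^ 0 * q 1 ^ 1 = q 1
      rw [pow_one, pow_zero, one_mul]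
    · intro i
      refine Fin.cases ?_ (fun i => ?_) i
      · exact Or.inl fun t w => rfl
      · exact Or.inr ⟨i, fun t w => rfl⟩

/-- the case `m + n = 1` -/
private theorem rstr_one {κ : Vd (k + 1) → Vd (k + 1)} {v : Vd (k + 1)} (hκ : IsCoord D κ v) {x : EN N} {σ : Vd (k + 2) → EN N} {τ : EN N → Vd (k + 2)}
    {m n : ℕ} (hG : IsGerm X σ τ) (hσ0 : σ 0 = x) (hmn : m + n = 1) (hnm : ∀ᶠ p in 𝓝 (0 : Vd (k + 2)), u (σ p) - κ (nm m n p) ∈ Λ) :
    IsStr X Λ u x v := by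
  obtain ⟨Q, s, hQ1, hQ2, hQ3, hQ4⟩ := rstr_split (k := k) hmn
  obtain ⟨ψ, hψ, hψκ, hκψ, hψ0⟩ := Pool.Agent.H62.BU.local_inverse hκ.an fun w hw => hκ.inj (by rw [hw, map_zero])
  rw [hκ.zero] at hψ hκψ hψ0
  have hm0 : nm m n (0 : Vd (k + 2)) = 0 := rstr_nm0 (by omega)
  have htl : AnalyticAt ℂ (fun p : Vd (k + 2) => v + tl p) 0 := by
    refine analyticAt_const.add (analyticAt_pi_iff.2 fun i => ?_)
    exact (ContinuousLinearMap.proj (R := ℂ) (φ := fun _ : Fin (k + 2) => ℂ) i.succ).analyticAt _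
  have htl0 : v + tl (0 : Vd (k + 2)) = v := by
    have h1 : tl (0 : Vd (k + 2)) = 0 := rfl
    rw [h1, add_zero]
  have hψt : AnalyticAt ℂ (fun p : Vd (k + 2) => ψ (v + tl p)) 0 := by
    have h1 : AnalyticAt ℂ ψ (v + tl (0 : Vd (k + 2))) := by
      rw [htl0]
      exact hψ
    exact AnalyticAt.fun_comp (f := fun p : Vd (k + 2) => v + tl p) h1 htl
  have htt : Tendsto (fun p : Vd (k + 2) => v + tl p) (𝓝 0) (𝓝 v) := by
    have h1 := htl.continuousAt.tendsto
    rwa [htl0] at h1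
  set P : Vd (k + 2) → Vd (k + 2) := fun p => Q (p 0) (ψ (v + tl p)) with hPd
  set R : Vd (k + 2) → Vd (k + 2) := fun q => Fin.cons (α := fun _ => ℂ) (q s) (κ (nm m n q) - v) with hRd
  have hP : AnalyticAt ℂ P 0 := by
    refine analyticAt_pi_iff.2 fun i => ?_
    rcases hQ4 i with h1 | ⟨j, h1⟩
    · have h2 : (fun p => P p i) = fun p : Vd (k + 2) => p 0 := funext fun p => h1 _ _
      rw [h2]
      exact (ContinuousLinearMap.proj (R := ℂ) (φ := fun _ : Fin (k + 2) => ℂ) 0).analyticAt _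
    · have h2 : (fun p => P p i) = fun p : Vd (k + 2) => ψ (v + tl p) j := funext fun p => h1 _ _
      rw [h2]
      exact analyticAt_pi_iff.1 hψt j
  have hP0 : P 0 = 0 := by
    have h1 := hQ3 0
    rw [hm0] at h1
    show Q 0 (ψ (v + tl 0)) = 0
    rw [htl0, hψ0]
    exact h1
  have hκn : AnalyticAt ℂ (fun q : Vd (k + 2) => κ (nm m n q)) 0 := by
    have h1 : AnalyticAt ℂ κ (nm m n (0 : Vd (k + 2))) := by
      rw [hm0]
      exact hκ.an
    exact h1.fun_comp (rstr_nm_an m n)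
  have hR : AnalyticAt ℂ R 0 := by
    refine analyticAt_pi_iff.2 fun i => ?_
    refine Fin.cases ?_ (fun i => ?_) i
    · exact (ContinuousLinearMap.proj (R := ℂ) (φ := fun _ : Fin (k + 2) => ℂ) s).analyticAt _
    · exact analyticAt_pi_iff.1 (hκn.sub analyticAt_const) i
  have hnt : Tendsto (nm (k := k) m n) (𝓝 0) (𝓝 0) := by
    have h1 := (rstr_nm_an (k := k) m n).continuousAt.tendsto
    rwa [hm0] at h1
  have hRP : ∀ᶠ p in 𝓝 (0 : Vd (k + 2)), R (P p) = p := by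
    filter_upwards [htt.eventually hκψ] with p hp
    funext i
    refine Fin.cases ?_ (fun i => ?_) i
    · exact hQ2 _ _
    · show (κ (nm m n (Q (p 0) (ψ (v + tl p)))) - v) i = p i.succ
      rw [hQ1, hp, add_sub_cancel_left]
      rfl
  have hPR : ∀ᶠ q in 𝓝 (0 : Vd (k + 2)), P (R q) = q := by
    filter_upwards [hnt.eventually hψκ] with q hq
    have h1 : tl (R q) = κ (nm m n q) - v := rfl
    show Q (q s) (ψ (v + tl (R q))) = q
    rw [h1, add_sub_cancel, hq, hQ3]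
  have hPt : Tendsto P (𝓝 0) (𝓝 0) := by
    have h1 := hP.continuousAt.tendsto
    rwa [hP0] at h1
  refine ⟨fun p => σ (P p), fun x => R (τ x), rstr_germ hG hP hP0 hR hRP hPR, ?_, ?_⟩
  · show σ (P 0) = x
    rw [hP0, hσ0]
  · filter_upwards [hPt.eventually hnm, htt.eventually hκψ] with p h1 h2
    have h3 : nm m n (P p) = ψ (v + tl p) := hQ1 _ _
    rw [h3, h2] at h1
    exact h1

/-- the derivative of `x ^ m * y ^ n` along a curve -/
private theorem rstr_der {f g : ℂ → ℂ} {z f' g' : ℂ} (hf : HasDerivAt f f' z) (hg : HasDerivAt g g' z) (hf0 : f z = 0) (hg0 : g z = 0) {m n : ℕ}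
    (h : 2 ≤ m + n) : HasDerivAt (fun w => f w ^ m * g w ^ n) 0 z := by
  have h1 := (hf.fun_pow m).fun_mul (hg.fun_pow n)
  have h2 : (m : ℂ) * f z ^ (m - 1) * f' * g z ^ n + f z ^ m * ((n : ℂ) * g z ^ (n - 1) * g') = 0 := by
    rw [hf0, hg0]
    rcases Nat.lt_or_ge m 2 with hm | hm
    · interval_cases m
      · have h3 : n - 1 ≠ 0 := by omega
        rw [zero_pow h3]
        simp
      · have h3 : n ≠ 0 := by omega
        rw [zero_pow h3]
        simp
    · have h3 : m - 1 ≠ 0 := by omega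
      have h4 : m ≠ 0 := by omega
      rw [zero_pow h3, zero_pow h4]
      simp
  rwa [h2] at h1

/-- `u` is a submersion at the points of a curve over the points which are not bad -/
private theorem rstr_nc (G : Geo X Λ u D B) {v y : Vd (k + 1)} (ht : TransAt D v a) {κ : Vd (k + 1) → Vd (k + 1)} (hκ : IsCoord D κ v) {F : ℂ → EN N}
    {z : ℂ} (hnc : IsNC X Λ u κ (F z)) (hF : AnalyticAt ℂ F z) (hFX : ∀ w, F w ∈ X) (hv : y + z • a = v) (hFu : ∀ w, u (F w) - (y + w • a) ∈ Λ) :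
    IsStr X Λ u (F z) v := by
  obtain ⟨σ, τ, m, n, hG, hσ0, hmn, hnm⟩ := hnc
  rcases Nat.lt_or_ge (m + n) 2 with hlt | hge
  · exact rstr_one hκ hG hσ0 (by omega) hnm
  exfalso
  have hτ0 : τ (σ 0) = 0 := hG.left.self_of_nhds
  have hm0 : nm m n (0 : Vd (k + 2)) = 0 := rstr_nm0 hmn
  -- the coordinates of the curve
  set q : ℂ → Vd (k + 2) := fun w => τ (F w) with hqd
  have hq : AnalyticAt ℂ q z := by
    have h1 : AnalyticAt ℂ τ (F z) := by
      rw [← hσ0]
      exact hG.τ_an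
    exact h1.fun_comp hF
  have hq0 : q z = 0 := by
    show τ (F z) = 0
    rw [← hσ0, hτ0]
  have hFt : Tendsto F (𝓝 z) (𝓝 (σ 0)) := by
    rw [hσ0]
    exact hF.continuousAt.tendsto
  have hqt : Tendsto q (𝓝 z) (𝓝 0) := by
    have h1 := hq.continuousAt.tendsto
    rwa [hq0] at h1
  have hmem : ∀ᶠ w in 𝓝 z, κ (nm m n (q w)) - (y + w • a) ∈ Λ := by
    filter_upwards [hFt.eventually hG.right, hqt.eventually hG.σ_mem, hqt.eventually hnm] with w h1 h2 h3
    obtain ⟨c, hc, h4⟩ := h1 (hFX w)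
    have h5 := G.tor.smul _ h2 c hc
    have h6 : c • σ (q w) = F w := h4.symm
    rw [h6] at h5
    have h7 := Λ.sub_mem (Λ.sub_mem (hFu w) h5) h3
    have h8 : u (F w) - (y + w • a) - (u (F w) - u (σ (q w))) - (u (σ (q w)) - κ (nm m n (q w))) = κ (nm m n (q w)) - (y + w • a) := by abel
    rwa [h8] at h7
  obtain ⟨δ, hδ, hdisc⟩ := G.lat.disc
  have hκn : AnalyticAt ℂ (fun w => κ (nm m n (q w))) z := by
    have h1 : AnalyticAt ℂ (nm (k := k) m n) (q z) := by
      rw [hq0]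
      exact rstr_nm_an m n
    have h2 : AnalyticAt ℂ κ (nm m n (q z)) := by
      rw [hq0, hm0]
      exact hκ.an
    exact AnalyticAt.fun_comp (f := fun w => nm m n (q w)) h2 (h1.fun_comp hq)
  have hlin : HasDerivAt (fun w : ℂ => y + w • a) a z := by
    have h1 := ((hasDerivAt_id z).smul_const a).const_add y
    simpa using h1
  have heq : ∀ᶠ w in 𝓝 z, κ (nm m n (q w)) = y + w • a := by
    have h1 : ContinuousAt (fun w => κ (nm m n (q w)) - (y + w • a)) z := hκn.continuousAt.sub hlin.continuousAt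
    have h2 : Tendsto (fun w => κ (nm m n (q w)) - (y + w • a)) (𝓝 z) (𝓝 0) := by
      have h3 := h1.tendsto
      rwa [hq0, hm0, hκ.zero, hv, sub_self] at h3
    filter_upwards [hmem, h2.eventually (ball_mem_nhds 0 hδ)] with w h3 h4
    exact sub_eq_zero.1 (hdisc _ h3 (mem_ball_zero_iff.1 h4))
  -- the derivative
  have hnq : AnalyticAt ℂ (fun w => nm m n (q w)) z := by
    have h1 : AnalyticAt ℂ (nm (k := k) m n) (q z) := by
      rw [hq0]
      exact rstr_nm_an m n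
    exact h1.fun_comp hq
  have hd1 : HasDerivAt (fun w => κ (nm m n (q w))) (fderiv ℂ κ 0 (deriv (fun w => nm m n (q w)) z)) z := by
    have h1 : HasFDerivAt κ (fderiv ℂ κ 0) (nm m n (q z)) := by
      rw [hq0, hm0]
      exact hκ.an.differentiableAt.hasFDerivAt
    exact h1.comp_hasDerivAt z hnq.differentiableAt.hasDerivAt
  have hd2 : fderiv ℂ κ 0 (deriv (fun w => nm m n (q w)) z) = a := by
    refine hd1.unique (hlin.congr_of_eventuallyEq ?_)
    filter_upwards [heq] with w hw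
    exact hw
  refine ht.2 κ hκ _ ?_ hd2
  have h1 : HasDerivAt (fun w => nm m n (q w) 0) (deriv (fun w => nm m n (q w)) z 0) z := hasDerivAt_pi.1 hnq.differentiableAt.hasDerivAt 0
  have hqd : HasDerivAt q (deriv q z) z := hq.differentiableAt.hasDerivAt
  have h2 : HasDerivAt (fun w => q w 0 ^ m * q w 1 ^ n) 0 z :=
    rstr_der (hasDerivAt_pi.1 hqd 0) (hasDerivAt_pi.1 hqd 1) (by rw [hq0]; rfl) (by rw [hq0]; rfl) hge
  exact h1.unique h2

/-- straight charts at the points of a curve over the points which are not bad -/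
theorem reg_str (G : Geo X Λ u D B) {y : Vd (k + 1)} {f : ℂ → MN N} (hf : f ∈ Hc X Λ u a y) {z : ℂ} (h : y + z • a ∈ D → y + z • a ∉ B ∧ TransAt D (y + z • a) a) :
    ∃ (χ : Chart (k + 2) X) (c : Vd (k + 1)) (ρ : ℝ) (p : Vd (k + 2)), Str Λ u χ c ρ ∧ p ∈ ball (0 : Vd (k + 2)) 2 ∧ ms c ρ p = y + z • a ∧ f z = pr (χ.σ p) := by
  obtain ⟨F, ⟨hF1, hF2, hF3⟩, rfl⟩ := hf
  have hstr : IsStr X Λ u (F z) (y + z • a) := by
    by_cases hD : y + z • a ∈ D
    · obtain ⟨hB, ht⟩ := h hD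
      obtain ⟨κ, hκ, hnc⟩ := G.nc _ hD hB
      exact rstr_nc G ht hκ (hnc _ (hF2 z) (hF3 z)) (hF1.analyticAt z) hF2 rfl hF3
    · exact G.sub _ hD _ (hF2 z) (hF3 z)
  obtain ⟨χ, ρ, hU, hq, hs, -⟩ := exists_str_chart G.cone G.tor hstr one_pos
  refine ⟨χ, y + z • a, ρ, 0, hs, mem_ball_self two_pos, ?_, ?_⟩
  · have h1 : tl (0 : Vd (k + 2)) = 0 := rfl
    rw [ms, h1, smul_zero, add_zero]
  · obtain ⟨-, c, hc, h1⟩ := χ.surj _ (hF2 z) hU
    rw [hq] at h1
    show pr (F z) = pr (χ.σ 0)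
    rw [h1, Pool.Agent.H62.EF.pr_smul _ hc]

end Pool.Agent.G3.A
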