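import Pool.Agent.G3.A.Shts
import Pool.Agent.G3.A.Rstr
import Pool.Agent.G3.R.SmoX
import Pool.Agent.G3.R.Hol
import Pool.Agent.G3.C.TDefs

/-!
# G3 A RegOut: the output of block (REG)

`reg_smo`: smoothness of the sheets in a real direction, off `D` (note 3714: divided differences of all orders are bounded).  `reg_hol`: the sheets over `b + ⊤ = Vd (k + 1)` are holomorphic off `D` (the
derivatives in the directions `w` and `i w` exist, are continuous, and `∂_{iw} - i ∂_w` is `0` by the limit lemma).  Only `CE` is used of the subspace `E`, not the density.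
`reg_str`: in `A/Rstr`.
-/

set_option autoImplicit false

open Topology Filter Metric

namespace Pool.Agent.G3.A

open Pool.Agent.H36.BP (EN fs wd)
open Pool.Agent.H14.PP (IsCone CurveAt Tan)
open Pool.Agent.H62.EF (MN pr)
open Pool.Agent.AD (Vd Chart Charts IsGerm)
open Pool.Agent.TG
open Pool.Agent.G3.C (Gc HP)

variable {N k : ℕ} {X : Set (EN N)} {Λ : AddSubgroup (Vd (k + 1))} {u : EN N → Vd (k + 1)} {D B Bad : Set (Vd (k + 1))} {a : Vd (k + 1)}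

variable {J r : ℕ} {α : Fin J → VForm X Λ u} {c₀ C₀ ρ δ : ℝ} {Γ : AddSubgroup (Vd (k + 1))} {W : Fin r → Vd (k + 1) →L[ℂ] ℂ} {E : Submodule ℝ (Vd (k + 1))}
  {b ν : Vd (k + 1)}

theorem reg_smo (S : DA X Λ u D B Bad a α c₀ C₀ ρ δ) (_hF : Frm X Λ u D Γ W α) (hE : CE X Λ u a b E)
    (hν : ∀ v, v ∈ E ↔ ∃ (s : ℝ) (z : ℂ), v = (s : ℂ) • ν + z • a) {φ : Vd (k + 1) → MN N} (hφ : Sht X Λ u D a (Tb b E) φ) {s : ℝ} {z : ℂ}
    (h : b + (s : ℂ) • ν + z • a ∉ D) : Pool.Agent.G3.C.Smo X Λ u a ν b (fun s z => φ (b + (s : ℂ) • ν + z • a)) s z := by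
  obtain ⟨SS, hS, hall⟩ := Pool.Agent.G3.R.exists_shs S hE
  obtain ⟨φ', hφ', he⟩ := hall φ hφ
  have hνE : ν ∈ E := (hν ν).2 ⟨1, 0, by simp⟩
  have hfun : (fun (s : ℝ) (z : ℂ) => φ (b + (s : ℂ) • ν + z • a)) = fun (s : ℝ) (z : ℂ) => φ' (b + (s : ℂ) • ν + z • a) := by
    funext s z
    refine he _ ?_
    show b + (s : ℂ) • ν + z • a - b ∈ E
    have e : b + (s : ℂ) • ν + z • a - b = (s : ℂ) • ν + z • a := by abel
    rw [e]
    exact (hν _).2 ⟨s, z, rfl⟩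
  rw [hfun]
  exact Pool.Agent.G3.R.smo_sheet S hS hνE hφ' h

theorem reg_hol (S : DA X Λ u D B Bad a α c₀ C₀ ρ δ) (_hF : Frm X Λ u D Γ W α) (hE : CE X Λ u a b ⊤) {φ : Vd (k + 1) → MN N} (hφ : Sht X Λ u D a (Tb b ⊤) φ)
    {y : Vd (k + 1)} (hy : y ∉ D) : ∃ ψ : Vd (k + 1) → EN N, AnalyticAt ℂ ψ y ∧ ∀ᶠ z in 𝓝 y, ψ z ∈ X ∧ φ z = pr (ψ z) ∧ u (ψ z) - z ∈ Λ := by
  obtain ⟨SS, hS, hall⟩ := Pool.Agent.G3.R.exists_shs S hE
  obtain ⟨φ', hφ', he⟩ := hall φ hφ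
  have hfun : φ = φ' := funext fun z => he z (Submodule.mem_top (R := ℝ) (x := z - b))
  rw [hfun]
  exact Pool.Agent.G3.R.sheet_hol S hS hφ' hy

end Pool.Agent.G3.A
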