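import Pool.Agent.G3.A.Defs
import Pool.Agent.TG.GuD
import Pool.Agent.TG.GuL

/-!
# G3 A Sat: the set `B` may be replaced by `B + Λ`
-/

set_option autoImplicit false

open Topology Filter Metric

namespace Pool.Agent.G3.A

open Pool.Agent.H36.BP (EN fs wd)
open Pool.Agent.H14.PP (IsCone CurveAt Tan)
open Pool.Agent.H62.EF (MN pr)
open Pool.Agent.AD (Vd Chart Charts IsGerm)
open Pool.Agent.TG

variable {N k : ℕ}

theorem lat_countable {Λ : AddSubgroup (Vd (k + 1))} (h : Lat Λ) : (Λ : Set (Vd (k + 1))).Countable := by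
  obtain ⟨δ, hδ, h1⟩ := h.disc
  have hdisc : DiscreteTopology Λ := by
    refine DiscreteTopology.of_forall_le_dist hδ ?_
    intro x y hxy
    by_contra hlt
    push Not at hlt
    apply hxy
    apply Subtype.ext
    have h2 := h1 ((x : Vd (k + 1)) - y) (Λ.sub_mem x.2 y.2) (by
      rw [← dist_eq_norm]; exact hlt)
    exact sub_eq_zero.1 h2
  have : Countable Λ := TopologicalSpace.separableSpace_iff_countable.1 inferInstance
  exact Set.countable_coe_iff.1 this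

/-- the set `B` may be replaced by a `Λ`-invariant set -/
theorem exists_sat {X : Set (EN N)} {Λ : AddSubgroup (Vd (1 + 1))} {u : EN N → Vd (1 + 1)} {D B : Set (Vd (1 + 1))} (G : Geo X Λ u D B)
    (hB : ∃ S : Set (Vd (1 + 1)), S.Finite ∧ ∀ b ∈ B, ∃ s ∈ S, b - s ∈ Λ) :
    ∃ B' : Set (Vd (1 + 1)), B ⊆ B' ∧ Geo X Λ u D B' ∧ (∀ β ∈ B', ∀ l ∈ Λ, β + l ∈ B') ∧ ∃ S : Set (Vd (1 + 1)), S.Finite ∧ ∀ b ∈ B', ∃ s ∈ S, b - s ∈ Λ := by
  obtain ⟨S, hS, hB⟩ := hB
  have hsub : B ⊆ {b | ∃ l ∈ Λ, b + l ∈ B} := fun b hb => ⟨0, Λ.zero_mem, by rw [add_zero]; exact hb⟩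
  have hfin : ∀ b ∈ {b | ∃ l ∈ Λ, b + l ∈ B}, ∃ s ∈ S, b - s ∈ Λ := by
    rintro b ⟨l, hl, hb⟩
    obtain ⟨s, hs, h1⟩ := hB _ hb
    exact ⟨s, hs, by have := Λ.sub_mem h1 hl; rwa [show b + l - s - l = b - s by abel] at this⟩
  have hcount : ({b | ∃ l ∈ Λ, b + l ∈ B} : Set (Vd (1 + 1))).Countable := by
    have h1 : (⋃ s ∈ S, (fun l => l + s) '' (Λ : Set (Vd (1 + 1)))).Countable :=
      hS.countable.biUnion fun s _ => (lat_countable G.lat).image _
    refine h1.mono fun b hb => ?_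
    obtain ⟨s, hs, h2⟩ := hfin b hb
    exact Set.mem_biUnion hs ⟨b - s, h2, by simp⟩
  have hsmall : Pool.Agent.TGF.IsSmall ({b | ∃ l ∈ Λ, b + l ∈ B} : Set (Vd (1 + 1))) := by
    refine Or.inr ?_
    rw [hcount.dimH_zero]
    norm_num
  refine ⟨{b | ∃ l ∈ Λ, b + l ∈ B}, hsub, ?_, ?_, S, hS, hfin⟩
  · exact { cone := G.cone, charts := G.charts, tor := G.tor, lat := G.lat, D_closed := G.D_closed, D_inv := G.D_inv, D_thin := G.D_thin,
            B_lines := fun _ he => hsmall.lines he, sub := G.sub, fib := G.fib, nc := fun y hy hyB => G.nc y hy fun h => hyB (hsub h) }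
  · rintro β ⟨l, hl, hb⟩ l' hl'
    exact ⟨l - l', Λ.sub_mem hl hl', by rwa [show β + l' + (l - l') = β + l by abel]⟩

end Pool.Agent.G3.A
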