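import Pool.Agent.G3.A.RegOut
import Pool.Agent.G3.A.Gr

/-!
# G3 A TDt: the data of block (C)

`LT = {l | l.1 ν + l.2 a ∈ Λ}`, `Dt = {(σ, z) | b + σ ν + z a ∈ D}`, `Bd` the same with `Bad`, `FF` = the maps `fun s z => φ (b + s ν + z a)`, `φ ∈ SS` (`sht_finite`).  The linear isomorphism
`(σ, z) ↦ σ ν + z a` and `LC.sep` give the separation for the sup norm (constant `ρ'`).  `tr`: `sht_add` and `sht_finite`.  `dns`: `ToE.dns` for `v = s ν`.  `cpt`: `ToE.cpt`.  `smo`, `str`: `RegOut`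
(`LC.bad`, `DA.good`).  `bd_half`: `LC.strip`.
-/

set_option autoImplicit false

open Topology Filter Metric

namespace Pool.Agent.G3.A

open Pool.Agent.H36.BP (EN fs wd)
open Pool.Agent.H14.PP (IsCone CurveAt Tan)
open Pool.Agent.H62.EF (MN pr)
open Pool.Agent.AD (Vd Chart Charts IsGerm)
open Pool.Agent.TG
open Pool.Agent.G3.C (Gc HP)

variable {N k : ℕ} {X : Set (EN N)} {Λ : AddSubgroup (Vd (k + 1))} {u : EN N → Vd (k + 1)} {D B Bad : Set (Vd (k + 1))} {a : Vd (k + 1)}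

variable {J r : ℕ} {α : Fin J → VForm X Λ u} {c₀ C₀ ρ δ : ℝ} {Γ : AddSubgroup (Vd (k + 1))} {W : Fin r → Vd (k + 1) →L[ℂ] ℂ} {E : Submodule ℝ (Vd (k + 1))}
  {b ν : Vd (k + 1)}

/-- the linear map `(s, z) ↦ s ν + z a` -/
private def tdL (ν a : Vd (k + 1)) : ℂ × ℂ →ₗ[ℂ] Vd (k + 1) where
  toFun p := p.1 • ν + p.2 • a
  map_add' p q := by
    simp only [Prod.fst_add, Prod.snd_add, add_smul]
    abel
  map_smul' c p := by
    simp only [Prod.smul_fst, Prod.smul_snd, smul_eq_mul, mul_smul, smul_add, RingHom.id_apply]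

/-- the additive map `(s, z) ↦ s ν + z a` for real `s` -/
private def tdT (ν a : Vd (k + 1)) : ℝ × ℂ →+ Vd (k + 1) where
  toFun l := (l.1 : ℂ) • ν + l.2 • a
  map_zero' := by simp
  map_add' p q := by
    simp only [Prod.fst_add, Prod.snd_add, Complex.ofReal_add, add_smul]
    abel

private theorem tdL_anti (huni : ∀ s z : ℂ, s • ν + z • a = 0 → s = 0 ∧ z = 0) : ∃ K : ℝ, 0 < K ∧ ∀ p : ℂ × ℂ, ‖p‖ ≤ K * ‖p.1 • ν + p.2 • a‖ := by
  have hker : LinearMap.ker (tdL ν a) = ⊥ := by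
    rw [LinearMap.ker_eq_bot']
    intro p hp
    obtain ⟨h1, h2⟩ := huni p.1 p.2 hp
    exact Prod.ext h1 h2
  obtain ⟨K, hK, hKa⟩ := (tdL ν a).exists_antilipschitzWith hker
  refine ⟨K, by exact_mod_cast hK, fun p => ?_⟩
  have h := hKa.le_mul_dist p 0
  rw [dist_zero_right, map_zero, dist_zero_right] at h
  exact h

private theorem tdL_le (hn : ‖a‖ = 1) (p : ℂ × ℂ) : ‖p.1 • ν + p.2 • a‖ ≤ (‖ν‖ + 1) * ‖p‖ := by
  have h1 : ‖p.1‖ ≤ ‖p‖ := norm_fst_le p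
  have h2 : ‖p.2‖ ≤ ‖p‖ := norm_snd_le p
  calc ‖p.1 • ν + p.2 • a‖ ≤ ‖p.1 • ν‖ + ‖p.2 • a‖ := norm_add_le _ _
    _ = ‖p.1‖ * ‖ν‖ + ‖p.2‖ := by rw [norm_smul, norm_smul, hn, mul_one]
    _ ≤ (‖ν‖ + 1) * ‖p‖ := by nlinarith [mul_le_mul_of_nonneg_right h1 (norm_nonneg ν)]

theorem exists_tdat (S : DA X Λ u D B Bad a α c₀ C₀ ρ δ) (hF : Frm X Λ u D Γ W α) (hE : ToE Λ a E) (hbas : ∀ v : Vd (k + 1), ∃ s z : ℂ, v = s • ν + z • a)
    (huni : ∀ s z : ℂ, s • ν + z • a = 0 → s = 0 ∧ z = 0) (hν : ∀ v, v ∈ E ↔ ∃ (s : ℝ) (z : ℂ), v = (s : ℂ) • ν + z • a) (b : Vd (k + 1)) :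
    ∃ (LT : AddSubgroup (ℝ × ℂ)) (Dt Bd : Set (ℂ × ℂ)) (ρ' : ℝ) (FF : Set (ℝ → ℂ → MN N)), Pool.Agent.G3.C.TDat X Λ u a ν b LT Dt Bd ρ' FF ∧
      ∀ f ∈ Hc X Λ u a b, ∃ Φ ∈ FF, ∀ z : ℂ, Φ 0 z = f z := by
  classical
  have hCE : CE X Λ u a b E := hE.ce S b
  obtain ⟨K, hK, hKp⟩ := tdL_anti (ν := ν) (a := a) huni
  have hn := S.lg.norm
  have hT : ∀ (s : ℝ) (z : ℂ), b + (s : ℂ) • ν + z • a ∈ Tb b E := by
    intro s z
    show b + (s : ℂ) • ν + z • a - b ∈ E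
    rw [hν]
    exact ⟨s, z, by abel⟩
  have hT0 : ∀ s : ℝ, b + (s : ℂ) • ν ∈ Tb b E := by
    intro s
    have h := hT s 0
    rwa [zero_smul, add_zero] at h
  obtain ⟨SS, hSf, hS1, hS2, -⟩ := sht_finite S hCE
  have hEmem : ∀ l : ℝ × ℂ, (l.1 : ℂ) • ν + l.2 • a ∈ E := fun l => (hν _).2 ⟨l.1, l.2, rfl⟩
  have hpt : ∀ (s : ℝ) (z : ℂ) (l : ℝ × ℂ), b + ((s + l.1 : ℝ) : ℂ) • ν + (z + l.2) • a = b + (s : ℂ) • ν + z • a + ((l.1 : ℂ) • ν + l.2 • a) := by
    intro s z l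
    rw [Complex.ofReal_add, add_smul, add_smul]
    abel
  have hpt' : ∀ (β : ℂ × ℂ) (l : ℝ × ℂ), b + (β.1 + (l.1 : ℂ)) • ν + (β.2 + l.2) • a = b + β.1 • ν + β.2 • a + ((l.1 : ℂ) • ν + l.2 • a) := by
    intro β l
    rw [add_smul, add_smul]
    abel
  refine ⟨Λ.comap (tdT ν a), {p | b + p.1 • ν + p.2 • a ∈ D}, {p | b + p.1 • ν + p.2 • a ∈ Bad}, ρ / (‖ν‖ + 1),
    (fun φ : Vd (k + 1) → MN N => fun (s : ℝ) (z : ℂ) => φ (b + (s : ℂ) • ν + z • a)) '' SS, ?_, ?_⟩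
  · refine
      { cone := S.geo.cone
        tor := S.geo.tor
        lat := S.geo.lat
        bas := hbas
        per := fun l hl => hl
        cpt := ?_
        dns := ?_
        sep := ?_
        bd_inv := ?_
        bd_half := ?_
        bd_sub := fun p hp => S.lg.bad_sub hp
        dt_closed := ?_
        dt_inv := ?_
        dt_iso := ?_
        fin := hSf.image _
        tr := ?_
        lift := ?_
        smo := ?_
        str := ?_
        gr := gr S.geo S.lg S.nl }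
    · -- cpt
      obtain ⟨R, hR, hRc⟩ := hE.cpt
      refine ⟨K * R, by positivity, fun q => ?_⟩
      obtain ⟨l, hl, hlE, hle⟩ := hRc _ (hEmem q)
      obtain ⟨s, z, rfl⟩ := (hν l).1 hlE
      refine ⟨(s, z), hl, ?_⟩
      have h1 := hKp (((q.1 - s : ℝ) : ℂ), q.2 - z)
      have h2 : ‖q - (s, z)‖ = ‖((((q.1 - s : ℝ) : ℂ), q.2 - z) : ℂ × ℂ)‖ := by
        rw [Prod.norm_def, Prod.norm_def, Complex.norm_real]
        rfl
      have h3 : (((q.1 - s : ℝ) : ℂ), q.2 - z).1 • ν + (((q.1 - s : ℝ) : ℂ), q.2 - z).2 • a = (q.1 : ℂ) • ν + q.2 • a - ((s : ℂ) • ν + z • a) := by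
        rw [Complex.ofReal_sub, sub_smul, sub_smul]
        abel
      rw [h3] at h1
      rw [h2]
      exact h1.trans (mul_le_mul_of_nonneg_left hle hK.le)
    · -- dns
      intro s
      rw [Metric.mem_closure_iff]
      intro ε hε
      obtain ⟨l, hl, hlE, z, hz⟩ := hE.dns _ (hEmem (s, 0)) (ε / (2 * K)) (by positivity)
      obtain ⟨s', z', rfl⟩ := (hν l).1 hlE
      refine ⟨s', ⟨z', hl⟩, ?_⟩
      have h1 := hKp (((s - s' : ℝ) : ℂ), -(z' + z))
      have h3 : (((s - s' : ℝ) : ℂ), -(z' + z)).1 • ν + (((s - s' : ℝ) : ℂ), -(z' + z)).2 • a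
          = (((s, (0 : ℂ)) : ℝ × ℂ).1 : ℂ) • ν + ((s, (0 : ℂ)) : ℝ × ℂ).2 • a - ((s' : ℂ) • ν + z' • a + z • a) := by
        simp only [Complex.ofReal_sub, sub_smul, neg_smul, add_smul, zero_smul]
        abel
      rw [h3] at h1
      have h4 : ‖(((s - s' : ℝ) : ℂ))‖ ≤ ‖((((s - s' : ℝ) : ℂ), -(z' + z)) : ℂ × ℂ)‖ :=
        norm_fst_le ((((s - s' : ℝ) : ℂ), -(z' + z)) : ℂ × ℂ)
      rw [Complex.norm_real] at h4
      rw [Real.dist_eq, ← Real.norm_eq_abs]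
      have h5 : K * (ε / (2 * K)) = ε / 2 := by
        field_simp
      have h6 := mul_le_mul_of_nonneg_left hz hK.le
      linarith
    · -- sep
      refine ⟨div_pos S.lc.ρ_pos (by positivity), fun β hβ β' hβ' hne => ?_⟩
      have h1 : b + β.1 • ν + β.2 • a ≠ b + β'.1 • ν + β'.2 • a := by
        intro h
        refine hne ?_
        have h2 : (β.1 - β'.1) • ν + (β.2 - β'.2) • a = 0 := by
          rw [sub_smul, sub_smul]
          have h3 := sub_eq_zero.2 h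
          rw [← h3]
          abel
        obtain ⟨h3, h4⟩ := huni _ _ h2
        exact Prod.ext (sub_eq_zero.1 h3) (sub_eq_zero.1 h4)
      have h2 := S.lc.sep _ hβ _ hβ' h1
      have h3 := tdL_le (ν := ν) (a := a) hn (β - β')
      have h4 : (β - β').1 • ν + (β - β').2 • a = b + β.1 • ν + β.2 • a - (b + β'.1 • ν + β'.2 • a) := by
        rw [Prod.fst_sub, Prod.snd_sub, sub_smul, sub_smul]
        abel
      rw [h4, ← dist_eq_norm β β'] at h3
      have h5 : 0 < ‖ν‖ + 1 := by positivity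
      have h6 : 8 * (ρ / (‖ν‖ + 1)) = (8 * ρ) / (‖ν‖ + 1) := by ring
      rw [h6, div_le_iff₀ h5]
      linarith
    · -- bd_inv
      intro β hβ l hl
      show b + (β.1 + (l.1 : ℂ)) • ν + (β.2 + l.2) • a ∈ Bad
      rw [hpt']
      exact S.lg.bad_inv _ hβ _ hl
    · -- bd_half
      intro s
      obtain ⟨ω, M, hω, hM⟩ := S.lc.strip (b + (s : ℂ) • ν)
      refine ⟨ω, M, hω, fun z hz hzB => ?_⟩
      have h1 := hM z hzB
      have h2 : M < ((starRingEnd ℂ) ω * z).im := hz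
      have h3 := le_abs_self ((starRingEnd ℂ) ω * z).im
      linarith
    · -- dt_closed
      refine S.lg.D_closed.preimage ?_
      fun_prop
    · -- dt_inv
      intro β hβ l hl
      show b + (β.1 + (l.1 : ℂ)) • ν + (β.2 + l.2) • a ∈ D
      rw [hpt']
      exact S.lg.D_inv _ hβ _ hl
    · -- dt_iso
      intro s z
      have h1 := S.lg.iso (b + (s : ℂ) • ν + z • a)
      have h2 : Tendsto (fun z' : ℂ => z' - z) (𝓝[≠] z) (𝓝[≠] 0) := by
        refine tendsto_nhdsWithin_iff.2 ⟨?_, ?_⟩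
        · have h3 : Tendsto (fun z' : ℂ => z' - z) (𝓝 z) (𝓝 (z - z)) := (continuous_id.sub continuous_const).tendsto z
          rw [sub_self] at h3
          exact h3.mono_left nhdsWithin_le_nhds
        · filter_upwards [self_mem_nhdsWithin] with z' hz'
          exact sub_ne_zero.2 hz'
      filter_upwards [h2.eventually h1] with z' hz' hz''
      refine hz' ?_
      have h3 : b + (s : ℂ) • ν + z • a + (z' - z) • a = b + (s : ℂ) • ν + z' • a := by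
        rw [sub_smul]
        abel
      rw [h3]
      exact hz''
    · -- tr
      rintro _ ⟨φ, hφ, rfl⟩ l hl
      have h1 := sht_add (hS1 φ hφ) S.lg (l := (l.1 : ℂ) • ν + l.2 • a) hl (hEmem l)
      obtain ⟨ψ, hψ, h2⟩ := hS2 _ h1
      refine ⟨ψ, hψ, ?_⟩
      funext s z
      have h3 := h2 _ (hT s z)
      show ψ (b + (s : ℂ) • ν + z • a) = φ (b + ((s + l.1 : ℝ) : ℂ) • ν + (z + l.2) • a)
      rw [← h3, hpt]
    · -- lift
      rintro _ ⟨φ, hφ, rfl⟩ s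
      obtain ⟨F, hF1, hF2⟩ := (hS1 φ hφ).line _ (hT0 s)
      exact ⟨F, hF1, fun z => congrFun hF2 z⟩
    · -- smo
      rintro _ ⟨φ, hφ, rfl⟩ s z h
      exact reg_smo S hF hCE hν (hS1 φ hφ) h
    · -- str
      rintro _ ⟨φ, hφ, rfl⟩ s z h
      obtain ⟨χ, c, ρ', p, h1, h2, h3, h4⟩ := reg_str S.geo ((hS1 φ hφ).line _ (hT0 s)) (z := z) fun hD => S.good _ hD h
      have h5 : Pool.Agent.G3.C.cz b ν a c ρ' (p 0) s z = p := by
        have h6 : Pool.Agent.G3.C.tz b ν a c ρ' s z = tl p := by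
          unfold Pool.Agent.G3.C.tz
          rw [← h3]
          unfold ms
          rw [add_sub_cancel_left, smul_smul, inv_mul_cancel₀, one_smul]
          have := h1.pos.ne'
          exact_mod_cast this
        unfold Pool.Agent.G3.C.cz
        rw [h6]
        funext i
        refine Fin.cases ?_ (fun j => ?_) i
        · rfl
        · rfl
      refine ⟨χ, c, ρ', p 0, h1, ?_, ?_⟩
      · rw [h5]
        exact h2
      · rw [h5]
        exact h4
  · intro f hf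
    obtain ⟨φ, hφ, h1⟩ := exists_sht S hCE hf
    obtain ⟨ψ, hψ, h2⟩ := hS2 φ hφ
    refine ⟨_, ⟨ψ, hψ, rfl⟩, fun z => ?_⟩
    have h3 := h2 _ (hT 0 z)
    show ψ (b + ((0 : ℝ) : ℂ) • ν + z • a) = f z
    rw [← h3, Complex.ofReal_zero, zero_smul, add_zero]
    exact h1 z

end Pool.Agent.G3.A
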