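import Pool.Agent.G3.A.Defs
import Pool.Agent.H62.BU.Inv

/-!
# G3 A TanA: the points of an analytic curve at which it is tangent to a direction are isolated (local theorem)

`tan_local`.  Linear coordinates `(ξ, ω)` with `ξ a = 0`, `ω a = 1`.  `local_trans`, `local_tan`: at a transversal point `D` is the graph `ω = g (ξ)`, at a tangency point the graph `ξ = φ (ω)` with
`φ' = 0` there, and `φ` is not constant (identity theorem on the line).  `Loc`: these data in a neighbourhood `ball x₀ r × closedBall w₀ R`, `2 R ≤ 1`, with no points on `|ω - w₀| = R`.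
`Om`: the `x` over which all points are transversal; `del x`: the product of the differences of the points of the fibre over `x ∈ Om`, `0` for `x ∉ Om`; `|del| ≤ 1` since all differences are at most `1`.
`del` is analytic at the points of `Om` (`del_an`), not zero there (`dlt_ne`), and analytic at the other points `x₁ ≠ x₀` (`del_an'`), since it tends to `0` there: every value near a critical value is taken
twice (`two_preimages`).  So `(x - x₀) del x` is analytic at `x₀`, and not identically zero: `iso_of_loc`.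
-/

set_option autoImplicit false

open Topology Filter Metric

namespace Pool.Agent.G3.A

open Pool.Agent.AD (Vd)
open Pool.Agent.TG

/-- coordinates adapted to the direction `a` -/
private theorem exists_coords {a : Vd (1 + 1)} (ha : a ≠ 0) : ∃ (ξ ω : Vd (1 + 1) →L[ℂ] ℂ) (e : Vd (1 + 1)), ξ a = 0 ∧ ω a = 1 ∧ ξ e = 1 ∧ ω e = 0 ∧
    ∀ q : Vd (1 + 1), ξ q • e + ω q • a = q := by
  by_cases h0 : a 0 = 0
  · have h1 : a 1 ≠ 0 := fun h1 => ha (by
      ext i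
      fin_cases i
      · exact h0
      · exact h1)
    refine ⟨ContinuousLinearMap.proj 0, (a 1)⁻¹ • ContinuousLinearMap.proj 1, Pi.single 0 1, by simpa using h0, by simp [h1], by simp, by simp, fun q => ?_⟩
    ext i
    fin_cases i
    · simp [h0]
    · simp
      field_simp
  · refine ⟨ContinuousLinearMap.proj 1 - (a 1 / a 0) • ContinuousLinearMap.proj 0, (a 0)⁻¹ • ContinuousLinearMap.proj 0, Pi.single 1 1, ?_, by simp [h0], by simp, by simp,
      fun q => ?_⟩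
    · simp
      field_simp
      ring
    · ext i
      fin_cases i
      · simp
        field_simp
      · simp
        field_simp
        ring

/-- the set `D` is a graph over the coordinate `ξ`, if its tangent line is transversal to `ξ = 0` -/
private theorem graph_of_coord {D : Set (Vd (1 + 1))} {κ : Vd (1 + 1) → Vd (1 + 1)} {q₁ : Vd (1 + 1)} (hκ : IsCoord D κ q₁) (ξ ω : Vd (1 + 1) →L[ℂ] ℂ)
    (hinj : ∀ v, ξ v = 0 → ω v = 0 → v = 0) (hξ : ξ (fderiv ℂ κ 0 (Pi.single 1 1)) ≠ 0) :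
    ∃ g : ℂ → ℂ, AnalyticAt ℂ g (ξ q₁) ∧ g (ξ q₁) = ω q₁ ∧ ∀ᶠ q in 𝓝 q₁, (q ∈ D ↔ ω q = g (ξ q)) := by
  obtain ⟨ψ, hψ, hψκ, hκψ, hψ0⟩ := Pool.Agent.H62.BU.local_inverse hκ.an (fun v hv => hκ.inj (by rw [hv, map_zero]))
  rw [hκ.zero] at hψ hκψ hψ0
  have hκd : HasFDerivAt κ (fderiv ℂ κ 0) 0 := hκ.an.differentiableAt.hasFDerivAt
  have hΘ : AnalyticAt ℂ (fun p : Vd (1 + 1) => (![ξ (κ p), p 0] : Vd (1 + 1))) 0 := by
    rw [analyticAt_pi_iff]
    intro i
    fin_cases i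
    · exact (ξ.analyticAt _).comp hκ.an
    · exact (ContinuousLinearMap.proj (R := ℂ) (φ := fun _ : Fin (1 + 1) => ℂ) 0).analyticAt 0
  have hΘd : HasFDerivAt (fun p : Vd (1 + 1) => (![ξ (κ p), p 0] : Vd (1 + 1)))
      (ContinuousLinearMap.pi ![ξ.comp (fderiv ℂ κ 0), ContinuousLinearMap.proj 0]) 0 := by
    rw [hasFDerivAt_pi']
    intro i
    fin_cases i
    · exact ξ.hasFDerivAt.comp 0 hκd
    · exact (ContinuousLinearMap.proj (R := ℂ) (φ := fun _ : Fin (1 + 1) => ℂ) 0).hasFDerivAt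
  obtain ⟨Sg, hS, hST, hTS, hS0⟩ := Pool.Agent.H62.BU.local_inverse hΘ (fun v hv => by
    rw [hΘd.fderiv] at hv
    have h1 := congrFun hv 0
    have h2 := congrFun hv 1
    simp only [ContinuousLinearMap.coe_pi', Matrix.cons_val_zero, Matrix.cons_val_one, ContinuousLinearMap.comp_apply, ContinuousLinearMap.proj_apply, Pi.zero_apply] at h1 h2
    have h3 : v = v 1 • Pi.single 1 1 := by
      ext i
      fin_cases i
      · simpa using h2
      · simp
    rw [h3, map_smul, map_smul, smul_eq_mul] at h1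
    rcases mul_eq_zero.mp h1 with h4 | h4
    · rw [h3, h4, zero_smul]
    · exact absurd h4 hξ)
  rw [hκ.zero] at hS hTS hS0
  have hcons : AnalyticAt ℂ (fun x : ℂ => (![x, 0] : Vd (1 + 1))) (ξ q₁) := by
    rw [analyticAt_pi_iff]
    intro i
    fin_cases i
    · exact analyticAt_id
    · exact analyticAt_const
  have hz : (![ξ q₁, (0 : Vd (1 + 1)) 0] : Vd (1 + 1)) = ![ξ q₁, 0] := rfl
  rw [hz] at hS hTS hS0
  have hg1 : AnalyticAt ℂ (fun x : ℂ => Sg ![x, 0]) (ξ q₁) := AnalyticAt.fun_comp hS hcons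
  have hg2 : AnalyticAt ℂ (fun x : ℂ => κ (Sg ![x, 0])) (ξ q₁) := by
    have h1 : AnalyticAt ℂ κ (Sg ![ξ q₁, 0]) := by
      rw [hS0]
      exact hκ.an
    exact AnalyticAt.fun_comp h1 hg1
  refine ⟨fun x => ω (κ (Sg ![x, 0])), AnalyticAt.fun_comp (ω.analyticAt _) hg2, ?_, ?_⟩
  · show ω (κ (Sg ![ξ q₁, 0])) = ω q₁
    rw [hS0, hκ.zero]
  · have t1 : Tendsto ψ (𝓝 q₁) (𝓝 0) := by
      have := hψ.continuousAt.tendsto
      rwa [hψ0] at this
    have t2 : Tendsto (fun q : Vd (1 + 1) => ξ q) (𝓝 q₁) (𝓝 (ξ q₁)) := ξ.continuous.continuousAt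
    have t3 : Tendsto (fun q : Vd (1 + 1) => Sg ![ξ q, 0]) (𝓝 q₁) (𝓝 0) := by
      have := hg1.continuousAt.tendsto.comp t2
      rw [hS0] at this
      exact this
    have t4 : Tendsto (fun q : Vd (1 + 1) => (![ξ q, 0] : Vd (1 + 1))) (𝓝 q₁) (𝓝 ![ξ q₁, 0]) := hcons.continuousAt.tendsto.comp t2
    filter_upwards [hκψ, t1.eventually hκ.mem_iff, t1.eventually hST, t3.eventually hψκ, t4.eventually hTS, hκψ] with q h1 h2 h3 h4 h5 h6
    rw [h1] at h2 h3
    have h51 := congrFun h5 0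
    have h52 := congrFun h5 1
    simp only [Matrix.cons_val_zero, Matrix.cons_val_one] at h51 h52
    constructor
    · intro hq
      rw [h2.mp hq] at h3
      rw [h3, h1]
    · intro hq
      have h7 : κ (Sg ![ξ q, 0]) = q := by
        have h8 := hinj (κ (Sg ![ξ q, 0]) - q) (by rw [map_sub, h51, sub_self]) (by rw [map_sub, ← hq, sub_self])
        exact sub_eq_zero.mp h8
      rw [h7] at h4
      rw [← h4] at h52
      exact h2.mpr h52

/-- if `D` is near `q'` contained in the zero set of `F`, and the derivative of `F` in the direction `a` is not zero, then `a` is transversal to `D` -/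
private theorem trans_of {D : Set (Vd (1 + 1))} {q' a : Vd (1 + 1)} (ha : a ≠ 0) {F : Vd (1 + 1) → ℂ} {F' : Vd (1 + 1) →L[ℂ] ℂ} (hF : HasFDerivAt F F' q')
    (h : ∀ᶠ q in 𝓝 q', q ∈ D → F q = 0) (hne : F' a ≠ 0) : TransAt D q' a := by
  refine ⟨ha, fun κ hκ p hp hpa => hne ?_⟩
  have h1 : HasDerivAt (fun s : ℂ => s • p) p 0 := by
    have := (hasDerivAt_id (0 : ℂ)).smul_const p
    simpa using this
  have h2 : HasDerivAt (fun s : ℂ => κ (s • p)) a 0 := by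
    have h3 : HasFDerivAt κ (fderiv ℂ κ 0) ((0 : ℂ) • p) := by
      rw [zero_smul]
      exact hκ.an.differentiableAt.hasFDerivAt
    have h4 := h3.comp_hasDerivAt (0 : ℂ) h1
    rwa [hpa] at h4
  have h5 : κ ((0 : ℂ) • p) = q' := by rw [zero_smul, hκ.zero]
  have h6 : HasDerivAt (fun s : ℂ => F (κ (s • p))) (F' a) 0 := by
    have h7 : HasFDerivAt F F' (κ ((0 : ℂ) • p)) := by rwa [h5]
    exact h7.comp_hasDerivAt (0 : ℂ) h2
  have t1 : Tendsto (fun s : ℂ => s • p) (𝓝 0) (𝓝 0) := by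
    have := h1.continuousAt.tendsto
    rwa [zero_smul] at this
  have t2 : Tendsto (fun s : ℂ => κ (s • p)) (𝓝 0) (𝓝 q') := by
    have := h2.continuousAt.tendsto
    rwa [h5] at this
  have h8 : HasDerivAt (fun s : ℂ => F (κ (s • p))) 0 0 := by
    refine (hasDerivAt_const (0 : ℂ) (0 : ℂ)).congr_of_eventuallyEq ?_
    filter_upwards [t1.eventually hκ.mem_iff, t2.eventually h] with s hs1 hs2
    refine hs2 (hs1.mpr ?_)
    show s • p 0 = 0
    rw [hp, smul_zero]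
  exact h6.unique h8


/-- near a critical point a nonconstant function takes every value at least twice -/
private theorem two_preimages {φ : ℂ → ℂ} {w₁ x₁ : ℂ} (hφ : AnalyticAt ℂ φ w₁) (h0 : φ w₁ = x₁) (hd : deriv φ w₁ = 0) (hnc : ¬ ∀ᶠ w in 𝓝 w₁, φ w = x₁) {ε : ℝ}
    (hε : 0 < ε) : ∀ᶠ x in 𝓝[≠] x₁, ∃ w w' : ℂ, w ≠ w' ∧ w ∈ ball w₁ ε ∧ w' ∈ ball w₁ ε ∧ φ w = x ∧ φ w' = x := by
  have hf : AnalyticAt ℂ (fun w => φ w - x₁) w₁ := hφ.sub analyticAt_const
  have hf0 : ¬ ∀ᶠ w in 𝓝 w₁, φ w - x₁ = 0 := fun h => hnc (h.mono fun w hw => sub_eq_zero.mp hw)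
  obtain ⟨n, g, hg, hg0, hgf⟩ := hf.exists_eventuallyEq_pow_smul_nonzero_iff.mpr hf0
  have hn0 : n ≠ 0 := by
    rintro rfl
    have h1 := hgf.self_of_nhds
    rw [h0, sub_self, pow_zero, one_smul] at h1
    exact hg0 h1.symm
  have hn1 : n ≠ 1 := by
    rintro rfl
    have h1 : HasDerivAt (fun w => (w - w₁) * g w) (1 * g w₁ + (w₁ - w₁) * deriv g w₁) w₁ :=
      ((hasDerivAt_id w₁).sub_const w₁).mul hg.differentiableAt.hasDerivAt
    have h2 : HasDerivAt (fun w => φ w - x₁) (1 * g w₁ + (w₁ - w₁) * deriv g w₁) w₁ := by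
      refine h1.congr_of_eventuallyEq ?_
      filter_upwards [hgf] with w hw
      rw [hw, pow_one, smul_eq_mul]
    have h3 : HasDerivAt (fun w => φ w - x₁) (deriv φ w₁) w₁ := hφ.differentiableAt.hasDerivAt.sub_const x₁
    have h4 := h2.unique h3
    rw [hd, sub_self, zero_mul, add_zero, one_mul] at h4
    exact hg0 h4
  have hn : 1 < n := by omega
  obtain ⟨c, hc⟩ := IsAlgClosed.exists_pow_nat_eq (g w₁) (n := n) (by omega)
  have hc0 : c ≠ 0 := by
    rintro rfl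
    rw [zero_pow hn0] at hc
    exact hg0 hc.symm
  have hv : AnalyticAt ℂ (fun w => c * Complex.exp (Complex.log (g w / g w₁) / n)) w₁ := by
    refine analyticAt_const.mul (AnalyticAt.cexp (AnalyticAt.div ?_ analyticAt_const (by exact_mod_cast hn0)))
    refine AnalyticAt.clog (hg.div analyticAt_const hg0) ?_
    rw [div_self hg0]
    exact Complex.one_mem_slitPlane
  have hvn : ∀ᶠ w in 𝓝 w₁, (c * Complex.exp (Complex.log (g w / g w₁) / n)) ^ n = g w := by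
    filter_upwards [hg.continuousAt.eventually_ne hg0] with w hw
    rw [mul_pow, hc, ← Complex.exp_nat_mul, mul_div_cancel₀ _ (by exact_mod_cast hn0 : (n : ℂ) ≠ 0), Complex.exp_log (div_ne_zero hw hg0)]
    field_simp
  set v : ℂ → ℂ := fun w => c * Complex.exp (Complex.log (g w / g w₁) / n) with hvdef
  have hv0 : v w₁ ≠ 0 := mul_ne_zero hc0 (Complex.exp_ne_zero _)
  have hψ : AnalyticAt ℂ (fun w => (w - w₁) * v w) w₁ := (analyticAt_id.sub analyticAt_const).mul hv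
  have hψd : HasDerivAt (fun w => (w - w₁) * v w) (1 * v w₁ + (w₁ - w₁) * deriv v w₁) w₁ :=
    ((hasDerivAt_id w₁).sub_const w₁).mul hv.differentiableAt.hasDerivAt
  obtain ⟨χ, hχ, hχψ, hψχ, hχ0⟩ := Pool.Agent.H62.BU.local_inverse hψ (fun t ht => by
    rw [hψd.hasFDerivAt.fderiv] at ht
    simp only [sub_self, zero_mul, add_zero, one_mul, ContinuousLinearMap.toSpanSingleton_apply, smul_eq_mul] at ht
    rcases mul_eq_zero.mp ht with h | h
    · exact h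
    · exact absurd h hv0)
  have hz : (w₁ - w₁) * v w₁ = 0 := by rw [sub_self, zero_mul]
  rw [hz] at hχ hψχ hχ0
  have t1 : Tendsto χ (𝓝 0) (𝓝 w₁) := by
    have := hχ.continuousAt.tendsto
    rwa [hχ0] at this
  have hgood : ∀ᶠ t in 𝓝 (0 : ℂ), (χ t - w₁) * v (χ t) = t ∧ χ t ∈ ball w₁ ε ∧ φ (χ t) = x₁ + t ^ n := by
    filter_upwards [hψχ, t1.eventually (ball_mem_nhds w₁ hε), t1.eventually hgf, t1.eventually hvn] with t h1 h2 h3 h4
    refine ⟨h1, h2, ?_⟩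
    rw [smul_eq_mul, ← h4, ← mul_pow, h1] at h3
    rw [← h3]
    ring
  obtain ⟨δ, hδ, hgood'⟩ := Metric.eventually_nhds_iff_ball.mp hgood
  have hx : ∀ᶠ x in 𝓝[≠] x₁, x ∈ ball x₁ (δ ^ n) := nhdsWithin_le_nhds (ball_mem_nhds x₁ (pow_pos hδ n))
  filter_upwards [hx, self_mem_nhdsWithin] with x hx1 hx2
  obtain ⟨t, ht⟩ := IsAlgClosed.exists_pow_nat_eq (x - x₁) (n := n) (by omega)
  have ht0 : t ≠ 0 := by
    rintro rfl
    rw [zero_pow hn0] at ht
    exact hx2 (sub_eq_zero.mp ht.symm)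
  have htδ : ‖t‖ < δ := by
    refine lt_of_pow_lt_pow_left₀ n hδ.le ?_
    rw [← norm_pow, ht, ← dist_eq_norm]
    exact hx1
  have hζ := Complex.isPrimitiveRoot_exp n hn0
  set ζ := Complex.exp (2 * Real.pi * Complex.I / n) with hζdef
  have hζn : ζ ^ n = 1 := hζ.pow_eq_one
  have hζ1 : ζ ≠ 1 := hζ.ne_one hn
  have hζnorm : ‖ζ‖ = 1 := Complex.norm_eq_one_of_pow_eq_one hζn hn0
  have g1 := hgood' t (by rwa [mem_ball_zero_iff])
  have g2 := hgood' (ζ * t) (by rwa [mem_ball_zero_iff, norm_mul, hζnorm, one_mul])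
  refine ⟨χ t, χ (ζ * t), fun h => ?_, g1.2.1, g2.2.1, ?_, ?_⟩
  · have h1 : t = ζ * t := by
      rw [← g1.1]
      conv_rhs => rw [g1.1, ← g2.1]
      rw [h]
    have h2 : (ζ - 1) * t = 0 := by
      rw [sub_mul, one_mul, ← h1, sub_self]
    rcases mul_eq_zero.mp h2 with h3 | h3
    · exact hζ1 (sub_eq_zero.mp h3)
    · exact ht0 h3
  · rw [g1.2.2, ht]
    ring
  · rw [g2.2.2, mul_pow, hζn, one_mul, ht]
    ring

/-- the first case: the direction `a` is not tangent -/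
private theorem local_trans {D : Set (Vd (1 + 1))} {q₁ a : Vd (1 + 1)} {ξ ω : Vd (1 + 1) →L[ℂ] ℂ} {e : Vd (1 + 1)} (hq : ∀ q : Vd (1 + 1), ξ q • e + ω q • a = q)
    (hco : ∃ κ : Vd (1 + 1) → Vd (1 + 1), IsCoord D κ q₁) (ht : TransAt D q₁ a) :
    ∃ g : ℂ → ℂ, AnalyticAt ℂ g (ξ q₁) ∧ g (ξ q₁) = ω q₁ ∧ ∀ᶠ q in 𝓝 q₁, (q ∈ D ↔ ω q = g (ξ q)) := by
  obtain ⟨κ, hκ⟩ := hco
  refine graph_of_coord hκ ξ ω (fun v h1 h2 => by rw [← hq v, h1, h2, zero_smul, zero_smul, add_zero]) fun h0 => ?_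
  set v := fderiv ℂ κ 0 (Pi.single 1 1) with hv
  have h1 : v = ω v • a := by
    have := hq v
    rw [h0, zero_smul, zero_add] at this
    exact this.symm
  have h2 : ω v ≠ 0 := by
    intro h2
    rw [h2, zero_smul] at h1
    have h3 : (Pi.single 1 1 : Vd (1 + 1)) = 0 := hκ.inj (by rw [← hv, h1, map_zero])
    have h4 := congrFun h3 1
    simp at h4
  refine ht.2 κ hκ ((ω v)⁻¹ • Pi.single 1 1) (by simp) ?_
  rw [map_smul, ← hv]
  calc (ω v)⁻¹ • v = (ω v)⁻¹ • (ω v • a) := congrArg (fun y => (ω v)⁻¹ • y) h1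
    _ = a := by rw [smul_smul, inv_mul_cancel₀ h2, one_smul]

/-- the second case: the direction `a` is tangent -/
private theorem local_tan {D : Set (Vd (1 + 1))} {q₁ a : Vd (1 + 1)} {ξ ω : Vd (1 + 1) →L[ℂ] ℂ} {e : Vd (1 + 1)} (ha : a ≠ 0) (hξa : ξ a = 0) (hωa : ω a = 1)
    (hq : ∀ q : Vd (1 + 1), ξ q • e + ω q • a = q) (ht : ¬ TransAt D q₁ a) :
    ∃ φ : ℂ → ℂ, AnalyticAt ℂ φ (ω q₁) ∧ φ (ω q₁) = ξ q₁ ∧ deriv φ (ω q₁) = 0 ∧ ∀ᶠ q in 𝓝 q₁, (q ∈ D ↔ ξ q = φ (ω q)) := by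
  have h1 : ∃ κ : Vd (1 + 1) → Vd (1 + 1), IsCoord D κ q₁ ∧ ∃ p : Vd (1 + 1), p 0 = 0 ∧ fderiv ℂ κ 0 p = a := by
    by_contra hcon
    push Not at hcon
    exact ht ⟨ha, fun κ hκ p hp => hcon κ hκ p hp⟩
  obtain ⟨κ, hκ, p, hp0, hpa⟩ := h1
  have h2 : p = p 1 • Pi.single 1 1 := by
    ext i
    fin_cases i
    · simpa using hp0
    · simp
  have h3 : p 1 * ω (fderiv ℂ κ 0 (Pi.single 1 1)) = 1 := by
    calc p 1 * ω (fderiv ℂ κ 0 (Pi.single 1 1)) = ω (fderiv ℂ κ 0 (p 1 • Pi.single 1 1)) := by rw [map_smul, map_smul, smul_eq_mul]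
      _ = 1 := by rw [← h2, hpa, hωa]
  obtain ⟨φ, hφ, hφ1, hφD⟩ := graph_of_coord hκ ω ξ (fun v h4 h5 => by rw [← hq v, h4, h5, zero_smul, zero_smul, add_zero]) (right_ne_zero_of_mul (by rw [h3]; exact one_ne_zero))
  refine ⟨φ, hφ, hφ1, ?_, hφD⟩
  by_contra hne
  refine ht (trans_of (F := fun q => ξ q - φ (ω q)) (F' := ξ - deriv φ (ω q₁) • ω) ha ?_ ?_ ?_)
  · exact ξ.hasFDerivAt.sub (HasDerivAt.comp_hasFDerivAt q₁ hφ.differentiableAt.hasDerivAt ω.hasFDerivAt)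
  · filter_upwards [hφD] with q h4 h5
    rw [h4.mp h5, sub_self]
  · simpa [hξa, hωa] using hne


open Classical in
/-- the product of the differences of the elements of a finite set -/
private noncomputable def dlt (s : Set ℂ) : ℂ := if h : s.Finite then ∏ p ∈ h.toFinset.offDiag, (p.1 - p.2) else 0

private theorem dlt_eq {s : Set ℂ} {F : Finset ℂ} (h : s = F) : dlt s = ∏ p ∈ F.offDiag, (p.1 - p.2) := by
  classical
  subst h
  unfold dlt
  rw [dif_pos F.finite_toSet, Finset.finite_toSet_toFinset]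

private theorem dlt_ne {s : Set ℂ} (h : s.Finite) : dlt s ≠ 0 := by
  classical
  unfold dlt
  rw [dif_pos h]
  refine Finset.prod_ne_zero_iff.mpr fun p hp => ?_
  rw [Finset.mem_offDiag] at hp
  exact sub_ne_zero.mpr hp.2.2

private theorem dlt_fac {s : Set ℂ} {w₀ : ℂ} {R : ℝ} (hR : 2 * R ≤ 1) (hs : ∀ w ∈ s, w ∈ closedBall w₀ R) {w w' : ℂ} (h1 : w ∈ s) (h2 : w' ∈ s) : ‖w - w'‖ ≤ 1 := by
  have h3 := hs w h1
  have h4 := hs w' h2
  rw [mem_closedBall] at h3 h4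
  rw [← dist_eq_norm]
  calc dist w w' ≤ dist w w₀ + dist w' w₀ := dist_triangle_right _ _ _
    _ ≤ 1 := by linarith

private theorem dlt_le_one {s : Set ℂ} {w₀ : ℂ} {R : ℝ} (hR : 2 * R ≤ 1) (hs : ∀ w ∈ s, w ∈ closedBall w₀ R) : ‖dlt s‖ ≤ 1 := by
  classical
  unfold dlt
  split_ifs with h
  · rw [norm_prod]
    refine Finset.prod_le_one (fun _ _ => norm_nonneg _) fun p hp => ?_
    rw [Finset.mem_offDiag, Set.Finite.mem_toFinset, Set.Finite.mem_toFinset] at hp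
    exact dlt_fac hR hs hp.1 hp.2.1
  · simp

private theorem dlt_le {s : Set ℂ} {w₀ : ℂ} {R : ℝ} (hR : 2 * R ≤ 1) (hs : ∀ w ∈ s, w ∈ closedBall w₀ R) {w w' : ℂ} (h1 : w ∈ s) (h2 : w' ∈ s) (hne : w ≠ w') :
    ‖dlt s‖ ≤ ‖w - w'‖ := by
  classical
  unfold dlt
  split_ifs with h
  · have hm : (w, w') ∈ h.toFinset.offDiag := by
      rw [Finset.mem_offDiag, Set.Finite.mem_toFinset, Set.Finite.mem_toFinset]
      exact ⟨h1, h2, hne⟩
    rw [norm_prod, ← Finset.mul_prod_erase _ _ hm]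
    refine mul_le_of_le_one_right (norm_nonneg _) (Finset.prod_le_one (fun _ _ => norm_nonneg _) fun p hp => ?_)
    rw [Finset.mem_erase, Finset.mem_offDiag, Set.Finite.mem_toFinset, Set.Finite.mem_toFinset] at hp
    exact dlt_fac hR hs hp.2.1 hp.2.2.1
  · simp

private theorem dlt_image {F : Finset ℂ} {f : ℂ → ℂ} (hf : Set.InjOn f F) : dlt (f '' F) = ∏ p ∈ F.offDiag, (f p.1 - f p.2) := by
  classical
  rw [dlt_eq (F := F.image f) (by simp)]
  symm
  refine Finset.prod_bij (fun p _ => (f p.1, f p.2)) ?_ ?_ ?_ fun _ _ => rfl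
  · intro p hp
    rw [Finset.mem_offDiag] at hp ⊢
    exact ⟨Finset.mem_image_of_mem f hp.1, Finset.mem_image_of_mem f hp.2.1, fun h => hp.2.2 (hf hp.1 hp.2.1 h)⟩
  · intro p hp p' hp' h
    rw [Finset.mem_offDiag] at hp hp'
    rw [Prod.mk.injEq] at h
    exact Prod.ext (hf hp.1 hp'.1 h.1) (hf hp.2.1 hp'.2.1 h.2)
  · intro p hp
    rw [Finset.mem_offDiag, Finset.mem_image, Finset.mem_image] at hp
    obtain ⟨⟨x, hx, hx1⟩, ⟨y, hy, hy1⟩, hne⟩ := hp
    exact ⟨(x, y), Finset.mem_offDiag.mpr ⟨hx, hy, fun h => hne (by rw [← hx1, ← hy1, show x = y from h])⟩, Prod.ext hx1 hy1⟩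

/-- the local data of the set `S` at the points over the punctured disc -/
private structure Loc (S : Set (ℂ × ℂ)) (Tr : ℂ × ℂ → Prop) (x₀ w₀ : ℂ) (r R : ℝ) : Prop where
  R_pos : 0 < R
  R_le : 2 * R ≤ 1
  r_pos : 0 < r
  circ : ∀ x ∈ ball x₀ r, ∀ w ∈ sphere w₀ R, (x, w) ∉ S
  out : ∀ x ∈ ball x₀ r, x ≠ x₀ → ∀ w ∈ closedBall w₀ R, (x, w) ∉ S → ∀ᶠ z in 𝓝 (x, w), z ∉ S
  tr : ∀ x ∈ ball x₀ r, x ≠ x₀ → ∀ w ∈ closedBall w₀ R, (x, w) ∈ S → Tr (x, w) →
    ∃ g : ℂ → ℂ, AnalyticAt ℂ g x ∧ g x = w ∧ (∀ᶠ z in 𝓝 (x, w), (z ∈ S ↔ z.2 = g z.1)) ∧ ∀ᶠ z in 𝓝 (x, w), z ∈ S → Tr z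
  tan : ∀ x ∈ ball x₀ r, x ≠ x₀ → ∀ w ∈ closedBall w₀ R, (x, w) ∈ S → ¬ Tr (x, w) →
    ∃ φ : ℂ → ℂ, AnalyticAt ℂ φ w ∧ φ w = x ∧ deriv φ w = 0 ∧ (¬ ∀ᶠ w' in 𝓝 w, φ w' = x) ∧ (∀ᶠ z in 𝓝 (x, w), (z ∈ S ↔ z.1 = φ z.2)) ∧
      ∀ᶠ z in 𝓝 (x, w), z.1 ≠ x → z ∈ S → Tr z

variable {S : Set (ℂ × ℂ)} {Tr : ℂ × ℂ → Prop} {x₀ w₀ : ℂ} {r R : ℝ}

/-- the `x` over which all points are transversal -/
private def Om (S : Set (ℂ × ℂ)) (Tr : ℂ × ℂ → Prop) (x₀ w₀ : ℂ) (r R : ℝ) : Set ℂ :=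
  {x | x ∈ ball x₀ r ∧ x ≠ x₀ ∧ ∀ w ∈ closedBall w₀ R, (x, w) ∈ S → Tr (x, w)}

/-- the fibre of `S` -/
private def fbr (S : Set (ℂ × ℂ)) (w₀ : ℂ) (R : ℝ) (x : ℂ) : Set ℂ := {w | w ∈ closedBall w₀ R ∧ (x, w) ∈ S}

private theorem om_iso (L : Loc S Tr x₀ w₀ r R) {x₁ : ℂ} (hx : x₁ ∈ ball x₀ r) (hx0 : x₁ ≠ x₀) : ∀ᶠ x in 𝓝[≠] x₁, x ∈ Om S Tr x₀ w₀ r R := by
  have h1 : ∀ᶠ x in 𝓝 x₁, ∀ w ∈ closedBall w₀ R, x ≠ x₁ → (x, w) ∈ S → Tr (x, w) := by
    refine (isCompact_closedBall w₀ R).eventually_forall_of_forall_eventually (P := fun x w => x ≠ x₁ → (x, w) ∈ S → Tr (x, w)) fun w hw => ?_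
    by_cases hS : (x₁, w) ∈ S
    · by_cases hT : Tr (x₁, w)
      · obtain ⟨g, -, -, -, h⟩ := L.tr x₁ hx hx0 w hw hS hT
        filter_upwards [h] with z hz _
        exact hz
      · obtain ⟨φ, -, -, -, -, -, h⟩ := L.tan x₁ hx hx0 w hw hS hT
        filter_upwards [h] with z hz
        exact hz
    · filter_upwards [L.out x₁ hx hx0 w hw hS] with z hz _ hz'
      exact absurd hz' hz
  have h2 : ∀ᶠ x in 𝓝[≠] x₁, x ∈ ball x₀ r ∧ x ≠ x₀ :=
    nhdsWithin_le_nhds ((show ∀ᶠ x in 𝓝 x₁, x ∈ ball x₀ r from isOpen_ball.mem_nhds hx).and (show ∀ᶠ x in 𝓝 x₁, x ≠ x₀ from isOpen_ne.mem_nhds hx0))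
  filter_upwards [nhdsWithin_le_nhds h1, h2, self_mem_nhdsWithin] with x h3 h4 h5
  exact ⟨h4.1, h4.2, fun w hw => h3 w hw h5⟩

private theorem om_open (L : Loc S Tr x₀ w₀ r R) {x₁ : ℂ} (hx : x₁ ∈ Om S Tr x₀ w₀ r R) : ∀ᶠ x in 𝓝 x₁, x ∈ Om S Tr x₀ w₀ r R := by
  have h1 : ∀ᶠ x in 𝓝[≠] x₁, x ∈ Om S Tr x₀ w₀ r R := om_iso L hx.1 hx.2.1
  rw [eventually_nhdsWithin_iff] at h1
  filter_upwards [h1] with x h2
  by_cases h3 : x = x₁
  · rwa [h3]
  · exact h2 h3

private theorem fbr_finite (L : Loc S Tr x₀ w₀ r R) {x₁ : ℂ} (hx : x₁ ∈ Om S Tr x₀ w₀ r R) : (fbr S w₀ R x₁).Finite := by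
  by_contra hinf
  obtain ⟨w, hw, hacc⟩ := Set.Infinite.exists_accPt_of_subset_isCompact hinf (isCompact_closedBall w₀ R) (fun w hw => hw.1)
  rw [accPt_iff_frequently_nhdsNE] at hacc
  have ht : Tendsto (fun w' : ℂ => (x₁, w')) (𝓝 w) (𝓝 (x₁, w)) := by
    have : Continuous fun w' : ℂ => (x₁, w') := by fun_prop
    exact this.continuousAt
  refine hacc ?_
  by_cases hS : (x₁, w) ∈ S
  · obtain ⟨g, -, hg, h, -⟩ := L.tr x₁ hx.1 hx.2.1 w hw hS (hx.2.2 w hw hS)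
    filter_upwards [nhdsWithin_le_nhds (ht.eventually h), self_mem_nhdsWithin] with w' h1 h2 h3
    exact h2 ((h1.mp h3.2).trans hg)
  · filter_upwards [nhdsWithin_le_nhds (ht.eventually (L.out x₁ hx.1 hx.2.1 w hw hS))] with w' h1 h3
    exact h1 h3.2

open Classical in
/-- the discriminant, extended by `0` -/
private noncomputable def del (S : Set (ℂ × ℂ)) (Tr : ℂ × ℂ → Prop) (x₀ w₀ : ℂ) (r R : ℝ) (x : ℂ) : ℂ := if x ∈ Om S Tr x₀ w₀ r R then dlt (fbr S w₀ R x) else 0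

private theorem del_an (L : Loc S Tr x₀ w₀ r R) {x₁ : ℂ} (hx : x₁ ∈ Om S Tr x₀ w₀ r R) : AnalyticAt ℂ (del S Tr x₀ w₀ r R) x₁ := by
  classical
  set F := (fbr_finite L hx).toFinset with hF
  have hFm : ∀ w, w ∈ F ↔ w ∈ closedBall w₀ R ∧ (x₁, w) ∈ S := fun w => by
    rw [hF, Set.Finite.mem_toFinset]
    rfl
  have hex : ∀ w, w ∈ F → ∃ g : ℂ → ℂ, AnalyticAt ℂ g x₁ ∧ g x₁ = w ∧ (∀ᶠ z in 𝓝 (x₁, w), (z ∈ S ↔ z.2 = g z.1)) ∧ ∀ᶠ z in 𝓝 (x₁, w), z ∈ S → Tr z := fun w hw =>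
    L.tr x₁ hx.1 hx.2.1 w ((hFm w).mp hw).1 ((hFm w).mp hw).2 (hx.2.2 w ((hFm w).mp hw).1 ((hFm w).mp hw).2)
  choose! G hG using hex
  have e1 : ∀ᶠ x in 𝓝 x₁, ∀ w ∈ closedBall w₀ R, (x, w) ∈ S → ∃ w' ∈ F, w = G w' x := by
    refine (isCompact_closedBall w₀ R).eventually_forall_of_forall_eventually (P := fun x w => (x, w) ∈ S → ∃ w' ∈ F, w = G w' x) fun w hw => ?_
    by_cases hS : (x₁, w) ∈ S
    · have hwF := (hFm w).mpr ⟨hw, hS⟩
      filter_upwards [(hG w hwF).2.2.1] with z h1 h2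
      exact ⟨w, hwF, h1.mp h2⟩
    · filter_upwards [L.out x₁ hx.1 hx.2.1 w hw hS] with z hz hz'
      exact absurd hz' hz
  have e2 : ∀ᶠ x in 𝓝 x₁, ∀ w ∈ F, G w x ∈ closedBall w₀ R ∧ (x, G w x) ∈ S := by
    rw [Filter.eventually_all_finset]
    intro w hw
    have h1 := hG w hw
    have h2 : w ∈ ball w₀ R := by
      have h3 := ((hFm w).mp hw).1
      rw [mem_closedBall] at h3
      rw [mem_ball]
      refine lt_of_le_of_ne h3 fun h4 => L.circ x₁ hx.1 w (mem_sphere.mpr h4) ((hFm w).mp hw).2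
    have t1 : Tendsto (G w) (𝓝 x₁) (𝓝 w) := by
      have := h1.1.continuousAt.tendsto
      rwa [h1.2.1] at this
    have t2 : Tendsto (fun x => (x, G w x)) (𝓝 x₁) (𝓝 (x₁, w)) := by
      rw [nhds_prod_eq]
      exact tendsto_id.prodMk t1
    filter_upwards [t1.eventually (isOpen_ball.mem_nhds h2), t2.eventually h1.2.2.1] with x h3 h4
    exact ⟨ball_subset_closedBall h3, h4.mpr rfl⟩
  have e3 : ∀ᶠ x in 𝓝 x₁, ∀ w ∈ F, ∀ w' ∈ F, w ≠ w' → G w x ≠ G w' x := by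
    rw [Filter.eventually_all_finset]
    intro w hw
    rw [Filter.eventually_all_finset]
    intro w' hw'
    by_cases hne : w = w'
    · exact Filter.Eventually.of_forall fun x h => absurd hne h
    · have h1 : ContinuousAt (fun x => G w x - G w' x) x₁ := (hG w hw).1.continuousAt.sub (hG w' hw').1.continuousAt
      have h2 : G w x₁ - G w' x₁ ≠ 0 := by
        rw [(hG w hw).2.1, (hG w' hw').2.1]
        exact sub_ne_zero.mpr hne
      filter_upwards [h1.eventually_ne h2] with x h3 _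
      exact sub_ne_zero.mp h3
  have key : del S Tr x₀ w₀ r R =ᶠ[𝓝 x₁] fun x => ∏ p ∈ F.offDiag, (G p.1 x - G p.2 x) := by
    filter_upwards [e1, e2, e3, om_open L hx] with x h1 h2 h3 h4
    unfold del
    rw [if_pos h4]
    have h5 : fbr S w₀ R x = (fun w => G w x) '' F := by
      ext w
      constructor
      · rintro ⟨h6, h7⟩
        obtain ⟨w', h8, h9⟩ := h1 w h6 h7
        exact ⟨w', h8, h9.symm⟩
      · rintro ⟨w', h8, rfl⟩
        exact h2 w' h8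
    rw [h5]
    exact dlt_image (f := fun w => G w x) fun w hw w' hw' h => by
      by_contra hne
      exact h3 w hw w' hw' hne h
  refine AnalyticAt.congr ?_ key.symm
  refine Finset.analyticAt_fun_prod _ fun p hp => ?_
  rw [Finset.mem_offDiag] at hp
  exact (hG p.1 hp.1).1.sub (hG p.2 hp.2.1).1

private theorem fbr_sub {x : ℂ} : ∀ w ∈ fbr S w₀ R x, w ∈ closedBall w₀ R := fun _ hw => hw.1

private theorem del_le (L : Loc S Tr x₀ w₀ r R) (x : ℂ) : ‖del S Tr x₀ w₀ r R x‖ ≤ 1 := by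
  unfold del
  split_ifs
  · exact dlt_le_one L.R_le fbr_sub
  · simp

private theorem del_an' (L : Loc S Tr x₀ w₀ r R) {x₁ : ℂ} (hx : x₁ ∈ ball x₀ r) (hx0 : x₁ ≠ x₀) : AnalyticAt ℂ (del S Tr x₀ w₀ r R) x₁ := by
  classical
  by_cases hO : x₁ ∈ Om S Tr x₀ w₀ r R
  · exact del_an L hO
  · have h0 : del S Tr x₀ w₀ r R x₁ = 0 := by
      unfold del
      rw [if_neg hO]
    have h1 : ∃ w ∈ closedBall w₀ R, (x₁, w) ∈ S ∧ ¬ Tr (x₁, w) := by
      by_contra hcon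
      push Not at hcon
      exact hO ⟨hx, hx0, hcon⟩
    obtain ⟨w₁, hw₁, hS, hT⟩ := h1
    obtain ⟨φ, hφ, hφ1, hφd, hφc, hφS, -⟩ := L.tan x₁ hx hx0 w₁ hw₁ hS hT
    refine Complex.analyticAt_of_differentiable_on_punctured_nhds_of_continuousAt ?_ ?_
    · filter_upwards [om_iso L hx hx0] with x h2
      exact (del_an L h2).differentiableAt
    · rw [Metric.continuousAt_iff]
      intro ε hε
      have hwb : w₁ ∈ ball w₀ R := by
        rw [mem_closedBall] at hw₁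
        rw [mem_ball]
        exact lt_of_le_of_ne hw₁ fun h4 => L.circ x₁ hx w₁ (mem_sphere.mpr h4) hS
      obtain ⟨ρ, hρ, hρS⟩ := Metric.eventually_nhds_iff_ball.mp hφS
      obtain ⟨ρ', hρ', hρb⟩ := Metric.isOpen_iff.mp isOpen_ball w₁ hwb
      have hm : 0 < min (min ρ ρ') (ε / 2) := lt_min (lt_min hρ hρ') (by positivity)
      have h2 : ∀ᶠ x in 𝓝[≠] x₁, dist (del S Tr x₀ w₀ r R x) 0 < ε := by
        filter_upwards [two_preimages hφ hφ1 hφd hφc hm, nhdsWithin_le_nhds (ball_mem_nhds x₁ hρ)] with x ⟨w, w', hne, hw, hw', hφw, hφw'⟩ hxρ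
        rw [dist_zero_right]
        unfold del
        split_ifs with h3
        · have h4 : ∀ v : ℂ, v ∈ ball w₁ (min (min ρ ρ') (ε / 2)) → φ v = x → v ∈ fbr S w₀ R x := by
            intro v hv hv1
            refine ⟨ball_subset_closedBall (hρb (ball_subset_ball ((min_le_left _ _).trans (min_le_right _ _)) hv)), ?_⟩
            refine (hρS (x, v) ?_).mpr hv1.symm
            rw [← ball_prod_same]
            exact ⟨hxρ, ball_subset_ball ((min_le_left _ _).trans (min_le_left _ _)) hv⟩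
          refine (dlt_le L.R_le fbr_sub (h4 w hw hφw) (h4 w' hw' hφw') hne).trans_lt ?_
          have h5 : dist w w₁ < ε / 2 := (mem_ball.mp hw).trans_le (min_le_right _ _)
          have h6 : dist w' w₁ < ε / 2 := (mem_ball.mp hw').trans_le (min_le_right _ _)
          rw [← dist_eq_norm]
          calc dist w w' ≤ dist w w₁ + dist w' w₁ := dist_triangle_right _ _ _
            _ < ε := by linarith
        · simpa using hε
      rw [eventually_nhdsWithin_iff, Metric.eventually_nhds_iff] at h2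
      obtain ⟨δ, hδ, h3⟩ := h2
      refine ⟨δ, hδ, fun {x} hx1 => ?_⟩
      rw [h0]
      by_cases hxx : x = x₁
      · rw [hxx, h0, dist_self]
        exact hε
      · exact h3 hx1 hxx

private theorem iso_of_loc (L : Loc S Tr x₀ w₀ r R) : ∀ᶠ x in 𝓝[≠] x₀, x ∈ Om S Tr x₀ w₀ r R := by
  classical
  have hF : AnalyticAt ℂ (fun x => (x - x₀) * del S Tr x₀ w₀ r R x) x₀ := by
    refine Complex.analyticAt_of_differentiable_on_punctured_nhds_of_continuousAt ?_ ?_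
    · filter_upwards [nhdsWithin_le_nhds (ball_mem_nhds x₀ L.r_pos), self_mem_nhdsWithin] with x h1 h2
      exact (differentiableAt_id.sub_const x₀).mul (del_an' L h1 h2).differentiableAt
    · rw [Metric.continuousAt_iff]
      intro ε hε
      refine ⟨ε, hε, fun {x} hx => ?_⟩
      rw [sub_self, zero_mul, dist_zero_right, norm_mul]
      calc ‖x - x₀‖ * ‖del S Tr x₀ w₀ r R x‖ ≤ ‖x - x₀‖ * 1 := mul_le_mul_of_nonneg_left (del_le L x) (norm_nonneg _)
        _ < ε := by rwa [mul_one, ← dist_eq_norm]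
  rcases hF.eventually_eq_zero_or_eventually_ne_zero with h | h
  · exfalso
    obtain ⟨δ, hδ, h1⟩ := Metric.eventually_nhds_iff_ball.mp (h.and (ball_mem_nhds x₀ L.r_pos))
    have h2 : x₀ + ((δ / 2 : ℝ) : ℂ) ∈ ball x₀ δ := by
      rw [mem_ball, dist_eq_norm, add_sub_cancel_left, Complex.norm_real, Real.norm_eq_abs, abs_of_pos (by positivity)]
      linarith
    have h3 : x₀ + ((δ / 2 : ℝ) : ℂ) ≠ x₀ := by
      intro h4
      have h5 : ((δ / 2 : ℝ) : ℂ) = 0 := by simpa using h4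
      have h6 : (δ / 2 : ℝ) = 0 := by exact_mod_cast h5
      linarith
    set x₁ := x₀ + ((δ / 2 : ℝ) : ℂ)
    have h4 : ∀ᶠ x in 𝓝[≠] x₁, x ∈ Om S Tr x₀ w₀ r R ∧ x ∈ ball x₀ δ :=
      (om_iso L (h1 x₁ h2).2 h3).and (nhdsWithin_le_nhds (isOpen_ball.mem_nhds h2))
    obtain ⟨x, hx1, hx2⟩ := h4.exists
    have h5 := (h1 x hx2).1
    have h6 : del S Tr x₀ w₀ r R x ≠ 0 := by
      unfold del
      rw [if_pos hx1]
      exact dlt_ne (fbr_finite L hx1)
    exact (mul_ne_zero (sub_ne_zero.mpr hx1.2.1) h6) h5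
  · filter_upwards [h] with x hx
    by_contra hO
    refine hx ?_
    unfold del
    rw [if_neg hO, mul_zero]

/-- a function whose derivative is zero near a point is constant near this point -/
private theorem const_of_deriv {φ : ℂ → ℂ} {w : ℂ} (hφ : AnalyticAt ℂ φ w) (h : ∀ᶠ w' in 𝓝 w, deriv φ w' = 0) : ∀ᶠ w' in 𝓝 w, φ w' = φ w := by
  obtain ⟨δ, hδ, h1⟩ := Metric.eventually_nhds_iff_ball.mp (h.and hφ.eventually_analyticAt)
  filter_upwards [ball_mem_nhds w hδ] with w' hw'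
  exact isOpen_ball.is_const_of_deriv_eq_zero (convex_ball w δ).isPreconnected (fun y hy => (h1 y hy).2.differentiableAt.differentiableWithinAt) (fun y hy => (h1 y hy).1)
    hw' (mem_ball_self hδ)

theorem tan_local {D : Set (Vd (1 + 1))} {q₀ a : Vd (1 + 1)} (ha : a ≠ 0) (hD : ∃ (m : ℕ) (h : Vd (1 + 1) → Fin m → ℂ), AnalyticAt ℂ h q₀ ∧ ∀ᶠ z in 𝓝 q₀, (z ∈ D ↔ h z = 0))
    (hco : ∀ᶠ q in 𝓝[≠] q₀, q ∈ D → ∃ κ : Vd (1 + 1) → Vd (1 + 1), IsCoord D κ q) (hline : ∀ᶠ z in 𝓝[≠] (0 : ℂ), q₀ + z • a ∉ D) :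
    ∀ᶠ q in 𝓝[≠] q₀, q ∈ D → TransAt D q a := by
  obtain ⟨ξ, ω, e, hξa, hωa, hξe, hωe, hq⟩ := exists_coords ha
  obtain ⟨m, h, hh, hDh⟩ := hD
  rw [eventually_nhdsWithin_iff] at hco
  obtain ⟨ρ, hρ, hb⟩ := Metric.eventually_nhds_iff_ball.mp (hh.eventually_analyticAt.and (hDh.and hco))
  rw [eventually_nhdsWithin_iff] at hline
  obtain ⟨ρ₁, hρ₁, hb₁⟩ := Metric.eventually_nhds_iff_ball.mp hline
  set P : ℂ × ℂ → Vd (1 + 1) := fun z => z.1 • e + z.2 • a with hPdef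
  have hPc : Continuous P := by
    rw [hPdef]
    fun_prop
  have hPξ : ∀ z, ξ (P z) = z.1 := fun z => by
    show ξ (z.1 • e + z.2 • a) = z.1
    rw [map_add, map_smul, map_smul, hξe, hξa, smul_eq_mul, smul_eq_mul, mul_one, mul_zero, add_zero]
  have hPω : ∀ z, ω (P z) = z.2 := fun z => by
    show ω (z.1 • e + z.2 • a) = z.2
    rw [map_add, map_smul, map_smul, hωe, hωa, smul_eq_mul, smul_eq_mul, mul_one, mul_zero, zero_add]
  have hPq : ∀ q, P (ξ q, ω q) = q := hq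
  set x₀ := ξ q₀ with hx₀
  set w₀ := ω q₀ with hw₀
  obtain ⟨ρ₂, hρ₂, hb₂⟩ : ∃ ρ₂ > 0, ∀ z : ℂ × ℂ, dist z.1 x₀ < ρ₂ → dist z.2 w₀ < ρ₂ → P z ∈ ball q₀ ρ := by
    have h1 : ∀ᶠ z in 𝓝 (x₀, w₀), P z ∈ ball q₀ ρ := by
      refine hPc.continuousAt.eventually (isOpen_ball.mem_nhds ?_)
      rw [hPq]
      exact mem_ball_self hρ
    obtain ⟨ρ₂, hρ₂, h2⟩ := Metric.eventually_nhds_iff_ball.mp h1
    refine ⟨ρ₂, hρ₂, fun z h3 h4 => h2 z ?_⟩
    rw [← ball_prod_same]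
    exact ⟨h3, h4⟩
  obtain ⟨R, hR0, hR1, hR2, hR3⟩ : ∃ R : ℝ, 0 < R ∧ 2 * R ≤ 1 ∧ R < ρ₁ ∧ 2 * R < ρ₂ := by
    refine ⟨min (1 / 2) (min (ρ₁ / 2) (ρ₂ / 4)), by positivity, ?_, ?_, ?_⟩
    · have := min_le_left (1 / 2 : ℝ) (min (ρ₁ / 2) (ρ₂ / 4))
      linarith
    · have := (min_le_right (1 / 2 : ℝ) (min (ρ₁ / 2) (ρ₂ / 4))).trans (min_le_left _ _)
      linarith
    · have := (min_le_right (1 / 2 : ℝ) (min (ρ₁ / 2) (ρ₂ / 4))).trans (min_le_right _ _)
      linarith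
  -- `D` is closed near `q₀`
  have hcl : ∀ z : ℂ × ℂ, P z ∈ ball q₀ ρ → P z ∉ D → ∀ᶠ z' in 𝓝 z, P z' ∉ D := by
    intro z h1 h2
    have h3 : h (P z) ≠ 0 := fun h3 => h2 ((hb _ h1).2.1.mpr h3)
    have h4 : ContinuousAt (fun z' => h (P z')) z := ContinuousAt.comp' (hb _ h1).1.continuousAt hPc.continuousAt
    filter_upwards [h4.eventually_ne h3, hPc.continuousAt.eventually (isOpen_ball.mem_nhds h1)] with z' h5 h6 h7
    exact h5 ((hb _ h6).2.1.mp h7)
  have hcirc : ∀ᶠ x in 𝓝 x₀, ∀ w ∈ sphere w₀ R, P (x, w) ∉ D := by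
    refine (isCompact_sphere w₀ R).eventually_forall_of_forall_eventually (P := fun x w => P (x, w) ∉ D) fun w hw => ?_
    refine hcl (x₀, w) (hb₂ _ (by rw [dist_self]; exact hρ₂) (by rw [mem_sphere.mp hw]; linarith)) ?_
    have h1 : P (x₀, w) = q₀ + (w - w₀) • a := by
      have h2 := hPq q₀
      show x₀ • e + w • a = q₀ + (w - w₀) • a
      rw [← h2]
      show x₀ • e + w • a = (x₀ • e + w₀ • a) + (w - w₀) • a
      rw [sub_smul]
      abel
    rw [h1]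
    refine hb₁ (w - w₀) ?_ ?_
    · rw [mem_ball_zero_iff, ← dist_eq_norm, mem_sphere.mp hw]
      exact hR2
    · intro h2
      have h3 : w = w₀ := sub_eq_zero.mp h2
      rw [mem_sphere, h3, dist_self] at hw
      linarith
  obtain ⟨r', hr', hcirc'⟩ := Metric.eventually_nhds_iff_ball.mp hcirc
  have L : Loc {z | P z ∈ D} (fun z => TransAt D (P z) a) x₀ w₀ (min r' ρ₂) R := by
    have hin : ∀ x ∈ ball x₀ (min r' ρ₂), ∀ w ∈ closedBall w₀ R, P (x, w) ∈ ball q₀ ρ := fun x hx w hw =>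
      hb₂ _ ((mem_ball.mp hx).trans_le (min_le_right _ _)) ((mem_closedBall.mp hw).trans_lt (by linarith))
    have hne : ∀ x, x ≠ x₀ → ∀ w, P (x, w) ≠ q₀ := fun x hx w h1 => hx (by
      have h2 := hPξ (x, w)
      rw [h1] at h2
      exact h2.symm)
    refine ⟨hR0, hR1, lt_min hr' hρ₂, fun x hx w hw => hcirc' x (ball_subset_ball (min_le_left _ _) hx) w hw, ?_, ?_, ?_⟩
    · intro x hx hx0 w hw hS
      exact hcl (x, w) (hin x hx w hw) hS
    · intro x hx hx0 w hw hS hT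
      obtain ⟨g, hg, hg1, hgD⟩ := local_trans (ξ := ξ) (ω := ω) hq ((hb _ (hin x hx w hw)).2.2 (hne x hx0 w) hS) hT
      rw [hPξ] at hg hg1
      rw [hPω] at hg1
      refine ⟨g, hg, hg1, ?_, ?_⟩
      · filter_upwards [hPc.continuousAt.eventually hgD] with z hz
        rw [hPξ, hPω] at hz
        exact hz
      · have t1 : Tendsto Prod.fst (𝓝 (x, w)) (𝓝 x) := continuous_fst.continuousAt
        filter_upwards [hPc.continuousAt.eventually hgD.eventually_nhds, t1.eventually hg.eventually_analyticAt] with z h1 h2 _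
        refine trans_of (F := fun q => ω q - g (ξ q)) (F' := ω - deriv g z.1 • ξ) ha ?_ ?_ ?_
        · refine ω.hasFDerivAt.sub (HasDerivAt.comp_hasFDerivAt (P z) ?_ ξ.hasFDerivAt)
          rw [hPξ]
          exact h2.differentiableAt.hasDerivAt
        · filter_upwards [h1] with q h3 h4
          rw [h3.mp h4, sub_self]
        · simp [hξa, hωa]
    · intro x hx hx0 w hw hS hT
      obtain ⟨φ, hφ, hφ1, hφd, hφD⟩ := local_tan (ξ := ξ) (ω := ω) ha hξa hωa hq hT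
      rw [hPω] at hφ hφ1 hφd
      rw [hPξ] at hφ1
      have hiff : ∀ᶠ z in 𝓝 (x, w), (z ∈ {z | P z ∈ D} ↔ z.1 = φ z.2) := by
        filter_upwards [hPc.continuousAt.eventually hφD] with z hz
        rw [hPξ, hPω] at hz
        exact hz
      have hnc : ¬ ∀ᶠ w' in 𝓝 w, φ w' = x := by
        intro hcon
        have t1 : Tendsto (fun w' : ℂ => (x, w')) (𝓝 w) (𝓝 (x, w)) := by
          have : Continuous fun w' : ℂ => (x, w') := by fun_prop
          exact this.continuousAt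
        have hH : AnalyticOnNhd ℂ (fun w' => h (P (x, w'))) (ball w₀ (2 * R)) := by
          intro w' hw'
          have h1 : P (x, w') ∈ ball q₀ ρ := hb₂ _ ((mem_ball.mp hx).trans_le (min_le_right _ _)) ((mem_ball.mp hw').trans hR3)
          have h2 : AnalyticAt ℂ (fun w' : ℂ => P (x, w')) w' := by
            show AnalyticAt ℂ (fun w' : ℂ => x • e + w' • a) w'
            exact analyticAt_const.add (analyticAt_id.smul analyticAt_const)
          exact AnalyticAt.fun_comp (hb _ h1).1 h2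
        have h3 : (fun w' => h (P (x, w'))) =ᶠ[𝓝 w] 0 := by
          have t2 : Tendsto (fun w' : ℂ => P (x, w')) (𝓝 w) (𝓝 (P (x, w))) := hPc.continuousAt.tendsto.comp t1
          filter_upwards [t1.eventually hiff, hcon, t2.eventually (isOpen_ball.mem_nhds (hin x hx w hw))] with w' h4 h5 h6
          exact (hb _ h6).2.1.mp (h4.mpr h5.symm)
        have h4 := hH.eqOn_zero_of_preconnected_of_eventuallyEq_zero (convex_ball w₀ (2 * R)).isPreconnected
          (mem_ball.mpr ((mem_closedBall.mp hw).trans_lt (by linarith))) h3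
        have h5 : w₀ + (R : ℂ) ∈ sphere w₀ R := by
          rw [mem_sphere, dist_eq_norm, add_sub_cancel_left, Complex.norm_real, Real.norm_eq_abs, abs_of_pos hR0]
        refine hcirc' x (ball_subset_ball (min_le_left _ _) hx) _ h5 ((hb _ (hin x hx _ (sphere_subset_closedBall h5))).2.1.mpr ?_)
        refine h4 (mem_ball.mpr ?_)
        rw [mem_sphere.mp h5]
        linarith
      refine ⟨φ, hφ, hφ1, hφd, hnc, hiff, ?_⟩
      have hd : ∀ᶠ w' in 𝓝[≠] w, deriv φ w' ≠ 0 := by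
        rcases hφ.deriv.eventually_eq_zero_or_eventually_ne_zero with h1 | h1
        · refine absurd ?_ hnc
          filter_upwards [const_of_deriv hφ h1] with w' h2
          rw [h2, hφ1]
        · exact h1
      rw [eventually_nhdsWithin_iff] at hd
      have t1 : Tendsto Prod.snd (𝓝 (x, w)) (𝓝 w) := continuous_snd.continuousAt
      filter_upwards [hPc.continuousAt.eventually hφD.eventually_nhds, t1.eventually hφ.eventually_analyticAt, t1.eventually hd, hiff] with z h1 h2 h3 h4 h5 h6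
      have h7 : deriv φ z.2 ≠ 0 := h3 fun h8 => h5 (by
        have h9 : z.2 = w := h8
        rw [h4.mp h6, h9, hφ1])
      refine trans_of (F := fun q => ξ q - φ (ω q)) (F' := ξ - deriv φ z.2 • ω) ha ?_ ?_ ?_
      · refine ξ.hasFDerivAt.sub (HasDerivAt.comp_hasFDerivAt (P z) ?_ ω.hasFDerivAt)
        rw [hPω]
        exact h2.differentiableAt.hasDerivAt
      · filter_upwards [h1] with q h8 h9
        rw [h8.mp h9, sub_self]
      · simpa [hξa, hωa] using h7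
  have hfin := iso_of_loc L
  rw [eventually_nhdsWithin_iff] at hfin ⊢
  have t1 : Tendsto (fun q : Vd (1 + 1) => ξ q) (𝓝 q₀) (𝓝 x₀) := ξ.continuous.continuousAt
  have t2 : Tendsto (fun q : Vd (1 + 1) => ω q) (𝓝 q₀) (𝓝 w₀) := ω.continuous.continuousAt
  filter_upwards [t1.eventually hfin, t2.eventually (ball_mem_nhds w₀ hR0)] with q h1 h2 h3 h4
  by_cases h5 : ξ q = x₀
  · exfalso
    have h6 : q = q₀ + (ω q - w₀) • a := by
      calc q = ξ q • e + ω q • a := (hq q).symm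
        _ = (x₀ • e + w₀ • a) + (ω q - w₀) • a := by
          rw [h5, sub_smul]
          abel
        _ = q₀ + (ω q - w₀) • a := by rw [hq q₀]
    refine hb₁ (ω q - w₀) ?_ ?_ (by rwa [← h6])
    · rw [mem_ball_zero_iff, ← dist_eq_norm]
      exact (mem_ball.mp h2).trans hR2
    · intro h7
      refine h3 ?_
      rw [h6, show ω q - w₀ = 0 from h7, zero_smul, add_zero]
      rfl
  · have h6 := (h1 h5).2.2 (ω q) (ball_subset_closedBall h2)
    have h7 : P (ξ q, ω q) = q := hPq q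
    have h8 : P (ξ q, ω q) ∈ D → TransAt D (P (ξ q, ω q)) a := h6
    rw [h7] at h8
    exact h8 h4

end Pool.Agent.G3.A
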