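import Pool.Agent.G3.A.Defs

/-!
# G3 A Tor: the real closure of `ℂ a`

`exists_toE`: `R` = topological closure of the subgroup `ℂ a + Λ` of `Vd (k + 1)` (a closed subgroup of a real vector space), `E` = the set of the `v` with `ℝ v ⊆ R` (a real subspace; `R ∩ ball 0 ε ⊆ E` for
some `ε > 0`: standard, otherwise take short vectors of `R` not in `E`, modulo `E`, and a limit direction).  `mem`: clear.  `dns`: `v ∈ E` is a limit of `z a + l`, the differences are short vectors of `R`, so in `E`: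
`l ∈ E`.  `cpt`: `E / (Λ ∩ E)` is compact: choose `l ∈ Λ` with `‖v - l‖ ≤ R₀`; if there is no bound, a subsequence of `v n - l n` converges, so `l n - l m ∈ E` for large `m, n`.
`toE_cases` (`k = 1`): `E ⊇ ℂ a`; real dimension `2` is impossible (`Λ ∩ ℂ a` has rank `≤ 1` by `LG.rank`, not cocompact in `ℂ a`); dimension `3`: `E = ℝ ν + ℂ a`; dimension `4`: all.
-/

set_option autoImplicit false

open Topology Filter Metric

namespace Pool.Agent.G3.A

open Pool.Agent.H36.BP (EN fs wd)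
open Pool.Agent.H14.PP (IsCone CurveAt Tan)
open Pool.Agent.H62.EF (MN pr)
open Pool.Agent.AD (Vd Chart Charts IsGerm)
open Pool.Agent.TG
open Pool.Agent.G3.C (Gc HP)

variable {N k : ℕ} {X : Set (EN N)} {Λ : AddSubgroup (Vd (k + 1))} {u : EN N → Vd (k + 1)} {D B Bad : Set (Vd (k + 1))} {a : Vd (k + 1)}

/-- the largest real subspace of a closed subgroup contains its short vectors -/
theorem closed_short {V : Type*} [NormedAddCommGroup V] [NormedSpace ℝ V] [FiniteDimensional ℝ V] (R : AddSubgroup V) (hR : IsClosed (R : Set V)) :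
    ∃ E : Submodule ℝ V, (∀ v, v ∈ E ↔ ∀ t : ℝ, t • v ∈ R) ∧ ∃ ε : ℝ, 0 < ε ∧ ∀ v ∈ R, ‖v‖ < ε → v ∈ E := by
  let E : Submodule ℝ V :=
    { carrier := {v | ∀ t : ℝ, t • v ∈ R}
      add_mem' := fun {x y} hx hy t => by rw [smul_add]; exact R.add_mem (hx t) (hy t)
      zero_mem' := fun t => by rw [smul_zero]; exact R.zero_mem
      smul_mem' := fun c x hx t => by rw [smul_smul]; exact hx (t * c) }
  have hE : ∀ v, v ∈ E ↔ ∀ t : ℝ, t • v ∈ R := fun v => Iff.rfl
  have hER : ∀ v ∈ E, v ∈ R := fun v hv => by have := (hE v).1 hv 1; rwa [one_smul] at this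
  refine ⟨E, hE, ?_⟩
  by_contra hcon
  push Not at hcon
  obtain ⟨W, hW⟩ := Submodule.exists_isCompl E
  let p : V →L[ℝ] V := LinearMap.toContinuousLinearMap (W.projection E hW.symm)
  have hpW : ∀ v, p v ∈ W := fun v => Submodule.projection_apply_mem hW.symm v
  have hpE : ∀ v, v - p v ∈ E := fun v => Submodule.sub_projection_mem hW.symm v
  have hp0 : ∀ v, p v = 0 → v ∈ E := fun v hv => by have := hpE v; rwa [hv, sub_zero] at this
  choose r hr using fun n : ℕ => hcon (1 / ((n : ℝ) + 1)) (by positivity)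
  have hr0 : Tendsto r atTop (𝓝 0) := by
    refine squeeze_zero_norm (fun n => (hr n).2.1.le) tendsto_one_div_add_atTop_nhds_zero_nat
  have hw0 : Tendsto (fun n => p (r n)) atTop (𝓝 0) := by
    have := (p.continuous.tendsto 0).comp hr0
    rwa [map_zero] at this
  have hwne : ∀ n, p (r n) ≠ 0 := fun n h => (hr n).2.2 (hp0 _ h)
  have hwR : ∀ n, p (r n) ∈ R := fun n => by
    have h1 := R.sub_mem (hr n).1 (hER _ (hpE (r n)))
    rwa [sub_sub_cancel] at h1
  have hsph : ∀ n, (‖p (r n)‖⁻¹) • p (r n) ∈ sphere (0 : V) 1 := fun n => by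
    rw [mem_sphere_zero_iff_norm, norm_smul, norm_inv, norm_norm, inv_mul_cancel₀ (norm_ne_zero_iff.2 (hwne n))]
  obtain ⟨w, hw, φ, hφ, hlim⟩ := (isCompact_sphere (0 : V) 1).tendsto_subseq hsph
  have hwW : w ∈ W := by
    refine (W.closed_of_finiteDimensional).mem_of_tendsto hlim (Eventually.of_forall fun n => ?_)
    exact W.smul_mem _ (hpW _)
  have hwE : w ∈ E := by
    rw [hE]
    intro t
    -- `⌊t / ‖p r‖⌋ • p r → t • w`
    have h1 : Tendsto (fun n => (⌊t / ‖p (r (φ n))‖⌋ : ℤ) • p (r (φ n))) atTop (𝓝 (t • w)) := by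
      have h2 : Tendsto (fun n => t • ((‖p (r (φ n))‖⁻¹) • p (r (φ n)))) atTop (𝓝 (t • w)) := hlim.const_smul t
      have h3 : Tendsto (fun n => Int.fract (t / ‖p (r (φ n))‖) • p (r (φ n))) atTop (𝓝 0) := by
        have h4 : Tendsto (fun n => p (r (φ n))) atTop (𝓝 0) := hw0.comp hφ.tendsto_atTop
        refine squeeze_zero_norm (fun n => ?_) (tendsto_zero_iff_norm_tendsto_zero.1 h4)
        rw [norm_smul]
        have h5 : ‖Int.fract (t / ‖p (r (φ n))‖)‖ ≤ 1 := by
          rw [Real.norm_eq_abs, abs_of_nonneg (Int.fract_nonneg _)]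
          exact (Int.fract_lt_one _).le
        exact mul_le_of_le_one_left (norm_nonneg _) h5
      have h6 := h2.sub h3
      rw [sub_zero] at h6
      refine h6.congr fun n => ?_
      rw [smul_smul, ← sub_smul, ← Int.cast_smul_eq_zsmul ℝ, ← div_eq_mul_inv, Int.self_sub_fract]
    refine hR.mem_of_tendsto h1 (Eventually.of_forall fun n => R.zsmul_mem (hwR _) _)
  have hw1 : w = 0 := by
    have := Submodule.disjoint_def.1 hW.disjoint w hwE hwW
    exact this
  rw [mem_sphere_zero_iff_norm, hw1, norm_zero] at hw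
  exact zero_ne_one hw

theorem exists_toE (hΛ : Lat Λ) (a : Vd (k + 1)) : ∃ E : Submodule ℝ (Vd (k + 1)), ToE Λ a E := by
  let L : AddSubgroup (Vd (k + 1)) :=
    { carrier := {v | ∃ l ∈ Λ, ∃ z : ℂ, v = l + z • a}
      add_mem' := by
        rintro _ _ ⟨l, hl, z, rfl⟩ ⟨l', hl', z', rfl⟩
        exact ⟨l + l', Λ.add_mem hl hl', z + z', by rw [add_smul]; abel⟩
      zero_mem' := ⟨0, Λ.zero_mem, 0, by rw [zero_smul, add_zero]⟩
      neg_mem' := by
        rintro _ ⟨l, hl, z, rfl⟩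
        exact ⟨-l, Λ.neg_mem hl, -z, by rw [neg_smul]; abel⟩ }
  have hL : ∀ v, v ∈ L ↔ ∃ l ∈ Λ, ∃ z : ℂ, v = l + z • a := fun v => Iff.rfl
  obtain ⟨E, hE, ε₀, hε₀, hsh⟩ := closed_short L.topologicalClosure L.isClosed_topologicalClosure
  have hLR : ∀ v ∈ L, v ∈ L.topologicalClosure := fun v hv => L.le_topologicalClosure hv
  have hER : ∀ v ∈ E, v ∈ L.topologicalClosure := fun v hv => by have := (hE v).1 hv 1; rwa [one_smul] at this
  have hΛR : ∀ l ∈ Λ, l ∈ L.topologicalClosure := fun l hl => hLR l ⟨l, hl, 0, by rw [zero_smul, add_zero]⟩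
  have hmem : ∀ z : ℂ, z • a ∈ E := fun z => by
    rw [hE]
    intro t
    exact hLR _ ⟨0, Λ.zero_mem, (t : ℂ) * z, by rw [zero_add, mul_smul]; rfl⟩
  refine ⟨E, hmem, ?_, ?_⟩
  · -- compactness
    obtain ⟨R₀, hR₀, hR⟩ := hΛ.cpt
    by_contra hcon
    push Not at hcon
    choose v hv using fun n : ℕ => hcon ((n : ℝ) + 1) (by positivity)
    choose l hl using fun n : ℕ => hR (v n)
    have hb : ∀ n, v n - l n ∈ closedBall (0 : Vd (k + 1)) R₀ := fun n => by
      rw [mem_closedBall_zero_iff]; exact (hl n).2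
    obtain ⟨w, hw, φ, hφ, hlim⟩ := (isCompact_closedBall (0 : Vd (k + 1)) R₀).tendsto_subseq hb
    have hev : ∀ᶠ n in atTop, ‖(v (φ n) - l (φ n)) - w‖ < ε₀ / 2 := by
      have := (Metric.tendsto_nhds.1 hlim) (ε₀ / 2) (by positivity)
      filter_upwards [this] with n hn
      rwa [dist_eq_norm] at hn
    obtain ⟨m, hm⟩ := eventually_atTop.1 hev
    have hlE : ∀ n, m ≤ n → l (φ n) - l (φ m) ∈ E := by
      intro n hn
      have h1 : ‖(v (φ n) - l (φ n)) - (v (φ m) - l (φ m))‖ < ε₀ := by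
        have h2 := hm n hn
        have h3 := hm m le_rfl
        calc ‖(v (φ n) - l (φ n)) - (v (φ m) - l (φ m))‖
            = ‖((v (φ n) - l (φ n)) - w) - ((v (φ m) - l (φ m)) - w)‖ := by rw [sub_sub_sub_cancel_right]
          _ ≤ ‖(v (φ n) - l (φ n)) - w‖ + ‖(v (φ m) - l (φ m)) - w‖ := norm_sub_le _ _
          _ < ε₀ := by linarith
      have h4 : (v (φ n) - l (φ n)) - (v (φ m) - l (φ m)) ∈ E := by
        refine hsh _ ?_ h1
        exact AddSubgroup.sub_mem _ (AddSubgroup.sub_mem _ (hER _ (hv _).1) (hΛR _ (hl _).1))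
          (AddSubgroup.sub_mem _ (hER _ (hv _).1) (hΛR _ (hl _).1))
      have h5 := E.sub_mem (E.sub_mem (hv (φ n)).1 (hv (φ m)).1) h4
      have h6 : v (φ n) - v (φ m) - (v (φ n) - l (φ n) - (v (φ m) - l (φ m))) = l (φ n) - l (φ m) := by abel
      rwa [h6] at h5
    obtain ⟨n, hn⟩ := exists_nat_ge (R₀ + ‖l (φ m)‖)
    have h7 := (hv (φ (max n m))).2 (l (φ (max n m)) - l (φ m)) (Λ.sub_mem (hl _).1 (hl _).1) (hlE _ (le_max_right _ _))
    have h8 : ‖v (φ (max n m)) - (l (φ (max n m)) - l (φ m))‖ ≤ R₀ + ‖l (φ m)‖ := by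
      calc ‖v (φ (max n m)) - (l (φ (max n m)) - l (φ m))‖ = ‖(v (φ (max n m)) - l (φ (max n m))) + l (φ m)‖ := by congr 1; abel
        _ ≤ ‖v (φ (max n m)) - l (φ (max n m))‖ + ‖l (φ m)‖ := norm_add_le _ _
        _ ≤ R₀ + ‖l (φ m)‖ := by linarith [(hl (φ (max n m))).2]
    have h9 : (n : ℝ) ≤ (φ (max n m) : ℝ) := by
      exact_mod_cast (le_max_left n m).trans (hφ.id_le _)
    linarith
  · intro v hv ε hε
    have hvR := hER v hv
    have hcl : v ∈ closure (L : Set (Vd (k + 1))) := hvR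
    obtain ⟨x, hx, hd⟩ := Metric.mem_closure_iff.1 hcl (min ε ε₀) (lt_min hε hε₀)
    obtain ⟨l, hl, z, rfl⟩ := (hL x).1 hx
    rw [dist_eq_norm] at hd
    have h1 : v - (l + z • a) ∈ E := hsh _ (AddSubgroup.sub_mem _ hvR (hLR _ hx)) (hd.trans_le (min_le_right _ _))
    have h2 := E.sub_mem (E.sub_mem hv h1) (hmem z)
    have h3 : v - (v - (l + z • a)) - z • a = l := by abel
    rw [h3] at h2
    exact ⟨l, hl, h2, z, hd.le.trans (min_le_left _ _)⟩

/-- in dimension `2` the real closure has dimension `3` or `4` -/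
theorem toE_cases {Λ : AddSubgroup (Vd (1 + 1))} {D Bad : Set (Vd (1 + 1))} {a : Vd (1 + 1)} (h : LG Λ D Bad a) {E : Submodule ℝ (Vd (1 + 1))} (hE : ToE Λ a E) :
    (∃ ν : Vd (1 + 1), (∀ v : Vd (1 + 1), ∃ s z : ℂ, v = s • ν + z • a) ∧ (∀ v, v ∈ E ↔ ∃ (s : ℝ) (z : ℂ), v = (s : ℂ) • ν + z • a)) ∨ E = ⊤ := by
  have ha : a ≠ 0 := fun h0 => by have := h.norm; rw [h0, norm_zero] at this; exact zero_ne_one this
  obtain ⟨ω, hω, hrk⟩ := h.rank
  -- a vector of `E` outside `ℂ a`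
  have hex : ∃ ν ∈ E, ∀ z : ℂ, ν ≠ z • a := by
    by_contra hcon
    push Not at hcon
    obtain ⟨R, hR, hcpt⟩ := hE.cpt
    obtain ⟨l, hl, hlE, hd⟩ := hcpt ((((R + 1 : ℝ) : ℂ) * Complex.I * ω) • a) (hE.mem _)
    obtain ⟨z, rfl⟩ := hcon l hlE
    have h1 := hrk z hl
    rw [← sub_smul, norm_smul, h.norm, mul_one] at hd
    have h2 : ‖(starRingEnd ℂ) ω * (((R + 1 : ℝ) : ℂ) * Complex.I * ω - z)‖ ≤ R := by
      rw [norm_mul, RCLike.norm_conj, hω, one_mul]; exact hd
    have h3 : (starRingEnd ℂ) ω * (((R + 1 : ℝ) : ℂ) * Complex.I * ω - z) = ((R + 1 : ℝ) : ℂ) * Complex.I - (starRingEnd ℂ) ω * z := by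
      have h4 : (starRingEnd ℂ) ω * ω = 1 := by
        rw [mul_comm, Complex.mul_conj, Complex.normSq_eq_norm_sq, hω]; simp
      calc (starRingEnd ℂ) ω * (((R + 1 : ℝ) : ℂ) * Complex.I * ω - z)
          = ((R + 1 : ℝ) : ℂ) * Complex.I * ((starRingEnd ℂ) ω * ω) - (starRingEnd ℂ) ω * z := by ring
        _ = _ := by rw [h4, mul_one]
    rw [h3] at h2
    have h5 := (Complex.abs_im_le_norm _).trans h2
    rw [Complex.sub_im, h1, sub_zero] at h5
    have h6 : (((R + 1 : ℝ) : ℂ) * Complex.I).im = R + 1 := by simp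
    rw [h6, abs_of_pos (by linarith)] at h5
    linarith
  obtain ⟨ν, hνE, hν⟩ := hex
  have hdet : ν 0 * a 1 - ν 1 * a 0 ≠ 0 := by
    intro hd
    have hd' : ν 0 * a 1 = ν 1 * a 0 := sub_eq_zero.1 hd
    rcases eq_or_ne (a 0) 0 with h0 | h0
    · have h1 : a 1 ≠ 0 := fun h1 => ha (by funext i; fin_cases i <;> simpa using by assumption)
      refine hν (ν 1 / a 1) ?_
      funext i
      fin_cases i
      · have : ν 0 = 0 := by
          rw [h0, mul_zero] at hd'
          exact (mul_eq_zero.1 hd').resolve_right h1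
        simp [this, h0]
      · simp [h1]
    · refine hν (ν 0 / a 0) ?_
      funext i
      fin_cases i
      · simp [h0]
      · have : ν 1 = ν 0 / a 0 * a 1 := by field_simp; exact hd'.symm
        simpa using this
  have hbas : ∀ v : Vd (1 + 1), ∃ s z : ℂ, v = s • ν + z • a := by
    intro v
    refine ⟨(v 0 * a 1 - v 1 * a 0) / (ν 0 * a 1 - ν 1 * a 0), (ν 0 * v 1 - ν 1 * v 0) / (ν 0 * a 1 - ν 1 * a 0), ?_⟩
    funext i
    fin_cases i
    · show v 0 = _ * ν 0 + _ * a 0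
      rw [div_mul_eq_mul_div, div_mul_eq_mul_div, ← add_div, eq_div_iff hdet]
      ring
    · show v 1 = _ * ν 1 + _ * a 1
      rw [div_mul_eq_mul_div, div_mul_eq_mul_div, ← add_div, eq_div_iff hdet]
      ring
  by_cases hall : ∀ v, v ∈ E → ∃ (s : ℝ) (z : ℂ), v = (s : ℂ) • ν + z • a
  · left
    refine ⟨ν, hbas, fun v => ⟨hall v, ?_⟩⟩
    rintro ⟨s, z, rfl⟩
    refine E.add_mem ?_ (hE.mem z)
    exact E.smul_mem s hνE
  · right
    push Not at hall
    obtain ⟨v, hvE, hv⟩ := hall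
    obtain ⟨s, z, rfl⟩ := hbas v
    have hs : s.im ≠ 0 := by
      intro h0
      refine hv s.re z ?_
      have : s = (s.re : ℂ) := by apply Complex.ext <;> simp [h0]
      rw [← this]
    have h1 : s • ν ∈ E := by
      have := E.sub_mem hvE (hE.mem z)
      rwa [add_sub_cancel_right] at this
    have h2 : (Complex.I) • ν ∈ E := by
      have h3 := E.smul_mem (s.im⁻¹) (E.sub_mem h1 (E.smul_mem s.re hνE))
      have h4 : s.im⁻¹ • (s • ν - s.re • ν) = (Complex.I) • ν := by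
        have h5 : s = (s.re : ℂ) + (s.im : ℂ) * Complex.I := (Complex.re_add_im s).symm
        have h6 : (s.im : ℂ) ≠ 0 := by exact_mod_cast hs
        funext i
        simp only [Pi.smul_apply, Pi.sub_apply, smul_eq_mul, Complex.real_smul, Complex.ofReal_inv]
        rw [inv_mul_eq_iff_eq_mul₀ h6]
        linear_combination (ν i) * h5
      rwa [h4] at h3
    rw [eq_top_iff]
    intro x _
    obtain ⟨s', z', rfl⟩ := hbas x
    refine E.add_mem ?_ (hE.mem z')
    have h5 := E.add_mem (E.smul_mem s'.re hνE) (E.smul_mem s'.im h2)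
    have h6 : s'.re • ν + s'.im • (Complex.I • ν) = s' • ν := by
      have h7 : s' = (s'.re : ℂ) + (s'.im : ℂ) * Complex.I := (Complex.re_add_im s').symm
      funext i
      simp only [Pi.smul_apply, Pi.add_apply, smul_eq_mul, Complex.real_smul]
      linear_combination (-ν i) * h7
    rwa [h6] at h5

end Pool.Agent.G3.A
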