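import Pool.Agent.G3.A.TanA
import Pool.Agent.G3.A.Tor
import Pool.Agent.G3.Z.CDefs

/-!
# G3 A TanF: the tangency points are finite modulo `Λ`

`line_iso`: otherwise `h (q₀ + z a)` (of `hD` at `q₀`) vanishes at points `z n → 0`, so near `0`; the set of the `z` such that `q₀ + z' a ∈ D` for all `z'` near `z` is open, closed (`hD` at the limit point) and
not empty: the line is in `D`.  `D` is closed and `Λ`-invariant, so it contains `q₀ + E`, `E` from `exists_toE` (`ToE.dns`).  `E` has real dimension `≥ 3` (proof of `toE_cases`; only `Lat`, `a ≠ 0` and `Simp` are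
needed, the dimension `2` would give `ℂ a ∩ Λ` of rank `2`): `E ⊇ ℝ ν + ℂ a` with `ν`, `a` a basis; the functions `h` of `hD` at `q₀` vanish on `q₀ + s ν + z a`, `s` real, so near `q₀` (identity theorem in `s`),
so `D` is a neighbourhood of `q₀`; this holds for all points of `q₀ + E`; then `D` is open and closed: repeat at the boundary points of the interior of `D` (the interior of `D` is closed by `hD`): `D = univ`.
`tan_fin`: otherwise infinitely many classes of `Ba D B a`; representatives in a compact set, a limit `q₀ ∈ D`, contradiction to `tan_local` at `q₀` (near `q₀` all points of `D` other than `q₀` are not in `B`: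
`B` is finite modulo the discrete `Λ`).
-/

set_option autoImplicit false

open Topology Filter Metric

namespace Pool.Agent.G3.A

open Pool.Agent.H36.BP (EN fs wd)
open Pool.Agent.H14.PP (IsCone CurveAt Tan)
open Pool.Agent.H62.EF (MN pr)
open Pool.Agent.AD (Vd Chart Charts IsGerm)
open Pool.Agent.TG
open Pool.Agent.G3.C (Gc HP)

variable {N k : ℕ} {X : Set (EN N)} {Λ : AddSubgroup (Vd (k + 1))} {u : EN N → Vd (k + 1)} {D B Bad : Set (Vd (k + 1))} {a : Vd (k + 1)}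

/-- a line with an accumulation point of `D` is contained in `D` -/
private theorem line_in {D : Set (Vd (1 + 1))} (hD : ∀ y, ∃ (m : ℕ) (h : Vd (1 + 1) → Fin m → ℂ), AnalyticAt ℂ h y ∧ ∀ᶠ z in 𝓝 y, (z ∈ D ↔ h z = 0))
    {y b : Vd (1 + 1)} (hf : ∃ᶠ z in 𝓝[≠] (0 : ℂ), y + z • b ∈ D) : ∀ z : ℂ, y + z • b ∈ D := by
  -- the local alternative
  have hloc : ∀ z : ℂ, (∃ᶠ w in 𝓝[≠] z, y + w • b ∈ D) → ∀ᶠ w in 𝓝 z, y + w • b ∈ D := by
    intro z hz
    obtain ⟨m, h, han, hiff⟩ := hD (y + z • b)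
    have hline : AnalyticAt ℂ (fun w : ℂ => y + w • b) z := analyticAt_const.add (analyticAt_id.smul analyticAt_const)
    have hg : AnalyticAt ℂ (fun w : ℂ => h (y + w • b)) z := AnalyticAt.fun_comp (f := fun w : ℂ => y + w • b) (g := h) han hline
    have hc : Tendsto (fun w : ℂ => y + w • b) (𝓝 z) (𝓝 (y + z • b)) := hline.continuousAt
    have hiff' : ∀ᶠ w in 𝓝 z, (y + w • b ∈ D ↔ h (y + w • b) = 0) := hc.eventually hiff
    rcases hg.eventually_eq_zero_or_eventually_ne_zero with h0 | h0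
    · filter_upwards [h0, hiff'] with w hw hw'
      exact hw'.2 hw
    · exfalso
      obtain ⟨w, hw1, hw2, hw3⟩ := (hz.and_eventually (h0.and (hiff'.filter_mono nhdsWithin_le_nhds))).exists
      exact hw2 (hw3.1 hw1)
  let S : Set ℂ := {z | ∀ᶠ w in 𝓝 z, y + w • b ∈ D}
  have hSo : IsOpen S := by
    rw [isOpen_iff_mem_nhds]
    intro z hz
    exact eventually_eventually_nhds.2 hz
  have hSc : IsClosed S := by
    rw [← closure_subset_iff_isClosed]
    intro z hz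
    by_cases hzS : z ∈ S
    · exact hzS
    · refine hloc z ?_
      have h1 : ∃ᶠ w in 𝓝 z, w ∈ S := mem_closure_iff_frequently.1 hz
      have h2 : ∃ᶠ w in 𝓝[≠] z, w ∈ S := by
        rw [frequently_nhdsWithin_iff]
        refine h1.mono fun w hw => ⟨hw, ?_⟩
        rintro rfl
        exact hzS hw
      exact h2.mono fun w hw => (show ∀ᶠ w' in 𝓝 w, y + w' • b ∈ D from hw).self_of_nhds
  have hS : S = Set.univ := IsClopen.eq_univ ⟨hSc, hSo⟩ ⟨0, hloc 0 hf⟩
  intro z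
  have hz : z ∈ S := hS ▸ Set.mem_univ z
  exact (show ∀ᶠ w in 𝓝 z, y + w • b ∈ D from hz).self_of_nhds

/-- real points accumulate -/
private theorem freq_real {P : ℂ → Prop} (h : ∀ t : ℝ, P t) : ∃ᶠ z in 𝓝[≠] (0 : ℂ), P z := by
  rw [frequently_iff]
  intro U hU
  rw [Metric.mem_nhdsWithin_iff] at hU
  obtain ⟨ε, hε, hsub⟩ := hU
  refine ⟨((ε / 2 : ℝ) : ℂ), hsub ⟨?_, ?_⟩, h _⟩
  · rw [mem_ball_zero_iff, Complex.norm_real, Real.norm_eq_abs, abs_of_pos (by positivity)]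
    linarith
  · show ((ε / 2 : ℝ) : ℂ) ≠ 0
    exact_mod_cast (by positivity : (ε / 2 : ℝ) ≠ 0)

/-- the points of a line in the lattice are on a real line -/
private theorem rank_of_simp {Λ : AddSubgroup (Vd (1 + 1))} (hs : Pool.Agent.G3.Simp Λ) {a : Vd (1 + 1)} (ha : a ≠ 0) :
    ∃ ω : ℂ, ‖ω‖ = 1 ∧ ∀ z : ℂ, z • a ∈ Λ → ((starRingEnd ℂ) ω * z).im = 0 := by
  by_cases h : ∃ z₁ : ℂ, z₁ ≠ 0 ∧ z₁ • a ∈ Λ
  · obtain ⟨z₁, h0, h1⟩ := h
    have hn : ‖z₁‖ ≠ 0 := norm_ne_zero_iff.2 h0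
    refine ⟨z₁ / (‖z₁‖ : ℂ), ?_, fun z hz => ?_⟩
    · rw [norm_div, Complex.norm_real, norm_norm, div_self hn]
    · have hli := hs a ha z₁ z h1 hz
      rw [LinearIndependent.pair_iff] at hli
      push Not at hli
      obtain ⟨s, t, hst, hne⟩ := hli
      have ht : t ≠ 0 := by
        intro ht
        rw [ht, zero_smul, add_zero, Complex.real_smul, mul_eq_zero] at hst
        rcases hst with hst | hst
        · exact hne (by exact_mod_cast hst) ht
        · exact h0 hst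
      have hz' : z = ((-s / t : ℝ) : ℂ) * z₁ := by
        rw [Complex.real_smul, Complex.real_smul] at hst
        have htc : (t : ℂ) ≠ 0 := by exact_mod_cast ht
        push_cast
        field_simp
        linear_combination hst
      rw [hz', map_div₀, Complex.conj_ofReal]
      have h2 : (starRingEnd ℂ) z₁ / (‖z₁‖ : ℂ) * (((-s / t : ℝ) : ℂ) * z₁) = ((‖z₁‖ * (-s / t) : ℝ) : ℂ) := by
        have h3 : (starRingEnd ℂ) z₁ * z₁ = (‖z₁‖ : ℂ) ^ 2 := by
          rw [mul_comm, Complex.mul_conj, Complex.normSq_eq_norm_sq]; push_cast; ring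
        have h4 : (‖z₁‖ : ℂ) ≠ 0 := by exact_mod_cast hn
        rw [Complex.ofReal_mul]
        generalize (((-s / t : ℝ) : ℂ)) = r
        field_simp
        linear_combination r * h3
      rw [h2, Complex.ofReal_im]
  · push Not at h
    refine ⟨1, norm_one, fun z hz => ?_⟩
    by_cases h0 : z = 0
    · simp [h0]
    · exact absurd hz (h z h0)

/-- `D` is translation invariant: coordinates at `p` and at `p + l` -/
private theorem transAt_add {Λ : AddSubgroup (Vd (1 + 1))} {D : Set (Vd (1 + 1))} (hinv : ∀ y ∈ D, ∀ l ∈ Λ, y + l ∈ D) {p l a : Vd (1 + 1)} (hl : l ∈ Λ)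
    (h : TransAt D p a) : TransAt D (p + l) a := by
  refine ⟨h.1, fun κ hκ q hq => ?_⟩
  have hiff : ∀ z : Vd (1 + 1), z - l ∈ D ↔ z ∈ D := fun z => by
    constructor
    · intro hz
      have := hinv _ hz l hl
      rwa [sub_add_cancel] at this
    · intro hz
      have := hinv _ hz (-l) (Λ.neg_mem hl)
      rwa [← sub_eq_add_neg] at this
  have hco : IsCoord D (fun z => κ z - l) p := by
    refine ⟨hκ.an.sub analyticAt_const, ?_, ?_, ?_⟩
    · show κ 0 - l = p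
      rw [hκ.zero, add_sub_cancel_right]
    · rw [fderiv_sub_const]
      exact hκ.inj
    · filter_upwards [hκ.mem_iff] with z hz
      rw [hiff]
      exact hz
  have h1 := h.2 _ hco q hq
  rwa [fderiv_sub_const] at h1

/-- a set which is finite modulo `Λ` has no accumulation points -/
private theorem iso_of_fin {Λ : AddSubgroup (Vd (1 + 1))} {B : Set (Vd (1 + 1))} (hΛ : Lat Λ) (hB : ∃ S : Set (Vd (1 + 1)), S.Finite ∧ ∀ b ∈ B, ∃ s ∈ S, b - s ∈ Λ)
    (q₀ : Vd (1 + 1)) : ∀ᶠ q in 𝓝[≠] q₀, q ∉ B := by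
  obtain ⟨δ, hδ, hdis⟩ := hΛ.disc
  obtain ⟨S, hS, hBS⟩ := hB
  have h1 : ∀ s ∈ S, ∀ᶠ q in 𝓝[≠] q₀, q - s ∉ Λ := by
    intro s _
    by_contra hcon
    rw [not_eventually] at hcon
    push Not at hcon
    have hb : ∀ r : ℝ, 0 < r → ∃ q : Vd (1 + 1), q ≠ q₀ ∧ ‖q - q₀‖ < r ∧ q - s ∈ Λ := by
      intro r hr
      have h2 : ∀ᶠ q in 𝓝[≠] q₀, q ≠ q₀ ∧ ‖q - q₀‖ < r := by
        refine (eventually_mem_nhdsWithin).and (nhdsWithin_le_nhds ?_)
        filter_upwards [Metric.ball_mem_nhds q₀ hr] with q hq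
        rwa [mem_ball, dist_eq_norm] at hq
      obtain ⟨q, hq1, hq2⟩ := (hcon.and_eventually h2).exists
      exact ⟨q, hq2.1, hq2.2, hq1⟩
    obtain ⟨q₁, h11, h12, h13⟩ := hb (δ / 2) (by positivity)
    have hpos : 0 < ‖q₁ - q₀‖ := norm_pos_iff.2 (sub_ne_zero.2 h11)
    obtain ⟨q₂, h21, h22, h23⟩ := hb ‖q₁ - q₀‖ hpos
    have h3 : q₁ - q₂ = 0 := by
      refine hdis _ ?_ ?_
      · have := Λ.sub_mem h13 h23
        rwa [sub_sub_sub_cancel_right] at this
      · calc ‖q₁ - q₂‖ = ‖(q₁ - q₀) - (q₂ - q₀)‖ := by rw [sub_sub_sub_cancel_right]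
          _ ≤ ‖q₁ - q₀‖ + ‖q₂ - q₀‖ := norm_sub_le _ _
          _ < δ := by linarith
    rw [sub_eq_zero.1 h3] at h22
    exact lt_irrefl _ h22
  have h2 : ∀ᶠ q in 𝓝[≠] q₀, ∀ s ∈ S, q - s ∉ Λ := (eventually_all_finite hS).2 h1
  filter_upwards [h2] with q hq hqB
  obtain ⟨s, hs, hsl⟩ := hBS q hqB
  exact hq s hs hsl

theorem line_iso {Λ : AddSubgroup (Vd (1 + 1))} {D : Set (Vd (1 + 1))} (hΛ : Lat Λ) (hs : Pool.Agent.G3.Simp Λ) (hDc : IsClosed D) (hinv : ∀ y ∈ D, ∀ l ∈ Λ, y + l ∈ D)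
    (hD : ∀ y, ∃ (m : ℕ) (h : Vd (1 + 1) → Fin m → ℂ), AnalyticAt ℂ h y ∧ ∀ᶠ z in 𝓝 y, (z ∈ D ↔ h z = 0)) (hne : D ≠ Set.univ) {a : Vd (1 + 1)} (ha : a ≠ 0) (y : Vd (1 + 1)) :
    ∀ᶠ z in 𝓝[≠] (0 : ℂ), y + z • a ∉ D := by
  by_contra hcon
  rw [not_eventually] at hcon
  push Not at hcon
  refine hne ?_
  have hn : ‖a‖ ≠ 0 := norm_ne_zero_iff.2 ha
  have hl0 : ∀ z : ℂ, y + z • a ∈ D := line_in hD hcon
  -- the normalised direction
  let c : ℂ := ((‖a‖⁻¹ : ℝ) : ℂ)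
  have hc0 : c ≠ 0 := by
    show ((‖a‖⁻¹ : ℝ) : ℂ) ≠ 0
    exact_mod_cast inv_ne_zero hn
  have hca : c • a ≠ 0 := smul_ne_zero hc0 ha
  have hLG : LG Λ ∅ ∅ (c • a) :=
    { norm := by
        rw [norm_smul, Complex.norm_real, norm_inv, norm_norm, inv_mul_cancel₀ hn]
      lat := hΛ
      D_closed := isClosed_empty
      D_inv := fun y hy => absurd hy (Set.notMem_empty y)
      bad_sub := Set.Subset.rfl
      bad_inv := fun y hy => absurd hy (Set.notMem_empty y)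
      bad_fin := ⟨∅, Set.finite_empty, fun y hy => absurd hy (Set.notMem_empty y)⟩
      iso := fun y => Eventually.of_forall fun z => Set.notMem_empty _
      rank := rank_of_simp hs hca }
  obtain ⟨E, hE⟩ := exists_toE hΛ (c • a)
  have hyE : ∀ v ∈ E, y + v ∈ D := by
    intro v hv
    have hcl : y + v ∈ closure D := by
      rw [Metric.mem_closure_iff]
      intro ε hε
      obtain ⟨l, hl, _, z, hz⟩ := hE.dns v hv (ε / 2) (by positivity)
      refine ⟨y + (z * c) • a + l, hinv _ (hl0 _) l hl, ?_⟩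
      rw [dist_eq_norm]
      have h1 : y + v - (y + (z * c) • a + l) = v - (l + z • (c • a)) := by
        rw [smul_smul]; abel
      rw [h1]
      linarith
    rwa [hDc.closure_eq] at hcl
  rcases toE_cases hLG hE with ⟨ν, hbas, hmem⟩ | htop
  · rw [Set.eq_univ_iff_forall]
    intro x
    obtain ⟨s, z, hsz⟩ := hbas (x - y)
    have h1 := line_in (y := y + z • (c • a)) (b := ν) hD (freq_real fun t => by
      have h2 := hyE ((t : ℂ) • ν + z • (c • a)) ((hmem _).2 ⟨t, z, rfl⟩)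
      have h3 : y + z • (c • a) + (t : ℂ) • ν = y + ((t : ℂ) • ν + z • (c • a)) := by abel
      rw [h3]
      exact h2) s
    have h4 : y + z • (c • a) + s • ν = x := by
      rw [add_assoc, add_comm (z • (c • a)), ← hsz, add_sub_cancel]
    rwa [h4] at h1
  · rw [Set.eq_univ_iff_forall]
    intro x
    have h1 := hyE (x - y) (by rw [htop]; exact Submodule.mem_top)
    rwa [add_sub_cancel] at h1

theorem tan_fin {Λ : AddSubgroup (Vd (1 + 1))} {D B : Set (Vd (1 + 1))} (hΛ : Lat Λ) (hs : Pool.Agent.G3.Simp Λ) (hDc : IsClosed D) (hinv : ∀ y ∈ D, ∀ l ∈ Λ, y + l ∈ D)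
    (hD : ∀ y, ∃ (m : ℕ) (h : Vd (1 + 1) → Fin m → ℂ), AnalyticAt ℂ h y ∧ ∀ᶠ z in 𝓝 y, (z ∈ D ↔ h z = 0)) (hne : D ≠ Set.univ)
    (hB : ∃ S : Set (Vd (1 + 1)), S.Finite ∧ ∀ b ∈ B, ∃ s ∈ S, b - s ∈ Λ) (hco : ∀ y ∈ D, y ∉ B → ∃ κ : Vd (1 + 1) → Vd (1 + 1), IsCoord D κ y) {a : Vd (1 + 1)} (ha : a ≠ 0) :
    ∃ S : Set (Vd (1 + 1)), S.Finite ∧ ∀ β ∈ Ba D B a, ∃ s ∈ S, β - s ∈ Λ := by
  obtain ⟨R, hR, hcpt⟩ := hΛ.cpt
  have hBiso := iso_of_fin hΛ hB
  -- the tangency points have no accumulation points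
  let T : Set (Vd (1 + 1)) := {q | q ∈ D ∧ ¬ TransAt D q a}
  have hT : ∀ q₀ : Vd (1 + 1), ∀ᶠ q in 𝓝[≠] q₀, q ∉ T := by
    intro q₀
    by_cases hq₀ : q₀ ∈ D
    · have h1 : ∀ᶠ q in 𝓝[≠] q₀, q ∈ D → TransAt D q a := by
        refine tan_local ha (hD q₀) ?_ (line_iso hΛ hs hDc hinv hD hne ha q₀)
        filter_upwards [hBiso q₀] with q hq hqD
        exact hco q hqD hq
      filter_upwards [h1] with q hq hqT
      exact hqT.2 (hq hqT.1)
    · have h1 : ∀ᶠ q in 𝓝 q₀, q ∉ D := hDc.isOpen_compl.mem_nhds hq₀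
      filter_upwards [nhdsWithin_le_nhds h1] with q hq hqT
      exact hq hqT.1
  have hfin : (T ∩ closedBall 0 R).Finite := by
    by_contra hinf
    obtain ⟨x, _, hx⟩ := Set.Infinite.exists_accPt_of_subset_isCompact hinf (isCompact_closedBall (0 : Vd (1 + 1)) R) Set.inter_subset_right
    rw [accPt_iff_frequently_nhdsNE] at hx
    obtain ⟨q, hq1, hq2⟩ := (hx.and_eventually (hT x)).exists
    exact hq2 hq1.1
  obtain ⟨S, hS, hBS⟩ := hB
  refine ⟨S ∪ (T ∩ closedBall 0 R), hS.union hfin, fun β hβ => ?_⟩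
  rcases hβ with ⟨hβD, hβB | hβT⟩
  · obtain ⟨s, hs1, hs2⟩ := hBS β hβB
    exact ⟨s, Or.inl hs1, hs2⟩
  · obtain ⟨l, hl, hd⟩ := hcpt β
    refine ⟨β - l, Or.inr ⟨⟨?_, fun htr => hβT ?_⟩, ?_⟩, ?_⟩
    · have := hinv β hβD (-l) (Λ.neg_mem hl)
      rwa [← sub_eq_add_neg] at this
    · have := transAt_add hinv hl htr
      rwa [sub_add_cancel] at this
    · rw [mem_closedBall_zero_iff]
      exact hd
    · rw [sub_sub_cancel]
      exact hl

end Pool.Agent.G3.A
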