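import Pool.Agent.G3.A.Defs

/-!
# G3 A Wdg: the distance of two points of the projective space and the `2 × 2` minors

`wg x y = x ∧ y` (the vector of all minors).  For unit vectors `‖pr x - pr y‖² = 2 (1 - |⟨x, y⟩|²) = ∑ |minors|²` up to a constant.
-/

set_option autoImplicit false

open Topology Filter Metric

namespace Pool.Agent.G3.A

open Pool.Agent.H36.BP (EN fs wd)
open Pool.Agent.H14.PP (IsCone CurveAt Tan)
open Pool.Agent.H62.EF (MN pr)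
open Pool.Agent.AD (Vd Chart Charts IsGerm)
open Pool.Agent.TG
open Pool.Agent.G3.C (Gc HP)

variable {N k : ℕ} {X : Set (EN N)} {Λ : AddSubgroup (Vd (k + 1))} {u : EN N → Vd (k + 1)} {D B Bad : Set (Vd (k + 1))} {a : Vd (k + 1)}

/-- the minors -/
noncomputable def wg (x y : EN N) : EuclideanSpace ℂ (Fin (N + 1) × Fin (N + 1)) := WithLp.toLp 2 fun p => x p.1 * y p.2 - x p.2 * y p.1

private theorem wg_norm_sq (x y : EN N) : ‖wg x y‖ ^ 2 = 2 * wd x y ^ 2 := by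
  rw [Pool.Agent.H62.EF.wd_sq]
  have hs : ∀ c : ℂ, ((‖c‖ ^ 2 : ℝ) : ℂ) = c * (starRingEnd ℂ) c := by
    intro c
    rw [Complex.mul_conj']
    push_cast
    rfl
  have hn : ∀ v : EN N, ((‖v‖ ^ 2 : ℝ) : ℂ) = ∑ i, v i * (starRingEnd ℂ) (v i) := by
    intro v
    rw [EuclideanSpace.norm_sq_eq, Complex.ofReal_sum]
    exact Finset.sum_congr rfl fun i _ => hs _
  have hi : (inner ℂ x y : ℂ) = ∑ i, (starRingEnd ℂ) (x i) * y i := by
    rw [PiLp.inner_apply]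
    refine Finset.sum_congr rfl fun i _ => ?_
    rw [RCLike.inner_apply]
    ring
  have hS : ((‖x‖ ^ 2 * ‖y‖ ^ 2 - ‖(inner ℂ x y : ℂ)‖ ^ 2 : ℝ) : ℂ) = ∑ i : Fin (N + 1), ∑ j : Fin (N + 1),
      (x i * (starRingEnd ℂ) (x i) * (y j * (starRingEnd ℂ) (y j)) - (starRingEnd ℂ) (x i) * y i * (x j * (starRingEnd ℂ) (y j))) := by
    rw [Complex.ofReal_sub, Complex.ofReal_mul, hn x, hn y, hs, hi, map_sum, Finset.sum_mul_sum, Finset.sum_mul_sum,
      ← Finset.sum_sub_distrib]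
    refine Finset.sum_congr rfl fun i _ => ?_
    rw [← Finset.sum_sub_distrib]
    refine Finset.sum_congr rfl fun j _ => ?_
    rw [map_mul, Complex.conj_conj]
  have hS' : ((‖x‖ ^ 2 * ‖y‖ ^ 2 - ‖(inner ℂ x y : ℂ)‖ ^ 2 : ℝ) : ℂ) = ∑ i : Fin (N + 1), ∑ j : Fin (N + 1),
      (x j * (starRingEnd ℂ) (x j) * (y i * (starRingEnd ℂ) (y i)) - (starRingEnd ℂ) (x j) * y j * (x i * (starRingEnd ℂ) (y i))) := by
    rw [hS, Finset.sum_comm]
  have h1 : ((‖wg x y‖ ^ 2 : ℝ) : ℂ) = ((2 * (‖x‖ ^ 2 * ‖y‖ ^ 2 - ‖(inner ℂ x y : ℂ)‖ ^ 2) : ℝ) : ℂ) := by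
    rw [two_mul, Complex.ofReal_add]
    nth_rewrite 1 [hS]
    rw [hS', EuclideanSpace.norm_sq_eq, Complex.ofReal_sum, Fintype.sum_prod_type, ← Finset.sum_add_distrib]
    refine Finset.sum_congr rfl fun i _ => ?_
    rw [← Finset.sum_add_distrib]
    refine Finset.sum_congr rfl fun j _ => ?_
    rw [hs]
    simp only [wg, map_sub, map_mul]
    ring
  exact_mod_cast h1

private theorem wg_norm {x y : EN N} (hx : x ≠ 0) (hy : y ≠ 0) : dist (pr x) (pr y) * ‖x‖ * ‖y‖ = ‖wg x y‖ := by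
  have h0 : ‖x‖ ≠ 0 := norm_ne_zero_iff.mpr hx
  have h0' : ‖y‖ ≠ 0 := norm_ne_zero_iff.mpr hy
  have h1 : (0 : ℝ) ≤ wd x y := Real.sqrt_nonneg _
  have h2 : dist (pr x) (pr y) * ‖x‖ * ‖y‖ = Real.sqrt 2 * wd x y := by
    rw [Pool.Agent.H62.EF.dist_pr hx hy]
    field_simp
  rw [h2]
  refine (pow_left_inj₀ (by positivity) (norm_nonneg _) two_ne_zero).mp ?_
  rw [wg_norm_sq, mul_pow, Real.sq_sqrt (by norm_num)]

theorem wg_dist (N : ℕ) : ∃ C : ℝ, 0 < C ∧ ∀ x y : EN N, x ≠ 0 → y ≠ 0 → ‖wg x y‖ ≤ C * dist (pr x) (pr y) * ‖x‖ * ‖y‖ ∧ dist (pr x) (pr y) * ‖x‖ * ‖y‖ ≤ C * ‖wg x y‖ := by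
  refine ⟨1, one_pos, fun x y hx hy => ?_⟩
  rw [one_mul, one_mul, wg_norm hx hy]
  exact ⟨le_rfl, le_rfl⟩

theorem wg_diff {U : Set ℂ} {F G : ℂ → EN N} (hF : DifferentiableOn ℂ F U) (hG : DifferentiableOn ℂ G U) : DifferentiableOn ℂ (fun z => wg (F z) (G z)) U := by
  have h1 : ∀ i, DifferentiableOn ℂ (fun z => F z i) U := fun i => by
    have := (EuclideanSpace.proj (𝕜 := ℂ) i).differentiable.comp_differentiableOn hF
    exact this
  have h2 : ∀ i, DifferentiableOn ℂ (fun z => G z i) U := fun i => by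
    have := (EuclideanSpace.proj (𝕜 := ℂ) i).differentiable.comp_differentiableOn hG
    exact this
  rw [differentiableOn_euclidean]
  intro p
  exact ((h1 p.1).mul (h2 p.2)).sub ((h1 p.2).mul (h2 p.1))

end Pool.Agent.G3.A
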